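import Pool.Agent.NNe.Ch
import Pool.Agent.NNe.Slots
import Pool.Agent.NNr.R11_1_2_16.K0
import Pool.Agent.NNr.R11_1_2_3.K0
import Pool.Agent.NNr.R11_1_2_3.K1
import Pool.Agent.NNr.R11_1_2_3.K2
import Pool.Agent.NNr.R11_1_2_3.K3
import Pool.Agent.NNr.R11_1_2_3.K4
import Pool.Agent.NNr.R11_1_2_3.K5
import Pool.Agent.NNr.R11_1_2_3.K6
import Pool.Agent.NNr.R11_1_2_3.K7
import Pool.Agent.NNr.R11_1_2_3.K8
import Pool.Agent.NNr.R11_1_2_3.K9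
import Pool.Agent.NNr.R11_1_2_3.K10
import Pool.Agent.NNr.R11_1_2_3.K11
import Pool.Agent.NNr.R11_1_2_3.K12
import Pool.Agent.NNr.R11_1_2_3.K13
import Pool.Agent.NNr.R11_1_2_3.K14
import Pool.Agent.NNr.R11_1_2_3.K15
import Pool.Agent.NNr.R11_1_2_3.K16
import Pool.Agent.NNr.R11_1_2_3.K17
import Pool.Agent.NNr.R11_1_2_3.K18
import Pool.Agent.NNr.R11_1_2_3.K19
import Pool.Agent.NNr.R11_1_2_3.K20
import Pool.Agent.NNr.R11_1_2_3.K21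
import Pool.Agent.NNr.R11_1_2_3.K22
import Pool.Agent.NNr.R11_1_2_3.K23
import Pool.Agent.NNr.R11_1_2_3.K24
import Pool.Agent.NNr.R11_1_2_3.K25
import Pool.Agent.NNr.R11_1_2_3.K26
import Pool.Agent.NNr.R11_1_3_8.K0
import Pool.Agent.NNr.R11_1_7_12.K0
import Pool.Agent.NNr.R11_2_3_6.K0
import Pool.Agent.NNr.R11_2_3_8.K0
import Pool.Agent.NNr.R11_2_9_10.K0
import Pool.Agent.NNr.R11_3_7_14.K0
import Pool.Agent.NNr.R11_3_7_20.K0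
import Pool.Agent.NNr.R11_4_7_9.K0
import Pool.Agent.NNr.R11_6_14_17.K0
import Pool.Agent.NNr.R13_1_6_14.K0
import Pool.Agent.NNr.R13_1_8_9.K0
import Pool.Agent.NNr.R13_2_5_7.K0
import Pool.Agent.NNr.R13_2_5_7.K1
import Pool.Agent.NNr.R13_3_4_7.K0
import Pool.Agent.NNr.R13_4_5_18.K0
import Pool.Agent.NNr.R15_1_3_8.K0
import Pool.Agent.NNr.R15_1_3_8.K1
import Pool.Agent.NNr.R15_1_3_8.K2
import Pool.Agent.NNr.R15_1_3_8.K3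
import Pool.Agent.NNr.R15_1_8_18.K0
import Pool.Agent.NNr.R15_4_7_22.K0

set_option linter.all false
set_option maxRecDepth 1000000

namespace Pool.Agent.NNr.R11_1_2_16
open Pool.Agent.NNe Pool.Agent.NNc

theorem cw0 : ∀ w < 7, wfC (nat_lit 56) (nat_lit 14) (getC CL0 w) = true :=
  (alS (alS (alS (alS (alS (alS (alS al0 wf0_0) wf0_1) wf0_2) wf0_3) wf0_4) wf0_5) wf0_6)
theorem cp : ∀ w < 7, plCk (nat_lit 56) (nat_lit 14) (nat_lit 11) (nat_lit 1) (nat_lit 0) (nat_lit 6) (nat_lit 7) (nat_lit 4) w nl0 CL0 = true :=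
  (alS (alS (alS (alS (alS (alS (alS al0 pl0_0) pl0_1) pl0_2) pl0_3) pl0_4) pl0_5) pl0_6)
theorem cs0 : ∀ w < 7, StW (nat_lit 56) (nat_lit 14) (nat_lit 2) (nat_lit 6) (getC CL0 w) :=
  (alS (alS (alS (alS (alS (alS (alS al0 (stX (nat_lit 2) (nat_lit 21) (nat_lit 256) (Rl.cons (nat_lit 21) (nat_lit 8) Rl.nil) rfl rfl sc0_0 (rlc st0_0_0 rln))) (stX (nat_lit 2) (nat_lit 58) (nat_lit 256) (Rl.cons (nat_lit 58) (nat_lit 10) Rl.nil) rfl rfl sc0_1 (rlc st0_1_0 rln))) (stX (nat_lit 1) (nat_lit 26) (nat_lit 16) (Rl.cons (nat_lit 26) (nat_lit 8) Rl.nil) rfl rfl sc0_2 (rlc st0_2_0 rln))) (stX (nat_lit 2) (nat_lit 15) (nat_lit 256) (Rl.cons (nat_lit 15) (nat_lit 5) Rl.nil) rfl rfl sc0_3 (rlc st0_3_0 rln))) (stX (nat_lit 1) (nat_lit 49) (nat_lit 16) (Rl.cons (nat_lit 49) (nat_lit 18) Rl.nil) rfl rfl sc0_4 (rlc st0_4_0 rln))) (stX (nat_lit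 0) (nat_lit 0) (nat_lit 1) Rl.nil rfl rfl sc0_5 rln)) (stX (nat_lit 2) (nat_lit 50) (nat_lit 256) (Rl.cons (nat_lit 50) (nat_lit 26) Rl.nil) rfl rfl sc0_6 (rlc st0_6_0 rln)))
theorem ct0 : TiS (nat_lit 56) (nat_lit 14) (nat_lit 1) (nat_lit 7) (nat_lit 11) (nat_lit 7) (nat_lit 1) CL0 :=
  tiS ZZ0 (alS (alS (alS (alS (alS (alS (alS al0 tc0_0) tc0_1) tc0_2) tc0_3) tc0_4) tc0_5) tc0_6)
  (zzc ⟨(nat_lit 49), zl0_0, ti0_0⟩ zzn)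
theorem cd : ∀ w < 7, deadCk (nat_lit 56) (nat_lit 14) (getC CL0 w) = true :=
  (alS (alS (alS (alS (alS (alS (alS al0 de0_0) de0_1) de0_2) de0_3) de0_4) de0_5) de0_6)
theorem rc : recCk (recP 11 (1, 2, 16) 1 0 6).W 7 CL0 = true := by decide +kernel
theorem occ (O : OccL (recP 11 (1, 2, 16) 1 0 6) (locOK (Nat.testBit 1) (Nat.testBit 0) (Nat.testBit 6))) :
    False := by
  have k := first_stage O 1 (nlOK_A (by decide) (by decide)) rfl rfl rfl rfl rc cw0 cp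
  have k := run_stage k rfl (nat_lit 2) (nat_lit 6) (nat_lit 1) (nat_lit 7) rfl cs0 ct0
  exact last_stage k rfl cd
theorem res : ∃ ok, OkP (1, 2, 16) ok ∧ IsEmpty (LTil (shP 11 (1, 2, 16) ok)) :=
  dead_P 1 0 6 (by decide +kernel) rc occ

end Pool.Agent.NNr.R11_1_2_16

namespace Pool.Agent.NNr.R11_1_2_3
open Pool.Agent.NNe Pool.Agent.NNc

theorem cw0 : ∀ w < 25, wfC (nat_lit 61) (nat_lit 5) (getC CL0 w) = true :=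
  (alS (alS (alS (alS (alS (alS (alS (alS (alS (alS (alS (alS (alS (alS (alS (alS (alS (alS (alS (alS (alS (alS (alS (alS (alS al0 wf0_0) wf0_1) wf0_2) wf0_3) wf0_4) wf0_5) wf0_6) wf0_7) wf0_8) wf0_9) wf0_10) wf0_11) wf0_12) wf0_13) wf0_14) wf0_15) wf0_16) wf0_17) wf0_18) wf0_19) wf0_20) wf0_21) wf0_22) wf0_23) wf0_24)
theorem cp : ∀ w < 25, plCk (nat_lit 61) (nat_lit 5) (nat_lit 11) (nat_lit 0) (nat_lit 1) (nat_lit 6) (nat_lit 25) (nat_lit 4) w nl0 CL0 = true :=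
  (alS (alS (alS (alS (alS (alS (alS (alS (alS (alS (alS (alS (alS (alS (alS (alS (alS (alS (alS (alS (alS (alS (alS (alS (alS al0 pl0_0) pl0_1) pl0_2) pl0_3) pl0_4) pl0_5) pl0_6) pl0_7) pl0_8) pl0_9) pl0_10) pl0_11) pl0_12) pl0_13) pl0_14) pl0_15) pl0_16) pl0_17) pl0_18) pl0_19) pl0_20) pl0_21) pl0_22) pl0_23) pl0_24)
theorem cs0 : ∀ w < 25, StW (nat_lit 61) (nat_lit 5) (nat_lit 1) (nat_lit 2) (getC CL0 w) :=
  (alS (alS (alS (alS (alS (alS (alS (alS (alS (alS (alS (alS (alS (alS (alS (alS (alS (alS (alS (alS (alS (alS (alS (alS (alS al0 (stX (nat_lit 2) (nat_lit 0) (nat_lit 256) (Rl.cons (nat_lit 0) (nat_lit 16) Rl.nil) rfl rfl sc0_0 (rlc st0_0_0 rln))) (stX (nat_lit 2) (nat_lit 49) (nat_lit 256) (Rl.cons (nat_lit 49) (nat_lit 28) Rl.nil) rfl rfl sc0_1 (rlc st0_1_0 rln))) (stX (nat_lit 1) (nat_lit 0) (nat_lit 16) (Rl.cons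 (nat_lit 0) (nat_lit 15) Rl.nil) rfl rfl sc0_2 (rlc st0_2_0 rln))) (stX (nat_lit 0) (nat_lit 25) (nat_lit 1) (Rl.cons (nat_lit 25) (nat_lit 21) Rl.nil) rfl rfl sc0_3 (rlc st0_3_0 rln))) (stX (nat_lit 0) (nat_lit 23) (nat_lit 1) (Rl.cons (nat_lit 23) (nat_lit 20) Rl.nil) rfl rfl sc0_4 (rlc st0_4_0 rln))) (stX (nat_lit 0) (nat_lit 36) (nat_lit 1) (Rl.cons (nat_lit 36) (nat_lit 31) Rl.nil) rfl rfl sc0_5 (rlc st0_5_0 rln))) (stX (nat_lit 0) (nat_lit 23) (nat_lit 1) (Rl.cons (nat_lit 23) (nat_lit 16) Rl.nil) rfl rfl sc0_6 (rlc st0_6_0 rln))) (stX (nat_lit 2) (nat_lit 47) (nat_lit 256) (Rl.cons (nat_lit 47) (nat_lit 22) Rl.nil) rfl rfl sc0_7 (rlc st0_7_0 rln))) (stX (nat_lit 2) (nat_lit 119) (nat_lit 256) (Rl.cons (nat_lit 119) (nat_lit 19) Rl.nil) rfl rfl sc0_8 (rlc st0_8_0 rln))) (stX (nat_lit 1) (nat_lit 60) (nat_lit 16)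 (Rl.cons (nat_lit 60) (nat_lit 21) Rl.nil) rfl rfl sc0_9 (rlc st0_9_0 rln))) (stX (nat_lit 0) (nat_lit 18) (nat_lit 1) (Rl.cons (nat_lit 18) (nat_lit 15) Rl.nil) rfl rfl sc0_10 (rlc st0_10_0 rln))) (stX (nat_lit 2) (nat_lit 99) (nat_lit 256) (Rl.cons (nat_lit 99) (nat_lit 17) Rl.nil) rfl rfl sc0_11 (rlc st0_11_0 rln))) (stX (nat_lit 2) (nat_lit 36) (nat_lit 256) (Rl.cons (nat_lit 36) (nat_lit 18) Rl.nil) rfl rfl sc0_12 (rlc st0_12_0 rln))) (stX (nat_lit 1) (nat_lit 25) (nat_lit 16) (Rl.cons (nat_lit 25) (nat_lit 11) Rl.nil) rfl rfl sc0_13 (rlc st0_13_0 rln))) (stX (nat_lit 1) (nat_lit 37) (nat_lit 16) (Rl.cons (nat_lit 37) (nat_lit 12) Rl.nil) rfl rfl sc0_14 (rlc st0_14_0 rln))) (stX (nat_lit 1) (nat_lit 14) (nat_lit 16) (Rl.cons (nat_lit 14) (nat_lit 5) Rl.nil) rfl rfl sc0_15 (rlc st0_15_0 rln))) (stX (nat_lit 2) (nat_lit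 13) (nat_lit 256) (Rl.cons (nat_lit 13) (nat_lit 4) Rl.nil) rfl rfl sc0_16 (rlc st0_16_0 rln))) (stX (nat_lit 1) (nat_lit 6) (nat_lit 16) (Rl.cons (nat_lit 6) (nat_lit 1) Rl.nil) rfl rfl sc0_17 (rlc st0_17_0 rln))) (stX (nat_lit 3) (nat_lit 181) (nat_lit 4096) (Rl.cons (nat_lit 181) (nat_lit 144) Rl.nil) rfl rfl sc0_18 (rlc st0_18_0 rln))) (stX (nat_lit 3) (nat_lit 125) (nat_lit 4096) (Rl.cons (nat_lit 125) (nat_lit 95) Rl.nil) rfl rfl sc0_19 (rlc st0_19_0 rln))) (stX (nat_lit 1) (nat_lit 120) (nat_lit 16) (Rl.cons (nat_lit 120) (nat_lit 50) Rl.nil) rfl rfl sc0_20 (rlc st0_20_0 rln))) (stX (nat_lit 1) (nat_lit 118) (nat_lit 16) (Rl.cons (nat_lit 118) (nat_lit 57) Rl.nil) rfl rfl sc0_21 (rlc st0_21_0 rln))) (stX (nat_lit 2) (nat_lit 120) (nat_lit 256) (Rl.cons (nat_lit 120) (nat_lit 86) Rl.nil) rfl rfl sc0_22 (rlc st0_22_0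 rln))) (stX (nat_lit 1) (nat_lit 113) (nat_lit 16) (Rl.cons (nat_lit 113) (nat_lit 38) Rl.nil) rfl rfl sc0_23 (rlc st0_23_0 rln))) (stX (nat_lit 3) (nat_lit 87) (nat_lit 4096) (Rl.cons (nat_lit 87) (nat_lit 66) Rl.nil) rfl rfl sc0_24 (rlc st0_24_0 rln)))
theorem ct0 : TiS (nat_lit 61) (nat_lit 5) (nat_lit 2) (nat_lit 2) (nat_lit 11) (nat_lit 25) (nat_lit 1) CL0 :=
  tiS ZZ0 (alS (alS (alS (alS (alS (alS (alS (alS (alS (alS (alS (alS (alS (alS (alS (alS (alS (alS (alS (alS (alS (alS (alS (alS (alS al0 tc0_0) tc0_1) tc0_2) tc0_3) tc0_4) tc0_5) tc0_6) tc0_7) tc0_8) tc0_9) tc0_10) tc0_11) tc0_12) tc0_13) tc0_14) tc0_15) tc0_16) tc0_17) tc0_18) tc0_19) tc0_20) tc0_21) tc0_22) tc0_23) tc0_24)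
  (zzc ⟨(nat_lit 479), zl0_0, ti0_0⟩ zzn)
theorem cw1 : ∀ w < 25, wfC (nat_lit 61) (nat_lit 2) (getC CL1 w) = true :=
  (alS (alS (alS (alS (alS (alS (alS (alS (alS (alS (alS (alS (alS (alS (alS (alS (alS (alS (alS (alS (alS (alS (alS (alS (alS al0 wf1_0) wf1_1) wf1_2) wf1_3) wf1_4) wf1_5) wf1_6) wf1_7) wf1_8) wf1_9) wf1_10) wf1_11) wf1_12) wf1_13) wf1_14) wf1_15) wf1_16) wf1_17) wf1_18) wf1_19) wf1_20) wf1_21) wf1_22) wf1_23) wf1_24)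
theorem cr1 : ∀ w < 25, rfCk (nat_lit 61) (nat_lit 5) (nat_lit 61) (nat_lit 2) (nat_lit 1) (nat_lit 262144) w TL1 CL0 CL1 = true :=
  (alS (alS (alS (alS (alS (alS (alS (alS (alS (alS (alS (alS (alS (alS (alS (alS (alS (alS (alS (alS (alS (alS (alS (alS (alS al0 rf1_0) rf1_1) rf1_2) rf1_3) rf1_4) rf1_5) rf1_6) rf1_7) rf1_8) rf1_9) rf1_10) rf1_11) rf1_12) rf1_13) rf1_14) rf1_15) rf1_16) rf1_17) rf1_18) rf1_19) rf1_20) rf1_21) rf1_22) rf1_23) rf1_24)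
theorem vm1 : eqVM CL0 CL1 25 = true := by decide +kernel
theorem cs1 : ∀ w < 25, StW (nat_lit 61) (nat_lit 2) (nat_lit 2) (nat_lit 0) (getC CL1 w) :=
  (alS (alS (alS (alS (alS (alS (alS (alS (alS (alS (alS (alS (alS (alS (alS (alS (alS (alS (alS (alS (alS (alS (alS (alS (alS al0 (stX (nat_lit 2) (nat_lit 0) (nat_lit 256) (Rl.cons (nat_lit 0) (nat_lit 82) Rl.nil) rfl rfl sc1_0 (rlc (starCk_zero _ _ _ _ _ _ _) rln))) (stX (nat_lit 1) (nat_lit 0) (nat_lit 16) (Rl.cons (nat_lit 0) (nat_lit 222) Rl.nil) rfl rfl sc1_1 (rlc (starCk_zero _ _ _ _ _ _ _) rln))) (stX (nat_lit 1) (nat_lit 0) (nat_lit 16) (Rl.cons (nat_lit 0) (nat_lit 66) Rl.nil) rfl rfl sc1_2 (rlc (starCk_zero _ _ _ _ _ _ _) rln))) (stX (nat_lit 0) (nat_lit 0) (nat_lit 1) (Rl.cons (nat_lit 0) (nat_lit 436) Rl.nil) rfl rfl sc1_3 (rlc (starCk_zero _ _ _ _ _ _ _) rln)))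 (stX (nat_lit 0) (nat_lit 0) (nat_lit 1) (Rl.cons (nat_lit 0) (nat_lit 404) Rl.nil) rfl rfl sc1_4 (rlc (starCk_zero _ _ _ _ _ _ _) rln))) (stX (nat_lit 0) (nat_lit 0) (nat_lit 1) (Rl.cons (nat_lit 0) (nat_lit 541) Rl.nil) rfl rfl sc1_5 (rlc (starCk_zero _ _ _ _ _ _ _) rln))) (stX (nat_lit 0) (nat_lit 0) (nat_lit 1) (Rl.cons (nat_lit 0) (nat_lit 246) Rl.nil) rfl rfl sc1_6 (rlc (starCk_zero _ _ _ _ _ _ _) rln))) (stX (nat_lit 0) (nat_lit 0) (nat_lit 1) (Rl.cons (nat_lit 0) (nat_lit 248) Rl.nil) rfl rfl sc1_7 (rlc (starCk_zero _ _ _ _ _ _ _) rln))) (stX (nat_lit 0) (nat_lit 0) (nat_lit 1) (Rl.cons (nat_lit 0) (nat_lit 400) Rl.nil) rfl rfl sc1_8 (rlc (starCk_zero _ _ _ _ _ _ _) rln))) (stX (nat_lit 0) (nat_lit 0) (nat_lit 1) (Rl.cons (nat_lit 0) (nat_lit 349) Rl.nil) rfl rfl sc1_9 (rlc (starCk_zero _ _ _ _ _ _ _) rln))) (stX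 (nat_lit 0) (nat_lit 0) (nat_lit 1) (Rl.cons (nat_lit 0) (nat_lit 160) Rl.nil) rfl rfl sc1_10 (rlc (starCk_zero _ _ _ _ _ _ _) rln))) (stX (nat_lit 0) (nat_lit 0) (nat_lit 1) (Rl.cons (nat_lit 0) (nat_lit 226) Rl.nil) rfl rfl sc1_11 (rlc (starCk_zero _ _ _ _ _ _ _) rln))) (stX (nat_lit 0) (nat_lit 0) (nat_lit 1) (Rl.cons (nat_lit 0) (nat_lit 110) Rl.nil) rfl rfl sc1_12 (rlc (starCk_zero _ _ _ _ _ _ _) rln))) (stX (nat_lit 0) (nat_lit 0) (nat_lit 1) (Rl.cons (nat_lit 0) (nat_lit 40) Rl.nil) rfl rfl sc1_13 (rlc (starCk_zero _ _ _ _ _ _ _) rln))) (stX (nat_lit 0) (nat_lit 0) (nat_lit 1) (Rl.cons (nat_lit 0) (nat_lit 34) Rl.nil) rfl rfl sc1_14 (rlc (starCk_zero _ _ _ _ _ _ _) rln))) (stX (nat_lit 0) (nat_lit 0) (nat_lit 1) Rl.nil rfl rfl sc1_15 rln)) (stX (nat_lit 0) (nat_lit 0) (nat_lit 1) Rl.nil rfl rfl sc1_16 rln)) (stX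 (nat_lit 0) (nat_lit 0) (nat_lit 1) Rl.nil rfl rfl sc1_17 rln)) (stX (nat_lit 2) (nat_lit 0) (nat_lit 256) (Rl.cons (nat_lit 0) (nat_lit 866) Rl.nil) rfl rfl sc1_18 (rlc (starCk_zero _ _ _ _ _ _ _) rln))) (stX (nat_lit 1) (nat_lit 0) (nat_lit 16) (Rl.cons (nat_lit 0) (nat_lit 504) Rl.nil) rfl rfl sc1_19 (rlc (starCk_zero _ _ _ _ _ _ _) rln))) (stX (nat_lit 0) (nat_lit 0) (nat_lit 1) (Rl.cons (nat_lit 0) (nat_lit 2058) Rl.nil) rfl rfl sc1_20 (rlc (starCk_zero _ _ _ _ _ _ _) rln))) (stX (nat_lit 0) (nat_lit 0) (nat_lit 1) (Rl.cons (nat_lit 0) (nat_lit 1172) Rl.nil) rfl rfl sc1_21 (rlc (starCk_zero _ _ _ _ _ _ _) rln))) (stX (nat_lit 0) (nat_lit 0) (nat_lit 1) (Rl.cons (nat_lit 0) (nat_lit 1344) Rl.nil) rfl rfl sc1_22 (rlc (starCk_zero _ _ _ _ _ _ _) rln))) (stX (nat_lit 0) (nat_lit 0) (nat_lit 1) (Rl.cons (nat_lit 0) (nat_lit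 926) Rl.nil) rfl rfl sc1_23 (rlc (starCk_zero _ _ _ _ _ _ _) rln))) (stX (nat_lit 0) (nat_lit 0) (nat_lit 1) (Rl.cons (nat_lit 0) (nat_lit 344) Rl.nil) rfl rfl sc1_24 (rlc (starCk_zero _ _ _ _ _ _ _) rln)))
theorem ct1 : TiS (nat_lit 61) (nat_lit 2) (nat_lit 1) (nat_lit 1) (nat_lit 11) (nat_lit 25) (nat_lit 1) CL1 :=
  tiS ZZ1 (alS (alS (alS (alS (alS (alS (alS (alS (alS (alS (alS (alS (alS (alS (alS (alS (alS (alS (alS (alS (alS (alS (alS (alS (alS al0 tc1_0) tc1_1) tc1_2) tc1_3) tc1_4) tc1_5) tc1_6) tc1_7) tc1_8) tc1_9) tc1_10) tc1_11) tc1_12) tc1_13) tc1_14) tc1_15) tc1_16) tc1_17) tc1_18) tc1_19) tc1_20) tc1_21) tc1_22) tc1_23) tc1_24)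
  (zzc ⟨(nat_lit 737), zl1_0, ti1_0⟩ (zzc ⟨(nat_lit 368), zl1_1, ti1_1⟩ (zzc ⟨(nat_lit 369), zl1_2, ti1_2⟩ zzn)))
theorem cw2 : ∀ w < 25, wfC (nat_lit 61) (nat_lit 4) (getC CL2 w) = true :=
  (alS (alS (alS (alS (alS (alS (alS (alS (alS (alS (alS (alS (alS (alS (alS (alS (alS (alS (alS (alS (alS (alS (alS (alS (alS al0 wf2_0) wf2_1) wf2_2) wf2_3) wf2_4) wf2_5) wf2_6) wf2_7) wf2_8) wf2_9) wf2_10) wf2_11) wf2_12) wf2_13) wf2_14) wf2_15) wf2_16) wf2_17) wf2_18) wf2_19) wf2_20) wf2_21) wf2_22) wf2_23) wf2_24)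
theorem cr2 : ∀ w < 25, rfCk (nat_lit 61) (nat_lit 2) (nat_lit 61) (nat_lit 4) (nat_lit 9) (nat_lit 0) w TL2 CL1 CL2 = true :=
  (alS (alS (alS (alS (alS (alS (alS (alS (alS (alS (alS (alS (alS (alS (alS (alS (alS (alS (alS (alS (alS (alS (alS (alS (alS al0 rf2_0) rf2_1) rf2_2) rf2_3) rf2_4) rf2_5) rf2_6) rf2_7) rf2_8) rf2_9) rf2_10) rf2_11) rf2_12) rf2_13) rf2_14) rf2_15) rf2_16) rf2_17) rf2_18) rf2_19) rf2_20) rf2_21) rf2_22) rf2_23) rf2_24)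
theorem vm2 : eqVM CL1 CL2 25 = true := by decide +kernel
theorem cs2 : ∀ w < 25, StW (nat_lit 61) (nat_lit 4) (nat_lit 1) (nat_lit 2) (getC CL2 w) :=
  (alS (alS (alS (alS (alS (alS (alS (alS (alS (alS (alS (alS (alS (alS (alS (alS (alS (alS (alS (alS (alS (alS (alS (alS (alS al0 (stX (nat_lit 2) (nat_lit 0) (nat_lit 256) (Rl.cons (nat_lit 0) (nat_lit 18) Rl.nil) rfl rfl sc2_0 (rlc st2_0_0 rln))) (stX (nat_lit 2) (nat_lit 49) (nat_lit 256) (Rl.cons (nat_lit 49) (nat_lit 29) Rl.nil) rfl rfl sc2_1 (rlc st2_1_0 rln))) (stX (nat_lit 1) (nat_lit 0) (nat_lit 16) (Rl.cons (nat_lit 0) (nat_lit 15) Rl.nil) rfl rfl sc2_2 (rlc st2_2_0 rln))) (stX (nat_lit 1) (nat_lit 88) (nat_lit 16) (Rl.cons (nat_lit 88) (nat_lit 26) Rl.nil) rfl rfl sc2_3 (rlc st2_3_0 rln))) (stX (nat_lit 2) (nat_lit 159) (nat_lit 256) (Rl.cons (nat_lit 159) (nat_lit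 25) Rl.nil) rfl rfl sc2_4 (rlc st2_4_0 rln))) (stX (nat_lit 2) (nat_lit 208) (nat_lit 256) (Rl.cons (nat_lit 208) (nat_lit 40) Rl.nil) rfl rfl sc2_5 (rlc st2_5_0 rln))) (stX (nat_lit 0) (nat_lit 29) (nat_lit 1) (Rl.cons (nat_lit 29) (nat_lit 35) Rl.nil) rfl rfl sc2_6 (rlc st2_6_0 rln))) (stX (nat_lit 2) (nat_lit 80) (nat_lit 256) (Rl.cons (nat_lit 80) (nat_lit 28) Rl.nil) rfl rfl sc2_7 (rlc st2_7_0 rln))) (stX (nat_lit 2) (nat_lit 182) (nat_lit 256) (Rl.cons (nat_lit 182) (nat_lit 20) Rl.nil) rfl rfl sc2_8 (rlc st2_8_0 rln))) (stX (nat_lit 1) (nat_lit 117) (nat_lit 16) (Rl.cons (nat_lit 117) (nat_lit 20) Rl.nil) rfl rfl sc2_9 (rlc st2_9_0 rln))) (stX (nat_lit 1) (nat_lit 53) (nat_lit 16) (Rl.cons (nat_lit 53) (nat_lit 19) Rl.nil) rfl rfl sc2_10 (rlc st2_10_0 rln))) (stX (nat_lit 2) (nat_lit 113) (nat_lit 256) (Rl.cons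 (nat_lit 113) (nat_lit 11) Rl.nil) rfl rfl sc2_11 (rlc st2_11_0 rln))) (stX (nat_lit 2) (nat_lit 53) (nat_lit 256) (Rl.cons (nat_lit 53) (nat_lit 10) Rl.nil) rfl rfl sc2_12 (rlc st2_12_0 rln))) (stX (nat_lit 1) (nat_lit 26) (nat_lit 16) (Rl.cons (nat_lit 26) (nat_lit 2) Rl.nil) rfl rfl sc2_13 (rlc st2_13_0 rln))) (stX (nat_lit 1) (nat_lit 0) (nat_lit 16) Rl.nil rfl rfl sc2_14 rln)) (stX (nat_lit 0) (nat_lit 0) (nat_lit 1) Rl.nil rfl rfl sc2_15 rln)) (stX (nat_lit 0) (nat_lit 0) (nat_lit 1) Rl.nil rfl rfl sc2_16 rln)) (stX (nat_lit 0) (nat_lit 0) (nat_lit 1) Rl.nil rfl rfl sc2_17 rln)) (stX (nat_lit 3) (nat_lit 324) (nat_lit 4096) (Rl.cons (nat_lit 324) (nat_lit 242) Rl.nil) rfl rfl sc2_18 (rlc st2_18_0 rln))) (stX (nat_lit 3) (nat_lit 215) (nat_lit 4096) (Rl.cons (nat_lit 215) (nat_lit 139) Rl.nil) rfl rfl sc2_19 (rlc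 st2_19_0 rln))) (stX (nat_lit 1) (nat_lit 276) (nat_lit 16) (Rl.cons (nat_lit 276) (nat_lit 85) Rl.nil) rfl rfl sc2_20 (rlc st2_20_0 rln))) (stX (nat_lit 1) (nat_lit 261) (nat_lit 16) (Rl.cons (nat_lit 261) (nat_lit 118) Rl.nil) rfl rfl sc2_21 (rlc st2_21_0 rln))) (stX (nat_lit 2) (nat_lit 279) (nat_lit 256) (Rl.cons (nat_lit 279) (nat_lit 98) Rl.nil) rfl rfl sc2_22 (rlc st2_22_0 rln))) (stX (nat_lit 1) (nat_lit 239) (nat_lit 16) (Rl.cons (nat_lit 239) (nat_lit 58) Rl.nil) rfl rfl sc2_23 (rlc st2_23_0 rln))) (stX (nat_lit 3) (nat_lit 131) (nat_lit 4096) (Rl.cons (nat_lit 131) (nat_lit 86) Rl.nil) rfl rfl sc2_24 (rlc st2_24_0 rln)))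
theorem ct2 : TiS (nat_lit 61) (nat_lit 4) (nat_lit 2) (nat_lit 1) (nat_lit 11) (nat_lit 25) (nat_lit 1) CL2 :=
  tiS ZZ2 (alS (alS (alS (alS (alS (alS (alS (alS (alS (alS (alS (alS (alS (alS (alS (alS (alS (alS (alS (alS (alS (alS (alS (alS (alS al0 tc2_0) tc2_1) tc2_2) tc2_3) tc2_4) tc2_5) tc2_6) tc2_7) tc2_8) tc2_9) tc2_10) tc2_11) tc2_12) tc2_13) tc2_14) tc2_15) tc2_16) tc2_17) tc2_18) tc2_19) tc2_20) tc2_21) tc2_22) tc2_23) tc2_24)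
  (zzc ⟨(nat_lit 532), zl2_0, ti2_0⟩ (zzc ⟨(nat_lit 110), zl2_1, ti2_1⟩ zzn))
theorem cw3 : ∀ w < 25, wfC (nat_lit 61) (nat_lit 2) (getC CL3 w) = true :=
  (alS (alS (alS (alS (alS (alS (alS (alS (alS (alS (alS (alS (alS (alS (alS (alS (alS (alS (alS (alS (alS (alS (alS (alS (alS al0 wf3_0) wf3_1) wf3_2) wf3_3) wf3_4) wf3_5) wf3_6) wf3_7) wf3_8) wf3_9) wf3_10) wf3_11) wf3_12) wf3_13) wf3_14) wf3_15) wf3_16) wf3_17) wf3_18) wf3_19) wf3_20) wf3_21) wf3_22) wf3_23) wf3_24)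
theorem cr3 : ∀ w < 25, rfCk (nat_lit 61) (nat_lit 4) (nat_lit 61) (nat_lit 2) (nat_lit 4) (nat_lit 524288) w TL3 CL2 CL3 = true :=
  (alS (alS (alS (alS (alS (alS (alS (alS (alS (alS (alS (alS (alS (alS (alS (alS (alS (alS (alS (alS (alS (alS (alS (alS (alS al0 rf3_0) rf3_1) rf3_2) rf3_3) rf3_4) rf3_5) rf3_6) rf3_7) rf3_8) rf3_9) rf3_10) rf3_11) rf3_12) rf3_13) rf3_14) rf3_15) rf3_16) rf3_17) rf3_18) rf3_19) rf3_20) rf3_21) rf3_22) rf3_23) rf3_24)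
theorem vm3 : eqVM CL2 CL3 25 = true := by decide +kernel
theorem cs3 : ∀ w < 25, StW (nat_lit 61) (nat_lit 2) (nat_lit 2) (nat_lit 0) (getC CL3 w) :=
  (alS (alS (alS (alS (alS (alS (alS (alS (alS (alS (alS (alS (alS (alS (alS (alS (alS (alS (alS (alS (alS (alS (alS (alS (alS al0 (stX (nat_lit 2) (nat_lit 0) (nat_lit 256) (Rl.cons (nat_lit 0) (nat_lit 280) Rl.nil) rfl rfl sc3_0 (rlc (starCk_zero _ _ _ _ _ _ _) rln))) (stX (nat_lit 1) (nat_lit 0) (nat_lit 16) (Rl.cons (nat_lit 0) (nat_lit 448) Rl.nil) rfl rfl sc3_1 (rlc (starCk_zero _ _ _ _ _ _ _) rln))) (stX (nat_lit 1) (nat_lit 0) (nat_lit 16) (Rl.cons (nat_lit 0) (nat_lit 48) Rl.nil) rfl rfl sc3_2 (rlc (starCk_zero _ _ _ _ _ _ _) rln))) (stX (nat_lit 0) (nat_lit 0) (nat_lit 1) (Rl.cons (nat_lit 0) (nat_lit 988) Rl.nil) rfl rfl sc3_3 (rlc (starCk_zero _ _ _ _ _ _ _)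 rln))) (stX (nat_lit 0) (nat_lit 0) (nat_lit 1) (Rl.cons (nat_lit 0) (nat_lit 664) Rl.nil) rfl rfl sc3_4 (rlc (starCk_zero _ _ _ _ _ _ _) rln))) (stX (nat_lit 0) (nat_lit 0) (nat_lit 1) (Rl.cons (nat_lit 0) (nat_lit 1053) Rl.nil) rfl rfl sc3_5 (rlc (starCk_zero _ _ _ _ _ _ _) rln))) (stX (nat_lit 0) (nat_lit 0) (nat_lit 1) (Rl.cons (nat_lit 0) (nat_lit 286) Rl.nil) rfl rfl sc3_6 (rlc (starCk_zero _ _ _ _ _ _ _) rln))) (stX (nat_lit 0) (nat_lit 0) (nat_lit 1) (Rl.cons (nat_lit 0) (nat_lit 600) Rl.nil) rfl rfl sc3_7 (rlc (starCk_zero _ _ _ _ _ _ _) rln))) (stX (nat_lit 0) (nat_lit 0) (nat_lit 1) (Rl.cons (nat_lit 0) (nat_lit 702) Rl.nil) rfl rfl sc3_8 (rlc (starCk_zero _ _ _ _ _ _ _) rln))) (stX (nat_lit 0) (nat_lit 0) (nat_lit 1) (Rl.cons (nat_lit 0) (nat_lit 708) Rl.nil) rfl rfl sc3_9 (rlc (starCk_zero _ _ _ _ _ _ _) rln)))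 (stX (nat_lit 0) (nat_lit 0) (nat_lit 1) (Rl.cons (nat_lit 0) (nat_lit 212) Rl.nil) rfl rfl sc3_10 (rlc (starCk_zero _ _ _ _ _ _ _) rln))) (stX (nat_lit 0) (nat_lit 0) (nat_lit 1) (Rl.cons (nat_lit 0) (nat_lit 377) Rl.nil) rfl rfl sc3_11 (rlc (starCk_zero _ _ _ _ _ _ _) rln))) (stX (nat_lit 0) (nat_lit 0) (nat_lit 1) (Rl.cons (nat_lit 0) (nat_lit 237) Rl.nil) rfl rfl sc3_12 (rlc (starCk_zero _ _ _ _ _ _ _) rln))) (stX (nat_lit 0) (nat_lit 0) (nat_lit 1) (Rl.cons (nat_lit 0) (nat_lit 30) Rl.nil) rfl rfl sc3_13 (rlc (starCk_zero _ _ _ _ _ _ _) rln))) (stX (nat_lit 0) (nat_lit 0) (nat_lit 1) Rl.nil rfl rfl sc3_14 rln)) (stX (nat_lit 0) (nat_lit 0) (nat_lit 1) Rl.nil rfl rfl sc3_15 rln)) (stX (nat_lit 0) (nat_lit 0) (nat_lit 1) Rl.nil rfl rfl sc3_16 rln)) (stX (nat_lit 0) (nat_lit 0) (nat_lit 1) Rl.nil rfl rfl sc3_17 rln))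 (stX (nat_lit 2) (nat_lit 0) (nat_lit 256) (Rl.cons (nat_lit 0) (nat_lit 1924) Rl.nil) rfl rfl sc3_18 (rlc (starCk_zero _ _ _ _ _ _ _) rln))) (stX (nat_lit 1) (nat_lit 0) (nat_lit 16) (Rl.cons (nat_lit 0) (nat_lit 958) Rl.nil) rfl rfl sc3_19 (rlc (starCk_zero _ _ _ _ _ _ _) rln))) (stX (nat_lit 0) (nat_lit 0) (nat_lit 1) (Rl.cons (nat_lit 0) (nat_lit 4278) Rl.nil) rfl rfl sc3_20 (rlc (starCk_zero _ _ _ _ _ _ _) rln))) (stX (nat_lit 0) (nat_lit 0) (nat_lit 1) (Rl.cons (nat_lit 0) (nat_lit 2151) Rl.nil) rfl rfl sc3_21 (rlc (starCk_zero _ _ _ _ _ _ _) rln))) (stX (nat_lit 0) (nat_lit 0) (nat_lit 1) (Rl.cons (nat_lit 0) (nat_lit 2496) Rl.nil) rfl rfl sc3_22 (rlc (starCk_zero _ _ _ _ _ _ _) rln))) (stX (nat_lit 0) (nat_lit 0) (nat_lit 1) (Rl.cons (nat_lit 0) (nat_lit 1674) Rl.nil) rfl rfl sc3_23 (rlc (starCk_zero _ _ _ _ _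 _ _) rln))) (stX (nat_lit 0) (nat_lit 0) (nat_lit 1) (Rl.cons (nat_lit 0) (nat_lit 614) Rl.nil) rfl rfl sc3_24 (rlc (starCk_zero _ _ _ _ _ _ _) rln)))
theorem ct3 : TiS (nat_lit 61) (nat_lit 2) (nat_lit 1) (nat_lit 1) (nat_lit 11) (nat_lit 25) (nat_lit 1) CL3 :=
  tiS ZZ3 (alS (alS (alS (alS (alS (alS (alS (alS (alS (alS (alS (alS (alS (alS (alS (alS (alS (alS (alS (alS (alS (alS (alS (alS (alS al0 tc3_0) tc3_1) tc3_2) tc3_3) tc3_4) tc3_5) tc3_6) tc3_7) tc3_8) tc3_9) tc3_10) tc3_11) tc3_12) tc3_13) tc3_14) tc3_15) tc3_16) tc3_17) tc3_18) tc3_19) tc3_20) tc3_21) tc3_22) tc3_23) tc3_24)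
  (zzc ⟨(nat_lit 503), zl3_0, ti3_0⟩ (zzc ⟨(nat_lit 86), zl3_1, ti3_1⟩ (zzc ⟨(nat_lit 245), zl3_2, ti3_2⟩ zzn)))
theorem cw4 : ∀ w < 25, wfC (nat_lit 61) (nat_lit 4) (getC CL4 w) = true :=
  (alS (alS (alS (alS (alS (alS (alS (alS (alS (alS (alS (alS (alS (alS (alS (alS (alS (alS (alS (alS (alS (alS (alS (alS (alS al0 wf4_0) wf4_1) wf4_2) wf4_3) wf4_4) wf4_5) wf4_6) wf4_7) wf4_8) wf4_9) wf4_10) wf4_11) wf4_12) wf4_13) wf4_14) wf4_15) wf4_16) wf4_17) wf4_18) wf4_19) wf4_20) wf4_21) wf4_22) wf4_23) wf4_24)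
theorem cr4 : ∀ w < 25, rfCk (nat_lit 61) (nat_lit 2) (nat_lit 61) (nat_lit 4) (nat_lit 9) (nat_lit 0) w TL4 CL3 CL4 = true :=
  (alS (alS (alS (alS (alS (alS (alS (alS (alS (alS (alS (alS (alS (alS (alS (alS (alS (alS (alS (alS (alS (alS (alS (alS (alS al0 rf4_0) rf4_1) rf4_2) rf4_3) rf4_4) rf4_5) rf4_6) rf4_7) rf4_8) rf4_9) rf4_10) rf4_11) rf4_12) rf4_13) rf4_14) rf4_15) rf4_16) rf4_17) rf4_18) rf4_19) rf4_20) rf4_21) rf4_22) rf4_23) rf4_24)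
theorem vm4 : eqVM CL3 CL4 25 = true := by decide +kernel
theorem cs4 : ∀ w < 25, StW (nat_lit 61) (nat_lit 4) (nat_lit 1) (nat_lit 2) (getC CL4 w) :=
  (alS (alS (alS (alS (alS (alS (alS (alS (alS (alS (alS (alS (alS (alS (alS (alS (alS (alS (alS (alS (alS (alS (alS (alS (alS al0 (stX (nat_lit 2) (nat_lit 0) (nat_lit 256) (Rl.cons (nat_lit 0) (nat_lit 28) Rl.nil) rfl rfl sc4_0 (rlc st4_0_0 rln))) (stX (nat_lit 2) (nat_lit 56) (nat_lit 256) (Rl.cons (nat_lit 56) (nat_lit 33) Rl.nil) rfl rfl sc4_1 (rlc st4_1_0 rln))) (stX (nat_lit 1) (nat_lit 0) (nat_lit 16) (Rl.cons (nat_lit 0) (nat_lit 15) Rl.nil) rfl rfl sc4_2 (rlc st4_2_0 rln))) (stX (nat_lit 1) (nat_lit 127) (nat_lit 16) (Rl.cons (nat_lit 127) (nat_lit 29) Rl.nil) rfl rfl sc4_3 (rlc st4_3_0 rln))) (stX (nat_lit 2) (nat_lit 200) (nat_lit 256) (Rl.cons (nat_lit 200)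 (nat_lit 26) Rl.nil) rfl rfl sc4_4 (rlc st4_4_0 rln))) (stX (nat_lit 1) (nat_lit 185) (nat_lit 16) (Rl.cons (nat_lit 185) (nat_lit 49) Rl.nil) rfl rfl sc4_5 (rlc st4_5_0 rln))) (stX (nat_lit 0) (nat_lit 30) (nat_lit 1) (Rl.cons (nat_lit 30) (nat_lit 61) Rl.nil) rfl rfl sc4_6 (rlc st4_6_0 rln))) (stX (nat_lit 2) (nat_lit 123) (nat_lit 256) (Rl.cons (nat_lit 123) (nat_lit 39) Rl.nil) rfl rfl sc4_7 (rlc st4_7_0 rln))) (stX (nat_lit 2) (nat_lit 226) (nat_lit 256) (Rl.cons (nat_lit 226) (nat_lit 24) Rl.nil) rfl rfl sc4_8 (rlc st4_8_0 rln))) (stX (nat_lit 1) (nat_lit 145) (nat_lit 16) (Rl.cons (nat_lit 145) (nat_lit 21) Rl.nil) rfl rfl sc4_9 (rlc st4_9_0 rln))) (stX (nat_lit 1) (nat_lit 68) (nat_lit 16) (Rl.cons (nat_lit 68) (nat_lit 21) Rl.nil) rfl rfl sc4_10 (rlc st4_10_0 rln))) (stX (nat_lit 2) (nat_lit 132) (nat_lit 256)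 (Rl.cons (nat_lit 132) (nat_lit 12) Rl.nil) rfl rfl sc4_11 (rlc st4_11_0 rln))) (stX (nat_lit 2) (nat_lit 66) (nat_lit 256) (Rl.cons (nat_lit 66) (nat_lit 13) Rl.nil) rfl rfl sc4_12 (rlc st4_12_0 rln))) (stX (nat_lit 1) (nat_lit 0) (nat_lit 16) Rl.nil rfl rfl sc4_13 rln)) (stX (nat_lit 0) (nat_lit 0) (nat_lit 1) Rl.nil rfl rfl sc4_14 rln)) (stX (nat_lit 0) (nat_lit 0) (nat_lit 1) Rl.nil rfl rfl sc4_15 rln)) (stX (nat_lit 0) (nat_lit 0) (nat_lit 1) Rl.nil rfl rfl sc4_16 rln)) (stX (nat_lit 0) (nat_lit 0) (nat_lit 1) Rl.nil rfl rfl sc4_17 rln)) (stX (nat_lit 3) (nat_lit 524) (nat_lit 4096) (Rl.cons (nat_lit 524) (nat_lit 376) Rl.nil) rfl rfl sc4_18 (rlc st4_18_0 rln))) (stX (nat_lit 3) (nat_lit 250) (nat_lit 4096) (Rl.cons (nat_lit 250) (nat_lit 180) Rl.nil) rfl rfl sc4_19 (rlc st4_19_0 rln))) (stX (nat_lit 1) (nat_lit 473)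 (nat_lit 16) (Rl.cons (nat_lit 473) (nat_lit 100) Rl.nil) rfl rfl sc4_20 (rlc st4_20_0 rln))) (stX (nat_lit 1) (nat_lit 423) (nat_lit 16) (Rl.cons (nat_lit 423) (nat_lit 102) Rl.nil) rfl rfl sc4_21 (rlc st4_21_0 rln))) (stX (nat_lit 2) (nat_lit 426) (nat_lit 256) (Rl.cons (nat_lit 426) (nat_lit 131) Rl.nil) rfl rfl sc4_22 (rlc st4_22_0 rln))) (stX (nat_lit 1) (nat_lit 366) (nat_lit 16) (Rl.cons (nat_lit 366) (nat_lit 58) Rl.nil) rfl rfl sc4_23 (rlc st4_23_0 rln))) (stX (nat_lit 3) (nat_lit 182) (nat_lit 4096) (Rl.cons (nat_lit 182) (nat_lit 121) Rl.nil) rfl rfl sc4_24 (rlc st4_24_0 rln)))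
theorem ct4 : TiS (nat_lit 61) (nat_lit 4) (nat_lit 2) (nat_lit 1) (nat_lit 11) (nat_lit 25) (nat_lit 1) CL4 :=
  tiS ZZ4 (alS (alS (alS (alS (alS (alS (alS (alS (alS (alS (alS (alS (alS (alS (alS (alS (alS (alS (alS (alS (alS (alS (alS (alS (alS al0 tc4_0) tc4_1) tc4_2) tc4_3) tc4_4) tc4_5) tc4_6) tc4_7) tc4_8) tc4_9) tc4_10) tc4_11) tc4_12) tc4_13) tc4_14) tc4_15) tc4_16) tc4_17) tc4_18) tc4_19) tc4_20) tc4_21) tc4_22) tc4_23) tc4_24)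
  (zzc ⟨(nat_lit 401), zl4_0, ti4_0⟩ (zzc ⟨(nat_lit 72), zl4_1, ti4_1⟩ (zzc ⟨(nat_lit 172), zl4_2, ti4_2⟩ zzn)))
theorem cw5 : ∀ w < 25, wfC (nat_lit 61) (nat_lit 2) (getC CL5 w) = true :=
  (alS (alS (alS (alS (alS (alS (alS (alS (alS (alS (alS (alS (alS (alS (alS (alS (alS (alS (alS (alS (alS (alS (alS (alS (alS al0 wf5_0) wf5_1) wf5_2) wf5_3) wf5_4) wf5_5) wf5_6) wf5_7) wf5_8) wf5_9) wf5_10) wf5_11) wf5_12) wf5_13) wf5_14) wf5_15) wf5_16) wf5_17) wf5_18) wf5_19) wf5_20) wf5_21) wf5_22) wf5_23) wf5_24)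
theorem cr5 : ∀ w < 25, rfCk (nat_lit 61) (nat_lit 4) (nat_lit 61) (nat_lit 2) (nat_lit 0) (nat_lit 1048576) w TL5 CL4 CL5 = true :=
  (alS (alS (alS (alS (alS (alS (alS (alS (alS (alS (alS (alS (alS (alS (alS (alS (alS (alS (alS (alS (alS (alS (alS (alS (alS al0 rf5_0) rf5_1) rf5_2) rf5_3) rf5_4) rf5_5) rf5_6) rf5_7) rf5_8) rf5_9) rf5_10) rf5_11) rf5_12) rf5_13) rf5_14) rf5_15) rf5_16) rf5_17) rf5_18) rf5_19) rf5_20) rf5_21) rf5_22) rf5_23) rf5_24)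
theorem vm5 : eqVM CL4 CL5 25 = true := by decide +kernel
theorem cs5 : ∀ w < 25, StW (nat_lit 61) (nat_lit 2) (nat_lit 2) (nat_lit 0) (getC CL5 w) :=
  (alS (alS (alS (alS (alS (alS (alS (alS (alS (alS (alS (alS (alS (alS (alS (alS (alS (alS (alS (alS (alS (alS (alS (alS (alS al0 (stX (nat_lit 2) (nat_lit 0) (nat_lit 256) (Rl.cons (nat_lit 0) (nat_lit 496) Rl.nil) rfl rfl sc5_0 (rlc (starCk_zero _ _ _ _ _ _ _) rln))) (stX (nat_lit 1) (nat_lit 0) (nat_lit 16) (Rl.cons (nat_lit 0) (nat_lit 688) Rl.nil) rfl rfl sc5_1 (rlc (starCk_zero _ _ _ _ _ _ _) rln))) (stX (nat_lit 1) (nat_lit 0) (nat_lit 16) (Rl.cons (nat_lit 0) (nat_lit 60) Rl.nil) rfl rfl sc5_2 (rlc (starCk_zero _ _ _ _ _ _ _) rln))) (stX (nat_lit 0) (nat_lit 0) (nat_lit 1) (Rl.cons (nat_lit 0) (nat_lit 1388) Rl.nil) rfl rfl sc5_3 (rlc (starCk_zero _ _ _ _ _ _ _)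 rln))) (stX (nat_lit 0) (nat_lit 0) (nat_lit 1) (Rl.cons (nat_lit 0) (nat_lit 920) Rl.nil) rfl rfl sc5_4 (rlc (starCk_zero _ _ _ _ _ _ _) rln))) (stX (nat_lit 0) (nat_lit 0) (nat_lit 1) (Rl.cons (nat_lit 0) (nat_lit 1521) Rl.nil) rfl rfl sc5_5 (rlc (starCk_zero _ _ _ _ _ _ _) rln))) (stX (nat_lit 0) (nat_lit 0) (nat_lit 1) (Rl.cons (nat_lit 0) (nat_lit 386) Rl.nil) rfl rfl sc5_6 (rlc (starCk_zero _ _ _ _ _ _ _) rln))) (stX (nat_lit 0) (nat_lit 0) (nat_lit 1) (Rl.cons (nat_lit 0) (nat_lit 740) Rl.nil) rfl rfl sc5_7 (rlc (starCk_zero _ _ _ _ _ _ _) rln))) (stX (nat_lit 0) (nat_lit 0) (nat_lit 1) (Rl.cons (nat_lit 0) (nat_lit 942) Rl.nil) rfl rfl sc5_8 (rlc (starCk_zero _ _ _ _ _ _ _) rln))) (stX (nat_lit 0) (nat_lit 0) (nat_lit 1) (Rl.cons (nat_lit 0) (nat_lit 860) Rl.nil) rfl rfl sc5_9 (rlc (starCk_zero _ _ _ _ _ _ _) rln)))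 (stX (nat_lit 0) (nat_lit 0) (nat_lit 1) (Rl.cons (nat_lit 0) (nat_lit 264) Rl.nil) rfl rfl sc5_10 (rlc (starCk_zero _ _ _ _ _ _ _) rln))) (stX (nat_lit 0) (nat_lit 0) (nat_lit 1) (Rl.cons (nat_lit 0) (nat_lit 453) Rl.nil) rfl rfl sc5_11 (rlc (starCk_zero _ _ _ _ _ _ _) rln))) (stX (nat_lit 0) (nat_lit 0) (nat_lit 1) (Rl.cons (nat_lit 0) (nat_lit 277) Rl.nil) rfl rfl sc5_12 (rlc (starCk_zero _ _ _ _ _ _ _) rln))) (stX (nat_lit 0) (nat_lit 0) (nat_lit 1) Rl.nil rfl rfl sc5_13 rln)) (stX (nat_lit 0) (nat_lit 0) (nat_lit 1) Rl.nil rfl rfl sc5_14 rln)) (stX (nat_lit 0) (nat_lit 0) (nat_lit 1) Rl.nil rfl rfl sc5_15 rln)) (stX (nat_lit 0) (nat_lit 0) (nat_lit 1) Rl.nil rfl rfl sc5_16 rln)) (stX (nat_lit 0) (nat_lit 0) (nat_lit 1) Rl.nil rfl rfl sc5_17 rln)) (stX (nat_lit 2) (nat_lit 0) (nat_lit 256) (Rl.cons (nat_lit 0) (nat_lit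 2756) Rl.nil) rfl rfl sc5_18 (rlc (starCk_zero _ _ _ _ _ _ _) rln))) (stX (nat_lit 1) (nat_lit 0) (nat_lit 16) (Rl.cons (nat_lit 0) (nat_lit 1304) Rl.nil) rfl rfl sc5_19 (rlc (starCk_zero _ _ _ _ _ _ _) rln))) (stX (nat_lit 0) (nat_lit 0) (nat_lit 1) (Rl.cons (nat_lit 0) (nat_lit 5618) Rl.nil) rfl rfl sc5_20 (rlc (starCk_zero _ _ _ _ _ _ _) rln))) (stX (nat_lit 0) (nat_lit 0) (nat_lit 1) (Rl.cons (nat_lit 0) (nat_lit 2903) Rl.nil) rfl rfl sc5_21 (rlc (starCk_zero _ _ _ _ _ _ _) rln))) (stX (nat_lit 0) (nat_lit 0) (nat_lit 1) (Rl.cons (nat_lit 0) (nat_lit 2726) Rl.nil) rfl rfl sc5_22 (rlc (starCk_zero _ _ _ _ _ _ _) rln))) (stX (nat_lit 0) (nat_lit 0) (nat_lit 1) (Rl.cons (nat_lit 0) (nat_lit 2226) Rl.nil) rfl rfl sc5_23 (rlc (starCk_zero _ _ _ _ _ _ _) rln))) (stX (nat_lit 0) (nat_lit 0) (nat_lit 1) (Rl.cons (nat_lit 0)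 (nat_lit 682) Rl.nil) rfl rfl sc5_24 (rlc (starCk_zero _ _ _ _ _ _ _) rln)))
theorem ct5 : TiS (nat_lit 61) (nat_lit 2) (nat_lit 1) (nat_lit 1) (nat_lit 11) (nat_lit 25) (nat_lit 1) CL5 :=
  tiS ZZ5 (alS (alS (alS (alS (alS (alS (alS (alS (alS (alS (alS (alS (alS (alS (alS (alS (alS (alS (alS (alS (alS (alS (alS (alS (alS al0 tc5_0) tc5_1) tc5_2) tc5_3) tc5_4) tc5_5) tc5_6) tc5_7) tc5_8) tc5_9) tc5_10) tc5_11) tc5_12) tc5_13) tc5_14) tc5_15) tc5_16) tc5_17) tc5_18) tc5_19) tc5_20) tc5_21) tc5_22) tc5_23) tc5_24)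
  (zzc ⟨(nat_lit 537), zl5_0, ti5_0⟩ (zzc ⟨(nat_lit 86), zl5_1, ti5_1⟩ (zzc ⟨(nat_lit 276), zl5_2, ti5_2⟩ (zzc ⟨(nat_lit 320), zl5_3, ti5_3⟩ (zzc ⟨(nat_lit 32), zl5_4, ti5_4⟩ (zzc ⟨(nat_lit 276), zl5_5, ti5_5⟩ zzn))))))
theorem cw6 : ∀ w < 25, wfC (nat_lit 61) (nat_lit 4) (getC CL6 w) = true :=
  (alS (alS (alS (alS (alS (alS (alS (alS (alS (alS (alS (alS (alS (alS (alS (alS (alS (alS (alS (alS (alS (alS (alS (alS (alS al0 wf6_0) wf6_1) wf6_2) wf6_3) wf6_4) wf6_5) wf6_6) wf6_7) wf6_8) wf6_9) wf6_10) wf6_11) wf6_12) wf6_13) wf6_14) wf6_15) wf6_16) wf6_17) wf6_18) wf6_19) wf6_20) wf6_21) wf6_22) wf6_23) wf6_24)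
theorem cr6 : ∀ w < 25, rfCk (nat_lit 61) (nat_lit 2) (nat_lit 61) (nat_lit 4) (nat_lit 9) (nat_lit 0) w TL6 CL5 CL6 = true :=
  (alS (alS (alS (alS (alS (alS (alS (alS (alS (alS (alS (alS (alS (alS (alS (alS (alS (alS (alS (alS (alS (alS (alS (alS (alS al0 rf6_0) rf6_1) rf6_2) rf6_3) rf6_4) rf6_5) rf6_6) rf6_7) rf6_8) rf6_9) rf6_10) rf6_11) rf6_12) rf6_13) rf6_14) rf6_15) rf6_16) rf6_17) rf6_18) rf6_19) rf6_20) rf6_21) rf6_22) rf6_23) rf6_24)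
theorem vm6 : eqVM CL5 CL6 25 = true := by decide +kernel
theorem cs6 : ∀ w < 25, StW (nat_lit 61) (nat_lit 4) (nat_lit 1) (nat_lit 2) (getC CL6 w) :=
  (alS (alS (alS (alS (alS (alS (alS (alS (alS (alS (alS (alS (alS (alS (alS (alS (alS (alS (alS (alS (alS (alS (alS (alS (alS al0 (stX (nat_lit 2) (nat_lit 0) (nat_lit 256) (Rl.cons (nat_lit 0) (nat_lit 59) Rl.nil) rfl rfl sc6_0 (rlc st6_0_0 rln))) (stX (nat_lit 2) (nat_lit 122) (nat_lit 256) (Rl.cons (nat_lit 122) (nat_lit 54) Rl.nil) rfl rfl sc6_1 (rlc st6_1_0 rln))) (stX (nat_lit 1) (nat_lit 0) (nat_lit 16) (Rl.cons (nat_lit 0) (nat_lit 22) Rl.nil) rfl rfl sc6_2 (rlc st6_2_0 rln))) (stX (nat_lit 1) (nat_lit 137) (nat_lit 16) (Rl.cons (nat_lit 137) (nat_lit 37) Rl.nil) rfl rfl sc6_3 (rlc st6_3_0 rln))) (stX (nat_lit 2) (nat_lit 273) (nat_lit 256) (Rl.cons (nat_lit 273)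 (nat_lit 46) Rl.nil) rfl rfl sc6_4 (rlc st6_4_0 rln))) (stX (nat_lit 1) (nat_lit 208) (nat_lit 16) (Rl.cons (nat_lit 208) (nat_lit 63) Rl.nil) rfl rfl sc6_5 (rlc st6_5_0 rln))) (stX (nat_lit 0) (nat_lit 30) (nat_lit 1) (Rl.cons (nat_lit 30) (nat_lit 58) Rl.nil) rfl rfl sc6_6 (rlc st6_6_0 rln))) (stX (nat_lit 2) (nat_lit 117) (nat_lit 256) (Rl.cons (nat_lit 117) (nat_lit 77) Rl.nil) rfl rfl sc6_7 (rlc st6_7_0 rln))) (stX (nat_lit 2) (nat_lit 291) (nat_lit 256) (Rl.cons (nat_lit 291) (nat_lit 53) Rl.nil) rfl rfl sc6_8 (rlc st6_8_0 rln))) (stX (nat_lit 1) (nat_lit 163) (nat_lit 16) (Rl.cons (nat_lit 163) (nat_lit 25) Rl.nil) rfl rfl sc6_9 (rlc st6_9_0 rln))) (stX (nat_lit 1) (nat_lit 68) (nat_lit 16) (Rl.cons (nat_lit 68) (nat_lit 23) Rl.nil) rfl rfl sc6_10 (rlc st6_10_0 rln))) (stX (nat_lit 2) (nat_lit 158) (nat_lit 256)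 (Rl.cons (nat_lit 158) (nat_lit 24) Rl.nil) rfl rfl sc6_11 (rlc st6_11_0 rln))) (stX (nat_lit 2) (nat_lit 73) (nat_lit 256) (Rl.cons (nat_lit 73) (nat_lit 19) Rl.nil) rfl rfl sc6_12 (rlc st6_12_0 rln))) (stX (nat_lit 0) (nat_lit 0) (nat_lit 1) Rl.nil rfl rfl sc6_13 rln)) (stX (nat_lit 0) (nat_lit 0) (nat_lit 1) Rl.nil rfl rfl sc6_14 rln)) (stX (nat_lit 0) (nat_lit 0) (nat_lit 1) Rl.nil rfl rfl sc6_15 rln)) (stX (nat_lit 0) (nat_lit 0) (nat_lit 1) Rl.nil rfl rfl sc6_16 rln)) (stX (nat_lit 0) (nat_lit 0) (nat_lit 1) Rl.nil rfl rfl sc6_17 rln)) (stX (nat_lit 3) (nat_lit 913) (nat_lit 4096) (Rl.cons (nat_lit 913) (nat_lit 621) Rl.nil) rfl rfl sc6_18 (rlc st6_18_0 rln))) (stX (nat_lit 3) (nat_lit 490) (nat_lit 4096) (Rl.cons (nat_lit 490) (nat_lit 382) Rl.nil) rfl rfl sc6_19 (rlc st6_19_0 rln))) (stX (nat_lit 1) (nat_lit 602)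 (nat_lit 16) (Rl.cons (nat_lit 602) (nat_lit 177) Rl.nil) rfl rfl sc6_20 (rlc st6_20_0 rln))) (stX (nat_lit 1) (nat_lit 577) (nat_lit 16) (Rl.cons (nat_lit 577) (nat_lit 170) Rl.nil) rfl rfl sc6_21 (rlc st6_21_0 rln))) (stX (nat_lit 2) (nat_lit 529) (nat_lit 256) (Rl.cons (nat_lit 529) (nat_lit 264) Rl.nil) rfl rfl sc6_22 (rlc st6_22_0 rln))) (stX (nat_lit 1) (nat_lit 516) (nat_lit 16) (Rl.cons (nat_lit 516) (nat_lit 89) Rl.nil) rfl rfl sc6_23 (rlc st6_23_0 rln))) (stX (nat_lit 3) (nat_lit 222) (nat_lit 4096) (Rl.cons (nat_lit 222) (nat_lit 109) Rl.nil) rfl rfl sc6_24 (rlc st6_24_0 rln)))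
theorem ct6 : TiS (nat_lit 61) (nat_lit 4) (nat_lit 2) (nat_lit 1) (nat_lit 11) (nat_lit 25) (nat_lit 1) CL6 :=
  tiS ZZ6 (alS (alS (alS (alS (alS (alS (alS (alS (alS (alS (alS (alS (alS (alS (alS (alS (alS (alS (alS (alS (alS (alS (alS (alS (alS al0 tc6_0) tc6_1) tc6_2) tc6_3) tc6_4) tc6_5) tc6_6) tc6_7) tc6_8) tc6_9) tc6_10) tc6_11) tc6_12) tc6_13) tc6_14) tc6_15) tc6_16) tc6_17) tc6_18) tc6_19) tc6_20) tc6_21) tc6_22) tc6_23) tc6_24)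
  (zzc ⟨(nat_lit 297), zl6_0, ti6_0⟩ (zzc ⟨(nat_lit 58), zl6_1, ti6_1⟩ (zzc ⟨(nat_lit 198), zl6_2, ti6_2⟩ (zzc ⟨(nat_lit 204), zl6_3, ti6_3⟩ (zzc ⟨(nat_lit 16), zl6_4, ti6_4⟩ (zzc ⟨(nat_lit 215), zl6_5, ti6_5⟩ zzn))))))
theorem cw7 : ∀ w < 25, wfC (nat_lit 61) (nat_lit 3) (getC CL7 w) = true :=
  (alS (alS (alS (alS (alS (alS (alS (alS (alS (alS (alS (alS (alS (alS (alS (alS (alS (alS (alS (alS (alS (alS (alS (alS (alS al0 wf7_0) wf7_1) wf7_2) wf7_3) wf7_4) wf7_5) wf7_6) wf7_7) wf7_8) wf7_9) wf7_10) wf7_11) wf7_12) wf7_13) wf7_14) wf7_15) wf7_16) wf7_17) wf7_18) wf7_19) wf7_20) wf7_21) wf7_22) wf7_23) wf7_24)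
theorem cr7 : ∀ w < 25, rfCk (nat_lit 61) (nat_lit 4) (nat_lit 61) (nat_lit 3) (nat_lit 3) (nat_lit 2097152) w TL7 CL6 CL7 = true :=
  (alS (alS (alS (alS (alS (alS (alS (alS (alS (alS (alS (alS (alS (alS (alS (alS (alS (alS (alS (alS (alS (alS (alS (alS (alS al0 rf7_0) rf7_1) rf7_2) rf7_3) rf7_4) rf7_5) rf7_6) rf7_7) rf7_8) rf7_9) rf7_10) rf7_11) rf7_12) rf7_13) rf7_14) rf7_15) rf7_16) rf7_17) rf7_18) rf7_19) rf7_20) rf7_21) rf7_22) rf7_23) rf7_24)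
theorem vm7 : eqVM CL6 CL7 25 = true := by decide +kernel
theorem cs7 : ∀ w < 25, StW (nat_lit 61) (nat_lit 3) (nat_lit 1) (nat_lit 1) (getC CL7 w) :=
  (alS (alS (alS (alS (alS (alS (alS (alS (alS (alS (alS (alS (alS (alS (alS (alS (alS (alS (alS (alS (alS (alS (alS (alS (alS al0 (stX (nat_lit 2) (nat_lit 0) (nat_lit 256) (Rl.cons (nat_lit 0) (nat_lit 232) Rl.nil) rfl rfl sc7_0 (rlc st7_0_0 rln))) (stX (nat_lit 2) (nat_lit 436) (nat_lit 256) (Rl.cons (nat_lit 436) (nat_lit 204) Rl.nil) rfl rfl sc7_1 (rlc st7_1_0 rln))) (stX (nat_lit 1) (nat_lit 0) (nat_lit 16) (Rl.cons (nat_lit 0) (nat_lit 80) Rl.nil) rfl rfl sc7_2 (rlc st7_2_0 rln))) (stX (nat_lit 0) (nat_lit 148) (nat_lit 1) (Rl.cons (nat_lit 148) (nat_lit 110) Rl.nil) rfl rfl sc7_3 (rlc st7_3_0 rln))) (stX (nat_lit 0) (nat_lit 118) (nat_lit 1) (Rl.cons (nat_lit 118)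 (nat_lit 92) Rl.nil) rfl rfl sc7_4 (rlc st7_4_0 rln))) (stX (nat_lit 0) (nat_lit 210) (nat_lit 1) (Rl.cons (nat_lit 210) (nat_lit 181) Rl.nil) rfl rfl sc7_5 (rlc st7_5_0 rln))) (stX (nat_lit 0) (nat_lit 106) (nat_lit 1) (Rl.cons (nat_lit 106) (nat_lit 78) Rl.nil) rfl rfl sc7_6 (rlc st7_6_0 rln))) (stX (nat_lit 0) (nat_lit 112) (nat_lit 1) (Rl.cons (nat_lit 112) (nat_lit 101) Rl.nil) rfl rfl sc7_7 (rlc st7_7_0 rln))) (stX (nat_lit 2) (nat_lit 710) (nat_lit 256) (Rl.cons (nat_lit 710) (nat_lit 156) Rl.nil) rfl rfl sc7_8 (rlc st7_8_0 rln))) (stX (nat_lit 1) (nat_lit 317) (nat_lit 16) (Rl.cons (nat_lit 317) (nat_lit 80) Rl.nil) rfl rfl sc7_9 (rlc st7_9_0 rln))) (stX (nat_lit 0) (nat_lit 88) (nat_lit 1) (Rl.cons (nat_lit 88) (nat_lit 54) Rl.nil) rfl rfl sc7_10 (rlc st7_10_0 rln))) (stX (nat_lit 2) (nat_lit 363) (nat_lit 256)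 (Rl.cons (nat_lit 363) (nat_lit 66) Rl.nil) rfl rfl sc7_11 (rlc st7_11_0 rln))) (stX (nat_lit 2) (nat_lit 131) (nat_lit 256) (Rl.cons (nat_lit 131) (nat_lit 54) Rl.nil) rfl rfl sc7_12 (rlc st7_12_0 rln))) (stX (nat_lit 0) (nat_lit 0) (nat_lit 1) Rl.nil rfl rfl sc7_13 rln)) (stX (nat_lit 0) (nat_lit 0) (nat_lit 1) Rl.nil rfl rfl sc7_14 rln)) (stX (nat_lit 0) (nat_lit 0) (nat_lit 1) Rl.nil rfl rfl sc7_15 rln)) (stX (nat_lit 0) (nat_lit 0) (nat_lit 1) Rl.nil rfl rfl sc7_16 rln)) (stX (nat_lit 0) (nat_lit 0) (nat_lit 1) Rl.nil rfl rfl sc7_17 rln)) (stX (nat_lit 3) (nat_lit 2078) (nat_lit 4096) (Rl.cons (nat_lit 2078) (nat_lit 779) (Rl.cons (nat_lit 2857) (nat_lit 779) Rl.nil)) rfl rfl sc7_18 (rlc st7_18_0 (rlc st7_18_1 rln)))) (stX (nat_lit 3) (nat_lit 1418) (nat_lit 4096) (Rl.cons (nat_lit 1418) (nat_lit 1002) Rl.nil) rfl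 rfl sc7_19 (rlc st7_19_0 rln))) (stX (nat_lit 0) (nat_lit 672) (nat_lit 1) (Rl.cons (nat_lit 672) (nat_lit 258) (Rl.cons (nat_lit 930) (nat_lit 259) Rl.nil)) rfl rfl sc7_20 (rlc st7_20_0 (rlc st7_20_1 rln)))) (stX (nat_lit 0) (nat_lit 592) (nat_lit 1) (Rl.cons (nat_lit 592) (nat_lit 224) (Rl.cons (nat_lit 816) (nat_lit 224) Rl.nil)) rfl rfl sc7_21 (rlc st7_21_0 (rlc st7_21_1 rln)))) (stX (nat_lit 2) (nat_lit 936) (nat_lit 256) (Rl.cons (nat_lit 936) (nat_lit 492) Rl.nil) rfl rfl sc7_22 (rlc st7_22_0 rln))) (stX (nat_lit 1) (nat_lit 927) (nat_lit 16) (Rl.cons (nat_lit 927) (nat_lit 272) Rl.nil) rfl rfl sc7_23 (rlc st7_23_0 rln))) (stX (nat_lit 3) (nat_lit 411) (nat_lit 4096) (Rl.cons (nat_lit 411) (nat_lit 269) Rl.nil) rfl rfl sc7_24 (rlc st7_24_0 rln)))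
theorem ct7 : TiS (nat_lit 61) (nat_lit 3) (nat_lit 2) (nat_lit 1) (nat_lit 11) (nat_lit 25) (nat_lit 1) CL7 :=
  tiS ZZ7 (alS (alS (alS (alS (alS (alS (alS (alS (alS (alS (alS (alS (alS (alS (alS (alS (alS (alS (alS (alS (alS (alS (alS (alS (alS al0 tc7_0) tc7_1) tc7_2) tc7_3) tc7_4) tc7_5) tc7_6) tc7_7) tc7_8) tc7_9) tc7_10) tc7_11) tc7_12) tc7_13) tc7_14) tc7_15) tc7_16) tc7_17) tc7_18) tc7_19) tc7_20) tc7_21) tc7_22) tc7_23) tc7_24)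
  (zzc ⟨(nat_lit 540), zl7_0, ti7_0⟩ (zzc ⟨(nat_lit 106), zl7_1, ti7_1⟩ (zzc ⟨(nat_lit 317), zl7_2, ti7_2⟩ (zzc ⟨(nat_lit 280), zl7_3, ti7_3⟩ (zzc ⟨(nat_lit 25), zl7_4, ti7_4⟩ (zzc ⟨(nat_lit 340), zl7_5, ti7_5⟩ (zzc ⟨(nat_lit 540), zl7_6, ti7_6⟩ (zzc ⟨(nat_lit 106), zl7_7, ti7_7⟩ (zzc ⟨(nat_lit 317), zl7_8, ti7_8⟩ (zzc ⟨(nat_lit 280), zl7_9, ti7_9⟩ (zzc ⟨(nat_lit 25), zl7_10, ti7_10⟩ (zzc ⟨(nat_lit 340), zl7_11, ti7_11⟩ zzn))))))))))))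
theorem cw8 : ∀ w < 25, wfC (nat_lit 61) (nat_lit 15) (getC CL8 w) = true :=
  (alS (alS (alS (alS (alS (alS (alS (alS (alS (alS (alS (alS (alS (alS (alS (alS (alS (alS (alS (alS (alS (alS (alS (alS (alS al0 wf8_0) wf8_1) wf8_2) wf8_3) wf8_4) wf8_5) wf8_6) wf8_7) wf8_8) wf8_9) wf8_10) wf8_11) wf8_12) wf8_13) wf8_14) wf8_15) wf8_16) wf8_17) wf8_18) wf8_19) wf8_20) wf8_21) wf8_22) wf8_23) wf8_24)
theorem cr8 : ∀ w < 25, rfCk (nat_lit 61) (nat_lit 3) (nat_lit 61) (nat_lit 15) (nat_lit 9) (nat_lit 0) w TL8 CL7 CL8 = true :=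
  (alS (alS (alS (alS (alS (alS (alS (alS (alS (alS (alS (alS (alS (alS (alS (alS (alS (alS (alS (alS (alS (alS (alS (alS (alS al0 rf8_0) rf8_1) rf8_2) rf8_3) rf8_4) rf8_5) rf8_6) rf8_7) rf8_8) rf8_9) rf8_10) rf8_11) rf8_12) rf8_13) rf8_14) rf8_15) rf8_16) rf8_17) rf8_18) rf8_19) rf8_20) rf8_21) rf8_22) rf8_23) rf8_24)
theorem vm8 : eqVM CL7 CL8 25 = true := by decide +kernel
theorem cs8 : ∀ w < 25, StW (nat_lit 61) (nat_lit 15) (nat_lit 1) (nat_lit 7) (getC CL8 w) :=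
  (alS (alS (alS (alS (alS (alS (alS (alS (alS (alS (alS (alS (alS (alS (alS (alS (alS (alS (alS (alS (alS (alS (alS (alS (alS al0 (stX (nat_lit 2) (nat_lit 0) (nat_lit 256) (Rl.cons (nat_lit 0) (nat_lit 82) Rl.nil) rfl rfl sc8_0 (rlc st8_0_0 rln))) (stX (nat_lit 1) (nat_lit 0) (nat_lit 16) (Rl.cons (nat_lit 0) (nat_lit 56) Rl.nil) rfl rfl sc8_1 (rlc st8_1_0 rln))) (stX (nat_lit 1) (nat_lit 0) (nat_lit 16) (Rl.cons (nat_lit 0) (nat_lit 33) Rl.nil) rfl rfl sc8_2 (rlc st8_2_0 rln))) (stX (nat_lit 1) (nat_lit 120) (nat_lit 16) (Rl.cons (nat_lit 120) (nat_lit 38) Rl.nil) rfl rfl sc8_3 (rlc st8_3_0 rln))) (stX (nat_lit 2) (nat_lit 348) (nat_lit 256) (Rl.cons (nat_lit 348) (nat_lit 72) Rl.nil) rfl rfl sc8_4 (rlc st8_4_0 rln))) (stX (nat_lit 1) (nat_lit 211) (nat_lit 16) (Rl.cons (nat_lit 211) (nat_lit 79) Rl.nil) rfl rfl sc8_5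 (rlc st8_5_0 rln))) (stX (nat_lit 0) (nat_lit 32) (nat_lit 1) (Rl.cons (nat_lit 32) (nat_lit 62) Rl.nil) rfl rfl sc8_6 (rlc st8_6_0 rln))) (stX (nat_lit 0) (nat_lit 35) (nat_lit 1) (Rl.cons (nat_lit 35) (nat_lit 82) Rl.nil) rfl rfl sc8_7 (rlc st8_7_0 rln))) (stX (nat_lit 2) (nat_lit 352) (nat_lit 256) (Rl.cons (nat_lit 352) (nat_lit 73) Rl.nil) rfl rfl sc8_8 (rlc st8_8_0 rln))) (stX (nat_lit 1) (nat_lit 163) (nat_lit 16) (Rl.cons (nat_lit 163) (nat_lit 26) Rl.nil) rfl rfl sc8_9 (rlc st8_9_0 rln))) (stX (nat_lit 1) (nat_lit 70) (nat_lit 16) (Rl.cons (nat_lit 70) (nat_lit 31) Rl.nil) rfl rfl sc8_10 (rlc st8_10_0 rln))) (stX (nat_lit 2) (nat_lit 168) (nat_lit 256) (Rl.cons (nat_lit 168) (nat_lit 27) Rl.nil) rfl rfl sc8_11 (rlc st8_11_0 rln))) (stX (nat_lit 2) (nat_lit 71) (nat_lit 256) (Rl.cons (nat_lit 71) (nat_lit 21) Rl.nil)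 rfl rfl sc8_12 (rlc st8_12_0 rln))) (stX (nat_lit 0) (nat_lit 0) (nat_lit 1) Rl.nil rfl rfl sc8_13 rln)) (stX (nat_lit 0) (nat_lit 0) (nat_lit 1) Rl.nil rfl rfl sc8_14 rln)) (stX (nat_lit 0) (nat_lit 0) (nat_lit 1) Rl.nil rfl rfl sc8_15 rln)) (stX (nat_lit 0) (nat_lit 0) (nat_lit 1) Rl.nil rfl rfl sc8_16 rln)) (stX (nat_lit 0) (nat_lit 0) (nat_lit 1) Rl.nil rfl rfl sc8_17 rln)) (stX (nat_lit 3) (nat_lit 861) (nat_lit 4096) (Rl.cons (nat_lit 861) (nat_lit 190) (Rl.cons (nat_lit 1051) (nat_lit 191) (Rl.cons (nat_lit 1242) (nat_lit 191) Rl.nil))) rfl rfl sc8_18 (rlc st8_18_0 (rlc st8_18_1 (rlc st8_18_2 rln))))) (stX (nat_lit 3) (nat_lit 598) (nat_lit 4096) (Rl.cons (nat_lit 598) (nat_lit 212) (Rl.cons (nat_lit 810) (nat_lit 212) Rl.nil)) rfl rfl sc8_19 (rlc st8_19_0 (rlc st8_19_1 rln)))) (stX (nat_lit 1) (nat_lit 557) (nat_lit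 16) (Rl.cons (nat_lit 557) (nat_lit 103) (Rl.cons (nat_lit 660) (nat_lit 104) Rl.nil)) rfl rfl sc8_20 (rlc st8_20_0 (rlc st8_20_1 rln)))) (stX (nat_lit 1) (nat_lit 498) (nat_lit 16) (Rl.cons (nat_lit 498) (nat_lit 108) (Rl.cons (nat_lit 606) (nat_lit 108) Rl.nil)) rfl rfl sc8_21 (rlc st8_21_0 (rlc st8_21_1 rln)))) (stX (nat_lit 2) (nat_lit 505) (nat_lit 256) (Rl.cons (nat_lit 505) (nat_lit 219) Rl.nil) rfl rfl sc8_22 (rlc st8_22_0 rln))) (stX (nat_lit 1) (nat_lit 448) (nat_lit 16) (Rl.cons (nat_lit 448) (nat_lit 86) Rl.nil) rfl rfl sc8_23 (rlc st8_23_0 rln))) (stX (nat_lit 3) (nat_lit 218) (nat_lit 4096) (Rl.cons (nat_lit 218) (nat_lit 104) Rl.nil) rfl rfl sc8_24 (rlc st8_24_0 rln)))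
theorem ct8 : TiS (nat_lit 61) (nat_lit 15) (nat_lit 2) (nat_lit 7) (nat_lit 11) (nat_lit 25) (nat_lit 1) CL8 :=
  tiS ZZ8 (alS (alS (alS (alS (alS (alS (alS (alS (alS (alS (alS (alS (alS (alS (alS (alS (alS (alS (alS (alS (alS (alS (alS (alS (alS al0 tc8_0) tc8_1) tc8_2) tc8_3) tc8_4) tc8_5) tc8_6) tc8_7) tc8_8) tc8_9) tc8_10) tc8_11) tc8_12) tc8_13) tc8_14) tc8_15) tc8_16) tc8_17) tc8_18) tc8_19) tc8_20) tc8_21) tc8_22) tc8_23) tc8_24)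
  (zzc ⟨(nat_lit 298), zl8_0, ti8_0⟩ (zzc ⟨(nat_lit 54), zl8_1, ti8_1⟩ (zzc ⟨(nat_lit 184), zl8_2, ti8_2⟩ (zzc ⟨(nat_lit 210), zl8_3, ti8_3⟩ (zzc ⟨(nat_lit 15), zl8_4, ti8_4⟩ (zzc ⟨(nat_lit 214), zl8_5, ti8_5⟩ (zzc ⟨(nat_lit 95), zl8_6, ti8_6⟩ (zzc ⟨(nat_lit 3), zl8_7, ti8_7⟩ (zzc ⟨(nat_lit 131), zl8_8, ti8_8⟩ zzn)))))))))
theorem cw9 : ∀ w < 25, wfC (nat_lit 59) (nat_lit 21) (getC CL9 w) = true :=
  (alS (alS (alS (alS (alS (alS (alS (alS (alS (alS (alS (alS (alS (alS (alS (alS (alS (alS (alS (alS (alS (alS (alS (alS (alS al0 wf9_0) wf9_1) wf9_2) wf9_3) wf9_4) wf9_5) wf9_6) wf9_7) wf9_8) wf9_9) wf9_10) wf9_11) wf9_12) wf9_13) wf9_14) wf9_15) wf9_16) wf9_17) wf9_18) wf9_19) wf9_20) wf9_21) wf9_22) wf9_23) wf9_24)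
theorem cr9 : ∀ w < 25, rfCk (nat_lit 61) (nat_lit 15) (nat_lit 59) (nat_lit 21) (nat_lit 9) (nat_lit 0) w TL9 CL8 CL9 = true :=
  (alS (alS (alS (alS (alS (alS (alS (alS (alS (alS (alS (alS (alS (alS (alS (alS (alS (alS (alS (alS (alS (alS (alS (alS (alS al0 rf9_0) rf9_1) rf9_2) rf9_3) rf9_4) rf9_5) rf9_6) rf9_7) rf9_8) rf9_9) rf9_10) rf9_11) rf9_12) rf9_13) rf9_14) rf9_15) rf9_16) rf9_17) rf9_18) rf9_19) rf9_20) rf9_21) rf9_22) rf9_23) rf9_24)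
theorem vm9 : eqVM CL8 CL9 25 = true := by decide +kernel
theorem cs9 : ∀ w < 25, StW (nat_lit 59) (nat_lit 21) (nat_lit 1) (nat_lit 10) (getC CL9 w) :=
  (alS (alS (alS (alS (alS (alS (alS (alS (alS (alS (alS (alS (alS (alS (alS (alS (alS (alS (alS (alS (alS (alS (alS (alS (alS al0 (stX (nat_lit 2) (nat_lit 0) (nat_lit 256) (Rl.cons (nat_lit 0) (nat_lit 50) Rl.nil) rfl rfl sc9_0 (rlc st9_0_0 rln))) (stX (nat_lit 2) (nat_lit 67) (nat_lit 256) (Rl.cons (nat_lit 67) (nat_lit 28) Rl.nil) rfl rfl sc9_1 (rlc st9_1_0 rln))) (stX (nat_lit 1) (nat_lit 0) (nat_lit 16) (Rl.cons (nat_lit 0) (nat_lit 22) Rl.nil) rfl rfl sc9_2 (rlc st9_2_0 rln))) (stX (nat_lit 1) (nat_lit 47) (nat_lit 16) (Rl.cons (nat_lit 47) (nat_lit 19) Rl.nil) rfl rfl sc9_3 (rlc st9_3_0 rln))) (stX (nat_lit 0) (nat_lit 22) (nat_lit 1) (Rl.cons (nat_lit 22) (nat_lit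 35) Rl.nil) rfl rfl sc9_4 (rlc st9_4_0 rln))) (stX (nat_lit 1) (nat_lit 124) (nat_lit 16) (Rl.cons (nat_lit 124) (nat_lit 44) Rl.nil) rfl rfl sc9_5 (rlc st9_5_0 rln))) (stX (nat_lit 0) (nat_lit 25) (nat_lit 1) (Rl.cons (nat_lit 25) (nat_lit 41) Rl.nil) rfl rfl sc9_6 (rlc st9_6_0 rln))) (stX (nat_lit 2) (nat_lit 38) (nat_lit 256) (Rl.cons (nat_lit 38) (nat_lit 19) Rl.nil) rfl rfl sc9_7 (rlc st9_7_0 rln))) (stX (nat_lit 2) (nat_lit 247) (nat_lit 256) (Rl.cons (nat_lit 247) (nat_lit 36) Rl.nil) rfl rfl sc9_8 (rlc st9_8_0 rln))) (stX (nat_lit 1) (nat_lit 95) (nat_lit 16) (Rl.cons (nat_lit 95) (nat_lit 16) Rl.nil) rfl rfl sc9_9 (rlc st9_9_0 rln))) (stX (nat_lit 1) (nat_lit 59) (nat_lit 16) (Rl.cons (nat_lit 59) (nat_lit 28) Rl.nil) rfl rfl sc9_10 (rlc st9_10_0 rln))) (stX (nat_lit 2) (nat_lit 98) (nat_lit 256) (Rl.cons (nat_lit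 98) (nat_lit 16) Rl.nil) rfl rfl sc9_11 (rlc st9_11_0 rln))) (stX (nat_lit 2) (nat_lit 38) (nat_lit 256) (Rl.cons (nat_lit 38) (nat_lit 8) Rl.nil) rfl rfl sc9_12 (rlc st9_12_0 rln))) (stX (nat_lit 0) (nat_lit 0) (nat_lit 1) Rl.nil rfl rfl sc9_13 rln)) (stX (nat_lit 0) (nat_lit 0) (nat_lit 1) Rl.nil rfl rfl sc9_14 rln)) (stX (nat_lit 0) (nat_lit 0) (nat_lit 1) Rl.nil rfl rfl sc9_15 rln)) (stX (nat_lit 0) (nat_lit 0) (nat_lit 1) Rl.nil rfl rfl sc9_16 rln)) (stX (nat_lit 0) (nat_lit 0) (nat_lit 1) Rl.nil rfl rfl sc9_17 rln)) (stX (nat_lit 3) (nat_lit 425) (nat_lit 4096) (Rl.cons (nat_lit 425) (nat_lit 125) (Rl.cons (nat_lit 550) (nat_lit 125) Rl.nil)) rfl rfl sc9_18 (rlc st9_18_0 (rlc st9_18_1 rln)))) (stX (nat_lit 3) (nat_lit 241) (nat_lit 4096) (Rl.cons (nat_lit 241) (nat_lit 129) Rl.nil) rfl rfl sc9_19 (rlc st9_19_0 rln)))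 (stX (nat_lit 1) (nat_lit 259) (nat_lit 16) (Rl.cons (nat_lit 259) (nat_lit 104) Rl.nil) rfl rfl sc9_20 (rlc st9_20_0 rln))) (stX (nat_lit 1) (nat_lit 181) (nat_lit 16) (Rl.cons (nat_lit 181) (nat_lit 87) Rl.nil) rfl rfl sc9_21 (rlc st9_21_0 rln))) (stX (nat_lit 2) (nat_lit 198) (nat_lit 256) (Rl.cons (nat_lit 198) (nat_lit 63) Rl.nil) rfl rfl sc9_22 (rlc st9_22_0 rln))) (stX (nat_lit 1) (nat_lit 221) (nat_lit 16) (Rl.cons (nat_lit 221) (nat_lit 42) Rl.nil) rfl rfl sc9_23 (rlc st9_23_0 rln))) (stX (nat_lit 3) (nat_lit 101) (nat_lit 4096) (Rl.cons (nat_lit 101) (nat_lit 39) Rl.nil) rfl rfl sc9_24 (rlc st9_24_0 rln)))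
theorem ct9 : TiS (nat_lit 59) (nat_lit 21) (nat_lit 2) (nat_lit 10) (nat_lit 11) (nat_lit 25) (nat_lit 1) CL9 :=
  tiS ZZ9 (alS (alS (alS (alS (alS (alS (alS (alS (alS (alS (alS (alS (alS (alS (alS (alS (alS (alS (alS (alS (alS (alS (alS (alS (alS al0 tc9_0) tc9_1) tc9_2) tc9_3) tc9_4) tc9_5) tc9_6) tc9_7) tc9_8) tc9_9) tc9_10) tc9_11) tc9_12) tc9_13) tc9_14) tc9_15) tc9_16) tc9_17) tc9_18) tc9_19) tc9_20) tc9_21) tc9_22) tc9_23) tc9_24)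
  (zzc ⟨(nat_lit 221), zl9_0, ti9_0⟩ (zzc ⟨(nat_lit 32), zl9_1, ti9_1⟩ (zzc ⟨(nat_lit 85), zl9_2, ti9_2⟩ (zzc ⟨(nat_lit 99), zl9_3, ti9_3⟩ (zzc ⟨(nat_lit 8), zl9_4, ti9_4⟩ (zzc ⟨(nat_lit 98), zl9_5, ti9_5⟩ (zzc ⟨(nat_lit 58), zl9_6, ti9_6⟩ (zzc ⟨(nat_lit 2), zl9_7, ti9_7⟩ (zzc ⟨(nat_lit 45), zl9_8, ti9_8⟩ zzn)))))))))
theorem cw10 : ∀ w < 25, wfC (nat_lit 14) (nat_lit 7) (getC CL10 w) = true :=
  (alS (alS (alS (alS (alS (alS (alS (alS (alS (alS (alS (alS (alS (alS (alS (alS (alS (alS (alS (alS (alS (alS (alS (alS (alS al0 wf10_0) wf10_1) wf10_2) wf10_3) wf10_4) wf10_5) wf10_6) wf10_7) wf10_8) wf10_9) wf10_10) wf10_11) wf10_12) wf10_13) wf10_14) wf10_15) wf10_16) wf10_17) wf10_18) wf10_19) wf10_20) wf10_21) wf10_22) wf10_23) wf10_24)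
theorem cr10 : ∀ w < 25, rfCk (nat_lit 59) (nat_lit 21) (nat_lit 14) (nat_lit 7) (nat_lit 9) (nat_lit 0) w TL10 CL9 CL10 = true :=
  (alS (alS (alS (alS (alS (alS (alS (alS (alS (alS (alS (alS (alS (alS (alS (alS (alS (alS (alS (alS (alS (alS (alS (alS (alS al0 rf10_0) rf10_1) rf10_2) rf10_3) rf10_4) rf10_5) rf10_6) rf10_7) rf10_8) rf10_9) rf10_10) rf10_11) rf10_12) rf10_13) rf10_14) rf10_15) rf10_16) rf10_17) rf10_18) rf10_19) rf10_20) rf10_21) rf10_22) rf10_23) rf10_24)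
theorem vm10 : eqVM CL9 CL10 25 = true := by decide +kernel
theorem cs10 : ∀ w < 25, StW (nat_lit 14) (nat_lit 7) (nat_lit 1) (nat_lit 3) (getC CL10 w) :=
  (alS (alS (alS (alS (alS (alS (alS (alS (alS (alS (alS (alS (alS (alS (alS (alS (alS (alS (alS (alS (alS (alS (alS (alS (alS al0 (stX (nat_lit 2) (nat_lit 0) (nat_lit 256) (Rl.cons (nat_lit 0) (nat_lit 6) Rl.nil) rfl rfl sc10_0 (rlc st10_0_0 rln))) (stX (nat_lit 1) (nat_lit 0) (nat_lit 16) Rl.nil rfl rfl sc10_1 rln)) (stX (nat_lit 1) (nat_lit 0) (nat_lit 16) (Rl.cons (nat_lit 0) (nat_lit 4) Rl.nil) rfl rfl sc10_2 (rlc st10_2_0 rln))) (stX (nat_lit 0) (nat_lit 1) (nat_lit 1) (Rl.cons (nat_lit 1) (nat_lit 1) Rl.nil) rfl rfl sc10_3 (rlc st10_3_0 rln))) (stX (nat_lit 0) (nat_lit 1) (nat_lit 1) (Rl.cons (nat_lit 1) (nat_lit 1) Rl.nil) rfl rfl sc10_4 (rlc st10_4_0 rln)))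 (stX (nat_lit 1) (nat_lit 15) (nat_lit 16) (Rl.cons (nat_lit 15) (nat_lit 6) Rl.nil) rfl rfl sc10_5 (rlc st10_5_0 rln))) (stX (nat_lit 0) (nat_lit 3) (nat_lit 1) (Rl.cons (nat_lit 3) (nat_lit 4) Rl.nil) rfl rfl sc10_6 (rlc st10_6_0 rln))) (stX (nat_lit 0) (nat_lit 0) (nat_lit 1) Rl.nil rfl rfl sc10_7 rln)) (stX (nat_lit 2) (nat_lit 12) (nat_lit 256) (Rl.cons (nat_lit 12) (nat_lit 1) Rl.nil) rfl rfl sc10_8 (rlc st10_8_0 rln))) (stX (nat_lit 0) (nat_lit 0) (nat_lit 1) Rl.nil rfl rfl sc10_9 rln)) (stX (nat_lit 0) (nat_lit 4) (nat_lit 1) (Rl.cons (nat_lit 4) (nat_lit 2) Rl.nil) rfl rfl sc10_10 (rlc st10_10_0 rln))) (stX (nat_lit 0) (nat_lit 0) (nat_lit 1) Rl.nil rfl rfl sc10_11 rln)) (stX (nat_lit 2) (nat_lit 0) (nat_lit 256) Rl.nil rfl rfl sc10_12 rln)) (stX (nat_lit 0) (nat_lit 0) (nat_lit 1) Rl.nil rfl rfl sc10_13 rln))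 (stX (nat_lit 0) (nat_lit 0) (nat_lit 1) Rl.nil rfl rfl sc10_14 rln)) (stX (nat_lit 0) (nat_lit 0) (nat_lit 1) Rl.nil rfl rfl sc10_15 rln)) (stX (nat_lit 0) (nat_lit 0) (nat_lit 1) Rl.nil rfl rfl sc10_16 rln)) (stX (nat_lit 0) (nat_lit 0) (nat_lit 1) Rl.nil rfl rfl sc10_17 rln)) (stX (nat_lit 3) (nat_lit 27) (nat_lit 4096) (Rl.cons (nat_lit 27) (nat_lit 15) Rl.nil) rfl rfl sc10_18 (rlc st10_18_0 rln))) (stX (nat_lit 3) (nat_lit 6) (nat_lit 4096) (Rl.cons (nat_lit 6) (nat_lit 2) Rl.nil) rfl rfl sc10_19 (rlc st10_19_0 rln))) (stX (nat_lit 2) (nat_lit 18) (nat_lit 256) (Rl.cons (nat_lit 18) (nat_lit 4) Rl.nil) rfl rfl sc10_20 (rlc st10_20_0 rln))) (stX (nat_lit 1) (nat_lit 0) (nat_lit 16) Rl.nil rfl rfl sc10_21 rln)) (stX (nat_lit 2) (nat_lit 5) (nat_lit 256) (Rl.cons (nat_lit 5) (nat_lit 1) Rl.nil) rfl rfl sc10_22 (rlc st10_22_0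 rln))) (stX (nat_lit 0) (nat_lit 0) (nat_lit 1) Rl.nil rfl rfl sc10_23 rln)) (stX (nat_lit 0) (nat_lit 0) (nat_lit 1) Rl.nil rfl rfl sc10_24 rln))
theorem ct10 : TiS (nat_lit 14) (nat_lit 7) (nat_lit 2) (nat_lit 3) (nat_lit 11) (nat_lit 25) (nat_lit 1) CL10 :=
  tiS ZZ10 (alS (alS (alS (alS (alS (alS (alS (alS (alS (alS (alS (alS (alS (alS (alS (alS (alS (alS (alS (alS (alS (alS (alS (alS (alS al0 tc10_0) tc10_1) tc10_2) tc10_3) tc10_4) tc10_5) tc10_6) tc10_7) tc10_8) tc10_9) tc10_10) tc10_11) tc10_12) tc10_13) tc10_14) tc10_15) tc10_16) tc10_17) tc10_18) tc10_19) tc10_20) tc10_21) tc10_22) tc10_23) tc10_24)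
  (zzc ⟨(nat_lit 20), zl10_0, ti10_0⟩ (zzc ⟨(nat_lit 2), zl10_1, ti10_1⟩ (zzc ⟨(nat_lit 4), zl10_2, ti10_2⟩ (zzc ⟨(nat_lit 2), zl10_3, ti10_3⟩ (zzc ⟨(nat_lit 1), zl10_4, ti10_4⟩ zzn)))))
theorem cw11 : ∀ w < 25, wfC (nat_lit 1) (nat_lit 1) (getC CL11 w) = true :=
  (alS (alS (alS (alS (alS (alS (alS (alS (alS (alS (alS (alS (alS (alS (alS (alS (alS (alS (alS (alS (alS (alS (alS (alS (alS al0 wf11_0) wf11_1) wf11_2) wf11_3) wf11_4) wf11_5) wf11_6) wf11_7) wf11_8) wf11_9) wf11_10) wf11_11) wf11_12) wf11_13) wf11_14) wf11_15) wf11_16) wf11_17) wf11_18) wf11_19) wf11_20) wf11_21) wf11_22) wf11_23) wf11_24)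
theorem cr11 : ∀ w < 25, rfCk (nat_lit 14) (nat_lit 7) (nat_lit 1) (nat_lit 1) (nat_lit 9) (nat_lit 0) w TL11 CL10 CL11 = true :=
  (alS (alS (alS (alS (alS (alS (alS (alS (alS (alS (alS (alS (alS (alS (alS (alS (alS (alS (alS (alS (alS (alS (alS (alS (alS al0 rf11_0) rf11_1) rf11_2) rf11_3) rf11_4) rf11_5) rf11_6) rf11_7) rf11_8) rf11_9) rf11_10) rf11_11) rf11_12) rf11_13) rf11_14) rf11_15) rf11_16) rf11_17) rf11_18) rf11_19) rf11_20) rf11_21) rf11_22) rf11_23) rf11_24)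
theorem vm11 : eqVM CL10 CL11 25 = true := by decide +kernel
theorem cd : ∀ w < 25, deadCk (nat_lit 1) (nat_lit 1) (getC CL11 w) = true :=
  (alS (alS (alS (alS (alS (alS (alS (alS (alS (alS (alS (alS (alS (alS (alS (alS (alS (alS (alS (alS (alS (alS (alS (alS (alS al0 de11_0) de11_1) de11_2) de11_3) de11_4) de11_5) de11_6) de11_7) de11_8) de11_9) de11_10) de11_11) de11_12) de11_13) de11_14) de11_15) de11_16) de11_17) de11_18) de11_19) de11_20) de11_21) de11_22) de11_23) de11_24)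
theorem rc : recCk (recP 11 (1, 2, 3) 0 1 6).W 25 CL0 = true := by decide +kernel
theorem occ (O : OccL (recP 11 (1, 2, 3) 0 1 6) (locOK (Nat.testBit 0) (Nat.testBit 1) (Nat.testBit 6))) :
    False := by
  have k := first_stage O 1 (nlOK_A (by decide) (by decide)) rfl rfl rfl rfl rc cw0 cp
  have k := run_stage k rfl (nat_lit 1) (nat_lit 2) (nat_lit 2) (nat_lit 2) rfl cs0 ct0
  have k := next_stage k (nat_lit 61) (nat_lit 2) (nat_lit 1) (nat_lit 1) rfl rfl rfl rfl rfl vm1 cw1 cr1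
  have k := run_stage k rfl (nat_lit 2) (nat_lit 0) (nat_lit 1) (nat_lit 1) rfl cs1 ct1
  have k := next_stage k (nat_lit 61) (nat_lit 4) (nat_lit 9) (nat_lit 0) rfl rfl rfl rfl rfl vm2 cw2 cr2
  have k := run_stage k rfl (nat_lit 1) (nat_lit 2) (nat_lit 2) (nat_lit 1) rfl cs2 ct2
  have k := next_stage k (nat_lit 61) (nat_lit 2) (nat_lit 4) (nat_lit 2) rfl rfl rfl rfl rfl vm3 cw3 cr3
  have k := run_stage k rfl (nat_lit 2) (nat_lit 0) (nat_lit 1) (nat_lit 1) rfl cs3 ct3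
  have k := next_stage k (nat_lit 61) (nat_lit 4) (nat_lit 9) (nat_lit 0) rfl rfl rfl rfl rfl vm4 cw4 cr4
  have k := run_stage k rfl (nat_lit 1) (nat_lit 2) (nat_lit 2) (nat_lit 1) rfl cs4 ct4
  have k := next_stage k (nat_lit 61) (nat_lit 2) (nat_lit 0) (nat_lit 4) rfl rfl rfl rfl rfl vm5 cw5 cr5
  have k := run_stage k rfl (nat_lit 2) (nat_lit 0) (nat_lit 1) (nat_lit 1) rfl cs5 ct5
  have k := next_stage k (nat_lit 61) (nat_lit 4) (nat_lit 9) (nat_lit 0) rfl rfl rfl rfl rfl vm6 cw6 cr6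
  have k := run_stage k rfl (nat_lit 1) (nat_lit 2) (nat_lit 2) (nat_lit 1) rfl cs6 ct6
  have k := next_stage k (nat_lit 61) (nat_lit 3) (nat_lit 3) (nat_lit 8) rfl rfl rfl rfl rfl vm7 cw7 cr7
  have k := run_stage k rfl (nat_lit 1) (nat_lit 1) (nat_lit 2) (nat_lit 1) rfl cs7 ct7
  have k := next_stage k (nat_lit 61) (nat_lit 15) (nat_lit 9) (nat_lit 0) rfl rfl rfl rfl rfl vm8 cw8 cr8
  have k := run_stage k rfl (nat_lit 1) (nat_lit 7) (nat_lit 2) (nat_lit 7) rfl cs8 ct8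
  have k := next_stage k (nat_lit 59) (nat_lit 21) (nat_lit 9) (nat_lit 0) rfl rfl rfl rfl rfl vm9 cw9 cr9
  have k := run_stage k rfl (nat_lit 1) (nat_lit 10) (nat_lit 2) (nat_lit 10) rfl cs9 ct9
  have k := next_stage k (nat_lit 14) (nat_lit 7) (nat_lit 9) (nat_lit 0) rfl rfl rfl rfl rfl vm10 cw10 cr10
  have k := run_stage k rfl (nat_lit 1) (nat_lit 3) (nat_lit 2) (nat_lit 3) rfl cs10 ct10
  have k := next_stage k (nat_lit 1) (nat_lit 1) (nat_lit 9) (nat_lit 0) rfl rfl rfl rfl rfl vm11 cw11 cr11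
  exact last_stage k rfl cd
theorem res : ∃ ok, OkP (1, 2, 3) ok ∧ IsEmpty (LTil (shP 11 (1, 2, 3) ok)) :=
  dead_P 0 1 6 (by decide +kernel) rc occ

end Pool.Agent.NNr.R11_1_2_3

namespace Pool.Agent.NNr.R11_1_3_8
open Pool.Agent.NNe Pool.Agent.NNc

theorem cw0 : ∀ w < 15, wfC (nat_lit 61) (nat_lit 29) (getC CL0 w) = true :=
  (alS (alS (alS (alS (alS (alS (alS (alS (alS (alS (alS (alS (alS (alS (alS al0 wf0_0) wf0_1) wf0_2) wf0_3) wf0_4) wf0_5) wf0_6) wf0_7) wf0_8) wf0_9) wf0_10) wf0_11) wf0_12) wf0_13) wf0_14)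
theorem cp : ∀ w < 15, plCk (nat_lit 61) (nat_lit 29) (nat_lit 11) (nat_lit 5) (nat_lit 0) (nat_lit 2) (nat_lit 15) (nat_lit 4) w nl0 CL0 = true :=
  (alS (alS (alS (alS (alS (alS (alS (alS (alS (alS (alS (alS (alS (alS (alS al0 pl0_0) pl0_1) pl0_2) pl0_3) pl0_4) pl0_5) pl0_6) pl0_7) pl0_8) pl0_9) pl0_10) pl0_11) pl0_12) pl0_13) pl0_14)
theorem cs0 : ∀ w < 15, StW (nat_lit 61) (nat_lit 29) (nat_lit 1) (nat_lit 14) (getC CL0 w) :=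
  (alS (alS (alS (alS (alS (alS (alS (alS (alS (alS (alS (alS (alS (alS (alS al0 (stX (nat_lit 2) (nat_lit 0) (nat_lit 256) (Rl.cons (nat_lit 0) (nat_lit 14) Rl.nil) rfl rfl sc0_0 (rlc st0_0_0 rln))) (stX (nat_lit 1) (nat_lit 0) (nat_lit 16) (Rl.cons (nat_lit 0) (nat_lit 4) Rl.nil) rfl rfl sc0_1 (rlc st0_1_0 rln))) (stX (nat_lit 0) (nat_lit 12) (nat_lit 1) (Rl.cons (nat_lit 12) (nat_lit 11) Rl.nil) rfl rfl sc0_2 (rlc st0_2_0 rln))) (stX (nat_lit 0) (nat_lit 20) (nat_lit 1) (Rl.cons (nat_lit 20) (nat_lit 17) Rl.nil) rfl rfl sc0_3 (rlc st0_3_0 rln))) (stX (nat_lit 0) (nat_lit 3) (nat_lit 1) (Rl.cons (nat_lit 3) (nat_lit 4) Rl.nil) rfl rfl sc0_4 (rlc st0_4_0 rln))) (stX (nat_lit 2) (nat_lit 26) (nat_lit 256) (Rl.cons (nat_lit 26) (nat_lit 7) Rl.nil) rfl rfl sc0_5 (rlc st0_5_0 rln))) (stX (nat_lit 1) (nat_lit 25) (nat_lit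 16) (Rl.cons (nat_lit 25) (nat_lit 8) Rl.nil) rfl rfl sc0_6 (rlc st0_6_0 rln))) (stX (nat_lit 1) (nat_lit 0) (nat_lit 16) Rl.nil rfl rfl sc0_7 rln)) (stX (nat_lit 2) (nat_lit 7) (nat_lit 256) (Rl.cons (nat_lit 7) (nat_lit 3) Rl.nil) rfl rfl sc0_8 (rlc st0_8_0 rln))) (stX (nat_lit 3) (nat_lit 77) (nat_lit 4096) (Rl.cons (nat_lit 77) (nat_lit 64) Rl.nil) rfl rfl sc0_9 (rlc st0_9_0 rln))) (stX (nat_lit 1) (nat_lit 87) (nat_lit 16) (Rl.cons (nat_lit 87) (nat_lit 38) Rl.nil) rfl rfl sc0_10 (rlc st0_10_0 rln))) (stX (nat_lit 1) (nat_lit 61) (nat_lit 16) (Rl.cons (nat_lit 61) (nat_lit 27) Rl.nil) rfl rfl sc0_11 (rlc st0_11_0 rln))) (stX (nat_lit 2) (nat_lit 69) (nat_lit 256) (Rl.cons (nat_lit 69) (nat_lit 47) Rl.nil) rfl rfl sc0_12 (rlc st0_12_0 rln))) (stX (nat_lit 1) (nat_lit 27) (nat_lit 16) (Rl.cons (nat_lit 27) (nat_lit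 11) Rl.nil) rfl rfl sc0_13 (rlc st0_13_0 rln))) (stX (nat_lit 1) (nat_lit 0) (nat_lit 16) Rl.nil rfl rfl sc0_14 rln))
theorem ct0 : TiS (nat_lit 61) (nat_lit 29) (nat_lit 2) (nat_lit 14) (nat_lit 11) (nat_lit 15) (nat_lit 1) CL0 :=
  tiS ZZ0 (alS (alS (alS (alS (alS (alS (alS (alS (alS (alS (alS (alS (alS (alS (alS al0 tc0_0) tc0_1) tc0_2) tc0_3) tc0_4) tc0_5) tc0_6) tc0_7) tc0_8) tc0_9) tc0_10) tc0_11) tc0_12) tc0_13) tc0_14)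
  (zzc ⟨(nat_lit 161), zl0_0, ti0_0⟩ zzn)
theorem cw1 : ∀ w < 15, wfC (nat_lit 3) (nat_lit 2) (getC CL1 w) = true :=
  (alS (alS (alS (alS (alS (alS (alS (alS (alS (alS (alS (alS (alS (alS (alS al0 wf1_0) wf1_1) wf1_2) wf1_3) wf1_4) wf1_5) wf1_6) wf1_7) wf1_8) wf1_9) wf1_10) wf1_11) wf1_12) wf1_13) wf1_14)
theorem cr1 : ∀ w < 15, rfCk (nat_lit 61) (nat_lit 29) (nat_lit 3) (nat_lit 2) (nat_lit 9) (nat_lit 0) w TL1 CL0 CL1 = true :=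
  (alS (alS (alS (alS (alS (alS (alS (alS (alS (alS (alS (alS (alS (alS (alS al0 rf1_0) rf1_1) rf1_2) rf1_3) rf1_4) rf1_5) rf1_6) rf1_7) rf1_8) rf1_9) rf1_10) rf1_11) rf1_12) rf1_13) rf1_14)
theorem vm1 : eqVM CL0 CL1 15 = true := by decide +kernel
theorem cs1 : ∀ w < 15, StW (nat_lit 3) (nat_lit 2) (nat_lit 2) (nat_lit 0) (getC CL1 w) :=
  (alS (alS (alS (alS (alS (alS (alS (alS (alS (alS (alS (alS (alS (alS (alS al0 (stX (nat_lit 2) (nat_lit 0) (nat_lit 256) Rl.nil rfl rfl sc1_0 rln)) (stX (nat_lit 1) (nat_lit 0) (nat_lit 16) Rl.nil rfl rfl sc1_1 rln)) (stX (nat_lit 0) (nat_lit 0) (nat_lit 1) Rl.nil rfl rfl sc1_2 rln)) (stX (nat_lit 0) (nat_lit 0) (nat_lit 1) Rl.nil rfl rfl sc1_3 rln)) (stX (nat_lit 0) (nat_lit 0) (nat_lit 1) Rl.nil rfl rfl sc1_4 rln)) (stX (nat_lit 0) (nat_lit 0) (nat_lit 1) Rl.nil rfl rfl sc1_5 rln))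 (stX (nat_lit 0) (nat_lit 0) (nat_lit 1) Rl.nil rfl rfl sc1_6 rln)) (stX (nat_lit 0) (nat_lit 0) (nat_lit 1) Rl.nil rfl rfl sc1_7 rln)) (stX (nat_lit 0) (nat_lit 0) (nat_lit 1) Rl.nil rfl rfl sc1_8 rln)) (stX (nat_lit 1) (nat_lit 0) (nat_lit 16) Rl.nil rfl rfl sc1_9 rln)) (stX (nat_lit 0) (nat_lit 0) (nat_lit 1) (Rl.cons (nat_lit 0) (nat_lit 8) Rl.nil) rfl rfl sc1_10 (rlc (starCk_zero _ _ _ _ _ _ _) rln))) (stX (nat_lit 0) (nat_lit 0) (nat_lit 1) Rl.nil rfl rfl sc1_11 rln)) (stX (nat_lit 0) (nat_lit 0) (nat_lit 1) Rl.nil rfl rfl sc1_12 rln)) (stX (nat_lit 0) (nat_lit 0) (nat_lit 1) Rl.nil rfl rfl sc1_13 rln)) (stX (nat_lit 0) (nat_lit 0) (nat_lit 1) Rl.nil rfl rfl sc1_14 rln))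
theorem ct1 : TiS (nat_lit 3) (nat_lit 2) (nat_lit 1) (nat_lit 1) (nat_lit 11) (nat_lit 15) (nat_lit 1) CL1 :=
  tiS ZZ1 (alS (alS (alS (alS (alS (alS (alS (alS (alS (alS (alS (alS (alS (alS (alS al0 tc1_0) tc1_1) tc1_2) tc1_3) tc1_4) tc1_5) tc1_6) tc1_7) tc1_8) tc1_9) tc1_10) tc1_11) tc1_12) tc1_13) tc1_14)
  (zzc ⟨(nat_lit 1), zl1_0, ti1_0⟩ zzn)
theorem cd : ∀ w < 15, deadCk (nat_lit 3) (nat_lit 2) (getC CL1 w) = true :=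
  (alS (alS (alS (alS (alS (alS (alS (alS (alS (alS (alS (alS (alS (alS (alS al0 de1_0) de1_1) de1_2) de1_3) de1_4) de1_5) de1_6) de1_7) de1_8) de1_9) de1_10) de1_11) de1_12) de1_13) de1_14)
theorem rc : recCk (recP 11 (1, 3, 8) 5 0 2).W 15 CL0 = true := by decide +kernel
theorem occ (O : OccL (recP 11 (1, 3, 8) 5 0 2) (locOK (Nat.testBit 5) (Nat.testBit 0) (Nat.testBit 2))) :
    False := by
  have k := first_stage O 1 (nlOK_A (by decide) (by decide)) rfl rfl rfl rfl rc cw0 cp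
  have k := run_stage k rfl (nat_lit 1) (nat_lit 14) (nat_lit 2) (nat_lit 14) rfl cs0 ct0
  have k := next_stage k (nat_lit 3) (nat_lit 2) (nat_lit 9) (nat_lit 0) rfl rfl rfl rfl rfl vm1 cw1 cr1
  have k := run_stage k rfl (nat_lit 2) (nat_lit 0) (nat_lit 1) (nat_lit 1) rfl cs1 ct1
  exact last_stage k rfl cd
theorem res : ∃ ok, OkP (1, 3, 8) ok ∧ IsEmpty (LTil (shP 11 (1, 3, 8) ok)) :=
  dead_P 5 0 2 (by decide +kernel) rc occ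

end Pool.Agent.NNr.R11_1_3_8

namespace Pool.Agent.NNr.R11_1_7_12
open Pool.Agent.NNe Pool.Agent.NNc

theorem cw0 : ∀ w < 8, wfC (nat_lit 48) (nat_lit 2) (getC CL0 w) = true :=
  (alS (alS (alS (alS (alS (alS (alS (alS al0 wf0_0) wf0_1) wf0_2) wf0_3) wf0_4) wf0_5) wf0_6) wf0_7)
theorem cp : ∀ w < 8, plCk (nat_lit 48) (nat_lit 2) (nat_lit 11) (nat_lit 5) (nat_lit 0) (nat_lit 2) (nat_lit 8) (nat_lit 4) w nl0 CL0 = true :=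
  (alS (alS (alS (alS (alS (alS (alS (alS al0 pl0_0) pl0_1) pl0_2) pl0_3) pl0_4) pl0_5) pl0_6) pl0_7)
theorem cs0 : ∀ w < 8, StW (nat_lit 48) (nat_lit 2) (nat_lit 2) (nat_lit 0) (getC CL0 w) :=
  (alS (alS (alS (alS (alS (alS (alS (alS al0 (stX (nat_lit 1) (nat_lit 0) (nat_lit 16) (Rl.cons (nat_lit 0) (nat_lit 23) Rl.nil) rfl rfl sc0_0 (rlc (starCk_zero _ _ _ _ _ _ _) rln))) (stX (nat_lit 0) (nat_lit 0) (nat_lit 1) (Rl.cons (nat_lit 0) (nat_lit 52) Rl.nil) rfl rfl sc0_1 (rlc (starCk_zero _ _ _ _ _ _ _) rln))) (stX (nat_lit 0) (nat_lit 0) (nat_lit 1) (Rl.cons (nat_lit 0) (nat_lit 24) Rl.nil) rfl rfl sc0_2 (rlc (starCk_zero _ _ _ _ _ _ _) rln))) (stX (nat_lit 0) (nat_lit 0) (nat_lit 1) (Rl.cons (nat_lit 0) (nat_lit 12) Rl.nil) rfl rfl sc0_3 (rlc (starCk_zero _ _ _ _ _ _ _) rln))) (stX (nat_lit 0) (nat_lit 0) (nat_lit 1)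 Rl.nil rfl rfl sc0_4 rln)) (stX (nat_lit 0) (nat_lit 0) (nat_lit 1) (Rl.cons (nat_lit 0) (nat_lit 344) Rl.nil) rfl rfl sc0_5 (rlc (starCk_zero _ _ _ _ _ _ _) rln))) (stX (nat_lit 0) (nat_lit 0) (nat_lit 1) (Rl.cons (nat_lit 0) (nat_lit 81) Rl.nil) rfl rfl sc0_6 (rlc (starCk_zero _ _ _ _ _ _ _) rln))) (stX (nat_lit 0) (nat_lit 0) (nat_lit 1) (Rl.cons (nat_lit 0) (nat_lit 78) Rl.nil) rfl rfl sc0_7 (rlc (starCk_zero _ _ _ _ _ _ _) rln)))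
theorem ct0 : TiS (nat_lit 48) (nat_lit 2) (nat_lit 1) (nat_lit 1) (nat_lit 11) (nat_lit 8) (nat_lit 1) CL0 :=
  tiS ZZ0 (alS (alS (alS (alS (alS (alS (alS (alS al0 tc0_0) tc0_1) tc0_2) tc0_3) tc0_4) tc0_5) tc0_6) tc0_7)
  (zzc ⟨(nat_lit 53), zl0_0, ti0_0⟩ zzn)
theorem cw1 : ∀ w < 8, wfC (nat_lit 24) (nat_lit 4) (getC CL1 w) = true :=
  (alS (alS (alS (alS (alS (alS (alS (alS al0 wf1_0) wf1_1) wf1_2) wf1_3) wf1_4) wf1_5) wf1_6) wf1_7)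
theorem cr1 : ∀ w < 8, rfCk (nat_lit 48) (nat_lit 2) (nat_lit 24) (nat_lit 4) (nat_lit 9) (nat_lit 0) w TL1 CL0 CL1 = true :=
  (alS (alS (alS (alS (alS (alS (alS (alS al0 rf1_0) rf1_1) rf1_2) rf1_3) rf1_4) rf1_5) rf1_6) rf1_7)
theorem vm1 : eqVM CL0 CL1 8 = true := by decide +kernel
theorem cs1 : ∀ w < 8, StW (nat_lit 24) (nat_lit 4) (nat_lit 1) (nat_lit 2) (getC CL1 w) :=
  (alS (alS (alS (alS (alS (alS (alS (alS al0 (stX (nat_lit 2) (nat_lit 9) (nat_lit 256) (Rl.cons (nat_lit 9) (nat_lit 3) Rl.nil) rfl rfl sc1_0 (rlc st1_0_0 rln))) (stX (nat_lit 1) (nat_lit 7) (nat_lit 16) (Rl.cons (nat_lit 7) (nat_lit 2) Rl.nil) rfl rfl sc1_1 (rlc st1_1_0 rln))) (stX (nat_lit 0) (nat_lit 4) (nat_lit 1) (Rl.cons (nat_lit 4) (nat_lit 2) Rl.nil) rfl rfl sc1_2 (rlc st1_2_0 rln))) (stX (nat_lit 0) (nat_lit 0) (nat_lit 1) Rl.nil rfl rfl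 sc1_3 rln)) (stX (nat_lit 0) (nat_lit 0) (nat_lit 1) Rl.nil rfl rfl sc1_4 rln)) (stX (nat_lit 1) (nat_lit 24) (nat_lit 16) (Rl.cons (nat_lit 24) (nat_lit 10) Rl.nil) rfl rfl sc1_5 (rlc st1_5_0 rln))) (stX (nat_lit 0) (nat_lit 0) (nat_lit 1) Rl.nil rfl rfl sc1_6 rln)) (stX (nat_lit 0) (nat_lit 0) (nat_lit 1) Rl.nil rfl rfl sc1_7 rln))
theorem ct1 : TiS (nat_lit 24) (nat_lit 4) (nat_lit 2) (nat_lit 1) (nat_lit 11) (nat_lit 8) (nat_lit 1) CL1 :=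
  tiS ZZ1 (alS (alS (alS (alS (alS (alS (alS (alS al0 tc1_0) tc1_1) tc1_2) tc1_3) tc1_4) tc1_5) tc1_6) tc1_7)
  (zzc ⟨(nat_lit 17), zl1_0, ti1_0⟩ zzn)
theorem cw2 : ∀ w < 8, wfC (nat_lit 1) (nat_lit 1) (getC CL2 w) = true :=
  (alS (alS (alS (alS (alS (alS (alS (alS al0 wf2_0) wf2_1) wf2_2) wf2_3) wf2_4) wf2_5) wf2_6) wf2_7)
theorem cr2 : ∀ w < 8, rfCk (nat_lit 24) (nat_lit 4) (nat_lit 1) (nat_lit 1) (nat_lit 9) (nat_lit 0) w TL2 CL1 CL2 = true :=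
  (alS (alS (alS (alS (alS (alS (alS (alS al0 rf2_0) rf2_1) rf2_2) rf2_3) rf2_4) rf2_5) rf2_6) rf2_7)
theorem vm2 : eqVM CL1 CL2 8 = true := by decide +kernel
theorem cd : ∀ w < 8, deadCk (nat_lit 1) (nat_lit 1) (getC CL2 w) = true :=
  (alS (alS (alS (alS (alS (alS (alS (alS al0 de2_0) de2_1) de2_2) de2_3) de2_4) de2_5) de2_6) de2_7)
theorem rc : recCk (recP 11 (1, 7, 12) 5 0 2).W 8 CL0 = true := by decide +kernel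
theorem occ (O : OccL (recP 11 (1, 7, 12) 5 0 2) (locOK (Nat.testBit 5) (Nat.testBit 0) (Nat.testBit 2))) :
    False := by
  have k := first_stage O 1 (nlOK_A (by decide) (by decide)) rfl rfl rfl rfl rc cw0 cp
  have k := run_stage k rfl (nat_lit 2) (nat_lit 0) (nat_lit 1) (nat_lit 1) rfl cs0 ct0
  have k := next_stage k (nat_lit 24) (nat_lit 4) (nat_lit 9) (nat_lit 0) rfl rfl rfl rfl rfl vm1 cw1 cr1
  have k := run_stage k rfl (nat_lit 1) (nat_lit 2) (nat_lit 2) (nat_lit 1) rfl cs1 ct1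
  have k := next_stage k (nat_lit 1) (nat_lit 1) (nat_lit 9) (nat_lit 0) rfl rfl rfl rfl rfl vm2 cw2 cr2
  exact last_stage k rfl cd
theorem res : ∃ ok, OkP (1, 7, 12) ok ∧ IsEmpty (LTil (shP 11 (1, 7, 12) ok)) :=
  dead_P 5 0 2 (by decide +kernel) rc occ

end Pool.Agent.NNr.R11_1_7_12

namespace Pool.Agent.NNr.R11_2_3_6
open Pool.Agent.NNe Pool.Agent.NNc

theorem cw0 : ∀ w < 13, wfC (nat_lit 52) (nat_lit 11) (getC CL0 w) = true :=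
  (alS (alS (alS (alS (alS (alS (alS (alS (alS (alS (alS (alS (alS al0 wf0_0) wf0_1) wf0_2) wf0_3) wf0_4) wf0_5) wf0_6) wf0_7) wf0_8) wf0_9) wf0_10) wf0_11) wf0_12)
theorem cp : ∀ w < 13, plCk (nat_lit 52) (nat_lit 11) (nat_lit 11) (nat_lit 0) (nat_lit 0) (nat_lit 7) (nat_lit 13) (nat_lit 4) w nl0 CL0 = true :=
  (alS (alS (alS (alS (alS (alS (alS (alS (alS (alS (alS (alS (alS al0 pl0_0) pl0_1) pl0_2) pl0_3) pl0_4) pl0_5) pl0_6) pl0_7) pl0_8) pl0_9) pl0_10) pl0_11) pl0_12)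
theorem cs0 : ∀ w < 13, StW (nat_lit 52) (nat_lit 11) (nat_lit 1) (nat_lit 5) (getC CL0 w) :=
  (alS (alS (alS (alS (alS (alS (alS (alS (alS (alS (alS (alS (alS al0 (stX (nat_lit 0) (nat_lit 13) (nat_lit 1) (Rl.cons (nat_lit 13) (nat_lit 14) Rl.nil) rfl rfl sc0_0 (rlc st0_0_0 rln))) (stX (nat_lit 0) (nat_lit 20) (nat_lit 1) (Rl.cons (nat_lit 20) (nat_lit 15) Rl.nil) rfl rfl sc0_1 (rlc st0_1_0 rln))) (stX (nat_lit 2) (nat_lit 58) (nat_lit 256) (Rl.cons (nat_lit 58) (nat_lit 12) Rl.nil) rfl rfl sc0_2 (rlc st0_2_0 rln))) (stX (nat_lit 0) (nat_lit 8) (nat_lit 1) (Rl.cons (nat_lit 8) (nat_lit 5) Rl.nil) rfl rfl sc0_3 (rlc st0_3_0 rln))) (stX (nat_lit 2) (nat_lit 22) (nat_lit 256) (Rl.cons (nat_lit 22) (nat_lit 12) Rl.nil) rfl rfl sc0_4 (rlc st0_4_0 rln))) (stX (nat_lit 2) (nat_lit 48) (nat_lit 256) (Rl.cons (nat_lit 48) (nat_lit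 11) Rl.nil) rfl rfl sc0_5 (rlc st0_5_0 rln))) (stX (nat_lit 0) (nat_lit 5) (nat_lit 1) (Rl.cons (nat_lit 5) (nat_lit 4) Rl.nil) rfl rfl sc0_6 (rlc st0_6_0 rln))) (stX (nat_lit 2) (nat_lit 12) (nat_lit 256) (Rl.cons (nat_lit 12) (nat_lit 4) Rl.nil) rfl rfl sc0_7 (rlc st0_7_0 rln))) (stX (nat_lit 1) (nat_lit 6) (nat_lit 16) (Rl.cons (nat_lit 6) (nat_lit 3) Rl.nil) rfl rfl sc0_8 (rlc st0_8_0 rln))) (stX (nat_lit 0) (nat_lit 0) (nat_lit 1) Rl.nil rfl rfl sc0_9 rln)) (stX (nat_lit 1) (nat_lit 68) (nat_lit 16) (Rl.cons (nat_lit 68) (nat_lit 30) Rl.nil) rfl rfl sc0_10 (rlc st0_10_0 rln))) (stX (nat_lit 0) (nat_lit 23) (nat_lit 1) (Rl.cons (nat_lit 23) (nat_lit 28) Rl.nil) rfl rfl sc0_11 (rlc st0_11_0 rln))) (stX (nat_lit 1) (nat_lit 59) (nat_lit 16) (Rl.cons (nat_lit 59) (nat_lit 22) Rl.nil) rfl rfl sc0_12 (rlc st0_12_0 rln)))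
theorem ct0 : TiS (nat_lit 52) (nat_lit 11) (nat_lit 2) (nat_lit 5) (nat_lit 11) (nat_lit 13) (nat_lit 1) CL0 :=
  tiS ZZ0 (alS (alS (alS (alS (alS (alS (alS (alS (alS (alS (alS (alS (alS al0 tc0_0) tc0_1) tc0_2) tc0_3) tc0_4) tc0_5) tc0_6) tc0_7) tc0_8) tc0_9) tc0_10) tc0_11) tc0_12)
  (zzc ⟨(nat_lit 157), zl0_0, ti0_0⟩ zzn)
theorem cd : ∀ w < 13, deadCk (nat_lit 52) (nat_lit 11) (getC CL0 w) = true :=
  (alS (alS (alS (alS (alS (alS (alS (alS (alS (alS (alS (alS (alS al0 de0_0) de0_1) de0_2) de0_3) de0_4) de0_5) de0_6) de0_7) de0_8) de0_9) de0_10) de0_11) de0_12)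
theorem rc : recCk (recP 11 (2, 3, 6) 0 0 7).W 13 CL0 = true := by decide +kernel
theorem occ (O : OccL (recP 11 (2, 3, 6) 0 0 7) (locOK (Nat.testBit 0) (Nat.testBit 0) (Nat.testBit 7))) :
    False := by
  have k := first_stage O 1 (nlOK_A (by decide) (by decide)) rfl rfl rfl rfl rc cw0 cp
  have k := run_stage k rfl (nat_lit 1) (nat_lit 5) (nat_lit 2) (nat_lit 5) rfl cs0 ct0
  exact last_stage k rfl cd
theorem res : ∃ ok, OkP (2, 3, 6) ok ∧ IsEmpty (LTil (shP 11 (2, 3, 6) ok)) :=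
  dead_P 0 0 7 (by decide +kernel) rc occ

end Pool.Agent.NNr.R11_2_3_6

namespace Pool.Agent.NNr.R11_2_3_8
open Pool.Agent.NNe Pool.Agent.NNc

theorem cw0 : ∀ w < 13, wfC (nat_lit 52) (nat_lit 2) (getC CL0 w) = true :=
  (alS (alS (alS (alS (alS (alS (alS (alS (alS (alS (alS (alS (alS al0 wf0_0) wf0_1) wf0_2) wf0_3) wf0_4) wf0_5) wf0_6) wf0_7) wf0_8) wf0_9) wf0_10) wf0_11) wf0_12)
theorem cp : ∀ w < 13, plCk (nat_lit 52) (nat_lit 2) (nat_lit 11) (nat_lit 1) (nat_lit 0) (nat_lit 6) (nat_lit 13) (nat_lit 4) w nl0 CL0 = true :=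
  (alS (alS (alS (alS (alS (alS (alS (alS (alS (alS (alS (alS (alS al0 pl0_0) pl0_1) pl0_2) pl0_3) pl0_4) pl0_5) pl0_6) pl0_7) pl0_8) pl0_9) pl0_10) pl0_11) pl0_12)
theorem cs0 : ∀ w < 13, StW (nat_lit 52) (nat_lit 2) (nat_lit 2) (nat_lit 0) (getC CL0 w) :=
  (alS (alS (alS (alS (alS (alS (alS (alS (alS (alS (alS (alS (alS al0 (stX (nat_lit 1) (nat_lit 0) (nat_lit 16) (Rl.cons (nat_lit 0) (nat_lit 29) Rl.nil) rfl rfl sc0_0 (rlc (starCk_zero _ _ _ _ _ _ _) rln))) (stX (nat_lit 0) (nat_lit 0) (nat_lit 1) (Rl.cons (nat_lit 0) (nat_lit 53) Rl.nil) rfl rfl sc0_1 (rlc (starCk_zero _ _ _ _ _ _ _) rln))) (stX (nat_lit 0) (nat_lit 0) (nat_lit 1) (Rl.cons (nat_lit 0) (nat_lit 11) Rl.nil) rfl rfl sc0_2 (rlc (starCk_zero _ _ _ _ _ _ _) rln))) (stX (nat_lit 0) (nat_lit 0) (nat_lit 1) (Rl.cons (nat_lit 0) (nat_lit 100) Rl.nil) rfl rfl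 sc0_3 (rlc (starCk_zero _ _ _ _ _ _ _) rln))) (stX (nat_lit 0) (nat_lit 0) (nat_lit 1) (Rl.cons (nat_lit 0) (nat_lit 56) Rl.nil) rfl rfl sc0_4 (rlc (starCk_zero _ _ _ _ _ _ _) rln))) (stX (nat_lit 0) (nat_lit 0) (nat_lit 1) (Rl.cons (nat_lit 0) (nat_lit 14) Rl.nil) rfl rfl sc0_5 (rlc (starCk_zero _ _ _ _ _ _ _) rln))) (stX (nat_lit 0) (nat_lit 0) (nat_lit 1) (Rl.cons (nat_lit 0) (nat_lit 47) Rl.nil) rfl rfl sc0_6 (rlc (starCk_zero _ _ _ _ _ _ _) rln))) (stX (nat_lit 0) (nat_lit 0) (nat_lit 1) (Rl.cons (nat_lit 0) (nat_lit 32) Rl.nil) rfl rfl sc0_7 (rlc (starCk_zero _ _ _ _ _ _ _) rln))) (stX (nat_lit 0) (nat_lit 0) (nat_lit 1) Rl.nil rfl rfl sc0_8 rln)) (stX (nat_lit 0) (nat_lit 0) (nat_lit 1) (Rl.cons (nat_lit 0) (nat_lit 13) Rl.nil) rfl rfl sc0_9 (rlc (starCk_zero _ _ _ _ _ _ _) rln))) (stX (nat_lit 0) (nat_lit 0) (nat_lit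 1) (Rl.cons (nat_lit 0) (nat_lit 426) Rl.nil) rfl rfl sc0_10 (rlc (starCk_zero _ _ _ _ _ _ _) rln))) (stX (nat_lit 0) (nat_lit 0) (nat_lit 1) (Rl.cons (nat_lit 0) (nat_lit 205) Rl.nil) rfl rfl sc0_11 (rlc (starCk_zero _ _ _ _ _ _ _) rln))) (stX (nat_lit 0) (nat_lit 0) (nat_lit 1) (Rl.cons (nat_lit 0) (nat_lit 182) Rl.nil) rfl rfl sc0_12 (rlc (starCk_zero _ _ _ _ _ _ _) rln)))
theorem ct0 : TiS (nat_lit 52) (nat_lit 2) (nat_lit 1) (nat_lit 1) (nat_lit 11) (nat_lit 13) (nat_lit 1) CL0 :=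
  tiS ZZ0 (alS (alS (alS (alS (alS (alS (alS (alS (alS (alS (alS (alS (alS al0 tc0_0) tc0_1) tc0_2) tc0_3) tc0_4) tc0_5) tc0_6) tc0_7) tc0_8) tc0_9) tc0_10) tc0_11) tc0_12)
  (zzc ⟨(nat_lit 125), zl0_0, ti0_0⟩ zzn)
theorem cw1 : ∀ w < 13, wfC (nat_lit 42) (nat_lit 10) (getC CL1 w) = true :=
  (alS (alS (alS (alS (alS (alS (alS (alS (alS (alS (alS (alS (alS al0 wf1_0) wf1_1) wf1_2) wf1_3) wf1_4) wf1_5) wf1_6) wf1_7) wf1_8) wf1_9) wf1_10) wf1_11) wf1_12)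
theorem cr1 : ∀ w < 13, rfCk (nat_lit 52) (nat_lit 2) (nat_lit 42) (nat_lit 10) (nat_lit 9) (nat_lit 0) w TL1 CL0 CL1 = true :=
  (alS (alS (alS (alS (alS (alS (alS (alS (alS (alS (alS (alS (alS al0 rf1_0) rf1_1) rf1_2) rf1_3) rf1_4) rf1_5) rf1_6) rf1_7) rf1_8) rf1_9) rf1_10) rf1_11) rf1_12)
theorem vm1 : eqVM CL0 CL1 13 = true := by decide +kernel
theorem cs1 : ∀ w < 13, StW (nat_lit 42) (nat_lit 10) (nat_lit 1) (nat_lit 5) (getC CL1 w) :=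
  (alS (alS (alS (alS (alS (alS (alS (alS (alS (alS (alS (alS (alS al0 (stX (nat_lit 2) (nat_lit 9) (nat_lit 256) (Rl.cons (nat_lit 9) (nat_lit 2) Rl.nil) rfl rfl sc1_0 (rlc st1_0_0 rln))) (stX (nat_lit 0) (nat_lit 4) (nat_lit 1) (Rl.cons (nat_lit 4) (nat_lit 2) Rl.nil) rfl rfl sc1_1 (rlc st1_1_0 rln))) (stX (nat_lit 0) (nat_lit 0) (nat_lit 1) Rl.nil rfl rfl sc1_2 rln)) (stX (nat_lit 2) (nat_lit 13) (nat_lit 256) (Rl.cons (nat_lit 13) (nat_lit 1) Rl.nil) rfl rfl sc1_3 (rlc st1_3_0 rln))) (stX (nat_lit 0) (nat_lit 0) (nat_lit 1) Rl.nil rfl rfl sc1_4 rln)) (stX (nat_lit 0) (nat_lit 0) (nat_lit 1) Rl.nil rfl rfl sc1_5 rln)) (stX (nat_lit 2) (nat_lit 8) (nat_lit 256) (Rl.cons (nat_lit 8) (nat_lit 4) Rl.nil) rfl rfl sc1_6 (rlc st1_6_0 rln))) (stX (nat_lit 2) (nat_lit 6) (nat_lit 256) (Rl.cons (nat_lit 6) (nat_lit 1) Rl.nil)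 rfl rfl sc1_7 (rlc st1_7_0 rln))) (stX (nat_lit 0) (nat_lit 0) (nat_lit 1) Rl.nil rfl rfl sc1_8 rln)) (stX (nat_lit 0) (nat_lit 0) (nat_lit 1) Rl.nil rfl rfl sc1_9 rln)) (stX (nat_lit 1) (nat_lit 44) (nat_lit 16) (Rl.cons (nat_lit 44) (nat_lit 21) Rl.nil) rfl rfl sc1_10 (rlc st1_10_0 rln))) (stX (nat_lit 3) (nat_lit 0) (nat_lit 4096) Rl.nil rfl rfl sc1_11 rln)) (stX (nat_lit 1) (nat_lit 26) (nat_lit 16) (Rl.cons (nat_lit 26) (nat_lit 10) Rl.nil) rfl rfl sc1_12 (rlc st1_12_0 rln)))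
theorem ct1 : TiS (nat_lit 42) (nat_lit 10) (nat_lit 2) (nat_lit 4) (nat_lit 11) (nat_lit 13) (nat_lit 1) CL1 :=
  tiS ZZ1 (alS (alS (alS (alS (alS (alS (alS (alS (alS (alS (alS (alS (alS al0 tc1_0) tc1_1) tc1_2) tc1_3) tc1_4) tc1_5) tc1_6) tc1_7) tc1_8) tc1_9) tc1_10) tc1_11) tc1_12)
  (zzc ⟨(nat_lit 46), zl1_0, ti1_0⟩ zzn)
theorem cd : ∀ w < 13, deadCk (nat_lit 42) (nat_lit 10) (getC CL1 w) = true :=
  (alS (alS (alS (alS (alS (alS (alS (alS (alS (alS (alS (alS (alS al0 de1_0) de1_1) de1_2) de1_3) de1_4) de1_5) de1_6) de1_7) de1_8) de1_9) de1_10) de1_11) de1_12)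
theorem rc : recCk (recP 11 (2, 3, 8) 1 0 6).W 13 CL0 = true := by decide +kernel
theorem occ (O : OccL (recP 11 (2, 3, 8) 1 0 6) (locOK (Nat.testBit 1) (Nat.testBit 0) (Nat.testBit 6))) :
    False := by
  have k := first_stage O 1 (nlOK_A (by decide) (by decide)) rfl rfl rfl rfl rc cw0 cp
  have k := run_stage k rfl (nat_lit 2) (nat_lit 0) (nat_lit 1) (nat_lit 1) rfl cs0 ct0
  have k := next_stage k (nat_lit 42) (nat_lit 10) (nat_lit 9) (nat_lit 0) rfl rfl rfl rfl rfl vm1 cw1 cr1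
  have k := run_stage k rfl (nat_lit 1) (nat_lit 5) (nat_lit 2) (nat_lit 4) rfl cs1 ct1
  exact last_stage k rfl cd
theorem res : ∃ ok, OkP (2, 3, 8) ok ∧ IsEmpty (LTil (shP 11 (2, 3, 8) ok)) :=
  dead_P 1 0 6 (by decide +kernel) rc occ

end Pool.Agent.NNr.R11_2_3_8

namespace Pool.Agent.NNr.R11_2_9_10
open Pool.Agent.NNe Pool.Agent.NNc

theorem cw0 : ∀ w < 7, wfC (nat_lit 40) (nat_lit 2) (getC CL0 w) = true :=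
  (alS (alS (alS (alS (alS (alS (alS al0 wf0_0) wf0_1) wf0_2) wf0_3) wf0_4) wf0_5) wf0_6)
theorem cp : ∀ w < 7, plCk (nat_lit 40) (nat_lit 2) (nat_lit 11) (nat_lit 5) (nat_lit 0) (nat_lit 2) (nat_lit 7) (nat_lit 4) w nl0 CL0 = true :=
  (alS (alS (alS (alS (alS (alS (alS al0 pl0_0) pl0_1) pl0_2) pl0_3) pl0_4) pl0_5) pl0_6)
theorem cs0 : ∀ w < 7, StW (nat_lit 40) (nat_lit 2) (nat_lit 2) (nat_lit 0) (getC CL0 w) :=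
  (alS (alS (alS (alS (alS (alS (alS al0 (stX (nat_lit 0) (nat_lit 0) (nat_lit 1) (Rl.cons (nat_lit 0) (nat_lit 30) Rl.nil) rfl rfl sc0_0 (rlc (starCk_zero _ _ _ _ _ _ _) rln))) (stX (nat_lit 0) (nat_lit 0) (nat_lit 1) (Rl.cons (nat_lit 0) (nat_lit 68) Rl.nil) rfl rfl sc0_1 (rlc (starCk_zero _ _ _ _ _ _ _) rln))) (stX (nat_lit 0) (nat_lit 0) (nat_lit 1) (Rl.cons (nat_lit 0) (nat_lit 24) Rl.nil) rfl rfl sc0_2 (rlc (starCk_zero _ _ _ _ _ _ _) rln))) (stX (nat_lit 0) (nat_lit 0) (nat_lit 1) (Rl.cons (nat_lit 0) (nat_lit 15) Rl.nil) rfl rfl sc0_3 (rlc (starCk_zero _ _ _ _ _ _ _) rln))) (stX (nat_lit 0) (nat_lit 0) (nat_lit 1) (Rl.cons (nat_lit 0) (nat_lit 28) Rl.nil) rfl rfl sc0_4 (rlc (starCk_zero _ _ _ _ _ _ _) rln))) (stX (nat_lit 0) (nat_lit 0) (nat_lit 1) (Rl.cons (nat_lit 0) (nat_lit 292) Rl.nil) rfl rfl sc0_5 (rlc (starCk_zero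 _ _ _ _ _ _ _) rln))) (stX (nat_lit 0) (nat_lit 0) (nat_lit 1) (Rl.cons (nat_lit 0) (nat_lit 99) Rl.nil) rfl rfl sc0_6 (rlc (starCk_zero _ _ _ _ _ _ _) rln)))
theorem ct0 : TiS (nat_lit 40) (nat_lit 2) (nat_lit 1) (nat_lit 1) (nat_lit 11) (nat_lit 7) (nat_lit 1) CL0 :=
  tiS ZZ0 (alS (alS (alS (alS (alS (alS (alS al0 tc0_0) tc0_1) tc0_2) tc0_3) tc0_4) tc0_5) tc0_6)
  (zzc ⟨(nat_lit 54), zl0_0, ti0_0⟩ zzn)
theorem cw1 : ∀ w < 7, wfC (nat_lit 22) (nat_lit 2) (getC CL1 w) = true :=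
  (alS (alS (alS (alS (alS (alS (alS al0 wf1_0) wf1_1) wf1_2) wf1_3) wf1_4) wf1_5) wf1_6)
theorem cr1 : ∀ w < 7, rfCk (nat_lit 40) (nat_lit 2) (nat_lit 22) (nat_lit 2) (nat_lit 9) (nat_lit 0) w TL1 CL0 CL1 = true :=
  (alS (alS (alS (alS (alS (alS (alS al0 rf1_0) rf1_1) rf1_2) rf1_3) rf1_4) rf1_5) rf1_6)
theorem vm1 : eqVM CL0 CL1 7 = true := by decide +kernel
theorem cs1 : ∀ w < 7, StW (nat_lit 22) (nat_lit 2) (nat_lit 1) (nat_lit 1) (getC CL1 w) :=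
  (alS (alS (alS (alS (alS (alS (alS al0 (stX (nat_lit 0) (nat_lit 2) (nat_lit 1) (Rl.cons (nat_lit 2) (nat_lit 3) Rl.nil) rfl rfl sc1_0 (rlc st1_0_0 rln))) (stX (nat_lit 2) (nat_lit 19) (nat_lit 256) (Rl.cons (nat_lit 19) (nat_lit 3) Rl.nil) rfl rfl sc1_1 (rlc st1_1_0 rln))) (stX (nat_lit 0) (nat_lit 5) (nat_lit 1) (Rl.cons (nat_lit 5) (nat_lit 4) Rl.nil) rfl rfl sc1_2 (rlc st1_2_0 rln))) (stX (nat_lit 0) (nat_lit 0) (nat_lit 1) Rl.nil rfl rfl sc1_3 rln)) (stX (nat_lit 0) (nat_lit 0) (nat_lit 1) Rl.nil rfl rfl sc1_4 rln)) (stX (nat_lit 1) (nat_lit 22) (nat_lit 16) (Rl.cons (nat_lit 22) (nat_lit 10) Rl.nil) rfl rfl sc1_5 (rlc st1_5_0 rln))) (stX (nat_lit 3) (nat_lit 0) (nat_lit 4096) Rl.nil rfl rfl sc1_6 rln))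
theorem ct1 : TiS (nat_lit 22) (nat_lit 2) (nat_lit 2) (nat_lit 0) (nat_lit 11) (nat_lit 7) (nat_lit 1) CL1 :=
  tiS ZZ1 (alS (alS (alS (alS (alS (alS (alS al0 tc1_0) tc1_1) tc1_2) tc1_3) tc1_4) tc1_5) tc1_6)
  (zzc ⟨(nat_lit 104), zl1_0, tileCk_zero _ _ _ _ _ _ _ _⟩ zzn)
theorem cw2 : ∀ w < 7, wfC (nat_lit 6) (nat_lit 2) (getC CL2 w) = true :=
  (alS (alS (alS (alS (alS (alS (alS al0 wf2_0) wf2_1) wf2_2) wf2_3) wf2_4) wf2_5) wf2_6)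
theorem cr2 : ∀ w < 7, rfCk (nat_lit 22) (nat_lit 2) (nat_lit 6) (nat_lit 2) (nat_lit 9) (nat_lit 0) w TL2 CL1 CL2 = true :=
  (alS (alS (alS (alS (alS (alS (alS al0 rf2_0) rf2_1) rf2_2) rf2_3) rf2_4) rf2_5) rf2_6)
theorem vm2 : eqVM CL1 CL2 7 = true := by decide +kernel
theorem cs2 : ∀ w < 7, StW (nat_lit 6) (nat_lit 2) (nat_lit 2) (nat_lit 0) (getC CL2 w) :=
  (alS (alS (alS (alS (alS (alS (alS al0 (stX (nat_lit 0) (nat_lit 0) (nat_lit 1) (Rl.cons (nat_lit 0) (nat_lit 6) Rl.nil) rfl rfl sc2_0 (rlc (starCk_zero _ _ _ _ _ _ _) rln))) (stX (nat_lit 0) (nat_lit 0) (nat_lit 1) Rl.nil rfl rfl sc2_1 rln)) (stX (nat_lit 0) (nat_lit 0) (nat_lit 1) (Rl.cons (nat_lit 0) (nat_lit 10) Rl.nil) rfl rfl sc2_2 (rlc (starCk_zero _ _ _ _ _ _ _) rln))) (stX (nat_lit 0) (nat_lit 0) (nat_lit 1) Rl.nil rfl rfl sc2_3 rln)) (stX (nat_lit 0)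 (nat_lit 0) (nat_lit 1) Rl.nil rfl rfl sc2_4 rln)) (stX (nat_lit 0) (nat_lit 0) (nat_lit 1) (Rl.cons (nat_lit 0) (nat_lit 22) Rl.nil) rfl rfl sc2_5 (rlc (starCk_zero _ _ _ _ _ _ _) rln))) (stX (nat_lit 0) (nat_lit 0) (nat_lit 1) Rl.nil rfl rfl sc2_6 rln))
theorem ct2 : TiS (nat_lit 6) (nat_lit 2) (nat_lit 1) (nat_lit 1) (nat_lit 11) (nat_lit 7) (nat_lit 1) CL2 :=
  tiS ZZ2 (alS (alS (alS (alS (alS (alS (alS al0 tc2_0) tc2_1) tc2_2) tc2_3) tc2_4) tc2_5) tc2_6)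
  (zzc ⟨(nat_lit 5), zl2_0, ti2_0⟩ zzn)
theorem cd : ∀ w < 7, deadCk (nat_lit 6) (nat_lit 2) (getC CL2 w) = true :=
  (alS (alS (alS (alS (alS (alS (alS al0 de2_0) de2_1) de2_2) de2_3) de2_4) de2_5) de2_6)
theorem rc : recCk (recP 11 (2, 9, 10) 5 0 2).W 7 CL0 = true := by decide +kernel
theorem occ (O : OccL (recP 11 (2, 9, 10) 5 0 2) (locOK (Nat.testBit 5) (Nat.testBit 0) (Nat.testBit 2))) :
    False := by
  have k := first_stage O 1 (nlOK_A (by decide) (by decide)) rfl rfl rfl rfl rc cw0 cp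
  have k := run_stage k rfl (nat_lit 2) (nat_lit 0) (nat_lit 1) (nat_lit 1) rfl cs0 ct0
  have k := next_stage k (nat_lit 22) (nat_lit 2) (nat_lit 9) (nat_lit 0) rfl rfl rfl rfl rfl vm1 cw1 cr1
  have k := run_stage k rfl (nat_lit 1) (nat_lit 1) (nat_lit 2) (nat_lit 0) rfl cs1 ct1
  have k := next_stage k (nat_lit 6) (nat_lit 2) (nat_lit 9) (nat_lit 0) rfl rfl rfl rfl rfl vm2 cw2 cr2
  have k := run_stage k rfl (nat_lit 2) (nat_lit 0) (nat_lit 1) (nat_lit 1) rfl cs2 ct2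
  exact last_stage k rfl cd
theorem res : ∃ ok, OkP (2, 9, 10) ok ∧ IsEmpty (LTil (shP 11 (2, 9, 10) ok)) :=
  dead_P 5 0 2 (by decide +kernel) rc occ

end Pool.Agent.NNr.R11_2_9_10

namespace Pool.Agent.NNr.R11_3_7_14
open Pool.Agent.NNe Pool.Agent.NNc

theorem cw0 : ∀ w < 8, wfC (nat_lit 43) (nat_lit 21) (getC CL0 w) = true :=
  (alS (alS (alS (alS (alS (alS (alS (alS al0 wf0_0) wf0_1) wf0_2) wf0_3) wf0_4) wf0_5) wf0_6) wf0_7)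
theorem cp : ∀ w < 8, plCk (nat_lit 43) (nat_lit 21) (nat_lit 11) (nat_lit 5) (nat_lit 0) (nat_lit 2) (nat_lit 8) (nat_lit 4) w nl0 CL0 = true :=
  (alS (alS (alS (alS (alS (alS (alS (alS al0 pl0_0) pl0_1) pl0_2) pl0_3) pl0_4) pl0_5) pl0_6) pl0_7)
theorem cs0 : ∀ w < 8, StW (nat_lit 43) (nat_lit 21) (nat_lit 1) (nat_lit 10) (getC CL0 w) :=
  (alS (alS (alS (alS (alS (alS (alS (alS al0 (stX (nat_lit 0) (nat_lit 10) (nat_lit 1) (Rl.cons (nat_lit 10) (nat_lit 9) Rl.nil) rfl rfl sc0_0 (rlc st0_0_0 rln))) (stX (nat_lit 0) (nat_lit 15) (nat_lit 1) (Rl.cons (nat_lit 15) (nat_lit 11) Rl.nil) rfl rfl sc0_1 (rlc st0_1_0 rln))) (stX (nat_lit 2) (nat_lit 46) (nat_lit 256) (Rl.cons (nat_lit 46) (nat_lit 9) Rl.nil) rfl rfl sc0_2 (rlc st0_2_0 rln))) (stX (nat_lit 0) (nat_lit 7) (nat_lit 1) (Rl.cons (nat_lit 7) (nat_lit 5) Rl.nil) rfl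 rfl sc0_3 (rlc st0_3_0 rln))) (stX (nat_lit 0) (nat_lit 0) (nat_lit 1) Rl.nil rfl rfl sc0_4 rln)) (stX (nat_lit 1) (nat_lit 51) (nat_lit 16) (Rl.cons (nat_lit 51) (nat_lit 23) Rl.nil) rfl rfl sc0_5 (rlc st0_5_0 rln))) (stX (nat_lit 0) (nat_lit 18) (nat_lit 1) (Rl.cons (nat_lit 18) (nat_lit 22) Rl.nil) rfl rfl sc0_6 (rlc st0_6_0 rln))) (stX (nat_lit 3) (nat_lit 28) (nat_lit 4096) (Rl.cons (nat_lit 28) (nat_lit 24) Rl.nil) rfl rfl sc0_7 (rlc st0_7_0 rln)))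
theorem ct0 : TiS (nat_lit 43) (nat_lit 21) (nat_lit 2) (nat_lit 10) (nat_lit 11) (nat_lit 8) (nat_lit 1) CL0 :=
  tiS ZZ0 (alS (alS (alS (alS (alS (alS (alS (alS al0 tc0_0) tc0_1) tc0_2) tc0_3) tc0_4) tc0_5) tc0_6) tc0_7)
  (zzc ⟨(nat_lit 82), zl0_0, ti0_0⟩ zzn)
theorem cd : ∀ w < 8, deadCk (nat_lit 43) (nat_lit 21) (getC CL0 w) = true :=
  (alS (alS (alS (alS (alS (alS (alS (alS al0 de0_0) de0_1) de0_2) de0_3) de0_4) de0_5) de0_6) de0_7)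
theorem rc : recCk (recP 11 (3, 7, 14) 5 0 2).W 8 CL0 = true := by decide +kernel
theorem occ (O : OccL (recP 11 (3, 7, 14) 5 0 2) (locOK (Nat.testBit 5) (Nat.testBit 0) (Nat.testBit 2))) :
    False := by
  have k := first_stage O 1 (nlOK_A (by decide) (by decide)) rfl rfl rfl rfl rc cw0 cp
  have k := run_stage k rfl (nat_lit 1) (nat_lit 10) (nat_lit 2) (nat_lit 10) rfl cs0 ct0
  exact last_stage k rfl cd
theorem res : ∃ ok, OkP (3, 7, 14) ok ∧ IsEmpty (LTil (shP 11 (3, 7, 14) ok)) :=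
  dead_P 5 0 2 (by decide +kernel) rc occ

end Pool.Agent.NNr.R11_3_7_14

namespace Pool.Agent.NNr.R11_3_7_20
open Pool.Agent.NNe Pool.Agent.NNc

theorem cw0 : ∀ w < 6, wfC (nat_lit 57) (nat_lit 2) (getC CL0 w) = true :=
  (alS (alS (alS (alS (alS (alS al0 wf0_0) wf0_1) wf0_2) wf0_3) wf0_4) wf0_5)
theorem cp : ∀ w < 6, plCk (nat_lit 57) (nat_lit 2) (nat_lit 11) (nat_lit 5) (nat_lit 0) (nat_lit 2) (nat_lit 6) (nat_lit 4) w nl0 CL0 = true :=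
  (alS (alS (alS (alS (alS (alS al0 pl0_0) pl0_1) pl0_2) pl0_3) pl0_4) pl0_5)
theorem cs0 : ∀ w < 6, StW (nat_lit 57) (nat_lit 2) (nat_lit 2) (nat_lit 0) (getC CL0 w) :=
  (alS (alS (alS (alS (alS (alS al0 (stX (nat_lit 2) (nat_lit 0) (nat_lit 256) (Rl.cons (nat_lit 0) (nat_lit 11) Rl.nil) rfl rfl sc0_0 (rlc (starCk_zero _ _ _ _ _ _ _) rln))) (stX (nat_lit 0) (nat_lit 0) (nat_lit 1) (Rl.cons (nat_lit 0) (nat_lit 62) Rl.nil) rfl rfl sc0_1 (rlc (starCk_zero _ _ _ _ _ _ _) rln))) (stX (nat_lit 0) (nat_lit 0) (nat_lit 1) (Rl.cons (nat_lit 0) (nat_lit 30) Rl.nil) rfl rfl sc0_2 (rlc (starCk_zero _ _ _ _ _ _ _) rln))) (stX (nat_lit 0) (nat_lit 0) (nat_lit 1) (Rl.cons (nat_lit 0) (nat_lit 262) Rl.nil) rfl rfl sc0_3 (rlc (starCk_zero _ _ _ _ _ _ _) rln))) (stX (nat_lit 0) (nat_lit 0) (nat_lit 1) (Rl.cons (nat_lit 0) (nat_lit 134)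 Rl.nil) rfl rfl sc0_4 (rlc (starCk_zero _ _ _ _ _ _ _) rln))) (stX (nat_lit 0) (nat_lit 0) (nat_lit 1) (Rl.cons (nat_lit 0) (nat_lit 1) Rl.nil) rfl rfl sc0_5 (rlc (starCk_zero _ _ _ _ _ _ _) rln)))
theorem ct0 : TiS (nat_lit 57) (nat_lit 2) (nat_lit 1) (nat_lit 1) (nat_lit 11) (nat_lit 6) (nat_lit 1) CL0 :=
  tiS ZZ0 (alS (alS (alS (alS (alS (alS al0 tc0_0) tc0_1) tc0_2) tc0_3) tc0_4) tc0_5)
  (zzc ⟨(nat_lit 52), zl0_0, ti0_0⟩ zzn)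
theorem cw1 : ∀ w < 6, wfC (nat_lit 41) (nat_lit 11) (getC CL1 w) = true :=
  (alS (alS (alS (alS (alS (alS al0 wf1_0) wf1_1) wf1_2) wf1_3) wf1_4) wf1_5)
theorem cr1 : ∀ w < 6, rfCk (nat_lit 57) (nat_lit 2) (nat_lit 41) (nat_lit 11) (nat_lit 9) (nat_lit 0) w TL1 CL0 CL1 = true :=
  (alS (alS (alS (alS (alS (alS al0 rf1_0) rf1_1) rf1_2) rf1_3) rf1_4) rf1_5)
theorem vm1 : eqVM CL0 CL1 6 = true := by decide +kernel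
theorem cs1 : ∀ w < 6, StW (nat_lit 41) (nat_lit 11) (nat_lit 2) (nat_lit 5) (getC CL1 w) :=
  (alS (alS (alS (alS (alS (alS al0 (stX (nat_lit 2) (nat_lit 0) (nat_lit 256) (Rl.cons (nat_lit 0) (nat_lit 3) Rl.nil) rfl rfl sc1_0 (rlc st1_0_0 rln))) (stX (nat_lit 2) (nat_lit 20) (nat_lit 256) (Rl.cons (nat_lit 20) (nat_lit 3) Rl.nil) rfl rfl sc1_1 (rlc st1_1_0 rln))) (stX (nat_lit 2) (nat_lit 4) (nat_lit 256) (Rl.cons (nat_lit 4) (nat_lit 1) Rl.nil) rfl rfl sc1_2 (rlc st1_2_0 rln))) (stX (nat_lit 1) (nat_lit 39) (nat_lit 16) (Rl.cons (nat_lit 39) (nat_lit 19) Rl.nil) rfl rfl sc1_3 (rlc st1_3_0 rln))) (stX (nat_lit 3) (nat_lit 53) (nat_lit 4096) (Rl.cons (nat_lit 53) (nat_lit 29) Rl.nil) rfl rfl sc1_4 (rlc st1_4_0 rln))) (stX (nat_lit 0) (nat_lit 0) (nat_lit 1) Rl.nil rfl rfl sc1_5 rln))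
theorem ct1 : TiS (nat_lit 41) (nat_lit 11) (nat_lit 1) (nat_lit 5) (nat_lit 11) (nat_lit 6) (nat_lit 1) CL1 :=
  tiS ZZ1 (alS (alS (alS (alS (alS (alS al0 tc1_0) tc1_1) tc1_2) tc1_3) tc1_4) tc1_5)
  (zzc ⟨(nat_lit 40), zl1_0, ti1_0⟩ zzn)
theorem cd : ∀ w < 6, deadCk (nat_lit 41) (nat_lit 11) (getC CL1 w) = true :=
  (alS (alS (alS (alS (alS (alS al0 de1_0) de1_1) de1_2) de1_3) de1_4) de1_5)
theorem rc : recCk (recP 11 (3, 7, 20) 5 0 2).W 6 CL0 = true := by decide +kernel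
theorem occ (O : OccL (recP 11 (3, 7, 20) 5 0 2) (locOK (Nat.testBit 5) (Nat.testBit 0) (Nat.testBit 2))) :
    False := by
  have k := first_stage O 1 (nlOK_A (by decide) (by decide)) rfl rfl rfl rfl rc cw0 cp
  have k := run_stage k rfl (nat_lit 2) (nat_lit 0) (nat_lit 1) (nat_lit 1) rfl cs0 ct0
  have k := next_stage k (nat_lit 41) (nat_lit 11) (nat_lit 9) (nat_lit 0) rfl rfl rfl rfl rfl vm1 cw1 cr1
  have k := run_stage k rfl (nat_lit 2) (nat_lit 5) (nat_lit 1) (nat_lit 5) rfl cs1 ct1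
  exact last_stage k rfl cd
theorem res : ∃ ok, OkP (3, 7, 20) ok ∧ IsEmpty (LTil (shP 11 (3, 7, 20) ok)) :=
  dead_P 5 0 2 (by decide +kernel) rc occ

end Pool.Agent.NNr.R11_3_7_20

namespace Pool.Agent.NNr.R11_4_7_9
open Pool.Agent.NNe Pool.Agent.NNc

theorem cw0 : ∀ w < 7, wfC (nat_lit 53) (nat_lit 2) (getC CL0 w) = true :=
  (alS (alS (alS (alS (alS (alS (alS al0 wf0_0) wf0_1) wf0_2) wf0_3) wf0_4) wf0_5) wf0_6)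
theorem cp : ∀ w < 7, plCk (nat_lit 53) (nat_lit 2) (nat_lit 11) (nat_lit 0) (nat_lit 0) (nat_lit 7) (nat_lit 7) (nat_lit 4) w nl0 CL0 = true :=
  (alS (alS (alS (alS (alS (alS (alS al0 pl0_0) pl0_1) pl0_2) pl0_3) pl0_4) pl0_5) pl0_6)
theorem cs0 : ∀ w < 7, StW (nat_lit 53) (nat_lit 2) (nat_lit 2) (nat_lit 0) (getC CL0 w) :=
  (alS (alS (alS (alS (alS (alS (alS al0 (stX (nat_lit 0) (nat_lit 0) (nat_lit 1) (Rl.cons (nat_lit 0) (nat_lit 24) Rl.nil) rfl rfl sc0_0 (rlc (starCk_zero _ _ _ _ _ _ _) rln))) (stX (nat_lit 0) (nat_lit 0) (nat_lit 1) (Rl.cons (nat_lit 0) (nat_lit 66) Rl.nil) rfl rfl sc0_1 (rlc (starCk_zero _ _ _ _ _ _ _) rln))) (stX (nat_lit 0) (nat_lit 0) (nat_lit 1) (Rl.cons (nat_lit 0) (nat_lit 25) Rl.nil) rfl rfl sc0_2 (rlc (starCk_zero _ _ _ _ _ _ _) rln))) (stX (nat_lit 0) (nat_lit 0) (nat_lit 1) (Rl.cons (nat_lit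 0) (nat_lit 41) Rl.nil) rfl rfl sc0_3 (rlc (starCk_zero _ _ _ _ _ _ _) rln))) (stX (nat_lit 0) (nat_lit 0) (nat_lit 1) (Rl.cons (nat_lit 0) (nat_lit 2) Rl.nil) rfl rfl sc0_4 (rlc (starCk_zero _ _ _ _ _ _ _) rln))) (stX (nat_lit 0) (nat_lit 0) (nat_lit 1) (Rl.cons (nat_lit 0) (nat_lit 238) Rl.nil) rfl rfl sc0_5 (rlc (starCk_zero _ _ _ _ _ _ _) rln))) (stX (nat_lit 0) (nat_lit 0) (nat_lit 1) (Rl.cons (nat_lit 0) (nat_lit 54) Rl.nil) rfl rfl sc0_6 (rlc (starCk_zero _ _ _ _ _ _ _) rln)))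
theorem ct0 : TiS (nat_lit 53) (nat_lit 2) (nat_lit 1) (nat_lit 1) (nat_lit 11) (nat_lit 7) (nat_lit 1) CL0 :=
  tiS ZZ0 (alS (alS (alS (alS (alS (alS (alS al0 tc0_0) tc0_1) tc0_2) tc0_3) tc0_4) tc0_5) tc0_6)
  (zzc ⟨(nat_lit 43), zl0_0, ti0_0⟩ zzn)
theorem cw1 : ∀ w < 7, wfC (nat_lit 19) (nat_lit 2) (getC CL1 w) = true :=
  (alS (alS (alS (alS (alS (alS (alS al0 wf1_0) wf1_1) wf1_2) wf1_3) wf1_4) wf1_5) wf1_6)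
theorem cr1 : ∀ w < 7, rfCk (nat_lit 53) (nat_lit 2) (nat_lit 19) (nat_lit 2) (nat_lit 9) (nat_lit 0) w TL1 CL0 CL1 = true :=
  (alS (alS (alS (alS (alS (alS (alS al0 rf1_0) rf1_1) rf1_2) rf1_3) rf1_4) rf1_5) rf1_6)
theorem vm1 : eqVM CL0 CL1 7 = true := by decide +kernel
theorem cs1 : ∀ w < 7, StW (nat_lit 19) (nat_lit 2) (nat_lit 1) (nat_lit 1) (getC CL1 w) :=
  (alS (alS (alS (alS (alS (alS (alS al0 (stX (nat_lit 0) (nat_lit 1) (nat_lit 1) (Rl.cons (nat_lit 1) (nat_lit 3) Rl.nil) rfl rfl sc1_0 (rlc st1_0_0 rln))) (stX (nat_lit 0) (nat_lit 3) (nat_lit 1) (Rl.cons (nat_lit 3) (nat_lit 3) Rl.nil) rfl rfl sc1_1 (rlc st1_1_0 rln))) (stX (nat_lit 0) (nat_lit 5) (nat_lit 1) (Rl.cons (nat_lit 5) (nat_lit 4) Rl.nil) rfl rfl sc1_2 (rlc st1_2_0 rln))) (stX (nat_lit 1) (nat_lit 0) (nat_lit 16) Rl.nil rfl rfl sc1_3 rln)) (stX (nat_lit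 0) (nat_lit 0) (nat_lit 1) Rl.nil rfl rfl sc1_4 rln)) (stX (nat_lit 2) (nat_lit 30) (nat_lit 256) (Rl.cons (nat_lit 30) (nat_lit 7) Rl.nil) rfl rfl sc1_5 (rlc st1_5_0 rln))) (stX (nat_lit 3) (nat_lit 5) (nat_lit 4096) (Rl.cons (nat_lit 5) (nat_lit 3) Rl.nil) rfl rfl sc1_6 (rlc st1_6_0 rln)))
theorem ct1 : TiS (nat_lit 19) (nat_lit 2) (nat_lit 2) (nat_lit 0) (nat_lit 11) (nat_lit 7) (nat_lit 1) CL1 :=
  tiS ZZ1 (alS (alS (alS (alS (alS (alS (alS al0 tc1_0) tc1_1) tc1_2) tc1_3) tc1_4) tc1_5) tc1_6)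
  (zzc ⟨(nat_lit 78), zl1_0, tileCk_zero _ _ _ _ _ _ _ _⟩ zzn)
theorem cw2 : ∀ w < 7, wfC (nat_lit 3) (nat_lit 2) (getC CL2 w) = true :=
  (alS (alS (alS (alS (alS (alS (alS al0 wf2_0) wf2_1) wf2_2) wf2_3) wf2_4) wf2_5) wf2_6)
theorem cr2 : ∀ w < 7, rfCk (nat_lit 19) (nat_lit 2) (nat_lit 3) (nat_lit 2) (nat_lit 9) (nat_lit 0) w TL2 CL1 CL2 = true :=
  (alS (alS (alS (alS (alS (alS (alS al0 rf2_0) rf2_1) rf2_2) rf2_3) rf2_4) rf2_5) rf2_6)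
theorem vm2 : eqVM CL1 CL2 7 = true := by decide +kernel
theorem cs2 : ∀ w < 7, StW (nat_lit 3) (nat_lit 2) (nat_lit 2) (nat_lit 0) (getC CL2 w) :=
  (alS (alS (alS (alS (alS (alS (alS al0 (stX (nat_lit 0) (nat_lit 0) (nat_lit 1) Rl.nil rfl rfl sc2_0 rln)) (stX (nat_lit 0) (nat_lit 0) (nat_lit 1) Rl.nil rfl rfl sc2_1 rln)) (stX (nat_lit 0) (nat_lit 0) (nat_lit 1) (Rl.cons (nat_lit 0) (nat_lit 6) Rl.nil) rfl rfl sc2_2 (rlc (starCk_zero _ _ _ _ _ _ _) rln))) (stX (nat_lit 0) (nat_lit 0) (nat_lit 1) Rl.nil rfl rfl sc2_3 rln)) (stX (nat_lit 0) (nat_lit 0) (nat_lit 1) Rl.nil rfl rfl sc2_4 rln)) (stX (nat_lit 0) (nat_lit 0) (nat_lit 1) (Rl.cons (nat_lit 0) (nat_lit 8) Rl.nil) rfl rfl sc2_5 (rlc (starCk_zero _ _ _ _ _ _ _) rln))) (stX (nat_lit 0) (nat_lit 0) (nat_lit 1) Rl.nil rfl rfl sc2_6 rln))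
theorem ct2 : TiS (nat_lit 3) (nat_lit 2) (nat_lit 1) (nat_lit 1) (nat_lit 11) (nat_lit 7) (nat_lit 1) CL2 :=
  tiS ZZ2 (alS (alS (alS (alS (alS (alS (alS al0 tc2_0) tc2_1) tc2_2) tc2_3) tc2_4) tc2_5) tc2_6)
  (zzc ⟨(nat_lit 3), zl2_0, ti2_0⟩ zzn)
theorem cd : ∀ w < 7, deadCk (nat_lit 3) (nat_lit 2) (getC CL2 w) = true :=
  (alS (alS (alS (alS (alS (alS (alS al0 de2_0) de2_1) de2_2) de2_3) de2_4) de2_5) de2_6)
theorem rc : recCk (recP 11 (4, 7, 9) 0 0 7).W 7 CL0 = true := by decide +kernel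
theorem occ (O : OccL (recP 11 (4, 7, 9) 0 0 7) (locOK (Nat.testBit 0) (Nat.testBit 0) (Nat.testBit 7))) :
    False := by
  have k := first_stage O 1 (nlOK_A (by decide) (by decide)) rfl rfl rfl rfl rc cw0 cp
  have k := run_stage k rfl (nat_lit 2) (nat_lit 0) (nat_lit 1) (nat_lit 1) rfl cs0 ct0
  have k := next_stage k (nat_lit 19) (nat_lit 2) (nat_lit 9) (nat_lit 0) rfl rfl rfl rfl rfl vm1 cw1 cr1
  have k := run_stage k rfl (nat_lit 1) (nat_lit 1) (nat_lit 2) (nat_lit 0) rfl cs1 ct1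
  have k := next_stage k (nat_lit 3) (nat_lit 2) (nat_lit 9) (nat_lit 0) rfl rfl rfl rfl rfl vm2 cw2 cr2
  have k := run_stage k rfl (nat_lit 2) (nat_lit 0) (nat_lit 1) (nat_lit 1) rfl cs2 ct2
  exact last_stage k rfl cd
theorem res : ∃ ok, OkP (4, 7, 9) ok ∧ IsEmpty (LTil (shP 11 (4, 7, 9) ok)) :=
  dead_P 0 0 7 (by decide +kernel) rc occ

end Pool.Agent.NNr.R11_4_7_9

namespace Pool.Agent.NNr.R11_6_14_17
open Pool.Agent.NNe Pool.Agent.NNc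

theorem cw0 : ∀ w < 5, wfC (nat_lit 37) (nat_lit 2) (getC CL0 w) = true :=
  (alS (alS (alS (alS (alS al0 wf0_0) wf0_1) wf0_2) wf0_3) wf0_4)
theorem cp : ∀ w < 5, plCk (nat_lit 37) (nat_lit 2) (nat_lit 11) (nat_lit 1) (nat_lit 0) (nat_lit 6) (nat_lit 5) (nat_lit 4) w nl0 CL0 = true :=
  (alS (alS (alS (alS (alS al0 pl0_0) pl0_1) pl0_2) pl0_3) pl0_4)
theorem cs0 : ∀ w < 5, StW (nat_lit 37) (nat_lit 2) (nat_lit 2) (nat_lit 0) (getC CL0 w) :=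
  (alS (alS (alS (alS (alS al0 (stX (nat_lit 0) (nat_lit 0) (nat_lit 1) (Rl.cons (nat_lit 0) (nat_lit 18) Rl.nil) rfl rfl sc0_0 (rlc (starCk_zero _ _ _ _ _ _ _) rln))) (stX (nat_lit 0) (nat_lit 0) (nat_lit 1) (Rl.cons (nat_lit 0) (nat_lit 52) Rl.nil) rfl rfl sc0_1 (rlc (starCk_zero _ _ _ _ _ _ _) rln))) (stX (nat_lit 0) (nat_lit 0) (nat_lit 1) (Rl.cons (nat_lit 0) (nat_lit 24) Rl.nil) rfl rfl sc0_2 (rlc (starCk_zero _ _ _ _ _ _ _) rln))) (stX (nat_lit 0) (nat_lit 0) (nat_lit 1) Rl.nil rfl rfl sc0_3 rln)) (stX (nat_lit 0) (nat_lit 0) (nat_lit 1) (Rl.cons (nat_lit 0) (nat_lit 178) Rl.nil) rfl rfl sc0_4 (rlc (starCk_zero _ _ _ _ _ _ _) rln)))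
theorem ct0 : TiS (nat_lit 37) (nat_lit 2) (nat_lit 1) (nat_lit 1) (nat_lit 11) (nat_lit 5) (nat_lit 1) CL0 :=
  tiS ZZ0 (alS (alS (alS (alS (alS al0 tc0_0) tc0_1) tc0_2) tc0_3) tc0_4)
  (zzc ⟨(nat_lit 28), zl0_0, ti0_0⟩ zzn)
theorem cw1 : ∀ w < 5, wfC (nat_lit 21) (nat_lit 2) (getC CL1 w) = true :=
  (alS (alS (alS (alS (alS al0 wf1_0) wf1_1) wf1_2) wf1_3) wf1_4)
theorem cr1 : ∀ w < 5, rfCk (nat_lit 37) (nat_lit 2) (nat_lit 21) (nat_lit 2) (nat_lit 9) (nat_lit 0) w TL1 CL0 CL1 = true :=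
  (alS (alS (alS (alS (alS al0 rf1_0) rf1_1) rf1_2) rf1_3) rf1_4)
theorem vm1 : eqVM CL0 CL1 5 = true := by decide +kernel
theorem cs1 : ∀ w < 5, StW (nat_lit 21) (nat_lit 2) (nat_lit 1) (nat_lit 1) (getC CL1 w) :=
  (alS (alS (alS (alS (alS al0 (stX (nat_lit 0) (nat_lit 2) (nat_lit 1) (Rl.cons (nat_lit 2) (nat_lit 3) Rl.nil) rfl rfl sc1_0 (rlc st1_0_0 rln))) (stX (nat_lit 0) (nat_lit 4) (nat_lit 1) (Rl.cons (nat_lit 4) (nat_lit 3) Rl.nil) rfl rfl sc1_1 (rlc st1_1_0 rln))) (stX (nat_lit 0) (nat_lit 5) (nat_lit 1) (Rl.cons (nat_lit 5) (nat_lit 4) Rl.nil) rfl rfl sc1_2 (rlc st1_2_0 rln))) (stX (nat_lit 0) (nat_lit 0) (nat_lit 1) Rl.nil rfl rfl sc1_3 rln)) (stX (nat_lit 1) (nat_lit 16) (nat_lit 16) (Rl.cons (nat_lit 16) (nat_lit 6) Rl.nil) rfl rfl sc1_4 (rlc st1_4_0 rln)))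
theorem ct1 : TiS (nat_lit 21) (nat_lit 2) (nat_lit 2) (nat_lit 0) (nat_lit 11) (nat_lit 5) (nat_lit 1) CL1 :=
  tiS ZZ1 (alS (alS (alS (alS (alS al0 tc1_0) tc1_1) tc1_2) tc1_3) tc1_4)
  (zzc ⟨(nat_lit 84), zl1_0, tileCk_zero _ _ _ _ _ _ _ _⟩ zzn)
theorem cw2 : ∀ w < 5, wfC (nat_lit 6) (nat_lit 2) (getC CL2 w) = true :=
  (alS (alS (alS (alS (alS al0 wf2_0) wf2_1) wf2_2) wf2_3) wf2_4)
theorem cr2 : ∀ w < 5, rfCk (nat_lit 21) (nat_lit 2) (nat_lit 6) (nat_lit 2) (nat_lit 9) (nat_lit 0) w TL2 CL1 CL2 = true :=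
  (alS (alS (alS (alS (alS al0 rf2_0) rf2_1) rf2_2) rf2_3) rf2_4)
theorem vm2 : eqVM CL1 CL2 5 = true := by decide +kernel
theorem cs2 : ∀ w < 5, StW (nat_lit 6) (nat_lit 2) (nat_lit 2) (nat_lit 0) (getC CL2 w) :=
  (alS (alS (alS (alS (alS al0 (stX (nat_lit 0) (nat_lit 0) (nat_lit 1) (Rl.cons (nat_lit 0) (nat_lit 2) Rl.nil) rfl rfl sc2_0 (rlc (starCk_zero _ _ _ _ _ _ _) rln))) (stX (nat_lit 0) (nat_lit 0) (nat_lit 1) Rl.nil rfl rfl sc2_1 rln)) (stX (nat_lit 0) (nat_lit 0) (nat_lit 1) (Rl.cons (nat_lit 0) (nat_lit 10) Rl.nil) rfl rfl sc2_2 (rlc (starCk_zero _ _ _ _ _ _ _) rln))) (stX (nat_lit 0) (nat_lit 0) (nat_lit 1) Rl.nil rfl rfl sc2_3 rln)) (stX (nat_lit 0) (nat_lit 0) (nat_lit 1) (Rl.cons (nat_lit 0) (nat_lit 18) Rl.nil) rfl rfl sc2_4 (rlc (starCk_zero _ _ _ _ _ _ _) rln)))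
theorem ct2 : TiS (nat_lit 6) (nat_lit 2) (nat_lit 1) (nat_lit 1) (nat_lit 11) (nat_lit 5) (nat_lit 1) CL2 :=
  tiS ZZ2 (alS (alS (alS (alS (alS al0 tc2_0) tc2_1) tc2_2) tc2_3) tc2_4)
  (zzc ⟨(nat_lit 5), zl2_0, ti2_0⟩ zzn)
theorem cd : ∀ w < 5, deadCk (nat_lit 6) (nat_lit 2) (getC CL2 w) = true :=
  (alS (alS (alS (alS (alS al0 de2_0) de2_1) de2_2) de2_3) de2_4)
theorem rc : recCk (recP 11 (6, 14, 17) 1 0 6).W 5 CL0 = true := by decide +kernel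
theorem occ (O : OccL (recP 11 (6, 14, 17) 1 0 6) (locOK (Nat.testBit 1) (Nat.testBit 0) (Nat.testBit 6))) :
    False := by
  have k := first_stage O 1 (nlOK_A (by decide) (by decide)) rfl rfl rfl rfl rc cw0 cp
  have k := run_stage k rfl (nat_lit 2) (nat_lit 0) (nat_lit 1) (nat_lit 1) rfl cs0 ct0
  have k := next_stage k (nat_lit 21) (nat_lit 2) (nat_lit 9) (nat_lit 0) rfl rfl rfl rfl rfl vm1 cw1 cr1
  have k := run_stage k rfl (nat_lit 1) (nat_lit 1) (nat_lit 2) (nat_lit 0) rfl cs1 ct1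
  have k := next_stage k (nat_lit 6) (nat_lit 2) (nat_lit 9) (nat_lit 0) rfl rfl rfl rfl rfl vm2 cw2 cr2
  have k := run_stage k rfl (nat_lit 2) (nat_lit 0) (nat_lit 1) (nat_lit 1) rfl cs2 ct2
  exact last_stage k rfl cd
theorem res : ∃ ok, OkP (6, 14, 17) ok ∧ IsEmpty (LTil (shP 11 (6, 14, 17) ok)) :=
  dead_P 1 0 6 (by decide +kernel) rc occ

end Pool.Agent.NNr.R11_6_14_17

namespace Pool.Agent.NNr.R13_1_6_14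
open Pool.Agent.NNe Pool.Agent.NNc

theorem cw0 : ∀ w < 10, wfC (nat_lit 61) (nat_lit 2) (getC CL0 w) = true :=
  (alS (alS (alS (alS (alS (alS (alS (alS (alS (alS al0 wf0_0) wf0_1) wf0_2) wf0_3) wf0_4) wf0_5) wf0_6) wf0_7) wf0_8) wf0_9)
theorem cp : ∀ w < 10, plCk (nat_lit 61) (nat_lit 2) (nat_lit 13) (nat_lit 5) (nat_lit 0) (nat_lit 2) (nat_lit 10) (nat_lit 4) w nl0 CL0 = true :=
  (alS (alS (alS (alS (alS (alS (alS (alS (alS (alS al0 pl0_0) pl0_1) pl0_2) pl0_3) pl0_4) pl0_5) pl0_6) pl0_7) pl0_8) pl0_9)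
theorem cs0 : ∀ w < 10, StW (nat_lit 61) (nat_lit 2) (nat_lit 2) (nat_lit 0) (getC CL0 w) :=
  (alS (alS (alS (alS (alS (alS (alS (alS (alS (alS al0 (stX (nat_lit 2) (nat_lit 0) (nat_lit 256) (Rl.cons (nat_lit 0) (nat_lit 19) Rl.nil) rfl rfl sc0_0 (rlc (starCk_zero _ _ _ _ _ _ _) rln))) (stX (nat_lit 1) (nat_lit 0) (nat_lit 16) (Rl.cons (nat_lit 0) (nat_lit 10) Rl.nil) rfl rfl sc0_1 (rlc (starCk_zero _ _ _ _ _ _ _) rln))) (stX (nat_lit 0) (nat_lit 0) (nat_lit 1) (Rl.cons (nat_lit 0) (nat_lit 94) Rl.nil) rfl rfl sc0_2 (rlc (starCk_zero _ _ _ _ _ _ _) rln))) (stX (nat_lit 0) (nat_lit 0) (nat_lit 1) (Rl.cons (nat_lit 0) (nat_lit 55) Rl.nil) rfl rfl sc0_3 (rlc (starCk_zero _ _ _ _ _ _ _) rln))) (stX (nat_lit 0) (nat_lit 0) (nat_lit 1) (Rl.cons (nat_lit 0) (nat_lit 14) Rl.nil) rfl rfl sc0_4 (rlc (starCk_zero _ _ _ _ _ _ _)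 rln))) (stX (nat_lit 0) (nat_lit 0) (nat_lit 1) (Rl.cons (nat_lit 0) (nat_lit 29) Rl.nil) rfl rfl sc0_5 (rlc (starCk_zero _ _ _ _ _ _ _) rln))) (stX (nat_lit 0) (nat_lit 0) (nat_lit 1) (Rl.cons (nat_lit 0) (nat_lit 458) Rl.nil) rfl rfl sc0_6 (rlc (starCk_zero _ _ _ _ _ _ _) rln))) (stX (nat_lit 0) (nat_lit 0) (nat_lit 1) (Rl.cons (nat_lit 0) (nat_lit 204) Rl.nil) rfl rfl sc0_7 (rlc (starCk_zero _ _ _ _ _ _ _) rln))) (stX (nat_lit 0) (nat_lit 0) (nat_lit 1) (Rl.cons (nat_lit 0) (nat_lit 157) Rl.nil) rfl rfl sc0_8 (rlc (starCk_zero _ _ _ _ _ _ _) rln))) (stX (nat_lit 0) (nat_lit 0) (nat_lit 1) (Rl.cons (nat_lit 0) (nat_lit 80) Rl.nil) rfl rfl sc0_9 (rlc (starCk_zero _ _ _ _ _ _ _) rln)))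
theorem ct0 : TiS (nat_lit 61) (nat_lit 2) (nat_lit 1) (nat_lit 1) (nat_lit 13) (nat_lit 10) (nat_lit 1) CL0 :=
  tiS ZZ0 (alS (alS (alS (alS (alS (alS (alS (alS (alS (alS al0 tc0_0) tc0_1) tc0_2) tc0_3) tc0_4) tc0_5) tc0_6) tc0_7) tc0_8) tc0_9)
  (zzc ⟨(nat_lit 110), zl0_0, ti0_0⟩ zzn)
theorem cw1 : ∀ w < 10, wfC (nat_lit 43) (nat_lit 4) (getC CL1 w) = true :=
  (alS (alS (alS (alS (alS (alS (alS (alS (alS (alS al0 wf1_0) wf1_1) wf1_2) wf1_3) wf1_4) wf1_5) wf1_6) wf1_7) wf1_8) wf1_9)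
theorem cr1 : ∀ w < 10, rfCk (nat_lit 61) (nat_lit 2) (nat_lit 43) (nat_lit 4) (nat_lit 9) (nat_lit 0) w TL1 CL0 CL1 = true :=
  (alS (alS (alS (alS (alS (alS (alS (alS (alS (alS al0 rf1_0) rf1_1) rf1_2) rf1_3) rf1_4) rf1_5) rf1_6) rf1_7) rf1_8) rf1_9)
theorem vm1 : eqVM CL0 CL1 10 = true := by decide +kernel
theorem cs1 : ∀ w < 10, StW (nat_lit 43) (nat_lit 4) (nat_lit 1) (nat_lit 2) (getC CL1 w) :=
  (alS (alS (alS (alS (alS (alS (alS (alS (alS (alS al0 (stX (nat_lit 2) (nat_lit 0) (nat_lit 256) (Rl.cons (nat_lit 0) (nat_lit 6) Rl.nil) rfl rfl sc1_0 (rlc st1_0_0 rln))) (stX (nat_lit 1) (nat_lit 0) (nat_lit 16) (Rl.cons (nat_lit 0) (nat_lit 5) Rl.nil) rfl rfl sc1_1 (rlc st1_1_0 rln))) (stX (nat_lit 0) (nat_lit 13) (nat_lit 1) (Rl.cons (nat_lit 13) (nat_lit 10) Rl.nil) rfl rfl sc1_2 (rlc st1_2_0 rln))) (stX (nat_lit 2)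 (nat_lit 35) (nat_lit 256) (Rl.cons (nat_lit 35) (nat_lit 5) Rl.nil) rfl rfl sc1_3 (rlc st1_3_0 rln))) (stX (nat_lit 1) (nat_lit 0) (nat_lit 16) Rl.nil rfl rfl sc1_4 rln)) (stX (nat_lit 1) (nat_lit 2) (nat_lit 16) (Rl.cons (nat_lit 2) (nat_lit 1) Rl.nil) rfl rfl sc1_5 (rlc st1_5_0 rln))) (stX (nat_lit 1) (nat_lit 56) (nat_lit 16) (Rl.cons (nat_lit 56) (nat_lit 25) Rl.nil) rfl rfl sc1_6 (rlc st1_6_0 rln))) (stX (nat_lit 3) (nat_lit 73) (nat_lit 4096) (Rl.cons (nat_lit 73) (nat_lit 43) Rl.nil) rfl rfl sc1_7 (rlc st1_7_0 rln))) (stX (nat_lit 2) (nat_lit 17) (nat_lit 256) (Rl.cons (nat_lit 17) (nat_lit 9) Rl.nil) rfl rfl sc1_8 (rlc st1_8_0 rln))) (stX (nat_lit 1) (nat_lit 0) (nat_lit 16) Rl.nil rfl rfl sc1_9 rln))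
theorem ct1 : TiS (nat_lit 43) (nat_lit 4) (nat_lit 2) (nat_lit 1) (nat_lit 13) (nat_lit 10) (nat_lit 1) CL1 :=
  tiS ZZ1 (alS (alS (alS (alS (alS (alS (alS (alS (alS (alS al0 tc1_0) tc1_1) tc1_2) tc1_3) tc1_4) tc1_5) tc1_6) tc1_7) tc1_8) tc1_9)
  (zzc ⟨(nat_lit 69), zl1_0, ti1_0⟩ zzn)
theorem cw2 : ∀ w < 10, wfC (nat_lit 61) (nat_lit 17) (getC CL2 w) = true :=
  (alS (alS (alS (alS (alS (alS (alS (alS (alS (alS al0 wf2_0) wf2_1) wf2_2) wf2_3) wf2_4) wf2_5) wf2_6) wf2_7) wf2_8) wf2_9)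
theorem cr2 : ∀ w < 10, rfCk (nat_lit 43) (nat_lit 4) (nat_lit 61) (nat_lit 17) (nat_lit 5) (nat_lit 262144) w TL2 CL1 CL2 = true :=
  (alS (alS (alS (alS (alS (alS (alS (alS (alS (alS al0 rf2_0) rf2_1) rf2_2) rf2_3) rf2_4) rf2_5) rf2_6) rf2_7) rf2_8) rf2_9)
theorem vm2 : eqVM CL1 CL2 10 = true := by decide +kernel
theorem cs2 : ∀ w < 10, StW (nat_lit 61) (nat_lit 17) (nat_lit 1) (nat_lit 8) (getC CL2 w) :=
  (alS (alS (alS (alS (alS (alS (alS (alS (alS (alS al0 (stX (nat_lit 2) (nat_lit 0) (nat_lit 256) (Rl.cons (nat_lit 0) (nat_lit 7) Rl.nil) rfl rfl sc2_0 (rlc st2_0_0 rln))) (stX (nat_lit 1) (nat_lit 0) (nat_lit 16) (Rl.cons (nat_lit 0) (nat_lit 10) Rl.nil) rfl rfl sc2_1 (rlc st2_1_0 rln))) (stX (nat_lit 2) (nat_lit 131) (nat_lit 256) (Rl.cons (nat_lit 131) (nat_lit 23) Rl.nil) rfl rfl sc2_2 (rlc st2_2_0 rln))) (stX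 (nat_lit 2) (nat_lit 83) (nat_lit 256) (Rl.cons (nat_lit 83) (nat_lit 8) Rl.nil) rfl rfl sc2_3 (rlc st2_3_0 rln))) (stX (nat_lit 0) (nat_lit 0) (nat_lit 1) Rl.nil rfl rfl sc2_4 rln)) (stX (nat_lit 0) (nat_lit 0) (nat_lit 1) Rl.nil rfl rfl sc2_5 rln)) (stX (nat_lit 2) (nat_lit 355) (nat_lit 256) (Rl.cons (nat_lit 355) (nat_lit 75) Rl.nil) rfl rfl sc2_6 (rlc st2_6_0 rln))) (stX (nat_lit 1) (nat_lit 124) (nat_lit 16) (Rl.cons (nat_lit 124) (nat_lit 44) Rl.nil) rfl rfl sc2_7 (rlc st2_7_0 rln))) (stX (nat_lit 2) (nat_lit 52) (nat_lit 256) (Rl.cons (nat_lit 52) (nat_lit 17) Rl.nil) rfl rfl sc2_8 (rlc st2_8_0 rln))) (stX (nat_lit 0) (nat_lit 0) (nat_lit 1) Rl.nil rfl rfl sc2_9 rln))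
theorem ct2 : TiS (nat_lit 61) (nat_lit 17) (nat_lit 2) (nat_lit 8) (nat_lit 13) (nat_lit 10) (nat_lit 1) CL2 :=
  tiS ZZ2 (alS (alS (alS (alS (alS (alS (alS (alS (alS (alS al0 tc2_0) tc2_1) tc2_2) tc2_3) tc2_4) tc2_5) tc2_6) tc2_7) tc2_8) tc2_9)
  (zzc ⟨(nat_lit 102), zl2_0, ti2_0⟩ (zzc ⟨(nat_lit 102), zl2_1, ti2_1⟩ zzn))
theorem cw3 : ∀ w < 10, wfC (nat_lit 14) (nat_lit 5) (getC CL3 w) = true :=
  (alS (alS (alS (alS (alS (alS (alS (alS (alS (alS al0 wf3_0) wf3_1) wf3_2) wf3_3) wf3_4) wf3_5) wf3_6) wf3_7) wf3_8) wf3_9)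
theorem cr3 : ∀ w < 10, rfCk (nat_lit 61) (nat_lit 17) (nat_lit 14) (nat_lit 5) (nat_lit 9) (nat_lit 0) w TL3 CL2 CL3 = true :=
  (alS (alS (alS (alS (alS (alS (alS (alS (alS (alS al0 rf3_0) rf3_1) rf3_2) rf3_3) rf3_4) rf3_5) rf3_6) rf3_7) rf3_8) rf3_9)
theorem vm3 : eqVM CL2 CL3 10 = true := by decide +kernel
theorem cs3 : ∀ w < 10, StW (nat_lit 14) (nat_lit 5) (nat_lit 1) (nat_lit 2) (getC CL3 w) :=
  (alS (alS (alS (alS (alS (alS (alS (alS (alS (alS al0 (stX (nat_lit 2) (nat_lit 0) (nat_lit 256) Rl.nil rfl rfl sc3_0 rln)) (stX (nat_lit 1) (nat_lit 0) (nat_lit 16) Rl.nil rfl rfl sc3_1 rln)) (stX (nat_lit 0) (nat_lit 0) (nat_lit 1) Rl.nil rfl rfl sc3_2 rln)) (stX (nat_lit 2) (nat_lit 0) (nat_lit 256) Rl.nil rfl rfl sc3_3 rln)) (stX (nat_lit 0) (nat_lit 0) (nat_lit 1) Rl.nil rfl rfl sc3_4 rln)) (stX (nat_lit 0) (nat_lit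 0) (nat_lit 1) Rl.nil rfl rfl sc3_5 rln)) (stX (nat_lit 2) (nat_lit 30) (nat_lit 256) (Rl.cons (nat_lit 30) (nat_lit 5) Rl.nil) rfl rfl sc3_6 (rlc st3_6_0 rln))) (stX (nat_lit 0) (nat_lit 0) (nat_lit 1) Rl.nil rfl rfl sc3_7 rln)) (stX (nat_lit 2) (nat_lit 5) (nat_lit 256) (Rl.cons (nat_lit 5) (nat_lit 2) Rl.nil) rfl rfl sc3_8 (rlc st3_8_0 rln))) (stX (nat_lit 0) (nat_lit 0) (nat_lit 1) Rl.nil rfl rfl sc3_9 rln))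
theorem ct3 : TiS (nat_lit 14) (nat_lit 5) (nat_lit 2) (nat_lit 2) (nat_lit 13) (nat_lit 10) (nat_lit 1) CL3 :=
  tiS ZZ3 (alS (alS (alS (alS (alS (alS (alS (alS (alS (alS al0 tc3_0) tc3_1) tc3_2) tc3_3) tc3_4) tc3_5) tc3_6) tc3_7) tc3_8) tc3_9)
  (zzc ⟨(nat_lit 10), zl3_0, ti3_0⟩ (zzc ⟨(nat_lit 6), zl3_1, ti3_1⟩ zzn))
theorem cd : ∀ w < 10, deadCk (nat_lit 14) (nat_lit 5) (getC CL3 w) = true :=
  (alS (alS (alS (alS (alS (alS (alS (alS (alS (alS al0 de3_0) de3_1) de3_2) de3_3) de3_4) de3_5) de3_6) de3_7) de3_8) de3_9)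
theorem rc : recCk (recP 13 (1, 6, 14) 5 0 2).W 10 CL0 = true := by decide +kernel
theorem occ (O : OccL (recP 13 (1, 6, 14) 5 0 2) (locOK (Nat.testBit 5) (Nat.testBit 0) (Nat.testBit 2))) :
    False := by
  have k := first_stage O 1 (nlOK_A (by decide) (by decide)) rfl rfl rfl rfl rc cw0 cp
  have k := run_stage k rfl (nat_lit 2) (nat_lit 0) (nat_lit 1) (nat_lit 1) rfl cs0 ct0
  have k := next_stage k (nat_lit 43) (nat_lit 4) (nat_lit 9) (nat_lit 0) rfl rfl rfl rfl rfl vm1 cw1 cr1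
  have k := run_stage k rfl (nat_lit 1) (nat_lit 2) (nat_lit 2) (nat_lit 1) rfl cs1 ct1
  have k := next_stage k (nat_lit 61) (nat_lit 17) (nat_lit 5) (nat_lit 1) rfl rfl rfl rfl rfl vm2 cw2 cr2
  have k := run_stage k rfl (nat_lit 1) (nat_lit 8) (nat_lit 2) (nat_lit 8) rfl cs2 ct2
  have k := next_stage k (nat_lit 14) (nat_lit 5) (nat_lit 9) (nat_lit 0) rfl rfl rfl rfl rfl vm3 cw3 cr3
  have k := run_stage k rfl (nat_lit 1) (nat_lit 2) (nat_lit 2) (nat_lit 2) rfl cs3 ct3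
  exact last_stage k rfl cd
theorem res : ∃ ok, OkP (1, 6, 14) ok ∧ IsEmpty (LTil (shP 13 (1, 6, 14) ok)) :=
  dead_P 5 0 2 (by decide +kernel) rc occ

end Pool.Agent.NNr.R13_1_6_14

namespace Pool.Agent.NNr.R13_1_8_9
open Pool.Agent.NNe Pool.Agent.NNc

theorem cw0 : ∀ w < 12, wfC (nat_lit 61) (nat_lit 7) (getC CL0 w) = true :=
  (alS (alS (alS (alS (alS (alS (alS (alS (alS (alS (alS (alS al0 wf0_0) wf0_1) wf0_2) wf0_3) wf0_4) wf0_5) wf0_6) wf0_7) wf0_8) wf0_9) wf0_10) wf0_11)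
theorem cp : ∀ w < 12, plCk (nat_lit 61) (nat_lit 7) (nat_lit 13) (nat_lit 5) (nat_lit 0) (nat_lit 2) (nat_lit 12) (nat_lit 4) w nl0 CL0 = true :=
  (alS (alS (alS (alS (alS (alS (alS (alS (alS (alS (alS (alS al0 pl0_0) pl0_1) pl0_2) pl0_3) pl0_4) pl0_5) pl0_6) pl0_7) pl0_8) pl0_9) pl0_10) pl0_11)
theorem cs0 : ∀ w < 12, StW (nat_lit 61) (nat_lit 7) (nat_lit 1) (nat_lit 3) (getC CL0 w) :=
  (alS (alS (alS (alS (alS (alS (alS (alS (alS (alS (alS (alS al0 (stX (nat_lit 2) (nat_lit 0) (nat_lit 256) (Rl.cons (nat_lit 0) (nat_lit 7) Rl.nil) rfl rfl sc0_0 (rlc st0_0_0 rln))) (stX (nat_lit 0) (nat_lit 14) (nat_lit 1) (Rl.cons (nat_lit 14) (nat_lit 13) Rl.nil) rfl rfl sc0_1 (rlc st0_1_0 rln))) (stX (nat_lit 0) (nat_lit 18) (nat_lit 1) (Rl.cons (nat_lit 18) (nat_lit 16) Rl.nil) rfl rfl sc0_2 (rlc st0_2_0 rln))) (stX (nat_lit 2)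 (nat_lit 68) (nat_lit 256) (Rl.cons (nat_lit 68) (nat_lit 10) Rl.nil) rfl rfl sc0_3 (rlc st0_3_0 rln))) (stX (nat_lit 0) (nat_lit 14) (nat_lit 1) (Rl.cons (nat_lit 14) (nat_lit 10) Rl.nil) rfl rfl sc0_4 (rlc st0_4_0 rln))) (stX (nat_lit 2) (nat_lit 10) (nat_lit 256) (Rl.cons (nat_lit 10) (nat_lit 3) Rl.nil) rfl rfl sc0_5 (rlc st0_5_0 rln))) (stX (nat_lit 2) (nat_lit 0) (nat_lit 256) Rl.nil rfl rfl sc0_6 rln)) (stX (nat_lit 3) (nat_lit 109) (nat_lit 4096) (Rl.cons (nat_lit 109) (nat_lit 91) Rl.nil) rfl rfl sc0_7 (rlc st0_7_0 rln))) (stX (nat_lit 1) (nat_lit 85) (nat_lit 16) (Rl.cons (nat_lit 85) (nat_lit 37) Rl.nil) rfl rfl sc0_8 (rlc st0_8_0 rln))) (stX (nat_lit 1) (nat_lit 73) (nat_lit 16) (Rl.cons (nat_lit 73) (nat_lit 33) Rl.nil) rfl rfl sc0_9 (rlc st0_9_0 rln))) (stX (nat_lit 2) (nat_lit 46) (nat_lit 256) (Rl.cons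 (nat_lit 46) (nat_lit 29) Rl.nil) rfl rfl sc0_10 (rlc st0_10_0 rln))) (stX (nat_lit 1) (nat_lit 33) (nat_lit 16) (Rl.cons (nat_lit 33) (nat_lit 11) Rl.nil) rfl rfl sc0_11 (rlc st0_11_0 rln)))
theorem ct0 : TiS (nat_lit 61) (nat_lit 7) (nat_lit 2) (nat_lit 3) (nat_lit 13) (nat_lit 12) (nat_lit 1) CL0 :=
  tiS ZZ0 (alS (alS (alS (alS (alS (alS (alS (alS (alS (alS (alS (alS al0 tc0_0) tc0_1) tc0_2) tc0_3) tc0_4) tc0_5) tc0_6) tc0_7) tc0_8) tc0_9) tc0_10) tc0_11)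
  (zzc ⟨(nat_lit 146), zl0_0, ti0_0⟩ zzn)
theorem cw1 : ∀ w < 12, wfC (nat_lit 5) (nat_lit 4) (getC CL1 w) = true :=
  (alS (alS (alS (alS (alS (alS (alS (alS (alS (alS (alS (alS al0 wf1_0) wf1_1) wf1_2) wf1_3) wf1_4) wf1_5) wf1_6) wf1_7) wf1_8) wf1_9) wf1_10) wf1_11)
theorem cr1 : ∀ w < 12, rfCk (nat_lit 61) (nat_lit 7) (nat_lit 5) (nat_lit 4) (nat_lit 9) (nat_lit 0) w TL1 CL0 CL1 = true :=
  (alS (alS (alS (alS (alS (alS (alS (alS (alS (alS (alS (alS al0 rf1_0) rf1_1) rf1_2) rf1_3) rf1_4) rf1_5) rf1_6) rf1_7) rf1_8) rf1_9) rf1_10) rf1_11)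
theorem vm1 : eqVM CL0 CL1 12 = true := by decide +kernel
theorem cs1 : ∀ w < 12, StW (nat_lit 5) (nat_lit 4) (nat_lit 2) (nat_lit 1) (getC CL1 w) :=
  (alS (alS (alS (alS (alS (alS (alS (alS (alS (alS (alS (alS al0 (stX (nat_lit 2) (nat_lit 0) (nat_lit 256) (Rl.cons (nat_lit 0) (nat_lit 1) Rl.nil) rfl rfl sc1_0 (rlc st1_0_0 rln))) (stX (nat_lit 0) (nat_lit 0) (nat_lit 1) Rl.nil rfl rfl sc1_1 rln)) (stX (nat_lit 0) (nat_lit 4) (nat_lit 1) (Rl.cons (nat_lit 4) (nat_lit 2) Rl.nil) rfl rfl sc1_2 (rlc st1_2_0 rln))) (stX (nat_lit 2) (nat_lit 7) (nat_lit 256) (Rl.cons (nat_lit 7) (nat_lit 1) Rl.nil) rfl rfl sc1_3 (rlc st1_3_0 rln))) (stX (nat_lit 0) (nat_lit 2) (nat_lit 1) (Rl.cons (nat_lit 2) (nat_lit 1) Rl.nil) rfl rfl sc1_4 (rlc st1_4_0 rln))) (stX (nat_lit 0) (nat_lit 0) (nat_lit 1) Rl.nil rfl rfl sc1_5 rln)) (stX (nat_lit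 0) (nat_lit 0) (nat_lit 1) Rl.nil rfl rfl sc1_6 rln)) (stX (nat_lit 2) (nat_lit 0) (nat_lit 256) Rl.nil rfl rfl sc1_7 rln)) (stX (nat_lit 0) (nat_lit 0) (nat_lit 1) Rl.nil rfl rfl sc1_8 rln)) (stX (nat_lit 0) (nat_lit 0) (nat_lit 1) Rl.nil rfl rfl sc1_9 rln)) (stX (nat_lit 0) (nat_lit 0) (nat_lit 1) Rl.nil rfl rfl sc1_10 rln)) (stX (nat_lit 0) (nat_lit 0) (nat_lit 1) Rl.nil rfl rfl sc1_11 rln))
theorem ct1 : TiS (nat_lit 5) (nat_lit 4) (nat_lit 1) (nat_lit 2) (nat_lit 13) (nat_lit 12) (nat_lit 1) CL1 :=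
  tiS ZZ1 (alS (alS (alS (alS (alS (alS (alS (alS (alS (alS (alS (alS al0 tc1_0) tc1_1) tc1_2) tc1_3) tc1_4) tc1_5) tc1_6) tc1_7) tc1_8) tc1_9) tc1_10) tc1_11)
  (zzc ⟨(nat_lit 8), zl1_0, ti1_0⟩ zzn)
theorem cd : ∀ w < 12, deadCk (nat_lit 5) (nat_lit 4) (getC CL1 w) = true :=
  (alS (alS (alS (alS (alS (alS (alS (alS (alS (alS (alS (alS al0 de1_0) de1_1) de1_2) de1_3) de1_4) de1_5) de1_6) de1_7) de1_8) de1_9) de1_10) de1_11)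
theorem rc : recCk (recP 13 (1, 8, 9) 5 0 2).W 12 CL0 = true := by decide +kernel
theorem occ (O : OccL (recP 13 (1, 8, 9) 5 0 2) (locOK (Nat.testBit 5) (Nat.testBit 0) (Nat.testBit 2))) :
    False := by
  have k := first_stage O 1 (nlOK_A (by decide) (by decide)) rfl rfl rfl rfl rc cw0 cp
  have k := run_stage k rfl (nat_lit 1) (nat_lit 3) (nat_lit 2) (nat_lit 3) rfl cs0 ct0
  have k := next_stage k (nat_lit 5) (nat_lit 4) (nat_lit 9) (nat_lit 0) rfl rfl rfl rfl rfl vm1 cw1 cr1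
  have k := run_stage k rfl (nat_lit 2) (nat_lit 1) (nat_lit 1) (nat_lit 2) rfl cs1 ct1
  exact last_stage k rfl cd
theorem res : ∃ ok, OkP (1, 8, 9) ok ∧ IsEmpty (LTil (shP 13 (1, 8, 9) ok)) :=
  dead_P 5 0 2 (by decide +kernel) rc occ

end Pool.Agent.NNr.R13_1_8_9

namespace Pool.Agent.NNr.R13_2_5_7
open Pool.Agent.NNe Pool.Agent.NNc

theorem cw0 : ∀ w < 12, wfC (nat_lit 59) (nat_lit 5) (getC CL0 w) = true :=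
  (alS (alS (alS (alS (alS (alS (alS (alS (alS (alS (alS (alS al0 wf0_0) wf0_1) wf0_2) wf0_3) wf0_4) wf0_5) wf0_6) wf0_7) wf0_8) wf0_9) wf0_10) wf0_11)
theorem cp : ∀ w < 12, plCk (nat_lit 59) (nat_lit 5) (nat_lit 13) (nat_lit 5) (nat_lit 0) (nat_lit 2) (nat_lit 12) (nat_lit 4) w nl0 CL0 = true :=
  (alS (alS (alS (alS (alS (alS (alS (alS (alS (alS (alS (alS al0 pl0_0) pl0_1) pl0_2) pl0_3) pl0_4) pl0_5) pl0_6) pl0_7) pl0_8) pl0_9) pl0_10) pl0_11)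
theorem cs0 : ∀ w < 12, StW (nat_lit 59) (nat_lit 5) (nat_lit 1) (nat_lit 2) (getC CL0 w) :=
  (alS (alS (alS (alS (alS (alS (alS (alS (alS (alS (alS (alS al0 (stX (nat_lit 2) (nat_lit 0) (nat_lit 256) (Rl.cons (nat_lit 0) (nat_lit 7) Rl.nil) rfl rfl sc0_0 (rlc st0_0_0 rln))) (stX (nat_lit 0) (nat_lit 15) (nat_lit 1) (Rl.cons (nat_lit 15) (nat_lit 12) Rl.nil) rfl rfl sc0_1 (rlc st0_1_0 rln))) (stX (nat_lit 2) (nat_lit 80) (nat_lit 256) (Rl.cons (nat_lit 80) (nat_lit 17) Rl.nil) rfl rfl sc0_2 (rlc st0_2_0 rln))) (stX (nat_lit 2) (nat_lit 75) (nat_lit 256) (Rl.cons (nat_lit 75) (nat_lit 10) Rl.nil) rfl rfl sc0_3 (rlc st0_3_0 rln))) (stX (nat_lit 0) (nat_lit 14) (nat_lit 1) (Rl.cons (nat_lit 14) (nat_lit 10) Rl.nil) rfl rfl sc0_4 (rlc st0_4_0 rln))) (stX (nat_lit 2) (nat_lit 21) (nat_lit 256) (Rl.cons (nat_lit 21) (nat_lit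 9) Rl.nil) rfl rfl sc0_5 (rlc st0_5_0 rln))) (stX (nat_lit 2) (nat_lit 48) (nat_lit 256) (Rl.cons (nat_lit 48) (nat_lit 9) Rl.nil) rfl rfl sc0_6 (rlc st0_6_0 rln))) (stX (nat_lit 1) (nat_lit 17) (nat_lit 16) (Rl.cons (nat_lit 17) (nat_lit 8) Rl.nil) rfl rfl sc0_7 (rlc st0_7_0 rln))) (stX (nat_lit 3) (nat_lit 94) (nat_lit 4096) (Rl.cons (nat_lit 94) (nat_lit 77) Rl.nil) rfl rfl sc0_8 (rlc st0_8_0 rln))) (stX (nat_lit 1) (nat_lit 68) (nat_lit 16) (Rl.cons (nat_lit 68) (nat_lit 29) Rl.nil) rfl rfl sc0_9 (rlc st0_9_0 rln))) (stX (nat_lit 1) (nat_lit 69) (nat_lit 16) (Rl.cons (nat_lit 69) (nat_lit 34) Rl.nil) rfl rfl sc0_10 (rlc st0_10_0 rln))) (stX (nat_lit 3) (nat_lit 50) (nat_lit 4096) (Rl.cons (nat_lit 50) (nat_lit 38) Rl.nil) rfl rfl sc0_11 (rlc st0_11_0 rln)))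
theorem ct0 : TiS (nat_lit 59) (nat_lit 5) (nat_lit 2) (nat_lit 2) (nat_lit 13) (nat_lit 12) (nat_lit 1) CL0 :=
  tiS ZZ0 (alS (alS (alS (alS (alS (alS (alS (alS (alS (alS (alS (alS al0 tc0_0) tc0_1) tc0_2) tc0_3) tc0_4) tc0_5) tc0_6) tc0_7) tc0_8) tc0_9) tc0_10) tc0_11)
  (zzc ⟨(nat_lit 155), zl0_0, ti0_0⟩ zzn)
theorem cw1 : ∀ w < 12, wfC (nat_lit 57) (nat_lit 11) (getC CL1 w) = true :=
  (alS (alS (alS (alS (alS (alS (alS (alS (alS (alS (alS (alS al0 wf1_0) wf1_1) wf1_2) wf1_3) wf1_4) wf1_5) wf1_6) wf1_7) wf1_8) wf1_9) wf1_10) wf1_11)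
theorem cr1 : ∀ w < 12, rfCk (nat_lit 59) (nat_lit 5) (nat_lit 57) (nat_lit 11) (nat_lit 1) (nat_lit 262144) w TL1 CL0 CL1 = true :=
  (alS (alS (alS (alS (alS (alS (alS (alS (alS (alS (alS (alS al0 rf1_0) rf1_1) rf1_2) rf1_3) rf1_4) rf1_5) rf1_6) rf1_7) rf1_8) rf1_9) rf1_10) rf1_11)
theorem vm1 : eqVM CL0 CL1 12 = true := by decide +kernel
theorem cs1 : ∀ w < 12, StW (nat_lit 57) (nat_lit 11) (nat_lit 1) (nat_lit 5) (getC CL1 w) :=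
  (alS (alS (alS (alS (alS (alS (alS (alS (alS (alS (alS (alS al0 (stX (nat_lit 2) (nat_lit 0) (nat_lit 256) (Rl.cons (nat_lit 0) (nat_lit 8) Rl.nil) rfl rfl sc1_0 (rlc st1_0_0 rln))) (stX (nat_lit 0) (nat_lit 48) (nat_lit 1) (Rl.cons (nat_lit 48) (nat_lit 36) Rl.nil) rfl rfl sc1_1 (rlc st1_1_0 rln))) (stX (nat_lit 2) (nat_lit 241) (nat_lit 256) (Rl.cons (nat_lit 241) (nat_lit 24) Rl.nil) rfl rfl sc1_2 (rlc st1_2_0 rln))) (stX (nat_lit 2) (nat_lit 216) (nat_lit 256) (Rl.cons (nat_lit 216) (nat_lit 16) Rl.nil) rfl rfl sc1_3 (rlc st1_3_0 rln))) (stX (nat_lit 0) (nat_lit 48) (nat_lit 1) (Rl.cons (nat_lit 48) (nat_lit 36) Rl.nil) rfl rfl sc1_4 (rlc st1_4_0 rln))) (stX (nat_lit 2) (nat_lit 48) (nat_lit 256) (Rl.cons (nat_lit 48) (nat_lit 8) Rl.nil) rfl rfl sc1_5 (rlc st1_5_0 rln))) (stX (nat_lit 2) (nat_lit 87) (nat_lit 256)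 (Rl.cons (nat_lit 87) (nat_lit 5) Rl.nil) rfl rfl sc1_6 (rlc st1_6_0 rln))) (stX (nat_lit 0) (nat_lit 0) (nat_lit 1) Rl.nil rfl rfl sc1_7 rln)) (stX (nat_lit 3) (nat_lit 262) (nat_lit 4096) (Rl.cons (nat_lit 262) (nat_lit 222) Rl.nil) rfl rfl sc1_8 (rlc st1_8_0 rln))) (stX (nat_lit 1) (nat_lit 236) (nat_lit 16) (Rl.cons (nat_lit 236) (nat_lit 100) Rl.nil) rfl rfl sc1_9 (rlc st1_9_0 rln))) (stX (nat_lit 1) (nat_lit 244) (nat_lit 16) (Rl.cons (nat_lit 244) (nat_lit 112) Rl.nil) rfl rfl sc1_10 (rlc st1_10_0 rln))) (stX (nat_lit 3) (nat_lit 164) (nat_lit 4096) (Rl.cons (nat_lit 164) (nat_lit 116) Rl.nil) rfl rfl sc1_11 (rlc st1_11_0 rln)))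
theorem ct1 : TiS (nat_lit 57) (nat_lit 11) (nat_lit 2) (nat_lit 5) (nat_lit 13) (nat_lit 12) (nat_lit 1) CL1 :=
  tiS ZZ1 (alS (alS (alS (alS (alS (alS (alS (alS (alS (alS (alS (alS al0 tc1_0) tc1_1) tc1_2) tc1_3) tc1_4) tc1_5) tc1_6) tc1_7) tc1_8) tc1_9) tc1_10) tc1_11)
  (zzc ⟨(nat_lit 244), zl1_0, ti1_0⟩ (zzc ⟨(nat_lit 244), zl1_1, ti1_1⟩ zzn))
theorem cw2 : ∀ w < 12, wfC (nat_lit 7) (nat_lit 4) (getC CL2 w) = true :=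
  (alS (alS (alS (alS (alS (alS (alS (alS (alS (alS (alS (alS al0 wf2_0) wf2_1) wf2_2) wf2_3) wf2_4) wf2_5) wf2_6) wf2_7) wf2_8) wf2_9) wf2_10) wf2_11)
theorem cr2 : ∀ w < 12, rfCk (nat_lit 57) (nat_lit 11) (nat_lit 7) (nat_lit 4) (nat_lit 9) (nat_lit 0) w TL2 CL1 CL2 = true :=
  (alS (alS (alS (alS (alS (alS (alS (alS (alS (alS (alS (alS al0 rf2_0) rf2_1) rf2_2) rf2_3) rf2_4) rf2_5) rf2_6) rf2_7) rf2_8) rf2_9) rf2_10) rf2_11)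
theorem vm2 : eqVM CL1 CL2 12 = true := by decide +kernel
theorem cs2 : ∀ w < 12, StW (nat_lit 7) (nat_lit 4) (nat_lit 2) (nat_lit 1) (getC CL2 w) :=
  (alS (alS (alS (alS (alS (alS (alS (alS (alS (alS (alS (alS al0 (stX (nat_lit 2) (nat_lit 0) (nat_lit 256) (Rl.cons (nat_lit 0) (nat_lit 1) Rl.nil) rfl rfl sc2_0 (rlc st2_0_0 rln))) (stX (nat_lit 0) (nat_lit 0) (nat_lit 1) Rl.nil rfl rfl sc2_1 rln)) (stX (nat_lit 0) (nat_lit 3) (nat_lit 1) (Rl.cons (nat_lit 3) (nat_lit 1) Rl.nil) rfl rfl sc2_2 (rlc st2_2_0 rln))) (stX (nat_lit 0) (nat_lit 0) (nat_lit 1) Rl.nil rfl rfl sc2_3 rln)) (stX (nat_lit 0) (nat_lit 4) (nat_lit 1) (Rl.cons (nat_lit 4) (nat_lit 3) Rl.nil) rfl rfl sc2_4 (rlc st2_4_0 rln))) (stX (nat_lit 0) (nat_lit 0) (nat_lit 1) Rl.nil rfl rfl sc2_5 rln)) (stX (nat_lit 0) (nat_lit 0) (nat_lit 1) Rl.nil rfl rfl sc2_6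 rln)) (stX (nat_lit 0) (nat_lit 0) (nat_lit 1) Rl.nil rfl rfl sc2_7 rln)) (stX (nat_lit 3) (nat_lit 9) (nat_lit 4096) (Rl.cons (nat_lit 9) (nat_lit 5) Rl.nil) rfl rfl sc2_8 (rlc st2_8_0 rln))) (stX (nat_lit 0) (nat_lit 0) (nat_lit 1) Rl.nil rfl rfl sc2_9 rln)) (stX (nat_lit 0) (nat_lit 0) (nat_lit 1) Rl.nil rfl rfl sc2_10 rln)) (stX (nat_lit 3) (nat_lit 0) (nat_lit 4096) Rl.nil rfl rfl sc2_11 rln))
theorem ct2 : TiS (nat_lit 7) (nat_lit 4) (nat_lit 1) (nat_lit 2) (nat_lit 13) (nat_lit 12) (nat_lit 1) CL2 :=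
  tiS ZZ2 (alS (alS (alS (alS (alS (alS (alS (alS (alS (alS (alS (alS al0 tc2_0) tc2_1) tc2_2) tc2_3) tc2_4) tc2_5) tc2_6) tc2_7) tc2_8) tc2_9) tc2_10) tc2_11)
  (zzc ⟨(nat_lit 9), zl2_0, ti2_0⟩ zzn)
theorem cd : ∀ w < 12, deadCk (nat_lit 7) (nat_lit 4) (getC CL2 w) = true :=
  (alS (alS (alS (alS (alS (alS (alS (alS (alS (alS (alS (alS al0 de2_0) de2_1) de2_2) de2_3) de2_4) de2_5) de2_6) de2_7) de2_8) de2_9) de2_10) de2_11)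
theorem rc : recCk (recP 13 (2, 5, 7) 5 0 2).W 12 CL0 = true := by decide +kernel
theorem occ (O : OccL (recP 13 (2, 5, 7) 5 0 2) (locOK (Nat.testBit 5) (Nat.testBit 0) (Nat.testBit 2))) :
    False := by
  have k := first_stage O 1 (nlOK_A (by decide) (by decide)) rfl rfl rfl rfl rc cw0 cp
  have k := run_stage k rfl (nat_lit 1) (nat_lit 2) (nat_lit 2) (nat_lit 2) rfl cs0 ct0
  have k := next_stage k (nat_lit 57) (nat_lit 11) (nat_lit 1) (nat_lit 1) rfl rfl rfl rfl rfl vm1 cw1 cr1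
  have k := run_stage k rfl (nat_lit 1) (nat_lit 5) (nat_lit 2) (nat_lit 5) rfl cs1 ct1
  have k := next_stage k (nat_lit 7) (nat_lit 4) (nat_lit 9) (nat_lit 0) rfl rfl rfl rfl rfl vm2 cw2 cr2
  have k := run_stage k rfl (nat_lit 2) (nat_lit 1) (nat_lit 1) (nat_lit 2) rfl cs2 ct2
  exact last_stage k rfl cd
theorem res : ∃ ok, OkP (2, 5, 7) ok ∧ IsEmpty (LTil (shP 13 (2, 5, 7) ok)) :=
  dead_P 5 0 2 (by decide +kernel) rc occ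

end Pool.Agent.NNr.R13_2_5_7

namespace Pool.Agent.NNr.R13_3_4_7
open Pool.Agent.NNe Pool.Agent.NNc

theorem cw0 : ∀ w < 11, wfC (nat_lit 50) (nat_lit 5) (getC CL0 w) = true :=
  (alS (alS (alS (alS (alS (alS (alS (alS (alS (alS (alS al0 wf0_0) wf0_1) wf0_2) wf0_3) wf0_4) wf0_5) wf0_6) wf0_7) wf0_8) wf0_9) wf0_10)
theorem cp : ∀ w < 11, plCk (nat_lit 50) (nat_lit 5) (nat_lit 13) (nat_lit 0) (nat_lit 0) (nat_lit 7) (nat_lit 11) (nat_lit 4) w nl0 CL0 = true :=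
  (alS (alS (alS (alS (alS (alS (alS (alS (alS (alS (alS al0 pl0_0) pl0_1) pl0_2) pl0_3) pl0_4) pl0_5) pl0_6) pl0_7) pl0_8) pl0_9) pl0_10)
theorem cs0 : ∀ w < 11, StW (nat_lit 50) (nat_lit 5) (nat_lit 1) (nat_lit 2) (getC CL0 w) :=
  (alS (alS (alS (alS (alS (alS (alS (alS (alS (alS (alS al0 (stX (nat_lit 2) (nat_lit 0) (nat_lit 256) (Rl.cons (nat_lit 0) (nat_lit 7) Rl.nil) rfl rfl sc0_0 (rlc st0_0_0 rln))) (stX (nat_lit 1) (nat_lit 0) (nat_lit 16) (Rl.cons (nat_lit 0) (nat_lit 8) Rl.nil) rfl rfl sc0_1 (rlc st0_1_0 rln))) (stX (nat_lit 0) (nat_lit 13) (nat_lit 1) (Rl.cons (nat_lit 13) (nat_lit 11) Rl.nil) rfl rfl sc0_2 (rlc st0_2_0 rln))) (stX (nat_lit 0) (nat_lit 20) (nat_lit 1) (Rl.cons (nat_lit 20) (nat_lit 17) Rl.nil) rfl rfl sc0_3 (rlc st0_3_0 rln))) (stX (nat_lit 2) (nat_lit 74) (nat_lit 256) (Rl.cons (nat_lit 74)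 (nat_lit 10) Rl.nil) rfl rfl sc0_4 (rlc st0_4_0 rln))) (stX (nat_lit 0) (nat_lit 15) (nat_lit 1) (Rl.cons (nat_lit 15) (nat_lit 10) Rl.nil) rfl rfl sc0_5 (rlc st0_5_0 rln))) (stX (nat_lit 2) (nat_lit 24) (nat_lit 256) (Rl.cons (nat_lit 24) (nat_lit 4) Rl.nil) rfl rfl sc0_6 (rlc st0_6_0 rln))) (stX (nat_lit 1) (nat_lit 23) (nat_lit 16) (Rl.cons (nat_lit 23) (nat_lit 7) Rl.nil) rfl rfl sc0_7 (rlc st0_7_0 rln))) (stX (nat_lit 3) (nat_lit 81) (nat_lit 4096) (Rl.cons (nat_lit 81) (nat_lit 66) Rl.nil) rfl rfl sc0_8 (rlc st0_8_0 rln))) (stX (nat_lit 1) (nat_lit 59) (nat_lit 16) (Rl.cons (nat_lit 59) (nat_lit 25) Rl.nil) rfl rfl sc0_9 (rlc st0_9_0 rln))) (stX (nat_lit 1) (nat_lit 61) (nat_lit 16) (Rl.cons (nat_lit 61) (nat_lit 29) Rl.nil) rfl rfl sc0_10 (rlc st0_10_0 rln)))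
theorem ct0 : TiS (nat_lit 50) (nat_lit 5) (nat_lit 2) (nat_lit 2) (nat_lit 13) (nat_lit 11) (nat_lit 1) CL0 :=
  tiS ZZ0 (alS (alS (alS (alS (alS (alS (alS (alS (alS (alS (alS al0 tc0_0) tc0_1) tc0_2) tc0_3) tc0_4) tc0_5) tc0_6) tc0_7) tc0_8) tc0_9) tc0_10)
  (zzc ⟨(nat_lit 139), zl0_0, ti0_0⟩ zzn)
theorem cw1 : ∀ w < 11, wfC (nat_lit 5) (nat_lit 4) (getC CL1 w) = true :=
  (alS (alS (alS (alS (alS (alS (alS (alS (alS (alS (alS al0 wf1_0) wf1_1) wf1_2) wf1_3) wf1_4) wf1_5) wf1_6) wf1_7) wf1_8) wf1_9) wf1_10)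
theorem cr1 : ∀ w < 11, rfCk (nat_lit 50) (nat_lit 5) (nat_lit 5) (nat_lit 4) (nat_lit 9) (nat_lit 0) w TL1 CL0 CL1 = true :=
  (alS (alS (alS (alS (alS (alS (alS (alS (alS (alS (alS al0 rf1_0) rf1_1) rf1_2) rf1_3) rf1_4) rf1_5) rf1_6) rf1_7) rf1_8) rf1_9) rf1_10)
theorem vm1 : eqVM CL0 CL1 11 = true := by decide +kernel
theorem cs1 : ∀ w < 11, StW (nat_lit 5) (nat_lit 4) (nat_lit 2) (nat_lit 1) (getC CL1 w) :=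
  (alS (alS (alS (alS (alS (alS (alS (alS (alS (alS (alS al0 (stX (nat_lit 2) (nat_lit 0) (nat_lit 256) (Rl.cons (nat_lit 0) (nat_lit 1) Rl.nil) rfl rfl sc1_0 (rlc st1_0_0 rln))) (stX (nat_lit 1) (nat_lit 0) (nat_lit 16) Rl.nil rfl rfl sc1_1 rln)) (stX (nat_lit 0) (nat_lit 0) (nat_lit 1) Rl.nil rfl rfl sc1_2 rln)) (stX (nat_lit 0) (nat_lit 4) (nat_lit 1) (Rl.cons (nat_lit 4) (nat_lit 2) Rl.nil) rfl rfl sc1_3 (rlc st1_3_0 rln))) (stX (nat_lit 2) (nat_lit 6) (nat_lit 256) (Rl.cons (nat_lit 6) (nat_lit 1) Rl.nil) rfl rfl sc1_4 (rlc st1_4_0 rln))) (stX (nat_lit 0) (nat_lit 2) (nat_lit 1) (Rl.cons (nat_lit 2) (nat_lit 1) Rl.nil) rfl rfl sc1_5 (rlc st1_5_0 rln))) (stX (nat_lit 0) (nat_lit 0) (nat_lit 1) Rl.nil rfl rfl sc1_6 rln)) (stX (nat_lit 0) (nat_lit 0) (nat_lit 1) Rl.nil rfl rfl sc1_7 rln)) (stX (nat_lit 2) (nat_lit 0)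 (nat_lit 256) Rl.nil rfl rfl sc1_8 rln)) (stX (nat_lit 0) (nat_lit 0) (nat_lit 1) Rl.nil rfl rfl sc1_9 rln)) (stX (nat_lit 0) (nat_lit 0) (nat_lit 1) Rl.nil rfl rfl sc1_10 rln))
theorem ct1 : TiS (nat_lit 5) (nat_lit 4) (nat_lit 1) (nat_lit 2) (nat_lit 13) (nat_lit 11) (nat_lit 1) CL1 :=
  tiS ZZ1 (alS (alS (alS (alS (alS (alS (alS (alS (alS (alS (alS al0 tc1_0) tc1_1) tc1_2) tc1_3) tc1_4) tc1_5) tc1_6) tc1_7) tc1_8) tc1_9) tc1_10)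
  (zzc ⟨(nat_lit 8), zl1_0, ti1_0⟩ zzn)
theorem cd : ∀ w < 11, deadCk (nat_lit 5) (nat_lit 4) (getC CL1 w) = true :=
  (alS (alS (alS (alS (alS (alS (alS (alS (alS (alS (alS al0 de1_0) de1_1) de1_2) de1_3) de1_4) de1_5) de1_6) de1_7) de1_8) de1_9) de1_10)
theorem rc : recCk (recP 13 (3, 4, 7) 0 0 7).W 11 CL0 = true := by decide +kernel
theorem occ (O : OccL (recP 13 (3, 4, 7) 0 0 7) (locOK (Nat.testBit 0) (Nat.testBit 0) (Nat.testBit 7))) :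
    False := by
  have k := first_stage O 1 (nlOK_A (by decide) (by decide)) rfl rfl rfl rfl rc cw0 cp
  have k := run_stage k rfl (nat_lit 1) (nat_lit 2) (nat_lit 2) (nat_lit 2) rfl cs0 ct0
  have k := next_stage k (nat_lit 5) (nat_lit 4) (nat_lit 9) (nat_lit 0) rfl rfl rfl rfl rfl vm1 cw1 cr1
  have k := run_stage k rfl (nat_lit 2) (nat_lit 1) (nat_lit 1) (nat_lit 2) rfl cs1 ct1
  exact last_stage k rfl cd
theorem res : ∃ ok, OkP (3, 4, 7) ok ∧ IsEmpty (LTil (shP 13 (3, 4, 7) ok)) :=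
  dead_P 0 0 7 (by decide +kernel) rc occ

end Pool.Agent.NNr.R13_3_4_7

namespace Pool.Agent.NNr.R13_4_5_18
open Pool.Agent.NNe Pool.Agent.NNc

theorem cw0 : ∀ w < 9, wfC (nat_lit 44) (nat_lit 9) (getC CL0 w) = true :=
  (alS (alS (alS (alS (alS (alS (alS (alS (alS al0 wf0_0) wf0_1) wf0_2) wf0_3) wf0_4) wf0_5) wf0_6) wf0_7) wf0_8)
theorem cp : ∀ w < 9, plCk (nat_lit 44) (nat_lit 9) (nat_lit 13) (nat_lit 0) (nat_lit 0) (nat_lit 7) (nat_lit 9) (nat_lit 4) w nl0 CL0 = true :=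
  (alS (alS (alS (alS (alS (alS (alS (alS (alS al0 pl0_0) pl0_1) pl0_2) pl0_3) pl0_4) pl0_5) pl0_6) pl0_7) pl0_8)
theorem cs0 : ∀ w < 9, StW (nat_lit 44) (nat_lit 9) (nat_lit 1) (nat_lit 4) (getC CL0 w) :=
  (alS (alS (alS (alS (alS (alS (alS (alS (alS al0 (stX (nat_lit 2) (nat_lit 0) (nat_lit 256) (Rl.cons (nat_lit 0) (nat_lit 8) Rl.nil) rfl rfl sc0_0 (rlc st0_0_0 rln))) (stX (nat_lit 0) (nat_lit 2) (nat_lit 1) (Rl.cons (nat_lit 2) (nat_lit 2) Rl.nil) rfl rfl sc0_1 (rlc st0_1_0 rln))) (stX (nat_lit 0) (nat_lit 13) (nat_lit 1) (Rl.cons (nat_lit 13) (nat_lit 11) Rl.nil) rfl rfl sc0_2 (rlc st0_2_0 rln))) (stX (nat_lit 2) (nat_lit 39) (nat_lit 256) (Rl.cons (nat_lit 39) (nat_lit 8) Rl.nil) rfl rfl sc0_3 (rlc st0_3_0 rln))) (stX (nat_lit 1) (nat_lit 7) (nat_lit 16) (Rl.cons (nat_lit 7) (nat_lit 3) Rl.nil) rfl rfl sc0_4 (rlc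 st0_4_0 rln))) (stX (nat_lit 2) (nat_lit 10) (nat_lit 256) (Rl.cons (nat_lit 10) (nat_lit 2) Rl.nil) rfl rfl sc0_5 (rlc st0_5_0 rln))) (stX (nat_lit 1) (nat_lit 0) (nat_lit 16) Rl.nil rfl rfl sc0_6 rln)) (stX (nat_lit 1) (nat_lit 47) (nat_lit 16) (Rl.cons (nat_lit 47) (nat_lit 21) Rl.nil) rfl rfl sc0_7 (rlc st0_7_0 rln))) (stX (nat_lit 1) (nat_lit 41) (nat_lit 16) (Rl.cons (nat_lit 41) (nat_lit 19) Rl.nil) rfl rfl sc0_8 (rlc st0_8_0 rln)))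
theorem ct0 : TiS (nat_lit 44) (nat_lit 9) (nat_lit 2) (nat_lit 4) (nat_lit 13) (nat_lit 9) (nat_lit 1) CL0 :=
  tiS ZZ0 (alS (alS (alS (alS (alS (alS (alS (alS (alS al0 tc0_0) tc0_1) tc0_2) tc0_3) tc0_4) tc0_5) tc0_6) tc0_7) tc0_8)
  (zzc ⟨(nat_lit 71), zl0_0, ti0_0⟩ zzn)
theorem cd : ∀ w < 9, deadCk (nat_lit 44) (nat_lit 9) (getC CL0 w) = true :=
  (alS (alS (alS (alS (alS (alS (alS (alS (alS al0 de0_0) de0_1) de0_2) de0_3) de0_4) de0_5) de0_6) de0_7) de0_8)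
theorem rc : recCk (recP 13 (4, 5, 18) 0 0 7).W 9 CL0 = true := by decide +kernel
theorem occ (O : OccL (recP 13 (4, 5, 18) 0 0 7) (locOK (Nat.testBit 0) (Nat.testBit 0) (Nat.testBit 7))) :
    False := by
  have k := first_stage O 1 (nlOK_A (by decide) (by decide)) rfl rfl rfl rfl rc cw0 cp
  have k := run_stage k rfl (nat_lit 1) (nat_lit 4) (nat_lit 2) (nat_lit 4) rfl cs0 ct0
  exact last_stage k rfl cd
theorem res : ∃ ok, OkP (4, 5, 18) ok ∧ IsEmpty (LTil (shP 13 (4, 5, 18) ok)) :=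
  dead_P 0 0 7 (by decide +kernel) rc occ

end Pool.Agent.NNr.R13_4_5_18

namespace Pool.Agent.NNr.R15_1_3_8
open Pool.Agent.NNe Pool.Agent.NNc

theorem cw0 : ∀ w < 20, wfC (nat_lit 60) (nat_lit 5) (getC CL0 w) = true :=
  (alS (alS (alS (alS (alS (alS (alS (alS (alS (alS (alS (alS (alS (alS (alS (alS (alS (alS (alS (alS al0 wf0_0) wf0_1) wf0_2) wf0_3) wf0_4) wf0_5) wf0_6) wf0_7) wf0_8) wf0_9) wf0_10) wf0_11) wf0_12) wf0_13) wf0_14) wf0_15) wf0_16) wf0_17) wf0_18) wf0_19)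
theorem cp : ∀ w < 20, plCk (nat_lit 60) (nat_lit 5) (nat_lit 15) (nat_lit 5) (nat_lit 0) (nat_lit 2) (nat_lit 20) (nat_lit 4) w nl0 CL0 = true :=
  (alS (alS (alS (alS (alS (alS (alS (alS (alS (alS (alS (alS (alS (alS (alS (alS (alS (alS (alS (alS al0 pl0_0) pl0_1) pl0_2) pl0_3) pl0_4) pl0_5) pl0_6) pl0_7) pl0_8) pl0_9) pl0_10) pl0_11) pl0_12) pl0_13) pl0_14) pl0_15) pl0_16) pl0_17) pl0_18) pl0_19)
theorem cs0 : ∀ w < 20, StW (nat_lit 60) (nat_lit 5) (nat_lit 1) (nat_lit 2) (getC CL0 w) :=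
  (alS (alS (alS (alS (alS (alS (alS (alS (alS (alS (alS (alS (alS (alS (alS (alS (alS (alS (alS (alS al0 (stX (nat_lit 2) (nat_lit 0) (nat_lit 256) (Rl.cons (nat_lit 0) (nat_lit 17) Rl.nil) rfl rfl sc0_0 (rlc st0_0_0 rln))) (stX (nat_lit 1) (nat_lit 0) (nat_lit 16) (Rl.cons (nat_lit 0) (nat_lit 10) Rl.nil) rfl rfl sc0_1 (rlc st0_1_0 rln))) (stX (nat_lit 0) (nat_lit 22) (nat_lit 1) (Rl.cons (nat_lit 22) (nat_lit 17) Rl.nil) rfl rfl sc0_2 (rlc st0_2_0 rln))) (stX (nat_lit 0) (nat_lit 35) (nat_lit 1) (Rl.cons (nat_lit 35) (nat_lit 23) Rl.nil) rfl rfl sc0_3 (rlc st0_3_0 rln))) (stX (nat_lit 0) (nat_lit 14) (nat_lit 1) (Rl.cons (nat_lit 14) (nat_lit 9) Rl.nil) rfl rfl sc0_4 (rlc st0_4_0 rln))) (stX (nat_lit 2) (nat_lit 86) (nat_lit 256) (Rl.cons (nat_lit 86) (nat_lit 17) Rl.nil) rfl rfl sc0_5 (rlc st0_5_0 rln))) (stX (nat_lit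 1) (nat_lit 49) (nat_lit 16) (Rl.cons (nat_lit 49) (nat_lit 18) Rl.nil) rfl rfl sc0_6 (rlc st0_6_0 rln))) (stX (nat_lit 0) (nat_lit 8) (nat_lit 1) (Rl.cons (nat_lit 8) (nat_lit 8) Rl.nil) rfl rfl sc0_7 (rlc st0_7_0 rln))) (stX (nat_lit 2) (nat_lit 63) (nat_lit 256) (Rl.cons (nat_lit 63) (nat_lit 12) Rl.nil) rfl rfl sc0_8 (rlc st0_8_0 rln))) (stX (nat_lit 2) (nat_lit 26) (nat_lit 256) (Rl.cons (nat_lit 26) (nat_lit 14) Rl.nil) rfl rfl sc0_9 (rlc st0_9_0 rln))) (stX (nat_lit 1) (nat_lit 7) (nat_lit 16) (Rl.cons (nat_lit 7) (nat_lit 3) Rl.nil) rfl rfl sc0_10 (rlc st0_10_0 rln))) (stX (nat_lit 2) (nat_lit 26) (nat_lit 256) (Rl.cons (nat_lit 26) (nat_lit 7) Rl.nil) rfl rfl sc0_11 (rlc st0_11_0 rln))) (stX (nat_lit 1) (nat_lit 0) (nat_lit 16) Rl.nil rfl rfl sc0_12 rln)) (stX (nat_lit 3) (nat_lit 106) (nat_lit 4096) (Rl.cons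 (nat_lit 106) (nat_lit 85) Rl.nil) rfl rfl sc0_13 (rlc st0_13_0 rln))) (stX (nat_lit 1) (nat_lit 114) (nat_lit 16) (Rl.cons (nat_lit 114) (nat_lit 52) Rl.nil) rfl rfl sc0_14 (rlc st0_14_0 rln))) (stX (nat_lit 3) (nat_lit 209) (nat_lit 4096) (Rl.cons (nat_lit 209) (nat_lit 142) Rl.nil) rfl rfl sc0_15 (rlc st0_15_0 rln))) (stX (nat_lit 2) (nat_lit 105) (nat_lit 256) (Rl.cons (nat_lit 105) (nat_lit 82) Rl.nil) rfl rfl sc0_16 (rlc st0_16_0 rln))) (stX (nat_lit 1) (nat_lit 80) (nat_lit 16) (Rl.cons (nat_lit 80) (nat_lit 37) Rl.nil) rfl rfl sc0_17 (rlc st0_17_0 rln))) (stX (nat_lit 1) (nat_lit 61) (nat_lit 16) (Rl.cons (nat_lit 61) (nat_lit 22) Rl.nil) rfl rfl sc0_18 (rlc st0_18_0 rln))) (stX (nat_lit 3) (nat_lit 23) (nat_lit 4096) (Rl.cons (nat_lit 23) (nat_lit 19) Rl.nil) rfl rfl sc0_19 (rlc st0_19_0 rln)))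
theorem ct0 : TiS (nat_lit 60) (nat_lit 5) (nat_lit 2) (nat_lit 2) (nat_lit 15) (nat_lit 20) (nat_lit 1) CL0 :=
  tiS ZZ0 (alS (alS (alS (alS (alS (alS (alS (alS (alS (alS (alS (alS (alS (alS (alS (alS (alS (alS (alS (alS al0 tc0_0) tc0_1) tc0_2) tc0_3) tc0_4) tc0_5) tc0_6) tc0_7) tc0_8) tc0_9) tc0_10) tc0_11) tc0_12) tc0_13) tc0_14) tc0_15) tc0_16) tc0_17) tc0_18) tc0_19)
  (zzc ⟨(nat_lit 370), zl0_0, ti0_0⟩ zzn)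
theorem cw1 : ∀ w < 20, wfC (nat_lit 61) (nat_lit 15) (getC CL1 w) = true :=
  (alS (alS (alS (alS (alS (alS (alS (alS (alS (alS (alS (alS (alS (alS (alS (alS (alS (alS (alS (alS al0 wf1_0) wf1_1) wf1_2) wf1_3) wf1_4) wf1_5) wf1_6) wf1_7) wf1_8) wf1_9) wf1_10) wf1_11) wf1_12) wf1_13) wf1_14) wf1_15) wf1_16) wf1_17) wf1_18) wf1_19)
theorem cr1 : ∀ w < 20, rfCk (nat_lit 60) (nat_lit 5) (nat_lit 61) (nat_lit 15) (nat_lit 6) (nat_lit 262144) w TL1 CL0 CL1 = true :=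
  (alS (alS (alS (alS (alS (alS (alS (alS (alS (alS (alS (alS (alS (alS (alS (alS (alS (alS (alS (alS al0 rf1_0) rf1_1) rf1_2) rf1_3) rf1_4) rf1_5) rf1_6) rf1_7) rf1_8) rf1_9) rf1_10) rf1_11) rf1_12) rf1_13) rf1_14) rf1_15) rf1_16) rf1_17) rf1_18) rf1_19)
theorem vm1 : eqVM CL0 CL1 20 = true := by decide +kernel
theorem cs1 : ∀ w < 20, StW (nat_lit 61) (nat_lit 15) (nat_lit 1) (nat_lit 7) (getC CL1 w) :=
  (alS (alS (alS (alS (alS (alS (alS (alS (alS (alS (alS (alS (alS (alS (alS (alS (alS (alS (alS (alS al0 (stX (nat_lit 2) (nat_lit 0) (nat_lit 256) (Rl.cons (nat_lit 0) (nat_lit 48) Rl.nil) rfl rfl sc1_0 (rlc st1_0_0 rln))) (stX (nat_lit 1) (nat_lit 0) (nat_lit 16) (Rl.cons (nat_lit 0) (nat_lit 1) Rl.nil) rfl rfl sc1_1 (rlc st1_1_0 rln))) (stX (nat_lit 2) (nat_lit 153) (nat_lit 256) (Rl.cons (nat_lit 153) (nat_lit 40)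 Rl.nil) rfl rfl sc1_2 (rlc st1_2_0 rln))) (stX (nat_lit 1) (nat_lit 118) (nat_lit 16) (Rl.cons (nat_lit 118) (nat_lit 42) Rl.nil) rfl rfl sc1_3 (rlc st1_3_0 rln))) (stX (nat_lit 0) (nat_lit 0) (nat_lit 1) Rl.nil rfl rfl sc1_4 rln)) (stX (nat_lit 2) (nat_lit 149) (nat_lit 256) (Rl.cons (nat_lit 149) (nat_lit 20) Rl.nil) rfl rfl sc1_5 (rlc st1_5_0 rln))) (stX (nat_lit 1) (nat_lit 94) (nat_lit 16) (Rl.cons (nat_lit 94) (nat_lit 18) Rl.nil) rfl rfl sc1_6 (rlc st1_6_0 rln))) (stX (nat_lit 0) (nat_lit 0) (nat_lit 1) Rl.nil rfl rfl sc1_7 rln)) (stX (nat_lit 2) (nat_lit 84) (nat_lit 256) (Rl.cons (nat_lit 84) (nat_lit 16) Rl.nil) rfl rfl sc1_8 (rlc st1_8_0 rln))) (stX (nat_lit 2) (nat_lit 33) (nat_lit 256) (Rl.cons (nat_lit 33) (nat_lit 22) Rl.nil) rfl rfl sc1_9 (rlc st1_9_0 rln))) (stX (nat_lit 0) (nat_lit 0) (nat_lit 1) Rl.nil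 rfl rfl sc1_10 rln)) (stX (nat_lit 0) (nat_lit 0) (nat_lit 1) Rl.nil rfl rfl sc1_11 rln)) (stX (nat_lit 0) (nat_lit 0) (nat_lit 1) Rl.nil rfl rfl sc1_12 rln)) (stX (nat_lit 3) (nat_lit 187) (nat_lit 4096) (Rl.cons (nat_lit 187) (nat_lit 154) Rl.nil) rfl rfl sc1_13 (rlc st1_13_0 rln))) (stX (nat_lit 1) (nat_lit 235) (nat_lit 16) (Rl.cons (nat_lit 235) (nat_lit 69) Rl.nil) rfl rfl sc1_14 (rlc st1_14_0 rln))) (stX (nat_lit 1) (nat_lit 154) (nat_lit 16) (Rl.cons (nat_lit 154) (nat_lit 49) Rl.nil) rfl rfl sc1_15 (rlc st1_15_0 rln))) (stX (nat_lit 2) (nat_lit 207) (nat_lit 256) (Rl.cons (nat_lit 207) (nat_lit 176) Rl.nil) rfl rfl sc1_16 (rlc st1_16_0 rln))) (stX (nat_lit 1) (nat_lit 123) (nat_lit 16) (Rl.cons (nat_lit 123) (nat_lit 36) Rl.nil) rfl rfl sc1_17 (rlc st1_17_0 rln))) (stX (nat_lit 1) (nat_lit 52) (nat_lit 16) (Rl.cons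 (nat_lit 52) (nat_lit 14) Rl.nil) rfl rfl sc1_18 (rlc st1_18_0 rln))) (stX (nat_lit 0) (nat_lit 0) (nat_lit 1) Rl.nil rfl rfl sc1_19 rln))
theorem ct1 : TiS (nat_lit 61) (nat_lit 15) (nat_lit 2) (nat_lit 7) (nat_lit 15) (nat_lit 20) (nat_lit 1) CL1 :=
  tiS ZZ1 (alS (alS (alS (alS (alS (alS (alS (alS (alS (alS (alS (alS (alS (alS (alS (alS (alS (alS (alS (alS al0 tc1_0) tc1_1) tc1_2) tc1_3) tc1_4) tc1_5) tc1_6) tc1_7) tc1_8) tc1_9) tc1_10) tc1_11) tc1_12) tc1_13) tc1_14) tc1_15) tc1_16) tc1_17) tc1_18) tc1_19)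
  (zzc ⟨(nat_lit 121), zl1_0, ti1_0⟩ (zzc ⟨(nat_lit 121), zl1_1, ti1_1⟩ (zzc ⟨(nat_lit 107), zl1_2, ti1_2⟩ zzn)))
theorem cw2 : ∀ w < 20, wfC (nat_lit 26) (nat_lit 4) (getC CL2 w) = true :=
  (alS (alS (alS (alS (alS (alS (alS (alS (alS (alS (alS (alS (alS (alS (alS (alS (alS (alS (alS (alS al0 wf2_0) wf2_1) wf2_2) wf2_3) wf2_4) wf2_5) wf2_6) wf2_7) wf2_8) wf2_9) wf2_10) wf2_11) wf2_12) wf2_13) wf2_14) wf2_15) wf2_16) wf2_17) wf2_18) wf2_19)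
theorem cr2 : ∀ w < 20, rfCk (nat_lit 61) (nat_lit 15) (nat_lit 26) (nat_lit 4) (nat_lit 9) (nat_lit 0) w TL2 CL1 CL2 = true :=
  (alS (alS (alS (alS (alS (alS (alS (alS (alS (alS (alS (alS (alS (alS (alS (alS (alS (alS (alS (alS al0 rf2_0) rf2_1) rf2_2) rf2_3) rf2_4) rf2_5) rf2_6) rf2_7) rf2_8) rf2_9) rf2_10) rf2_11) rf2_12) rf2_13) rf2_14) rf2_15) rf2_16) rf2_17) rf2_18) rf2_19)
theorem vm2 : eqVM CL1 CL2 20 = true := by decide +kernel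
theorem cs2 : ∀ w < 20, StW (nat_lit 26) (nat_lit 4) (nat_lit 2) (nat_lit 1) (getC CL2 w) :=
  (alS (alS (alS (alS (alS (alS (alS (alS (alS (alS (alS (alS (alS (alS (alS (alS (alS (alS (alS (alS al0 (stX (nat_lit 2) (nat_lit 0) (nat_lit 256) Rl.nil rfl rfl sc2_0 rln)) (stX (nat_lit 1) (nat_lit 0) (nat_lit 16) Rl.nil rfl rfl sc2_1 rln)) (stX (nat_lit 0) (nat_lit 0) (nat_lit 1) Rl.nil rfl rfl sc2_2 rln)) (stX (nat_lit 2) (nat_lit 15) (nat_lit 256) (Rl.cons (nat_lit 15) (nat_lit 3) Rl.nil) rfl rfl sc2_3 (rlc st2_3_0 rln))) (stX (nat_lit 0) (nat_lit 0) (nat_lit 1) Rl.nil rfl rfl sc2_4 rln)) (stX (nat_lit 0) (nat_lit 0) (nat_lit 1) Rl.nil rfl rfl sc2_5 rln)) (stX (nat_lit 0) (nat_lit 0) (nat_lit 1) Rl.nil rfl rfl sc2_6 rln)) (stX (nat_lit 0) (nat_lit 0) (nat_lit 1) Rl.nil rfl rfl sc2_7 rln)) (stX (nat_lit 2) (nat_lit 15) (nat_lit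 256) (Rl.cons (nat_lit 15) (nat_lit 4) Rl.nil) rfl rfl sc2_8 (rlc st2_8_0 rln))) (stX (nat_lit 0) (nat_lit 0) (nat_lit 1) Rl.nil rfl rfl sc2_9 rln)) (stX (nat_lit 0) (nat_lit 0) (nat_lit 1) Rl.nil rfl rfl sc2_10 rln)) (stX (nat_lit 0) (nat_lit 0) (nat_lit 1) Rl.nil rfl rfl sc2_11 rln)) (stX (nat_lit 0) (nat_lit 0) (nat_lit 1) Rl.nil rfl rfl sc2_12 rln)) (stX (nat_lit 1) (nat_lit 0) (nat_lit 16) Rl.nil rfl rfl sc2_13 rln)) (stX (nat_lit 1) (nat_lit 21) (nat_lit 16) (Rl.cons (nat_lit 21) (nat_lit 10) Rl.nil) rfl rfl sc2_14 (rlc st2_14_0 rln))) (stX (nat_lit 0) (nat_lit 0) (nat_lit 1) Rl.nil rfl rfl sc2_15 rln)) (stX (nat_lit 0) (nat_lit 0) (nat_lit 1) Rl.nil rfl rfl sc2_16 rln)) (stX (nat_lit 0) (nat_lit 0) (nat_lit 1) Rl.nil rfl rfl sc2_17 rln)) (stX (nat_lit 1) (nat_lit 4) (nat_lit 16) (Rl.cons (nat_lit 4) (nat_lit 1)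 Rl.nil) rfl rfl sc2_18 (rlc st2_18_0 rln))) (stX (nat_lit 0) (nat_lit 0) (nat_lit 1) Rl.nil rfl rfl sc2_19 rln))
theorem ct2 : TiS (nat_lit 26) (nat_lit 4) (nat_lit 1) (nat_lit 2) (nat_lit 15) (nat_lit 20) (nat_lit 1) CL2 :=
  tiS ZZ2 (alS (alS (alS (alS (alS (alS (alS (alS (alS (alS (alS (alS (alS (alS (alS (alS (alS (alS (alS (alS al0 tc2_0) tc2_1) tc2_2) tc2_3) tc2_4) tc2_5) tc2_6) tc2_7) tc2_8) tc2_9) tc2_10) tc2_11) tc2_12) tc2_13) tc2_14) tc2_15) tc2_16) tc2_17) tc2_18) tc2_19)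
  (zzc ⟨(nat_lit 14), zl2_0, ti2_0⟩ (zzc ⟨(nat_lit 6), zl2_1, ti2_1⟩ zzn))
theorem cd : ∀ w < 20, deadCk (nat_lit 26) (nat_lit 4) (getC CL2 w) = true :=
  (alS (alS (alS (alS (alS (alS (alS (alS (alS (alS (alS (alS (alS (alS (alS (alS (alS (alS (alS (alS al0 de2_0) de2_1) de2_2) de2_3) de2_4) de2_5) de2_6) de2_7) de2_8) de2_9) de2_10) de2_11) de2_12) de2_13) de2_14) de2_15) de2_16) de2_17) de2_18) de2_19)
theorem rc : recCk (recP 15 (1, 3, 8) 5 0 2).W 20 CL0 = true := by decide +kernel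
theorem occ (O : OccL (recP 15 (1, 3, 8) 5 0 2) (locOK (Nat.testBit 5) (Nat.testBit 0) (Nat.testBit 2))) :
    False := by
  have k := first_stage O 1 (nlOK_A (by decide) (by decide)) rfl rfl rfl rfl rc cw0 cp
  have k := run_stage k rfl (nat_lit 1) (nat_lit 2) (nat_lit 2) (nat_lit 2) rfl cs0 ct0
  have k := next_stage k (nat_lit 61) (nat_lit 15) (nat_lit 6) (nat_lit 1) rfl rfl rfl rfl rfl vm1 cw1 cr1
  have k := run_stage k rfl (nat_lit 1) (nat_lit 7) (nat_lit 2) (nat_lit 7) rfl cs1 ct1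
  have k := next_stage k (nat_lit 26) (nat_lit 4) (nat_lit 9) (nat_lit 0) rfl rfl rfl rfl rfl vm2 cw2 cr2
  have k := run_stage k rfl (nat_lit 2) (nat_lit 1) (nat_lit 1) (nat_lit 2) rfl cs2 ct2
  exact last_stage k rfl cd
theorem res : ∃ ok, OkP (1, 3, 8) ok ∧ IsEmpty (LTil (shP 15 (1, 3, 8) ok)) :=
  dead_P 5 0 2 (by decide +kernel) rc occ

end Pool.Agent.NNr.R15_1_3_8

namespace Pool.Agent.NNr.R15_1_8_18
open Pool.Agent.NNe Pool.Agent.NNc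

theorem cw0 : ∀ w < 9, wfC (nat_lit 61) (nat_lit 17) (getC CL0 w) = true :=
  (alS (alS (alS (alS (alS (alS (alS (alS (alS al0 wf0_0) wf0_1) wf0_2) wf0_3) wf0_4) wf0_5) wf0_6) wf0_7) wf0_8)
theorem cp : ∀ w < 9, plCk (nat_lit 61) (nat_lit 17) (nat_lit 15) (nat_lit 5) (nat_lit 0) (nat_lit 2) (nat_lit 9) (nat_lit 4) w nl0 CL0 = true :=
  (alS (alS (alS (alS (alS (alS (alS (alS (alS al0 pl0_0) pl0_1) pl0_2) pl0_3) pl0_4) pl0_5) pl0_6) pl0_7) pl0_8)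
theorem cs0 : ∀ w < 9, StW (nat_lit 61) (nat_lit 17) (nat_lit 1) (nat_lit 8) (getC CL0 w) :=
  (alS (alS (alS (alS (alS (alS (alS (alS (alS al0 (stX (nat_lit 2) (nat_lit 0) (nat_lit 256) (Rl.cons (nat_lit 0) (nat_lit 8) Rl.nil) rfl rfl sc0_0 (rlc st0_0_0 rln))) (stX (nat_lit 0) (nat_lit 18) (nat_lit 1) (Rl.cons (nat_lit 18) (nat_lit 14) Rl.nil) rfl rfl sc0_1 (rlc st0_1_0 rln))) (stX (nat_lit 2) (nat_lit 45) (nat_lit 256) (Rl.cons (nat_lit 45) (nat_lit 9) Rl.nil) rfl rfl sc0_2 (rlc st0_2_0 rln))) (stX (nat_lit 0) (nat_lit 5) (nat_lit 1) (Rl.cons (nat_lit 5) (nat_lit 5) Rl.nil) rfl rfl sc0_3 (rlc st0_3_0 rln))) (stX (nat_lit 1) (nat_lit 11) (nat_lit 16) (Rl.cons (nat_lit 11) (nat_lit 4) Rl.nil) rfl rfl sc0_4 (rlc st0_4_0 rln))) (stX (nat_lit 1) (nat_lit 75) (nat_lit 16) (Rl.cons (nat_lit 75) (nat_lit 34) Rl.nil) rfl rfl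 sc0_5 (rlc st0_5_0 rln))) (stX (nat_lit 1) (nat_lit 56) (nat_lit 16) (Rl.cons (nat_lit 56) (nat_lit 26) Rl.nil) rfl rfl sc0_6 (rlc st0_6_0 rln))) (stX (nat_lit 2) (nat_lit 39) (nat_lit 256) (Rl.cons (nat_lit 39) (nat_lit 28) Rl.nil) rfl rfl sc0_7 (rlc st0_7_0 rln))) (stX (nat_lit 1) (nat_lit 22) (nat_lit 16) (Rl.cons (nat_lit 22) (nat_lit 9) Rl.nil) rfl rfl sc0_8 (rlc st0_8_0 rln)))
theorem ct0 : TiS (nat_lit 61) (nat_lit 17) (nat_lit 2) (nat_lit 8) (nat_lit 15) (nat_lit 9) (nat_lit 1) CL0 :=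
  tiS ZZ0 (alS (alS (alS (alS (alS (alS (alS (alS (alS al0 tc0_0) tc0_1) tc0_2) tc0_3) tc0_4) tc0_5) tc0_6) tc0_7) tc0_8)
  (zzc ⟨(nat_lit 110), zl0_0, ti0_0⟩ zzn)
theorem cw1 : ∀ w < 9, wfC (nat_lit 5) (nat_lit 2) (getC CL1 w) = true :=
  (alS (alS (alS (alS (alS (alS (alS (alS (alS al0 wf1_0) wf1_1) wf1_2) wf1_3) wf1_4) wf1_5) wf1_6) wf1_7) wf1_8)
theorem cr1 : ∀ w < 9, rfCk (nat_lit 61) (nat_lit 17) (nat_lit 5) (nat_lit 2) (nat_lit 9) (nat_lit 0) w TL1 CL0 CL1 = true :=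
  (alS (alS (alS (alS (alS (alS (alS (alS (alS al0 rf1_0) rf1_1) rf1_2) rf1_3) rf1_4) rf1_5) rf1_6) rf1_7) rf1_8)
theorem vm1 : eqVM CL0 CL1 9 = true := by decide +kernel
theorem cs1 : ∀ w < 9, StW (nat_lit 5) (nat_lit 2) (nat_lit 2) (nat_lit 0) (getC CL1 w) :=
  (alS (alS (alS (alS (alS (alS (alS (alS (alS al0 (stX (nat_lit 2) (nat_lit 0) (nat_lit 256) Rl.nil rfl rfl sc1_0 rln)) (stX (nat_lit 0) (nat_lit 0) (nat_lit 1) Rl.nil rfl rfl sc1_1 rln)) (stX (nat_lit 0) (nat_lit 0) (nat_lit 1) Rl.nil rfl rfl sc1_2 rln)) (stX (nat_lit 0) (nat_lit 0) (nat_lit 1) Rl.nil rfl rfl sc1_3 rln)) (stX (nat_lit 0) (nat_lit 0) (nat_lit 1) Rl.nil rfl rfl sc1_4 rln)) (stX (nat_lit 0) (nat_lit 0) (nat_lit 1) (Rl.cons (nat_lit 0) (nat_lit 18) Rl.nil) rfl rfl sc1_5 (rlc (starCk_zero _ _ _ _ _ _ _) rln))) (stX (nat_lit 0) (nat_lit 0) (nat_lit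 1) Rl.nil rfl rfl sc1_6 rln)) (stX (nat_lit 0) (nat_lit 0) (nat_lit 1) (Rl.cons (nat_lit 0) (nat_lit 2) Rl.nil) rfl rfl sc1_7 (rlc (starCk_zero _ _ _ _ _ _ _) rln))) (stX (nat_lit 0) (nat_lit 0) (nat_lit 1) Rl.nil rfl rfl sc1_8 rln))
theorem ct1 : TiS (nat_lit 5) (nat_lit 2) (nat_lit 1) (nat_lit 1) (nat_lit 15) (nat_lit 9) (nat_lit 1) CL1 :=
  tiS ZZ1 (alS (alS (alS (alS (alS (alS (alS (alS (alS al0 tc1_0) tc1_1) tc1_2) tc1_3) tc1_4) tc1_5) tc1_6) tc1_7) tc1_8)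
  (zzc ⟨(nat_lit 2), zl1_0, ti1_0⟩ zzn)
theorem cd : ∀ w < 9, deadCk (nat_lit 5) (nat_lit 2) (getC CL1 w) = true :=
  (alS (alS (alS (alS (alS (alS (alS (alS (alS al0 de1_0) de1_1) de1_2) de1_3) de1_4) de1_5) de1_6) de1_7) de1_8)
theorem rc : recCk (recP 15 (1, 8, 18) 5 0 2).W 9 CL0 = true := by decide +kernel
theorem occ (O : OccL (recP 15 (1, 8, 18) 5 0 2) (locOK (Nat.testBit 5) (Nat.testBit 0) (Nat.testBit 2))) :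
    False := by
  have k := first_stage O 1 (nlOK_A (by decide) (by decide)) rfl rfl rfl rfl rc cw0 cp
  have k := run_stage k rfl (nat_lit 1) (nat_lit 8) (nat_lit 2) (nat_lit 8) rfl cs0 ct0
  have k := next_stage k (nat_lit 5) (nat_lit 2) (nat_lit 9) (nat_lit 0) rfl rfl rfl rfl rfl vm1 cw1 cr1
  have k := run_stage k rfl (nat_lit 2) (nat_lit 0) (nat_lit 1) (nat_lit 1) rfl cs1 ct1
  exact last_stage k rfl cd
theorem res : ∃ ok, OkP (1, 8, 18) ok ∧ IsEmpty (LTil (shP 15 (1, 8, 18) ok)) :=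
  dead_P 5 0 2 (by decide +kernel) rc occ

end Pool.Agent.NNr.R15_1_8_18

namespace Pool.Agent.NNr.R15_4_7_22
open Pool.Agent.NNe Pool.Agent.NNc

theorem cw0 : ∀ w < 8, wfC (nat_lit 41) (nat_lit 5) (getC CL0 w) = true :=
  (alS (alS (alS (alS (alS (alS (alS (alS al0 wf0_0) wf0_1) wf0_2) wf0_3) wf0_4) wf0_5) wf0_6) wf0_7)
theorem cp : ∀ w < 8, plCk (nat_lit 41) (nat_lit 5) (nat_lit 15) (nat_lit 1) (nat_lit 0) (nat_lit 6) (nat_lit 8) (nat_lit 4) w nl0 CL0 = true :=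
  (alS (alS (alS (alS (alS (alS (alS (alS al0 pl0_0) pl0_1) pl0_2) pl0_3) pl0_4) pl0_5) pl0_6) pl0_7)
theorem cs0 : ∀ w < 8, StW (nat_lit 41) (nat_lit 5) (nat_lit 1) (nat_lit 2) (getC CL0 w) :=
  (alS (alS (alS (alS (alS (alS (alS (alS al0 (stX (nat_lit 2) (nat_lit 0) (nat_lit 256) (Rl.cons (nat_lit 0) (nat_lit 7) Rl.nil) rfl rfl sc0_0 (rlc st0_0_0 rln))) (stX (nat_lit 0) (nat_lit 15) (nat_lit 1) (Rl.cons (nat_lit 15) (nat_lit 11) Rl.nil) rfl rfl sc0_1 (rlc st0_1_0 rln))) (stX (nat_lit 2) (nat_lit 45) (nat_lit 256) (Rl.cons (nat_lit 45) (nat_lit 9) Rl.nil) rfl rfl sc0_2 (rlc st0_2_0 rln))) (stX (nat_lit 0) (nat_lit 5) (nat_lit 1) (Rl.cons (nat_lit 5) (nat_lit 5) Rl.nil) rfl rfl sc0_3 (rlc st0_3_0 rln))) (stX (nat_lit 2) (nat_lit 10) (nat_lit 256) (Rl.cons (nat_lit 10) (nat_lit 2) Rl.nil) rfl rfl sc0_4 (rlc st0_4_0 rln)))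 (stX (nat_lit 1) (nat_lit 0) (nat_lit 16) Rl.nil rfl rfl sc0_5 rln)) (stX (nat_lit 1) (nat_lit 46) (nat_lit 16) (Rl.cons (nat_lit 46) (nat_lit 20) Rl.nil) rfl rfl sc0_6 (rlc st0_6_0 rln))) (stX (nat_lit 1) (nat_lit 41) (nat_lit 16) (Rl.cons (nat_lit 41) (nat_lit 19) Rl.nil) rfl rfl sc0_7 (rlc st0_7_0 rln)))
theorem ct0 : TiS (nat_lit 41) (nat_lit 5) (nat_lit 2) (nat_lit 2) (nat_lit 15) (nat_lit 8) (nat_lit 1) CL0 :=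
  tiS ZZ0 (alS (alS (alS (alS (alS (alS (alS (alS al0 tc0_0) tc0_1) tc0_2) tc0_3) tc0_4) tc0_5) tc0_6) tc0_7)
  (zzc ⟨(nat_lit 73), zl0_0, ti0_0⟩ zzn)
theorem cw1 : ∀ w < 8, wfC (nat_lit 1) (nat_lit 1) (getC CL1 w) = true :=
  (alS (alS (alS (alS (alS (alS (alS (alS al0 wf1_0) wf1_1) wf1_2) wf1_3) wf1_4) wf1_5) wf1_6) wf1_7)
theorem cr1 : ∀ w < 8, rfCk (nat_lit 41) (nat_lit 5) (nat_lit 1) (nat_lit 1) (nat_lit 9) (nat_lit 0) w TL1 CL0 CL1 = true :=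
  (alS (alS (alS (alS (alS (alS (alS (alS al0 rf1_0) rf1_1) rf1_2) rf1_3) rf1_4) rf1_5) rf1_6) rf1_7)
theorem vm1 : eqVM CL0 CL1 8 = true := by decide +kernel
theorem cd : ∀ w < 8, deadCk (nat_lit 1) (nat_lit 1) (getC CL1 w) = true :=
  (alS (alS (alS (alS (alS (alS (alS (alS al0 de1_0) de1_1) de1_2) de1_3) de1_4) de1_5) de1_6) de1_7)
theorem rc : recCk (recP 15 (4, 7, 22) 1 0 6).W 8 CL0 = true := by decide +kernel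
theorem occ (O : OccL (recP 15 (4, 7, 22) 1 0 6) (locOK (Nat.testBit 1) (Nat.testBit 0) (Nat.testBit 6))) :
    False := by
  have k := first_stage O 1 (nlOK_A (by decide) (by decide)) rfl rfl rfl rfl rc cw0 cp
  have k := run_stage k rfl (nat_lit 1) (nat_lit 2) (nat_lit 2) (nat_lit 2) rfl cs0 ct0
  have k := next_stage k (nat_lit 1) (nat_lit 1) (nat_lit 9) (nat_lit 0) rfl rfl rfl rfl rfl vm1 cw1 cr1
  exact last_stage k rfl cd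
theorem res : ∃ ok, OkP (4, 7, 22) ok ∧ IsEmpty (LTil (shP 15 (4, 7, 22) ok)) :=
  dead_P 1 0 6 (by decide +kernel) rc occ

end Pool.Agent.NNr.R15_4_7_22
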