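import Pool.Agent.NNe.Ch
import Pool.Agent.NNe.Slots
import Pool.Agent.NNr.R11_1_3_4.K0
import Pool.Agent.NNr.R11_1_3_4.K1
import Pool.Agent.NNr.R11_1_3_4.K2
import Pool.Agent.NNr.R11_1_3_4.K3
import Pool.Agent.NNr.R11_1_3_4.K4
import Pool.Agent.NNr.R11_1_3_4.K5
import Pool.Agent.NNr.R11_1_3_4.K6
import Pool.Agent.NNr.R11_1_3_4.K7
import Pool.Agent.NNr.R11_1_3_4.K8
import Pool.Agent.NNr.R11_1_3_4.K9
import Pool.Agent.NNr.R11_1_3_4.K10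
import Pool.Agent.NNr.R11_1_3_4.K11
import Pool.Agent.NNr.R11_1_3_4.K12
import Pool.Agent.NNr.R11_1_3_4.K13
import Pool.Agent.NNr.R11_1_3_4.K14
import Pool.Agent.NNr.R11_1_3_4.K15
import Pool.Agent.NNr.R11_1_3_4.K16
import Pool.Agent.NNr.R11_1_3_4.K17
import Pool.Agent.NNr.R11_1_3_4.K18
import Pool.Agent.NNr.R11_1_6_14.K0
import Pool.Agent.NNr.R11_2_12_13.K0
import Pool.Agent.NNr.R11_2_4_11.K0
import Pool.Agent.NNr.R11_2_8_9.K0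
import Pool.Agent.NNr.R11_3_7_8.K0
import Pool.Agent.NNr.R11_3_8_10.K0
import Pool.Agent.NNr.R11_3_8_16.K0
import Pool.Agent.NNr.R11_4_7_14.K0
import Pool.Agent.NNr.R11_5_6_8.K0
import Pool.Agent.NNr.R13_1_1_2.K0
import Pool.Agent.NNr.R13_1_1_2.K1
import Pool.Agent.NNr.R13_1_1_2.K2
import Pool.Agent.NNr.R13_1_1_2.K3
import Pool.Agent.NNr.R13_2_3_8.K0
import Pool.Agent.NNr.R13_3_7_20.K0
import Pool.Agent.NNr.R13_4_7_22.K0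
import Pool.Agent.NNr.R13_5_6_22.K0
import Pool.Agent.NNr.R15_2_7_18.K0
import Pool.Agent.NNr.R15_3_4_14.K0
import Pool.Agent.NNr.R15_6_7_26.K0
import Pool.Agent.NNr.U11_2_2_m1.K0

set_option linter.all false
set_option maxRecDepth 1000000

namespace Pool.Agent.NNr.R11_1_3_4
open Pool.Agent.NNe Pool.Agent.NNc

theorem cw0 : ∀ w < 19, wfC (nat_lit 60) (nat_lit 5) (getC CL0 w) = true :=
  (alS (alS (alS (alS (alS (alS (alS (alS (alS (alS (alS (alS (alS (alS (alS (alS (alS (alS (alS al0 wf0_0) wf0_1) wf0_2) wf0_3) wf0_4) wf0_5) wf0_6) wf0_7) wf0_8) wf0_9) wf0_10) wf0_11) wf0_12) wf0_13) wf0_14) wf0_15) wf0_16) wf0_17) wf0_18)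
theorem cp : ∀ w < 19, plCk (nat_lit 60) (nat_lit 5) (nat_lit 11) (nat_lit 5) (nat_lit 0) (nat_lit 2) (nat_lit 19) (nat_lit 4) w nl0 CL0 = true :=
  (alS (alS (alS (alS (alS (alS (alS (alS (alS (alS (alS (alS (alS (alS (alS (alS (alS (alS (alS al0 pl0_0) pl0_1) pl0_2) pl0_3) pl0_4) pl0_5) pl0_6) pl0_7) pl0_8) pl0_9) pl0_10) pl0_11) pl0_12) pl0_13) pl0_14) pl0_15) pl0_16) pl0_17) pl0_18)
theorem cs0 : ∀ w < 19, StW (nat_lit 60) (nat_lit 5) (nat_lit 1) (nat_lit 2) (getC CL0 w) :=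
  (alS (alS (alS (alS (alS (alS (alS (alS (alS (alS (alS (alS (alS (alS (alS (alS (alS (alS (alS al0 (stX (nat_lit 2) (nat_lit 0) (nat_lit 256) (Rl.cons (nat_lit 0) (nat_lit 11) Rl.nil) rfl rfl sc0_0 (rlc st0_0_0 rln))) (stX (nat_lit 2) (nat_lit 40) (nat_lit 256) (Rl.cons (nat_lit 40) (nat_lit 10) Rl.nil) rfl rfl sc0_1 (rlc st0_1_0 rln))) (stX (nat_lit 0) (nat_lit 21) (nat_lit 1) (Rl.cons (nat_lit 21) (nat_lit 17) Rl.nil) rfl rfl sc0_2 (rlc st0_2_0 rln))) (stX (nat_lit 0) (nat_lit 12) (nat_lit 1) (Rl.cons (nat_lit 12) (nat_lit 6) Rl.nil) rfl rfl sc0_3 (rlc st0_3_0 rln))) (stX (nat_lit 2) (nat_lit 107) (nat_lit 256) (Rl.cons (nat_lit 107) (nat_lit 24) Rl.nil) rfl rfl sc0_4 (rlc st0_4_0 rln))) (stX (nat_lit 2) (nat_lit 96) (nat_lit 256) (Rl.cons (nat_lit 96) (nat_lit 14) Rl.nil) rfl rfl sc0_5 (rlc st0_5_0 rln))) (stX (nat_lit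 2) (nat_lit 32) (nat_lit 256) (Rl.cons (nat_lit 32) (nat_lit 14) Rl.nil) rfl rfl sc0_6 (rlc st0_6_0 rln))) (stX (nat_lit 0) (nat_lit 15) (nat_lit 1) (Rl.cons (nat_lit 15) (nat_lit 13) Rl.nil) rfl rfl sc0_7 (rlc st0_7_0 rln))) (stX (nat_lit 1) (nat_lit 39) (nat_lit 16) (Rl.cons (nat_lit 39) (nat_lit 13) Rl.nil) rfl rfl sc0_8 (rlc st0_8_0 rln))) (stX (nat_lit 2) (nat_lit 52) (nat_lit 256) (Rl.cons (nat_lit 52) (nat_lit 9) Rl.nil) rfl rfl sc0_9 (rlc st0_9_0 rln))) (stX (nat_lit 1) (nat_lit 13) (nat_lit 16) (Rl.cons (nat_lit 13) (nat_lit 5) Rl.nil) rfl rfl sc0_10 (rlc st0_10_0 rln))) (stX (nat_lit 2) (nat_lit 10) (nat_lit 256) (Rl.cons (nat_lit 10) (nat_lit 3) Rl.nil) rfl rfl sc0_11 (rlc st0_11_0 rln))) (stX (nat_lit 2) (nat_lit 0) (nat_lit 256) Rl.nil rfl rfl sc0_12 rln)) (stX (nat_lit 3) (nat_lit 147) (nat_lit 4096) (Rl.cons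 (nat_lit 147) (nat_lit 120) Rl.nil) rfl rfl sc0_13 (rlc st0_13_0 rln))) (stX (nat_lit 1) (nat_lit 103) (nat_lit 16) (Rl.cons (nat_lit 103) (nat_lit 44) Rl.nil) rfl rfl sc0_14 (rlc st0_14_0 rln))) (stX (nat_lit 1) (nat_lit 100) (nat_lit 16) (Rl.cons (nat_lit 100) (nat_lit 48) Rl.nil) rfl rfl sc0_15 (rlc st0_15_0 rln))) (stX (nat_lit 2) (nat_lit 91) (nat_lit 256) (Rl.cons (nat_lit 91) (nat_lit 62) Rl.nil) rfl rfl sc0_16 (rlc st0_16_0 rln))) (stX (nat_lit 1) (nat_lit 86) (nat_lit 16) (Rl.cons (nat_lit 86) (nat_lit 30) Rl.nil) rfl rfl sc0_17 (rlc st0_17_0 rln))) (stX (nat_lit 3) (nat_lit 40) (nat_lit 4096) (Rl.cons (nat_lit 40) (nat_lit 31) Rl.nil) rfl rfl sc0_18 (rlc st0_18_0 rln)))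
theorem ct0 : TiS (nat_lit 60) (nat_lit 5) (nat_lit 2) (nat_lit 2) (nat_lit 11) (nat_lit 19) (nat_lit 1) CL0 :=
  tiS ZZ0 (alS (alS (alS (alS (alS (alS (alS (alS (alS (alS (alS (alS (alS (alS (alS (alS (alS (alS (alS al0 tc0_0) tc0_1) tc0_2) tc0_3) tc0_4) tc0_5) tc0_6) tc0_7) tc0_8) tc0_9) tc0_10) tc0_11) tc0_12) tc0_13) tc0_14) tc0_15) tc0_16) tc0_17) tc0_18)
  (zzc ⟨(nat_lit 288), zl0_0, ti0_0⟩ zzn)
theorem cw1 : ∀ w < 19, wfC (nat_lit 60) (nat_lit 5) (getC CL1 w) = true :=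
  (alS (alS (alS (alS (alS (alS (alS (alS (alS (alS (alS (alS (alS (alS (alS (alS (alS (alS (alS al0 wf1_0) wf1_1) wf1_2) wf1_3) wf1_4) wf1_5) wf1_6) wf1_7) wf1_8) wf1_9) wf1_10) wf1_11) wf1_12) wf1_13) wf1_14) wf1_15) wf1_16) wf1_17) wf1_18)
theorem cr1 : ∀ w < 19, rfCk (nat_lit 60) (nat_lit 5) (nat_lit 60) (nat_lit 5) (nat_lit 1) (nat_lit 262144) w TL1 CL0 CL1 = true :=
  (alS (alS (alS (alS (alS (alS (alS (alS (alS (alS (alS (alS (alS (alS (alS (alS (alS (alS (alS al0 rf1_0) rf1_1) rf1_2) rf1_3) rf1_4) rf1_5) rf1_6) rf1_7) rf1_8) rf1_9) rf1_10) rf1_11) rf1_12) rf1_13) rf1_14) rf1_15) rf1_16) rf1_17) rf1_18)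
theorem vm1 : eqVM CL0 CL1 19 = true := by decide +kernel
theorem cs1 : ∀ w < 19, StW (nat_lit 60) (nat_lit 5) (nat_lit 1) (nat_lit 2) (getC CL1 w) :=
  (alS (alS (alS (alS (alS (alS (alS (alS (alS (alS (alS (alS (alS (alS (alS (alS (alS (alS (alS al0 (stX (nat_lit 2) (nat_lit 0) (nat_lit 256) (Rl.cons (nat_lit 0) (nat_lit 12) Rl.nil) rfl rfl sc1_0 (rlc st1_0_0 rln))) (stX (nat_lit 2) (nat_lit 82) (nat_lit 256) (Rl.cons (nat_lit 82) (nat_lit 11) Rl.nil) rfl rfl sc1_1 (rlc st1_1_0 rln))) (stX (nat_lit 0) (nat_lit 58) (nat_lit 1) (Rl.cons (nat_lit 58) (nat_lit 46) Rl.nil) rfl rfl sc1_2 (rlc st1_2_0 rln))) (stX (nat_lit 0) (nat_lit 36) (nat_lit 1) (Rl.cons (nat_lit 36) (nat_lit 18) Rl.nil) rfl rfl sc1_3 (rlc st1_3_0 rln))) (stX (nat_lit 2) (nat_lit 290) (nat_lit 256) (Rl.cons (nat_lit 290) (nat_lit 26) Rl.nil) rfl rfl sc1_4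 (rlc st1_4_0 rln))) (stX (nat_lit 2) (nat_lit 224) (nat_lit 256) (Rl.cons (nat_lit 224) (nat_lit 16) Rl.nil) rfl rfl sc1_5 (rlc st1_5_0 rln))) (stX (nat_lit 2) (nat_lit 66) (nat_lit 256) (Rl.cons (nat_lit 66) (nat_lit 11) Rl.nil) rfl rfl sc1_6 (rlc st1_6_0 rln))) (stX (nat_lit 0) (nat_lit 44) (nat_lit 1) (Rl.cons (nat_lit 44) (nat_lit 32) Rl.nil) rfl rfl sc1_7 (rlc st1_7_0 rln))) (stX (nat_lit 2) (nat_lit 103) (nat_lit 256) (Rl.cons (nat_lit 103) (nat_lit 6) Rl.nil) rfl rfl sc1_8 (rlc st1_8_0 rln))) (stX (nat_lit 0) (nat_lit 0) (nat_lit 1) Rl.nil rfl rfl sc1_9 rln)) (stX (nat_lit 0) (nat_lit 0) (nat_lit 1) Rl.nil rfl rfl sc1_10 rln)) (stX (nat_lit 0) (nat_lit 0) (nat_lit 1) Rl.nil rfl rfl sc1_11 rln)) (stX (nat_lit 0) (nat_lit 0) (nat_lit 1) Rl.nil rfl rfl sc1_12 rln)) (stX (nat_lit 3) (nat_lit 344) (nat_lit 4096) (Rl.cons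 (nat_lit 344) (nat_lit 294) Rl.nil) rfl rfl sc1_13 (rlc st1_13_0 rln))) (stX (nat_lit 1) (nat_lit 316) (nat_lit 16) (Rl.cons (nat_lit 316) (nat_lit 140) Rl.nil) rfl rfl sc1_14 (rlc st1_14_0 rln))) (stX (nat_lit 1) (nat_lit 320) (nat_lit 16) (Rl.cons (nat_lit 320) (nat_lit 146) Rl.nil) rfl rfl sc1_15 (rlc st1_15_0 rln))) (stX (nat_lit 2) (nat_lit 228) (nat_lit 256) (Rl.cons (nat_lit 228) (nat_lit 82) Rl.nil) rfl rfl sc1_16 (rlc st1_16_0 rln))) (stX (nat_lit 1) (nat_lit 188) (nat_lit 16) (Rl.cons (nat_lit 188) (nat_lit 62) Rl.nil) rfl rfl sc1_17 (rlc st1_17_0 rln))) (stX (nat_lit 0) (nat_lit 0) (nat_lit 1) Rl.nil rfl rfl sc1_18 rln))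
theorem ct1 : TiS (nat_lit 60) (nat_lit 5) (nat_lit 2) (nat_lit 2) (nat_lit 11) (nat_lit 19) (nat_lit 1) CL1 :=
  tiS ZZ1 (alS (alS (alS (alS (alS (alS (alS (alS (alS (alS (alS (alS (alS (alS (alS (alS (alS (alS (alS al0 tc1_0) tc1_1) tc1_2) tc1_3) tc1_4) tc1_5) tc1_6) tc1_7) tc1_8) tc1_9) tc1_10) tc1_11) tc1_12) tc1_13) tc1_14) tc1_15) tc1_16) tc1_17) tc1_18)
  (zzc ⟨(nat_lit 393), zl1_0, ti1_0⟩ (zzc ⟨(nat_lit 393), zl1_1, ti1_1⟩ zzn))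
theorem cw2 : ∀ w < 19, wfC (nat_lit 61) (nat_lit 2) (getC CL2 w) = true :=
  (alS (alS (alS (alS (alS (alS (alS (alS (alS (alS (alS (alS (alS (alS (alS (alS (alS (alS (alS al0 wf2_0) wf2_1) wf2_2) wf2_3) wf2_4) wf2_5) wf2_6) wf2_7) wf2_8) wf2_9) wf2_10) wf2_11) wf2_12) wf2_13) wf2_14) wf2_15) wf2_16) wf2_17) wf2_18)
theorem cr2 : ∀ w < 19, rfCk (nat_lit 60) (nat_lit 5) (nat_lit 61) (nat_lit 2) (nat_lit 4) (nat_lit 524288) w TL2 CL1 CL2 = true :=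
  (alS (alS (alS (alS (alS (alS (alS (alS (alS (alS (alS (alS (alS (alS (alS (alS (alS (alS (alS al0 rf2_0) rf2_1) rf2_2) rf2_3) rf2_4) rf2_5) rf2_6) rf2_7) rf2_8) rf2_9) rf2_10) rf2_11) rf2_12) rf2_13) rf2_14) rf2_15) rf2_16) rf2_17) rf2_18)
theorem vm2 : eqVM CL1 CL2 19 = true := by decide +kernel
theorem cs2 : ∀ w < 19, StW (nat_lit 61) (nat_lit 2) (nat_lit 2) (nat_lit 0) (getC CL2 w) :=
  (alS (alS (alS (alS (alS (alS (alS (alS (alS (alS (alS (alS (alS (alS (alS (alS (alS (alS (alS al0 (stX (nat_lit 2) (nat_lit 0) (nat_lit 256) (Rl.cons (nat_lit 0) (nat_lit 176) Rl.nil) rfl rfl sc2_0 (rlc (starCk_zero _ _ _ _ _ _ _) rln))) (stX (nat_lit 1) (nat_lit 0) (nat_lit 16) (Rl.cons (nat_lit 0) (nat_lit 168) Rl.nil) rfl rfl sc2_1 (rlc (starCk_zero _ _ _ _ _ _ _) rln))) (stX (nat_lit 0) (nat_lit 0) (nat_lit 1) (Rl.cons (nat_lit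 0) (nat_lit 630) Rl.nil) rfl rfl sc2_2 (rlc (starCk_zero _ _ _ _ _ _ _) rln))) (stX (nat_lit 0) (nat_lit 0) (nat_lit 1) (Rl.cons (nat_lit 0) (nat_lit 148) Rl.nil) rfl rfl sc2_3 (rlc (starCk_zero _ _ _ _ _ _ _) rln))) (stX (nat_lit 0) (nat_lit 0) (nat_lit 1) (Rl.cons (nat_lit 0) (nat_lit 744) Rl.nil) rfl rfl sc2_4 (rlc (starCk_zero _ _ _ _ _ _ _) rln))) (stX (nat_lit 0) (nat_lit 0) (nat_lit 1) (Rl.cons (nat_lit 0) (nat_lit 497) Rl.nil) rfl rfl sc2_5 (rlc (starCk_zero _ _ _ _ _ _ _) rln))) (stX (nat_lit 0) (nat_lit 0) (nat_lit 1) (Rl.cons (nat_lit 0) (nat_lit 176) Rl.nil) rfl rfl sc2_6 (rlc (starCk_zero _ _ _ _ _ _ _) rln))) (stX (nat_lit 0) (nat_lit 0) (nat_lit 1) (Rl.cons (nat_lit 0) (nat_lit 180) Rl.nil) rfl rfl sc2_7 (rlc (starCk_zero _ _ _ _ _ _ _) rln))) (stX (nat_lit 0) (nat_lit 0) (nat_lit 1) (Rl.cons (nat_lit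 0) (nat_lit 157) Rl.nil) rfl rfl sc2_8 (rlc (starCk_zero _ _ _ _ _ _ _) rln))) (stX (nat_lit 0) (nat_lit 0) (nat_lit 1) Rl.nil rfl rfl sc2_9 rln)) (stX (nat_lit 0) (nat_lit 0) (nat_lit 1) Rl.nil rfl rfl sc2_10 rln)) (stX (nat_lit 0) (nat_lit 0) (nat_lit 1) Rl.nil rfl rfl sc2_11 rln)) (stX (nat_lit 0) (nat_lit 0) (nat_lit 1) Rl.nil rfl rfl sc2_12 rln)) (stX (nat_lit 2) (nat_lit 0) (nat_lit 256) (Rl.cons (nat_lit 0) (nat_lit 1532) Rl.nil) rfl rfl sc2_13 (rlc (starCk_zero _ _ _ _ _ _ _) rln))) (stX (nat_lit 0) (nat_lit 0) (nat_lit 1) (Rl.cons (nat_lit 0) (nat_lit 3678) Rl.nil) rfl rfl sc2_14 (rlc (starCk_zero _ _ _ _ _ _ _) rln))) (stX (nat_lit 0) (nat_lit 0) (nat_lit 1) (Rl.cons (nat_lit 0) (nat_lit 1897) Rl.nil) rfl rfl sc2_15 (rlc (starCk_zero _ _ _ _ _ _ _) rln))) (stX (nat_lit 0) (nat_lit 0) (nat_lit 1) (Rl.cons (nat_lit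 0) (nat_lit 1340) Rl.nil) rfl rfl sc2_16 (rlc (starCk_zero _ _ _ _ _ _ _) rln))) (stX (nat_lit 0) (nat_lit 0) (nat_lit 1) (Rl.cons (nat_lit 0) (nat_lit 855) Rl.nil) rfl rfl sc2_17 (rlc (starCk_zero _ _ _ _ _ _ _) rln))) (stX (nat_lit 0) (nat_lit 0) (nat_lit 1) Rl.nil rfl rfl sc2_18 rln))
theorem ct2 : TiS (nat_lit 61) (nat_lit 2) (nat_lit 1) (nat_lit 1) (nat_lit 11) (nat_lit 19) (nat_lit 1) CL2 :=
  tiS ZZ2 (alS (alS (alS (alS (alS (alS (alS (alS (alS (alS (alS (alS (alS (alS (alS (alS (alS (alS (alS al0 tc2_0) tc2_1) tc2_2) tc2_3) tc2_4) tc2_5) tc2_6) tc2_7) tc2_8) tc2_9) tc2_10) tc2_11) tc2_12) tc2_13) tc2_14) tc2_15) tc2_16) tc2_17) tc2_18)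
  (zzc ⟨(nat_lit 312), zl2_0, ti2_0⟩ (zzc ⟨(nat_lit 73), zl2_1, ti2_1⟩ (zzc ⟨(nat_lit 126), zl2_2, ti2_2⟩ zzn)))
theorem cw3 : ∀ w < 19, wfC (nat_lit 61) (nat_lit 4) (getC CL3 w) = true :=
  (alS (alS (alS (alS (alS (alS (alS (alS (alS (alS (alS (alS (alS (alS (alS (alS (alS (alS (alS al0 wf3_0) wf3_1) wf3_2) wf3_3) wf3_4) wf3_5) wf3_6) wf3_7) wf3_8) wf3_9) wf3_10) wf3_11) wf3_12) wf3_13) wf3_14) wf3_15) wf3_16) wf3_17) wf3_18)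
theorem cr3 : ∀ w < 19, rfCk (nat_lit 61) (nat_lit 2) (nat_lit 61) (nat_lit 4) (nat_lit 9) (nat_lit 0) w TL3 CL2 CL3 = true :=
  (alS (alS (alS (alS (alS (alS (alS (alS (alS (alS (alS (alS (alS (alS (alS (alS (alS (alS (alS al0 rf3_0) rf3_1) rf3_2) rf3_3) rf3_4) rf3_5) rf3_6) rf3_7) rf3_8) rf3_9) rf3_10) rf3_11) rf3_12) rf3_13) rf3_14) rf3_15) rf3_16) rf3_17) rf3_18)
theorem vm3 : eqVM CL2 CL3 19 = true := by decide +kernel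
theorem cs3 : ∀ w < 19, StW (nat_lit 61) (nat_lit 4) (nat_lit 1) (nat_lit 2) (getC CL3 w) :=
  (alS (alS (alS (alS (alS (alS (alS (alS (alS (alS (alS (alS (alS (alS (alS (alS (alS (alS (alS al0 (stX (nat_lit 2) (nat_lit 0) (nat_lit 256) (Rl.cons (nat_lit 0) (nat_lit 16) Rl.nil) rfl rfl sc3_0 (rlc st3_0_0 rln))) (stX (nat_lit 2) (nat_lit 47) (nat_lit 256) (Rl.cons (nat_lit 47) (nat_lit 9) Rl.nil) rfl rfl sc3_1 (rlc st3_1_0 rln))) (stX (nat_lit 1) (nat_lit 91) (nat_lit 16) (Rl.cons (nat_lit 91) (nat_lit 25) Rl.nil) rfl rfl sc3_2 (rlc st3_2_0 rln))) (stX (nat_lit 0) (nat_lit 16) (nat_lit 1) (Rl.cons (nat_lit 16) (nat_lit 14) Rl.nil) rfl rfl sc3_3 (rlc st3_3_0 rln))) (stX (nat_lit 2) (nat_lit 220) (nat_lit 256) (Rl.cons (nat_lit 220) (nat_lit 32) Rl.nil) rfl rfl sc3_4 (rlc st3_4_0 rln))) (stX (nat_lit 2) (nat_lit 170) (nat_lit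 256) (Rl.cons (nat_lit 170) (nat_lit 16) Rl.nil) rfl rfl sc3_5 (rlc st3_5_0 rln))) (stX (nat_lit 2) (nat_lit 42) (nat_lit 256) (Rl.cons (nat_lit 42) (nat_lit 12) Rl.nil) rfl rfl sc3_6 (rlc st3_6_0 rln))) (stX (nat_lit 1) (nat_lit 45) (nat_lit 16) (Rl.cons (nat_lit 45) (nat_lit 17) Rl.nil) rfl rfl sc3_7 (rlc st3_7_0 rln))) (stX (nat_lit 1) (nat_lit 42) (nat_lit 16) (Rl.cons (nat_lit 42) (nat_lit 6) Rl.nil) rfl rfl sc3_8 (rlc st3_8_0 rln))) (stX (nat_lit 0) (nat_lit 0) (nat_lit 1) Rl.nil rfl rfl sc3_9 rln)) (stX (nat_lit 0) (nat_lit 0) (nat_lit 1) Rl.nil rfl rfl sc3_10 rln)) (stX (nat_lit 0) (nat_lit 0) (nat_lit 1) Rl.nil rfl rfl sc3_11 rln)) (stX (nat_lit 0) (nat_lit 0) (nat_lit 1) Rl.nil rfl rfl sc3_12 rln)) (stX (nat_lit 3) (nat_lit 390) (nat_lit 4096) (Rl.cons (nat_lit 390) (nat_lit 304) Rl.nil) rfl rfl sc3_13 (rlc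 st3_13_0 rln))) (stX (nat_lit 1) (nat_lit 413) (nat_lit 16) (Rl.cons (nat_lit 413) (nat_lit 93) Rl.nil) rfl rfl sc3_14 (rlc st3_14_0 rln))) (stX (nat_lit 1) (nat_lit 367) (nat_lit 16) (Rl.cons (nat_lit 367) (nat_lit 97) Rl.nil) rfl rfl sc3_15 (rlc st3_15_0 rln))) (stX (nat_lit 2) (nat_lit 264) (nat_lit 256) (Rl.cons (nat_lit 264) (nat_lit 57) Rl.nil) rfl rfl sc3_16 (rlc st3_16_0 rln))) (stX (nat_lit 1) (nat_lit 191) (nat_lit 16) (Rl.cons (nat_lit 191) (nat_lit 36) Rl.nil) rfl rfl sc3_17 (rlc st3_17_0 rln))) (stX (nat_lit 0) (nat_lit 0) (nat_lit 1) Rl.nil rfl rfl sc3_18 rln))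
theorem ct3 : TiS (nat_lit 61) (nat_lit 4) (nat_lit 2) (nat_lit 1) (nat_lit 11) (nat_lit 19) (nat_lit 1) CL3 :=
  tiS ZZ3 (alS (alS (alS (alS (alS (alS (alS (alS (alS (alS (alS (alS (alS (alS (alS (alS (alS (alS (alS al0 tc3_0) tc3_1) tc3_2) tc3_3) tc3_4) tc3_5) tc3_6) tc3_7) tc3_8) tc3_9) tc3_10) tc3_11) tc3_12) tc3_13) tc3_14) tc3_15) tc3_16) tc3_17) tc3_18)
  (zzc ⟨(nat_lit 254), zl3_0, ti3_0⟩ (zzc ⟨(nat_lit 60), zl3_1, ti3_1⟩ (zzc ⟨(nat_lit 84), zl3_2, ti3_2⟩ zzn)))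
theorem cw4 : ∀ w < 19, wfC (nat_lit 61) (nat_lit 5) (getC CL4 w) = true :=
  (alS (alS (alS (alS (alS (alS (alS (alS (alS (alS (alS (alS (alS (alS (alS (alS (alS (alS (alS al0 wf4_0) wf4_1) wf4_2) wf4_3) wf4_4) wf4_5) wf4_6) wf4_7) wf4_8) wf4_9) wf4_10) wf4_11) wf4_12) wf4_13) wf4_14) wf4_15) wf4_16) wf4_17) wf4_18)
theorem cr4 : ∀ w < 19, rfCk (nat_lit 61) (nat_lit 4) (nat_lit 61) (nat_lit 5) (nat_lit 0) (nat_lit 1048576) w TL4 CL3 CL4 = true :=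
  (alS (alS (alS (alS (alS (alS (alS (alS (alS (alS (alS (alS (alS (alS (alS (alS (alS (alS (alS al0 rf4_0) rf4_1) rf4_2) rf4_3) rf4_4) rf4_5) rf4_6) rf4_7) rf4_8) rf4_9) rf4_10) rf4_11) rf4_12) rf4_13) rf4_14) rf4_15) rf4_16) rf4_17) rf4_18)
theorem vm4 : eqVM CL3 CL4 19 = true := by decide +kernel
theorem cs4 : ∀ w < 19, StW (nat_lit 61) (nat_lit 5) (nat_lit 1) (nat_lit 2) (getC CL4 w) :=
  (alS (alS (alS (alS (alS (alS (alS (alS (alS (alS (alS (alS (alS (alS (alS (alS (alS (alS (alS al0 (stX (nat_lit 2) (nat_lit 0) (nat_lit 256) (Rl.cons (nat_lit 0) (nat_lit 60) Rl.nil) rfl rfl sc4_0 (rlc st4_0_0 rln))) (stX (nat_lit 2) (nat_lit 160) (nat_lit 256) (Rl.cons (nat_lit 160) (nat_lit 36) Rl.nil) rfl rfl sc4_1 (rlc st4_1_0 rln))) (stX (nat_lit 1) (nat_lit 273) (nat_lit 16) (Rl.cons (nat_lit 273) (nat_lit 59) Rl.nil) rfl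 rfl sc4_2 (rlc st4_2_0 rln))) (stX (nat_lit 0) (nat_lit 20) (nat_lit 1) (Rl.cons (nat_lit 20) (nat_lit 52) Rl.nil) rfl rfl sc4_3 (rlc st4_3_0 rln))) (stX (nat_lit 1) (nat_lit 436) (nat_lit 16) (Rl.cons (nat_lit 436) (nat_lit 92) Rl.nil) rfl rfl sc4_4 (rlc st4_4_0 rln))) (stX (nat_lit 2) (nat_lit 491) (nat_lit 256) (Rl.cons (nat_lit 491) (nat_lit 54) Rl.nil) rfl rfl sc4_5 (rlc st4_5_0 rln))) (stX (nat_lit 2) (nat_lit 106) (nat_lit 256) (Rl.cons (nat_lit 106) (nat_lit 36) Rl.nil) rfl rfl sc4_6 (rlc st4_6_0 rln))) (stX (nat_lit 1) (nat_lit 110) (nat_lit 16) (Rl.cons (nat_lit 110) (nat_lit 34) Rl.nil) rfl rfl sc4_7 (rlc st4_7_0 rln))) (stX (nat_lit 1) (nat_lit 97) (nat_lit 16) (Rl.cons (nat_lit 97) (nat_lit 12) Rl.nil) rfl rfl sc4_8 (rlc st4_8_0 rln))) (stX (nat_lit 0) (nat_lit 0) (nat_lit 1) Rl.nil rfl rfl sc4_9 rln)) (stX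 (nat_lit 0) (nat_lit 0) (nat_lit 1) Rl.nil rfl rfl sc4_10 rln)) (stX (nat_lit 0) (nat_lit 0) (nat_lit 1) Rl.nil rfl rfl sc4_11 rln)) (stX (nat_lit 0) (nat_lit 0) (nat_lit 1) Rl.nil rfl rfl sc4_12 rln)) (stX (nat_lit 3) (nat_lit 1272) (nat_lit 4096) (Rl.cons (nat_lit 1272) (nat_lit 484) (Rl.cons (nat_lit 1756) (nat_lit 484) Rl.nil)) rfl rfl sc4_13 (rlc st4_13_0 (rlc st4_13_1 rln)))) (stX (nat_lit 1) (nat_lit 1100) (nat_lit 16) (Rl.cons (nat_lit 1100) (nat_lit 136) (Rl.cons (nat_lit 1236) (nat_lit 136) Rl.nil)) rfl rfl sc4_14 (rlc st4_14_0 (rlc st4_14_1 rln)))) (stX (nat_lit 1) (nat_lit 902) (nat_lit 16) (Rl.cons (nat_lit 902) (nat_lit 229) Rl.nil) rfl rfl sc4_15 (rlc st4_15_0 rln))) (stX (nat_lit 2) (nat_lit 695) (nat_lit 256) (Rl.cons (nat_lit 695) (nat_lit 194) Rl.nil) rfl rfl sc4_16 (rlc st4_16_0 rln))) (stX (nat_lit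 1) (nat_lit 476) (nat_lit 16) (Rl.cons (nat_lit 476) (nat_lit 87) Rl.nil) rfl rfl sc4_17 (rlc st4_17_0 rln))) (stX (nat_lit 0) (nat_lit 0) (nat_lit 1) Rl.nil rfl rfl sc4_18 rln))
theorem ct4 : TiS (nat_lit 61) (nat_lit 5) (nat_lit 2) (nat_lit 2) (nat_lit 11) (nat_lit 19) (nat_lit 1) CL4 :=
  tiS ZZ4 (alS (alS (alS (alS (alS (alS (alS (alS (alS (alS (alS (alS (alS (alS (alS (alS (alS (alS (alS al0 tc4_0) tc4_1) tc4_2) tc4_3) tc4_4) tc4_5) tc4_6) tc4_7) tc4_8) tc4_9) tc4_10) tc4_11) tc4_12) tc4_13) tc4_14) tc4_15) tc4_16) tc4_17) tc4_18)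
  (zzc ⟨(nat_lit 360), zl4_0, ti4_0⟩ (zzc ⟨(nat_lit 75), zl4_1, ti4_1⟩ (zzc ⟨(nat_lit 140), zl4_2, ti4_2⟩ (zzc ⟨(nat_lit 232), zl4_3, ti4_3⟩ (zzc ⟨(nat_lit 40), zl4_4, ti4_4⟩ (zzc ⟨(nat_lit 140), zl4_5, ti4_5⟩ zzn))))))
theorem cw5 : ∀ w < 19, wfC (nat_lit 61) (nat_lit 3) (getC CL5 w) = true :=
  (alS (alS (alS (alS (alS (alS (alS (alS (alS (alS (alS (alS (alS (alS (alS (alS (alS (alS (alS al0 wf5_0) wf5_1) wf5_2) wf5_3) wf5_4) wf5_5) wf5_6) wf5_7) wf5_8) wf5_9) wf5_10) wf5_11) wf5_12) wf5_13) wf5_14) wf5_15) wf5_16) wf5_17) wf5_18)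
theorem cr5 : ∀ w < 19, rfCk (nat_lit 61) (nat_lit 5) (nat_lit 61) (nat_lit 3) (nat_lit 3) (nat_lit 2097152) w TL5 CL4 CL5 = true :=
  (alS (alS (alS (alS (alS (alS (alS (alS (alS (alS (alS (alS (alS (alS (alS (alS (alS (alS (alS al0 rf5_0) rf5_1) rf5_2) rf5_3) rf5_4) rf5_5) rf5_6) rf5_7) rf5_8) rf5_9) rf5_10) rf5_11) rf5_12) rf5_13) rf5_14) rf5_15) rf5_16) rf5_17) rf5_18)
theorem vm5 : eqVM CL4 CL5 19 = true := by decide +kernel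
theorem cs5 : ∀ w < 19, StW (nat_lit 61) (nat_lit 3) (nat_lit 1) (nat_lit 1) (getC CL5 w) :=
  (alS (alS (alS (alS (alS (alS (alS (alS (alS (alS (alS (alS (alS (alS (alS (alS (alS (alS (alS al0 (stX (nat_lit 2) (nat_lit 0) (nat_lit 256) (Rl.cons (nat_lit 0) (nat_lit 196) Rl.nil) rfl rfl sc5_0 (rlc st5_0_0 rln))) (stX (nat_lit 2) (nat_lit 392) (nat_lit 256) (Rl.cons (nat_lit 392) (nat_lit 116) Rl.nil) rfl rfl sc5_1 (rlc st5_1_0 rln))) (stX (nat_lit 0) (nat_lit 124) (nat_lit 1) (Rl.cons (nat_lit 124) (nat_lit 83) Rl.nil) rfl rfl sc5_2 (rlc st5_2_0 rln))) (stX (nat_lit 0) (nat_lit 68) (nat_lit 1) (Rl.cons (nat_lit 68) (nat_lit 32) Rl.nil) rfl rfl sc5_3 (rlc st5_3_0 rln))) (stX (nat_lit 0) (nat_lit 168) (nat_lit 1) (Rl.cons (nat_lit 168) (nat_lit 132) Rl.nil) rfl rfl sc5_4 (rlc st5_4_0 rln))) (stX (nat_lit 2) (nat_lit 600)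 (nat_lit 256) (Rl.cons (nat_lit 600) (nat_lit 126) Rl.nil) rfl rfl sc5_5 (rlc st5_5_0 rln))) (stX (nat_lit 0) (nat_lit 48) (nat_lit 1) (Rl.cons (nat_lit 48) (nat_lit 29) Rl.nil) rfl rfl sc5_6 (rlc st5_6_0 rln))) (stX (nat_lit 0) (nat_lit 72) (nat_lit 1) (Rl.cons (nat_lit 72) (nat_lit 37) Rl.nil) rfl rfl sc5_7 (rlc st5_7_0 rln))) (stX (nat_lit 1) (nat_lit 97) (nat_lit 16) (Rl.cons (nat_lit 97) (nat_lit 20) Rl.nil) rfl rfl sc5_8 (rlc st5_8_0 rln))) (stX (nat_lit 0) (nat_lit 0) (nat_lit 1) Rl.nil rfl rfl sc5_9 rln)) (stX (nat_lit 0) (nat_lit 0) (nat_lit 1) Rl.nil rfl rfl sc5_10 rln)) (stX (nat_lit 0) (nat_lit 0) (nat_lit 1) Rl.nil rfl rfl sc5_11 rln)) (stX (nat_lit 0) (nat_lit 0) (nat_lit 1) Rl.nil rfl rfl sc5_12 rln)) (stX (nat_lit 3) (nat_lit 2021) (nat_lit 4096) (Rl.cons (nat_lit 2021) (nat_lit 806) (Rl.cons (nat_lit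 2827) (nat_lit 806) Rl.nil)) rfl rfl sc5_13 (rlc st5_13_0 (rlc st5_13_1 rln)))) (stX (nat_lit 1) (nat_lit 1155) (nat_lit 16) (Rl.cons (nat_lit 1155) (nat_lit 244) (Rl.cons (nat_lit 1399) (nat_lit 244) Rl.nil)) rfl rfl sc5_14 (rlc st5_14_0 (rlc st5_14_1 rln)))) (stX (nat_lit 0) (nat_lit 600) (nat_lit 1) (Rl.cons (nat_lit 600) (nat_lit 225) (Rl.cons (nat_lit 825) (nat_lit 226) Rl.nil)) rfl rfl sc5_15 (rlc st5_15_0 (rlc st5_15_1 rln)))) (stX (nat_lit 2) (nat_lit 720) (nat_lit 256) (Rl.cons (nat_lit 720) (nat_lit 364) Rl.nil) rfl rfl sc5_16 (rlc st5_16_0 rln))) (stX (nat_lit 1) (nat_lit 551) (nat_lit 16) (Rl.cons (nat_lit 551) (nat_lit 152) Rl.nil) rfl rfl sc5_17 (rlc st5_17_0 rln))) (stX (nat_lit 0) (nat_lit 0) (nat_lit 1) Rl.nil rfl rfl sc5_18 rln))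
theorem ct5 : TiS (nat_lit 61) (nat_lit 3) (nat_lit 2) (nat_lit 1) (nat_lit 11) (nat_lit 19) (nat_lit 1) CL5 :=
  tiS ZZ5 (alS (alS (alS (alS (alS (alS (alS (alS (alS (alS (alS (alS (alS (alS (alS (alS (alS (alS (alS al0 tc5_0) tc5_1) tc5_2) tc5_3) tc5_4) tc5_5) tc5_6) tc5_7) tc5_8) tc5_9) tc5_10) tc5_11) tc5_12) tc5_13) tc5_14) tc5_15) tc5_16) tc5_17) tc5_18)
  (zzc ⟨(nat_lit 320), zl5_0, ti5_0⟩ (zzc ⟨(nat_lit 70), zl5_1, ti5_1⟩ (zzc ⟨(nat_lit 159), zl5_2, ti5_2⟩ (zzc ⟨(nat_lit 188), zl5_3, ti5_3⟩ (zzc ⟨(nat_lit 26), zl5_4, ti5_4⟩ (zzc ⟨(nat_lit 181), zl5_5, ti5_5⟩ (zzc ⟨(nat_lit 320), zl5_6, ti5_6⟩ (zzc ⟨(nat_lit 70), zl5_7, ti5_7⟩ (zzc ⟨(nat_lit 159), zl5_8, ti5_8⟩ (zzc ⟨(nat_lit 188), zl5_9, ti5_9⟩ (zzc ⟨(nat_lit 26), zl5_10, ti5_10⟩ (zzc ⟨(nat_lit 181), zl5_11, ti5_11⟩ zzn))))))))))))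
theorem cw6 : ∀ w < 19, wfC (nat_lit 61) (nat_lit 11) (getC CL6 w) = true :=
  (alS (alS (alS (alS (alS (alS (alS (alS (alS (alS (alS (alS (alS (alS (alS (alS (alS (alS (alS al0 wf6_0) wf6_1) wf6_2) wf6_3) wf6_4) wf6_5) wf6_6) wf6_7) wf6_8) wf6_9) wf6_10) wf6_11) wf6_12) wf6_13) wf6_14) wf6_15) wf6_16) wf6_17) wf6_18)
theorem cr6 : ∀ w < 19, rfCk (nat_lit 61) (nat_lit 3) (nat_lit 61) (nat_lit 11) (nat_lit 9) (nat_lit 0) w TL6 CL5 CL6 = true :=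
  (alS (alS (alS (alS (alS (alS (alS (alS (alS (alS (alS (alS (alS (alS (alS (alS (alS (alS (alS al0 rf6_0) rf6_1) rf6_2) rf6_3) rf6_4) rf6_5) rf6_6) rf6_7) rf6_8) rf6_9) rf6_10) rf6_11) rf6_12) rf6_13) rf6_14) rf6_15) rf6_16) rf6_17) rf6_18)
theorem vm6 : eqVM CL5 CL6 19 = true := by decide +kernel
theorem cs6 : ∀ w < 19, StW (nat_lit 61) (nat_lit 11) (nat_lit 1) (nat_lit 5) (getC CL6 w) :=
  (alS (alS (alS (alS (alS (alS (alS (alS (alS (alS (alS (alS (alS (alS (alS (alS (alS (alS (alS al0 (stX (nat_lit 2) (nat_lit 0) (nat_lit 256) (Rl.cons (nat_lit 0) (nat_lit 82) Rl.nil) rfl rfl sc6_0 (rlc st6_0_0 rln))) (stX (nat_lit 2) (nat_lit 200) (nat_lit 256) (Rl.cons (nat_lit 200) (nat_lit 63) Rl.nil) rfl rfl sc6_1 (rlc st6_1_0 rln))) (stX (nat_lit 1) (nat_lit 101) (nat_lit 16) (Rl.cons (nat_lit 101) (nat_lit 35) Rl.nil) rfl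 rfl sc6_2 (rlc st6_2_0 rln))) (stX (nat_lit 0) (nat_lit 20) (nat_lit 1) (Rl.cons (nat_lit 20) (nat_lit 22) Rl.nil) rfl rfl sc6_3 (rlc st6_3_0 rln))) (stX (nat_lit 1) (nat_lit 167) (nat_lit 16) (Rl.cons (nat_lit 167) (nat_lit 67) Rl.nil) rfl rfl sc6_4 (rlc st6_4_0 rln))) (stX (nat_lit 2) (nat_lit 280) (nat_lit 256) (Rl.cons (nat_lit 280) (nat_lit 62) Rl.nil) rfl rfl sc6_5 (rlc st6_5_0 rln))) (stX (nat_lit 2) (nat_lit 40) (nat_lit 256) (Rl.cons (nat_lit 40) (nat_lit 23) Rl.nil) rfl rfl sc6_6 (rlc st6_6_0 rln))) (stX (nat_lit 1) (nat_lit 45) (nat_lit 16) (Rl.cons (nat_lit 45) (nat_lit 22) Rl.nil) rfl rfl sc6_7 (rlc st6_7_0 rln))) (stX (nat_lit 1) (nat_lit 41) (nat_lit 16) (Rl.cons (nat_lit 41) (nat_lit 6) Rl.nil) rfl rfl sc6_8 (rlc st6_8_0 rln))) (stX (nat_lit 0) (nat_lit 0) (nat_lit 1) Rl.nil rfl rfl sc6_9 rln)) (stX (nat_lit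 0) (nat_lit 0) (nat_lit 1) Rl.nil rfl rfl sc6_10 rln)) (stX (nat_lit 0) (nat_lit 0) (nat_lit 1) Rl.nil rfl rfl sc6_11 rln)) (stX (nat_lit 0) (nat_lit 0) (nat_lit 1) Rl.nil rfl rfl sc6_12 rln)) (stX (nat_lit 3) (nat_lit 964) (nat_lit 4096) (Rl.cons (nat_lit 964) (nat_lit 240) (Rl.cons (nat_lit 1204) (nat_lit 240) (Rl.cons (nat_lit 1444) (nat_lit 241) Rl.nil))) rfl rfl sc6_13 (rlc st6_13_0 (rlc st6_13_1 (rlc st6_13_2 rln))))) (stX (nat_lit 1) (nat_lit 585) (nat_lit 16) (Rl.cons (nat_lit 585) (nat_lit 108) (Rl.cons (nat_lit 693) (nat_lit 109) Rl.nil)) rfl rfl sc6_14 (rlc st6_14_0 (rlc st6_14_1 rln)))) (stX (nat_lit 1) (nat_lit 556) (nat_lit 16) (Rl.cons (nat_lit 556) (nat_lit 124) (Rl.cons (nat_lit 680) (nat_lit 124) Rl.nil)) rfl rfl sc6_15 (rlc st6_15_0 (rlc st6_15_1 rln)))) (stX (nat_lit 2) (nat_lit 391) (nat_lit 256)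 (Rl.cons (nat_lit 391) (nat_lit 174) Rl.nil) rfl rfl sc6_16 (rlc st6_16_0 rln))) (stX (nat_lit 1) (nat_lit 292) (nat_lit 16) (Rl.cons (nat_lit 292) (nat_lit 55) Rl.nil) rfl rfl sc6_17 (rlc st6_17_0 rln))) (stX (nat_lit 0) (nat_lit 0) (nat_lit 1) Rl.nil rfl rfl sc6_18 rln))
theorem ct6 : TiS (nat_lit 61) (nat_lit 11) (nat_lit 2) (nat_lit 5) (nat_lit 11) (nat_lit 19) (nat_lit 1) CL6 :=
  tiS ZZ6 (alS (alS (alS (alS (alS (alS (alS (alS (alS (alS (alS (alS (alS (alS (alS (alS (alS (alS (alS al0 tc6_0) tc6_1) tc6_2) tc6_3) tc6_4) tc6_5) tc6_6) tc6_7) tc6_8) tc6_9) tc6_10) tc6_11) tc6_12) tc6_13) tc6_14) tc6_15) tc6_16) tc6_17) tc6_18)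
  (zzc ⟨(nat_lit 181), zl6_0, ti6_0⟩ (zzc ⟨(nat_lit 36), zl6_1, ti6_1⟩ (zzc ⟨(nat_lit 101), zl6_2, ti6_2⟩ (zzc ⟨(nat_lit 154), zl6_3, ti6_3⟩ (zzc ⟨(nat_lit 17), zl6_4, ti6_4⟩ (zzc ⟨(nat_lit 124), zl6_5, ti6_5⟩ (zzc ⟨(nat_lit 84), zl6_6, ti6_6⟩ (zzc ⟨(nat_lit 9), zl6_7, ti6_7⟩ (zzc ⟨(nat_lit 98), zl6_8, ti6_8⟩ zzn)))))))))
theorem cw7 : ∀ w < 19, wfC (nat_lit 61) (nat_lit 17) (getC CL7 w) = true :=
  (alS (alS (alS (alS (alS (alS (alS (alS (alS (alS (alS (alS (alS (alS (alS (alS (alS (alS (alS al0 wf7_0) wf7_1) wf7_2) wf7_3) wf7_4) wf7_5) wf7_6) wf7_7) wf7_8) wf7_9) wf7_10) wf7_11) wf7_12) wf7_13) wf7_14) wf7_15) wf7_16) wf7_17) wf7_18)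
theorem cr7 : ∀ w < 19, rfCk (nat_lit 61) (nat_lit 11) (nat_lit 61) (nat_lit 17) (nat_lit 9) (nat_lit 0) w TL7 CL6 CL7 = true :=
  (alS (alS (alS (alS (alS (alS (alS (alS (alS (alS (alS (alS (alS (alS (alS (alS (alS (alS (alS al0 rf7_0) rf7_1) rf7_2) rf7_3) rf7_4) rf7_5) rf7_6) rf7_7) rf7_8) rf7_9) rf7_10) rf7_11) rf7_12) rf7_13) rf7_14) rf7_15) rf7_16) rf7_17) rf7_18)
theorem vm7 : eqVM CL6 CL7 19 = true := by decide +kernel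
theorem cs7 : ∀ w < 19, StW (nat_lit 61) (nat_lit 17) (nat_lit 1) (nat_lit 8) (getC CL7 w) :=
  (alS (alS (alS (alS (alS (alS (alS (alS (alS (alS (alS (alS (alS (alS (alS (alS (alS (alS (alS al0 (stX (nat_lit 2) (nat_lit 0) (nat_lit 256) (Rl.cons (nat_lit 0) (nat_lit 40) Rl.nil) rfl rfl sc7_0 (rlc st7_0_0 rln))) (stX (nat_lit 2) (nat_lit 136) (nat_lit 256) (Rl.cons (nat_lit 136) (nat_lit 39) Rl.nil) rfl rfl sc7_1 (rlc st7_1_0 rln))) (stX (nat_lit 1) (nat_lit 63) (nat_lit 16) (Rl.cons (nat_lit 63) (nat_lit 28) Rl.nil) rfl rfl sc7_2 (rlc st7_2_0 rln))) (stX (nat_lit 0) (nat_lit 11) (nat_lit 1) (Rl.cons (nat_lit 11) (nat_lit 7) Rl.nil) rfl rfl sc7_3 (rlc st7_3_0 rln))) (stX (nat_lit 1) (nat_lit 136) (nat_lit 16) (Rl.cons (nat_lit 136) (nat_lit 54) Rl.nil) rfl rfl sc7_4 (rlc st7_4_0 rln))) (stX (nat_lit 2) (nat_lit 224)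 (nat_lit 256) (Rl.cons (nat_lit 224) (nat_lit 47) Rl.nil) rfl rfl sc7_5 (rlc st7_5_0 rln))) (stX (nat_lit 2) (nat_lit 20) (nat_lit 256) (Rl.cons (nat_lit 20) (nat_lit 11) Rl.nil) rfl rfl sc7_6 (rlc st7_6_0 rln))) (stX (nat_lit 0) (nat_lit 16) (nat_lit 1) (Rl.cons (nat_lit 16) (nat_lit 16) Rl.nil) rfl rfl sc7_7 (rlc st7_7_0 rln))) (stX (nat_lit 1) (nat_lit 25) (nat_lit 16) (Rl.cons (nat_lit 25) (nat_lit 4) Rl.nil) rfl rfl sc7_8 (rlc st7_8_0 rln))) (stX (nat_lit 0) (nat_lit 0) (nat_lit 1) Rl.nil rfl rfl sc7_9 rln)) (stX (nat_lit 0) (nat_lit 0) (nat_lit 1) Rl.nil rfl rfl sc7_10 rln)) (stX (nat_lit 0) (nat_lit 0) (nat_lit 1) Rl.nil rfl rfl sc7_11 rln)) (stX (nat_lit 0) (nat_lit 0) (nat_lit 1) Rl.nil rfl rfl sc7_12 rln)) (stX (nat_lit 3) (nat_lit 580) (nat_lit 4096) (Rl.cons (nat_lit 580) (nat_lit 138) (Rl.cons (nat_lit 718)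 (nat_lit 138) (Rl.cons (nat_lit 856) (nat_lit 139) Rl.nil))) rfl rfl sc7_13 (rlc st7_13_0 (rlc st7_13_1 (rlc st7_13_2 rln))))) (stX (nat_lit 1) (nat_lit 387) (nat_lit 16) (Rl.cons (nat_lit 387) (nat_lit 141) Rl.nil) rfl rfl sc7_14 (rlc st7_14_0 rln))) (stX (nat_lit 1) (nat_lit 352) (nat_lit 16) (Rl.cons (nat_lit 352) (nat_lit 149) Rl.nil) rfl rfl sc7_15 (rlc st7_15_0 rln))) (stX (nat_lit 2) (nat_lit 247) (nat_lit 256) (Rl.cons (nat_lit 247) (nat_lit 101) Rl.nil) rfl rfl sc7_16 (rlc st7_16_0 rln))) (stX (nat_lit 1) (nat_lit 148) (nat_lit 16) (Rl.cons (nat_lit 148) (nat_lit 18) Rl.nil) rfl rfl sc7_17 (rlc st7_17_0 rln))) (stX (nat_lit 0) (nat_lit 0) (nat_lit 1) Rl.nil rfl rfl sc7_18 rln))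
theorem ct7 : TiS (nat_lit 61) (nat_lit 17) (nat_lit 2) (nat_lit 8) (nat_lit 11) (nat_lit 19) (nat_lit 1) CL7 :=
  tiS ZZ7 (alS (alS (alS (alS (alS (alS (alS (alS (alS (alS (alS (alS (alS (alS (alS (alS (alS (alS (alS al0 tc7_0) tc7_1) tc7_2) tc7_3) tc7_4) tc7_5) tc7_6) tc7_7) tc7_8) tc7_9) tc7_10) tc7_11) tc7_12) tc7_13) tc7_14) tc7_15) tc7_16) tc7_17) tc7_18)
  (zzc ⟨(nat_lit 151), zl7_0, ti7_0⟩ (zzc ⟨(nat_lit 26), zl7_1, ti7_1⟩ (zzc ⟨(nat_lit 72), zl7_2, ti7_2⟩ (zzc ⟨(nat_lit 108), zl7_3, ti7_3⟩ (zzc ⟨(nat_lit 13), zl7_4, ti7_4⟩ (zzc ⟨(nat_lit 73), zl7_5, ti7_5⟩ (zzc ⟨(nat_lit 54), zl7_6, ti7_6⟩ (zzc ⟨(nat_lit 5), zl7_7, ti7_7⟩ (zzc ⟨(nat_lit 33), zl7_8, ti7_8⟩ zzn)))))))))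
theorem cw8 : ∀ w < 19, wfC (nat_lit 18) (nat_lit 7) (getC CL8 w) = true :=
  (alS (alS (alS (alS (alS (alS (alS (alS (alS (alS (alS (alS (alS (alS (alS (alS (alS (alS (alS al0 wf8_0) wf8_1) wf8_2) wf8_3) wf8_4) wf8_5) wf8_6) wf8_7) wf8_8) wf8_9) wf8_10) wf8_11) wf8_12) wf8_13) wf8_14) wf8_15) wf8_16) wf8_17) wf8_18)
theorem cr8 : ∀ w < 19, rfCk (nat_lit 61) (nat_lit 17) (nat_lit 18) (nat_lit 7) (nat_lit 9) (nat_lit 0) w TL8 CL7 CL8 = true :=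
  (alS (alS (alS (alS (alS (alS (alS (alS (alS (alS (alS (alS (alS (alS (alS (alS (alS (alS (alS al0 rf8_0) rf8_1) rf8_2) rf8_3) rf8_4) rf8_5) rf8_6) rf8_7) rf8_8) rf8_9) rf8_10) rf8_11) rf8_12) rf8_13) rf8_14) rf8_15) rf8_16) rf8_17) rf8_18)
theorem vm8 : eqVM CL7 CL8 19 = true := by decide +kernel
theorem cs8 : ∀ w < 19, StW (nat_lit 18) (nat_lit 7) (nat_lit 1) (nat_lit 3) (getC CL8 w) :=
  (alS (alS (alS (alS (alS (alS (alS (alS (alS (alS (alS (alS (alS (alS (alS (alS (alS (alS (alS al0 (stX (nat_lit 2) (nat_lit 0) (nat_lit 256) (Rl.cons (nat_lit 0) (nat_lit 7) Rl.nil) rfl rfl sc8_0 (rlc st8_0_0 rln))) (stX (nat_lit 2) (nat_lit 6) (nat_lit 256) (Rl.cons (nat_lit 6) (nat_lit 1) Rl.nil) rfl rfl sc8_1 (rlc st8_1_0 rln))) (stX (nat_lit 0) (nat_lit 1) (nat_lit 1) (Rl.cons (nat_lit 1) (nat_lit 1) Rl.nil) rfl rfl sc8_2 (rlc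 st8_2_0 rln))) (stX (nat_lit 0) (nat_lit 0) (nat_lit 1) Rl.nil rfl rfl sc8_3 rln)) (stX (nat_lit 1) (nat_lit 27) (nat_lit 16) (Rl.cons (nat_lit 27) (nat_lit 13) Rl.nil) rfl rfl sc8_4 (rlc st8_4_0 rln))) (stX (nat_lit 2) (nat_lit 62) (nat_lit 256) (Rl.cons (nat_lit 62) (nat_lit 7) Rl.nil) rfl rfl sc8_5 (rlc st8_5_0 rln))) (stX (nat_lit 0) (nat_lit 0) (nat_lit 1) Rl.nil rfl rfl sc8_6 rln)) (stX (nat_lit 1) (nat_lit 9) (nat_lit 16) (Rl.cons (nat_lit 9) (nat_lit 3) Rl.nil) rfl rfl sc8_7 (rlc st8_7_0 rln))) (stX (nat_lit 0) (nat_lit 0) (nat_lit 1) Rl.nil rfl rfl sc8_8 rln)) (stX (nat_lit 0) (nat_lit 0) (nat_lit 1) Rl.nil rfl rfl sc8_9 rln)) (stX (nat_lit 0) (nat_lit 0) (nat_lit 1) Rl.nil rfl rfl sc8_10 rln)) (stX (nat_lit 0) (nat_lit 0) (nat_lit 1) Rl.nil rfl rfl sc8_11 rln)) (stX (nat_lit 0) (nat_lit 0) (nat_lit 1) Rl.nil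 rfl rfl sc8_12 rln)) (stX (nat_lit 3) (nat_lit 61) (nat_lit 4096) (Rl.cons (nat_lit 61) (nat_lit 36) Rl.nil) rfl rfl sc8_13 (rlc st8_13_0 rln))) (stX (nat_lit 1) (nat_lit 20) (nat_lit 16) (Rl.cons (nat_lit 20) (nat_lit 10) Rl.nil) rfl rfl sc8_14 (rlc st8_14_0 rln))) (stX (nat_lit 3) (nat_lit 74) (nat_lit 4096) (Rl.cons (nat_lit 74) (nat_lit 24) Rl.nil) rfl rfl sc8_15 (rlc st8_15_0 rln))) (stX (nat_lit 2) (nat_lit 8) (nat_lit 256) (Rl.cons (nat_lit 8) (nat_lit 2) Rl.nil) rfl rfl sc8_16 (rlc st8_16_0 rln))) (stX (nat_lit 1) (nat_lit 5) (nat_lit 16) (Rl.cons (nat_lit 5) (nat_lit 1) Rl.nil) rfl rfl sc8_17 (rlc st8_17_0 rln))) (stX (nat_lit 0) (nat_lit 0) (nat_lit 1) Rl.nil rfl rfl sc8_18 rln))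
theorem ct8 : TiS (nat_lit 18) (nat_lit 7) (nat_lit 2) (nat_lit 3) (nat_lit 11) (nat_lit 19) (nat_lit 1) CL8 :=
  tiS ZZ8 (alS (alS (alS (alS (alS (alS (alS (alS (alS (alS (alS (alS (alS (alS (alS (alS (alS (alS (alS al0 tc8_0) tc8_1) tc8_2) tc8_3) tc8_4) tc8_5) tc8_6) tc8_7) tc8_8) tc8_9) tc8_10) tc8_11) tc8_12) tc8_13) tc8_14) tc8_15) tc8_16) tc8_17) tc8_18)
  (zzc ⟨(nat_lit 31), zl8_0, ti8_0⟩ (zzc ⟨(nat_lit 4), zl8_1, ti8_1⟩ (zzc ⟨(nat_lit 6), zl8_2, ti8_2⟩ (zzc ⟨(nat_lit 11), zl8_3, ti8_3⟩ (zzc ⟨(nat_lit 1), zl8_4, ti8_4⟩ (zzc ⟨(nat_lit 1), zl8_5, ti8_5⟩ (zzc ⟨(nat_lit 7), zl8_6, ti8_6⟩ (zzc ⟨(nat_lit 2), zl8_7, ti8_7⟩ zzn))))))))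
theorem cd : ∀ w < 19, deadCk (nat_lit 18) (nat_lit 7) (getC CL8 w) = true :=
  (alS (alS (alS (alS (alS (alS (alS (alS (alS (alS (alS (alS (alS (alS (alS (alS (alS (alS (alS al0 de8_0) de8_1) de8_2) de8_3) de8_4) de8_5) de8_6) de8_7) de8_8) de8_9) de8_10) de8_11) de8_12) de8_13) de8_14) de8_15) de8_16) de8_17) de8_18)
theorem rc : recCk (recP 11 (1, 3, 4) 5 0 2).W 19 CL0 = true := by decide +kernel
theorem occ (O : OccL (recP 11 (1, 3, 4) 5 0 2) (locOK (Nat.testBit 5) (Nat.testBit 0) (Nat.testBit 2))) :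
    False := by
  have k := first_stage O 1 (nlOK_A (by decide) (by decide)) rfl rfl rfl rfl rc cw0 cp
  have k := run_stage k rfl (nat_lit 1) (nat_lit 2) (nat_lit 2) (nat_lit 2) rfl cs0 ct0
  have k := next_stage k (nat_lit 60) (nat_lit 5) (nat_lit 1) (nat_lit 1) rfl rfl rfl rfl rfl vm1 cw1 cr1
  have k := run_stage k rfl (nat_lit 1) (nat_lit 2) (nat_lit 2) (nat_lit 2) rfl cs1 ct1
  have k := next_stage k (nat_lit 61) (nat_lit 2) (nat_lit 4) (nat_lit 2) rfl rfl rfl rfl rfl vm2 cw2 cr2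
  have k := run_stage k rfl (nat_lit 2) (nat_lit 0) (nat_lit 1) (nat_lit 1) rfl cs2 ct2
  have k := next_stage k (nat_lit 61) (nat_lit 4) (nat_lit 9) (nat_lit 0) rfl rfl rfl rfl rfl vm3 cw3 cr3
  have k := run_stage k rfl (nat_lit 1) (nat_lit 2) (nat_lit 2) (nat_lit 1) rfl cs3 ct3
  have k := next_stage k (nat_lit 61) (nat_lit 5) (nat_lit 0) (nat_lit 4) rfl rfl rfl rfl rfl vm4 cw4 cr4
  have k := run_stage k rfl (nat_lit 1) (nat_lit 2) (nat_lit 2) (nat_lit 2) rfl cs4 ct4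
  have k := next_stage k (nat_lit 61) (nat_lit 3) (nat_lit 3) (nat_lit 8) rfl rfl rfl rfl rfl vm5 cw5 cr5
  have k := run_stage k rfl (nat_lit 1) (nat_lit 1) (nat_lit 2) (nat_lit 1) rfl cs5 ct5
  have k := next_stage k (nat_lit 61) (nat_lit 11) (nat_lit 9) (nat_lit 0) rfl rfl rfl rfl rfl vm6 cw6 cr6
  have k := run_stage k rfl (nat_lit 1) (nat_lit 5) (nat_lit 2) (nat_lit 5) rfl cs6 ct6
  have k := next_stage k (nat_lit 61) (nat_lit 17) (nat_lit 9) (nat_lit 0) rfl rfl rfl rfl rfl vm7 cw7 cr7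
  have k := run_stage k rfl (nat_lit 1) (nat_lit 8) (nat_lit 2) (nat_lit 8) rfl cs7 ct7
  have k := next_stage k (nat_lit 18) (nat_lit 7) (nat_lit 9) (nat_lit 0) rfl rfl rfl rfl rfl vm8 cw8 cr8
  have k := run_stage k rfl (nat_lit 1) (nat_lit 3) (nat_lit 2) (nat_lit 3) rfl cs8 ct8
  exact last_stage k rfl cd
theorem res : ∃ ok, OkP (1, 3, 4) ok ∧ IsEmpty (LTil (shP 11 (1, 3, 4) ok)) :=
  dead_P 5 0 2 (by decide +kernel) rc occ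

end Pool.Agent.NNr.R11_1_3_4

namespace Pool.Agent.NNr.R11_1_6_14
open Pool.Agent.NNe Pool.Agent.NNc

theorem cw0 : ∀ w < 8, wfC (nat_lit 48) (nat_lit 2) (getC CL0 w) = true :=
  (alS (alS (alS (alS (alS (alS (alS (alS al0 wf0_0) wf0_1) wf0_2) wf0_3) wf0_4) wf0_5) wf0_6) wf0_7)
theorem cp : ∀ w < 8, plCk (nat_lit 48) (nat_lit 2) (nat_lit 11) (nat_lit 5) (nat_lit 0) (nat_lit 2) (nat_lit 8) (nat_lit 4) w nl0 CL0 = true :=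
  (alS (alS (alS (alS (alS (alS (alS (alS al0 pl0_0) pl0_1) pl0_2) pl0_3) pl0_4) pl0_5) pl0_6) pl0_7)
theorem cs0 : ∀ w < 8, StW (nat_lit 48) (nat_lit 2) (nat_lit 2) (nat_lit 0) (getC CL0 w) :=
  (alS (alS (alS (alS (alS (alS (alS (alS al0 (stX (nat_lit 2) (nat_lit 0) (nat_lit 256) (Rl.cons (nat_lit 0) (nat_lit 13) Rl.nil) rfl rfl sc0_0 (rlc (starCk_zero _ _ _ _ _ _ _) rln))) (stX (nat_lit 1) (nat_lit 0) (nat_lit 16) (Rl.cons (nat_lit 0) (nat_lit 6) Rl.nil) rfl rfl sc0_1 (rlc (starCk_zero _ _ _ _ _ _ _) rln))) (stX (nat_lit 0) (nat_lit 0) (nat_lit 1) (Rl.cons (nat_lit 0) (nat_lit 64) Rl.nil) rfl rfl sc0_2 (rlc (starCk_zero _ _ _ _ _ _ _) rln))) (stX (nat_lit 0) (nat_lit 0) (nat_lit 1) (Rl.cons (nat_lit 0) (nat_lit 30) Rl.nil) rfl rfl sc0_3 (rlc (starCk_zero _ _ _ _ _ _ _) rln))) (stX (nat_lit 0) (nat_lit 0) (nat_lit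 1) (Rl.cons (nat_lit 0) (nat_lit 1) Rl.nil) rfl rfl sc0_4 (rlc (starCk_zero _ _ _ _ _ _ _) rln))) (stX (nat_lit 0) (nat_lit 0) (nat_lit 1) (Rl.cons (nat_lit 0) (nat_lit 342) Rl.nil) rfl rfl sc0_5 (rlc (starCk_zero _ _ _ _ _ _ _) rln))) (stX (nat_lit 0) (nat_lit 0) (nat_lit 1) (Rl.cons (nat_lit 0) (nat_lit 135) Rl.nil) rfl rfl sc0_6 (rlc (starCk_zero _ _ _ _ _ _ _) rln))) (stX (nat_lit 0) (nat_lit 0) (nat_lit 1) (Rl.cons (nat_lit 0) (nat_lit 79) Rl.nil) rfl rfl sc0_7 (rlc (starCk_zero _ _ _ _ _ _ _) rln)))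
theorem ct0 : TiS (nat_lit 48) (nat_lit 2) (nat_lit 1) (nat_lit 1) (nat_lit 11) (nat_lit 8) (nat_lit 1) CL0 :=
  tiS ZZ0 (alS (alS (alS (alS (alS (alS (alS (alS al0 tc0_0) tc0_1) tc0_2) tc0_3) tc0_4) tc0_5) tc0_6) tc0_7)
  (zzc ⟨(nat_lit 61), zl0_0, ti0_0⟩ zzn)
theorem cw1 : ∀ w < 8, wfC (nat_lit 42) (nat_lit 11) (getC CL1 w) = true :=
  (alS (alS (alS (alS (alS (alS (alS (alS al0 wf1_0) wf1_1) wf1_2) wf1_3) wf1_4) wf1_5) wf1_6) wf1_7)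
theorem cr1 : ∀ w < 8, rfCk (nat_lit 48) (nat_lit 2) (nat_lit 42) (nat_lit 11) (nat_lit 9) (nat_lit 0) w TL1 CL0 CL1 = true :=
  (alS (alS (alS (alS (alS (alS (alS (alS al0 rf1_0) rf1_1) rf1_2) rf1_3) rf1_4) rf1_5) rf1_6) rf1_7)
theorem vm1 : eqVM CL0 CL1 8 = true := by decide +kernel
theorem cs1 : ∀ w < 8, StW (nat_lit 42) (nat_lit 11) (nat_lit 2) (nat_lit 5) (getC CL1 w) :=
  (alS (alS (alS (alS (alS (alS (alS (alS al0 (stX (nat_lit 2) (nat_lit 0) (nat_lit 256) (Rl.cons (nat_lit 0) (nat_lit 4) Rl.nil) rfl rfl sc1_0 (rlc st1_0_0 rln))) (stX (nat_lit 1) (nat_lit 0) (nat_lit 16) (Rl.cons (nat_lit 0) (nat_lit 3) Rl.nil) rfl rfl sc1_1 (rlc st1_1_0 rln))) (stX (nat_lit 2) (nat_lit 21) (nat_lit 256) (Rl.cons (nat_lit 21) (nat_lit 3) Rl.nil) rfl rfl sc1_2 (rlc st1_2_0 rln))) (stX (nat_lit 2) (nat_lit 4) (nat_lit 256) (Rl.cons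 (nat_lit 4) (nat_lit 1) Rl.nil) rfl rfl sc1_3 (rlc st1_3_0 rln))) (stX (nat_lit 0) (nat_lit 0) (nat_lit 1) Rl.nil rfl rfl sc1_4 rln)) (stX (nat_lit 1) (nat_lit 39) (nat_lit 16) (Rl.cons (nat_lit 39) (nat_lit 19) Rl.nil) rfl rfl sc1_5 (rlc st1_5_0 rln))) (stX (nat_lit 3) (nat_lit 54) (nat_lit 4096) (Rl.cons (nat_lit 54) (nat_lit 29) Rl.nil) rfl rfl sc1_6 (rlc st1_6_0 rln))) (stX (nat_lit 0) (nat_lit 0) (nat_lit 1) Rl.nil rfl rfl sc1_7 rln))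
theorem ct1 : TiS (nat_lit 42) (nat_lit 11) (nat_lit 1) (nat_lit 5) (nat_lit 11) (nat_lit 8) (nat_lit 1) CL1 :=
  tiS ZZ1 (alS (alS (alS (alS (alS (alS (alS (alS al0 tc1_0) tc1_1) tc1_2) tc1_3) tc1_4) tc1_5) tc1_6) tc1_7)
  (zzc ⟨(nat_lit 43), zl1_0, ti1_0⟩ zzn)
theorem cd : ∀ w < 8, deadCk (nat_lit 42) (nat_lit 11) (getC CL1 w) = true :=
  (alS (alS (alS (alS (alS (alS (alS (alS al0 de1_0) de1_1) de1_2) de1_3) de1_4) de1_5) de1_6) de1_7)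
theorem rc : recCk (recP 11 (1, 6, 14) 5 0 2).W 8 CL0 = true := by decide +kernel
theorem occ (O : OccL (recP 11 (1, 6, 14) 5 0 2) (locOK (Nat.testBit 5) (Nat.testBit 0) (Nat.testBit 2))) :
    False := by
  have k := first_stage O 1 (nlOK_A (by decide) (by decide)) rfl rfl rfl rfl rc cw0 cp
  have k := run_stage k rfl (nat_lit 2) (nat_lit 0) (nat_lit 1) (nat_lit 1) rfl cs0 ct0
  have k := next_stage k (nat_lit 42) (nat_lit 11) (nat_lit 9) (nat_lit 0) rfl rfl rfl rfl rfl vm1 cw1 cr1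
  have k := run_stage k rfl (nat_lit 2) (nat_lit 5) (nat_lit 1) (nat_lit 5) rfl cs1 ct1
  exact last_stage k rfl cd
theorem res : ∃ ok, OkP (1, 6, 14) ok ∧ IsEmpty (LTil (shP 11 (1, 6, 14) ok)) :=
  dead_P 5 0 2 (by decide +kernel) rc occ

end Pool.Agent.NNr.R11_1_6_14

namespace Pool.Agent.NNr.R11_2_12_13
open Pool.Agent.NNe Pool.Agent.NNc

theorem cw0 : ∀ w < 6, wfC (nat_lit 49) (nat_lit 2) (getC CL0 w) = true :=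
  (alS (alS (alS (alS (alS (alS al0 wf0_0) wf0_1) wf0_2) wf0_3) wf0_4) wf0_5)
theorem cp : ∀ w < 6, plCk (nat_lit 49) (nat_lit 2) (nat_lit 11) (nat_lit 5) (nat_lit 0) (nat_lit 2) (nat_lit 6) (nat_lit 4) w nl0 CL0 = true :=
  (alS (alS (alS (alS (alS (alS al0 pl0_0) pl0_1) pl0_2) pl0_3) pl0_4) pl0_5)
theorem cs0 : ∀ w < 6, StW (nat_lit 49) (nat_lit 2) (nat_lit 2) (nat_lit 0) (getC CL0 w) :=
  (alS (alS (alS (alS (alS (alS al0 (stX (nat_lit 0) (nat_lit 0) (nat_lit 1) (Rl.cons (nat_lit 0) (nat_lit 23) Rl.nil) rfl rfl sc0_0 (rlc (starCk_zero _ _ _ _ _ _ _) rln))) (stX (nat_lit 0) (nat_lit 0) (nat_lit 1) (Rl.cons (nat_lit 0) (nat_lit 52) Rl.nil) rfl rfl sc0_1 (rlc (starCk_zero _ _ _ _ _ _ _) rln))) (stX (nat_lit 0) (nat_lit 0) (nat_lit 1) (Rl.cons (nat_lit 0) (nat_lit 24) Rl.nil) rfl rfl sc0_2 (rlc (starCk_zero _ _ _ _ _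 _ _) rln))) (stX (nat_lit 0) (nat_lit 0) (nat_lit 1) Rl.nil rfl rfl sc0_3 rln)) (stX (nat_lit 0) (nat_lit 0) (nat_lit 1) (Rl.cons (nat_lit 0) (nat_lit 256) Rl.nil) rfl rfl sc0_4 (rlc (starCk_zero _ _ _ _ _ _ _) rln))) (stX (nat_lit 0) (nat_lit 0) (nat_lit 1) (Rl.cons (nat_lit 0) (nat_lit 83) Rl.nil) rfl rfl sc0_5 (rlc (starCk_zero _ _ _ _ _ _ _) rln)))
theorem ct0 : TiS (nat_lit 49) (nat_lit 2) (nat_lit 1) (nat_lit 1) (nat_lit 11) (nat_lit 6) (nat_lit 1) CL0 :=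
  tiS ZZ0 (alS (alS (alS (alS (alS (alS al0 tc0_0) tc0_1) tc0_2) tc0_3) tc0_4) tc0_5)
  (zzc ⟨(nat_lit 34), zl0_0, ti0_0⟩ zzn)
theorem cw1 : ∀ w < 6, wfC (nat_lit 22) (nat_lit 2) (getC CL1 w) = true :=
  (alS (alS (alS (alS (alS (alS al0 wf1_0) wf1_1) wf1_2) wf1_3) wf1_4) wf1_5)
theorem cr1 : ∀ w < 6, rfCk (nat_lit 49) (nat_lit 2) (nat_lit 22) (nat_lit 2) (nat_lit 9) (nat_lit 0) w TL1 CL0 CL1 = true :=
  (alS (alS (alS (alS (alS (alS al0 rf1_0) rf1_1) rf1_2) rf1_3) rf1_4) rf1_5)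
theorem vm1 : eqVM CL0 CL1 6 = true := by decide +kernel
theorem cs1 : ∀ w < 6, StW (nat_lit 22) (nat_lit 2) (nat_lit 1) (nat_lit 1) (getC CL1 w) :=
  (alS (alS (alS (alS (alS (alS al0 (stX (nat_lit 0) (nat_lit 2) (nat_lit 1) (Rl.cons (nat_lit 2) (nat_lit 3) Rl.nil) rfl rfl sc1_0 (rlc st1_0_0 rln))) (stX (nat_lit 2) (nat_lit 19) (nat_lit 256) (Rl.cons (nat_lit 19) (nat_lit 3) Rl.nil) rfl rfl sc1_1 (rlc st1_1_0 rln))) (stX (nat_lit 0) (nat_lit 5) (nat_lit 1) (Rl.cons (nat_lit 5) (nat_lit 4) Rl.nil) rfl rfl sc1_2 (rlc st1_2_0 rln))) (stX (nat_lit 0) (nat_lit 0) (nat_lit 1) Rl.nil rfl rfl sc1_3 rln)) (stX (nat_lit 1) (nat_lit 21) (nat_lit 16) (Rl.cons (nat_lit 21) (nat_lit 9) Rl.nil) rfl rfl sc1_4 (rlc st1_4_0 rln))) (stX (nat_lit 0) (nat_lit 0) (nat_lit 1) Rl.nil rfl rfl sc1_5 rln))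
theorem ct1 : TiS (nat_lit 22) (nat_lit 2) (nat_lit 2) (nat_lit 0) (nat_lit 11) (nat_lit 6) (nat_lit 1) CL1 :=
  tiS ZZ1 (alS (alS (alS (alS (alS (alS al0 tc1_0) tc1_1) tc1_2) tc1_3) tc1_4) tc1_5)
  (zzc ⟨(nat_lit 102), zl1_0, tileCk_zero _ _ _ _ _ _ _ _⟩ zzn)
theorem cw2 : ∀ w < 6, wfC (nat_lit 6) (nat_lit 2) (getC CL2 w) = true :=
  (alS (alS (alS (alS (alS (alS al0 wf2_0) wf2_1) wf2_2) wf2_3) wf2_4) wf2_5)
theorem cr2 : ∀ w < 6, rfCk (nat_lit 22) (nat_lit 2) (nat_lit 6) (nat_lit 2) (nat_lit 9) (nat_lit 0) w TL2 CL1 CL2 = true :=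
  (alS (alS (alS (alS (alS (alS al0 rf2_0) rf2_1) rf2_2) rf2_3) rf2_4) rf2_5)
theorem vm2 : eqVM CL1 CL2 6 = true := by decide +kernel
theorem cs2 : ∀ w < 6, StW (nat_lit 6) (nat_lit 2) (nat_lit 2) (nat_lit 0) (getC CL2 w) :=
  (alS (alS (alS (alS (alS (alS al0 (stX (nat_lit 0) (nat_lit 0) (nat_lit 1) (Rl.cons (nat_lit 0) (nat_lit 2) Rl.nil) rfl rfl sc2_0 (rlc (starCk_zero _ _ _ _ _ _ _) rln))) (stX (nat_lit 0) (nat_lit 0) (nat_lit 1) Rl.nil rfl rfl sc2_1 rln)) (stX (nat_lit 0) (nat_lit 0) (nat_lit 1) (Rl.cons (nat_lit 0) (nat_lit 10) Rl.nil) rfl rfl sc2_2 (rlc (starCk_zero _ _ _ _ _ _ _) rln))) (stX (nat_lit 0) (nat_lit 0) (nat_lit 1) Rl.nil rfl rfl sc2_3 rln)) (stX (nat_lit 0) (nat_lit 0) (nat_lit 1) (Rl.cons (nat_lit 0) (nat_lit 18) Rl.nil) rfl rfl sc2_4 (rlc (starCk_zero _ _ _ _ _ _ _) rln))) (stX (nat_lit 0) (nat_lit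 0) (nat_lit 1) Rl.nil rfl rfl sc2_5 rln))
theorem ct2 : TiS (nat_lit 6) (nat_lit 2) (nat_lit 1) (nat_lit 1) (nat_lit 11) (nat_lit 6) (nat_lit 1) CL2 :=
  tiS ZZ2 (alS (alS (alS (alS (alS (alS al0 tc2_0) tc2_1) tc2_2) tc2_3) tc2_4) tc2_5)
  (zzc ⟨(nat_lit 5), zl2_0, ti2_0⟩ zzn)
theorem cd : ∀ w < 6, deadCk (nat_lit 6) (nat_lit 2) (getC CL2 w) = true :=
  (alS (alS (alS (alS (alS (alS al0 de2_0) de2_1) de2_2) de2_3) de2_4) de2_5)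
theorem rc : recCk (recP 11 (2, 12, 13) 5 0 2).W 6 CL0 = true := by decide +kernel
theorem occ (O : OccL (recP 11 (2, 12, 13) 5 0 2) (locOK (Nat.testBit 5) (Nat.testBit 0) (Nat.testBit 2))) :
    False := by
  have k := first_stage O 1 (nlOK_A (by decide) (by decide)) rfl rfl rfl rfl rc cw0 cp
  have k := run_stage k rfl (nat_lit 2) (nat_lit 0) (nat_lit 1) (nat_lit 1) rfl cs0 ct0
  have k := next_stage k (nat_lit 22) (nat_lit 2) (nat_lit 9) (nat_lit 0) rfl rfl rfl rfl rfl vm1 cw1 cr1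
  have k := run_stage k rfl (nat_lit 1) (nat_lit 1) (nat_lit 2) (nat_lit 0) rfl cs1 ct1
  have k := next_stage k (nat_lit 6) (nat_lit 2) (nat_lit 9) (nat_lit 0) rfl rfl rfl rfl rfl vm2 cw2 cr2
  have k := run_stage k rfl (nat_lit 2) (nat_lit 0) (nat_lit 1) (nat_lit 1) rfl cs2 ct2
  exact last_stage k rfl cd
theorem res : ∃ ok, OkP (2, 12, 13) ok ∧ IsEmpty (LTil (shP 11 (2, 12, 13) ok)) :=
  dead_P 5 0 2 (by decide +kernel) rc occ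

end Pool.Agent.NNr.R11_2_12_13

namespace Pool.Agent.NNr.R11_2_4_11
open Pool.Agent.NNe Pool.Agent.NNc

theorem cw0 : ∀ w < 9, wfC (nat_lit 46) (nat_lit 14) (getC CL0 w) = true :=
  (alS (alS (alS (alS (alS (alS (alS (alS (alS al0 wf0_0) wf0_1) wf0_2) wf0_3) wf0_4) wf0_5) wf0_6) wf0_7) wf0_8)
theorem cp : ∀ w < 9, plCk (nat_lit 46) (nat_lit 14) (nat_lit 11) (nat_lit 1) (nat_lit 0) (nat_lit 6) (nat_lit 9) (nat_lit 4) w nl0 CL0 = true :=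
  (alS (alS (alS (alS (alS (alS (alS (alS (alS al0 pl0_0) pl0_1) pl0_2) pl0_3) pl0_4) pl0_5) pl0_6) pl0_7) pl0_8)
theorem cs0 : ∀ w < 9, StW (nat_lit 46) (nat_lit 14) (nat_lit 2) (nat_lit 6) (getC CL0 w) :=
  (alS (alS (alS (alS (alS (alS (alS (alS (alS al0 (stX (nat_lit 2) (nat_lit 21) (nat_lit 256) (Rl.cons (nat_lit 21) (nat_lit 9) Rl.nil) rfl rfl sc0_0 (rlc st0_0_0 rln))) (stX (nat_lit 0) (nat_lit 3) (nat_lit 1) (Rl.cons (nat_lit 3) (nat_lit 4) Rl.nil) rfl rfl sc0_1 (rlc st0_1_0 rln))) (stX (nat_lit 2) (nat_lit 58) (nat_lit 256) (Rl.cons (nat_lit 58) (nat_lit 10) Rl.nil) rfl rfl sc0_2 (rlc st0_2_0 rln))) (stX (nat_lit 0) (nat_lit 3) (nat_lit 1) (Rl.cons (nat_lit 3) (nat_lit 3) Rl.nil) rfl rfl sc0_3 (rlc st0_3_0 rln))) (stX (nat_lit 1) (nat_lit 26) (nat_lit 16) (Rl.cons (nat_lit 26) (nat_lit 8) Rl.nil) rfl rfl sc0_4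 (rlc st0_4_0 rln))) (stX (nat_lit 0) (nat_lit 0) (nat_lit 1) Rl.nil rfl rfl sc0_5 rln)) (stX (nat_lit 2) (nat_lit 15) (nat_lit 256) (Rl.cons (nat_lit 15) (nat_lit 5) Rl.nil) rfl rfl sc0_6 (rlc st0_6_0 rln))) (stX (nat_lit 1) (nat_lit 51) (nat_lit 16) (Rl.cons (nat_lit 51) (nat_lit 20) Rl.nil) rfl rfl sc0_7 (rlc st0_7_0 rln))) (stX (nat_lit 2) (nat_lit 51) (nat_lit 256) (Rl.cons (nat_lit 51) (nat_lit 29) Rl.nil) rfl rfl sc0_8 (rlc st0_8_0 rln)))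
theorem ct0 : TiS (nat_lit 46) (nat_lit 14) (nat_lit 1) (nat_lit 7) (nat_lit 11) (nat_lit 9) (nat_lit 1) CL0 :=
  tiS ZZ0 (alS (alS (alS (alS (alS (alS (alS (alS (alS al0 tc0_0) tc0_1) tc0_2) tc0_3) tc0_4) tc0_5) tc0_6) tc0_7) tc0_8)
  (zzc ⟨(nat_lit 60), zl0_0, ti0_0⟩ zzn)
theorem cd : ∀ w < 9, deadCk (nat_lit 46) (nat_lit 14) (getC CL0 w) = true :=
  (alS (alS (alS (alS (alS (alS (alS (alS (alS al0 de0_0) de0_1) de0_2) de0_3) de0_4) de0_5) de0_6) de0_7) de0_8)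
theorem rc : recCk (recP 11 (2, 4, 11) 1 0 6).W 9 CL0 = true := by decide +kernel
theorem occ (O : OccL (recP 11 (2, 4, 11) 1 0 6) (locOK (Nat.testBit 1) (Nat.testBit 0) (Nat.testBit 6))) :
    False := by
  have k := first_stage O 1 (nlOK_A (by decide) (by decide)) rfl rfl rfl rfl rc cw0 cp
  have k := run_stage k rfl (nat_lit 2) (nat_lit 6) (nat_lit 1) (nat_lit 7) rfl cs0 ct0
  exact last_stage k rfl cd
theorem res : ∃ ok, OkP (2, 4, 11) ok ∧ IsEmpty (LTil (shP 11 (2, 4, 11) ok)) :=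
  dead_P 1 0 6 (by decide +kernel) rc occ

end Pool.Agent.NNr.R11_2_4_11

namespace Pool.Agent.NNr.R11_2_8_9
open Pool.Agent.NNe Pool.Agent.NNc

theorem cw0 : ∀ w < 7, wfC (nat_lit 60) (nat_lit 9) (getC CL0 w) = true :=
  (alS (alS (alS (alS (alS (alS (alS al0 wf0_0) wf0_1) wf0_2) wf0_3) wf0_4) wf0_5) wf0_6)
theorem cp : ∀ w < 7, plCk (nat_lit 60) (nat_lit 9) (nat_lit 11) (nat_lit 5) (nat_lit 0) (nat_lit 2) (nat_lit 7) (nat_lit 4) w nl0 CL0 = true :=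
  (alS (alS (alS (alS (alS (alS (alS al0 pl0_0) pl0_1) pl0_2) pl0_3) pl0_4) pl0_5) pl0_6)
theorem cs0 : ∀ w < 7, StW (nat_lit 60) (nat_lit 9) (nat_lit 1) (nat_lit 4) (getC CL0 w) :=
  (alS (alS (alS (alS (alS (alS (alS al0 (stX (nat_lit 0) (nat_lit 3) (nat_lit 1) (Rl.cons (nat_lit 3) (nat_lit 6) Rl.nil) rfl rfl sc0_0 (rlc st0_0_0 rln))) (stX (nat_lit 2) (nat_lit 50) (nat_lit 256) (Rl.cons (nat_lit 50) (nat_lit 8) Rl.nil) rfl rfl sc0_1 (rlc st0_1_0 rln))) (stX (nat_lit 0) (nat_lit 9) (nat_lit 1) (Rl.cons (nat_lit 9) (nat_lit 8) Rl.nil) rfl rfl sc0_2 (rlc st0_2_0 rln))) (stX (nat_lit 1) (nat_lit 12) (nat_lit 16) (Rl.cons (nat_lit 12) (nat_lit 4) Rl.nil) rfl rfl sc0_3 (rlc st0_3_0 rln))) (stX (nat_lit 1) (nat_lit 6) (nat_lit 16) (Rl.cons (nat_lit 6) (nat_lit 3) Rl.nil) rfl rfl sc0_4 (rlc st0_4_0 rln))) (stX (nat_lit 1)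 (nat_lit 50) (nat_lit 16) (Rl.cons (nat_lit 50) (nat_lit 20) Rl.nil) rfl rfl sc0_5 (rlc st0_5_0 rln))) (stX (nat_lit 2) (nat_lit 44) (nat_lit 256) (Rl.cons (nat_lit 44) (nat_lit 24) Rl.nil) rfl rfl sc0_6 (rlc st0_6_0 rln)))
theorem ct0 : TiS (nat_lit 60) (nat_lit 9) (nat_lit 2) (nat_lit 4) (nat_lit 11) (nat_lit 7) (nat_lit 1) CL0 :=
  tiS ZZ0 (alS (alS (alS (alS (alS (alS (alS al0 tc0_0) tc0_1) tc0_2) tc0_3) tc0_4) tc0_5) tc0_6)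
  (zzc ⟨(nat_lit 50), zl0_0, ti0_0⟩ zzn)
theorem cw1 : ∀ w < 7, wfC (nat_lit 2) (nat_lit 1) (getC CL1 w) = true :=
  (alS (alS (alS (alS (alS (alS (alS al0 wf1_0) wf1_1) wf1_2) wf1_3) wf1_4) wf1_5) wf1_6)
theorem cr1 : ∀ w < 7, rfCk (nat_lit 60) (nat_lit 9) (nat_lit 2) (nat_lit 1) (nat_lit 9) (nat_lit 0) w TL1 CL0 CL1 = true :=
  (alS (alS (alS (alS (alS (alS (alS al0 rf1_0) rf1_1) rf1_2) rf1_3) rf1_4) rf1_5) rf1_6)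
theorem vm1 : eqVM CL0 CL1 7 = true := by decide +kernel
theorem cd : ∀ w < 7, deadCk (nat_lit 2) (nat_lit 1) (getC CL1 w) = true :=
  (alS (alS (alS (alS (alS (alS (alS al0 de1_0) de1_1) de1_2) de1_3) de1_4) de1_5) de1_6)
theorem rc : recCk (recP 11 (2, 8, 9) 5 0 2).W 7 CL0 = true := by decide +kernel
theorem occ (O : OccL (recP 11 (2, 8, 9) 5 0 2) (locOK (Nat.testBit 5) (Nat.testBit 0) (Nat.testBit 2))) :
    False := by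
  have k := first_stage O 1 (nlOK_A (by decide) (by decide)) rfl rfl rfl rfl rc cw0 cp
  have k := run_stage k rfl (nat_lit 1) (nat_lit 4) (nat_lit 2) (nat_lit 4) rfl cs0 ct0
  have k := next_stage k (nat_lit 2) (nat_lit 1) (nat_lit 9) (nat_lit 0) rfl rfl rfl rfl rfl vm1 cw1 cr1
  exact last_stage k rfl cd
theorem res : ∃ ok, OkP (2, 8, 9) ok ∧ IsEmpty (LTil (shP 11 (2, 8, 9) ok)) :=
  dead_P 5 0 2 (by decide +kernel) rc occ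

end Pool.Agent.NNr.R11_2_8_9

namespace Pool.Agent.NNr.R11_3_7_8
open Pool.Agent.NNe Pool.Agent.NNc

theorem cw0 : ∀ w < 7, wfC (nat_lit 56) (nat_lit 2) (getC CL0 w) = true :=
  (alS (alS (alS (alS (alS (alS (alS al0 wf0_0) wf0_1) wf0_2) wf0_3) wf0_4) wf0_5) wf0_6)
theorem cp : ∀ w < 7, plCk (nat_lit 56) (nat_lit 2) (nat_lit 11) (nat_lit 0) (nat_lit 0) (nat_lit 7) (nat_lit 7) (nat_lit 4) w nl0 CL0 = true :=
  (alS (alS (alS (alS (alS (alS (alS al0 pl0_0) pl0_1) pl0_2) pl0_3) pl0_4) pl0_5) pl0_6)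
theorem cs0 : ∀ w < 7, StW (nat_lit 56) (nat_lit 2) (nat_lit 2) (nat_lit 0) (getC CL0 w) :=
  (alS (alS (alS (alS (alS (alS (alS al0 (stX (nat_lit 1) (nat_lit 0) (nat_lit 16) (Rl.cons (nat_lit 0) (nat_lit 25) Rl.nil) rfl rfl sc0_0 (rlc (starCk_zero _ _ _ _ _ _ _) rln))) (stX (nat_lit 0) (nat_lit 0) (nat_lit 1) (Rl.cons (nat_lit 0) (nat_lit 64) Rl.nil) rfl rfl sc0_1 (rlc (starCk_zero _ _ _ _ _ _ _) rln))) (stX (nat_lit 0) (nat_lit 0) (nat_lit 1) (Rl.cons (nat_lit 0) (nat_lit 27) Rl.nil) rfl rfl sc0_2 (rlc (starCk_zero _ _ _ _ _ _ _) rln))) (stX (nat_lit 0) (nat_lit 0) (nat_lit 1) (Rl.cons (nat_lit 0) (nat_lit 19) Rl.nil) rfl rfl sc0_3 (rlc (starCk_zero _ _ _ _ _ _ _) rln))) (stX (nat_lit 0) (nat_lit 0) (nat_lit 1) (Rl.cons (nat_lit 0) (nat_lit 29) Rl.nil) rfl rfl sc0_4 (rlc (starCk_zero _ _ _ _ _ _ _) rln))) (stX (nat_lit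 0) (nat_lit 0) (nat_lit 1) (Rl.cons (nat_lit 0) (nat_lit 248) Rl.nil) rfl rfl sc0_5 (rlc (starCk_zero _ _ _ _ _ _ _) rln))) (stX (nat_lit 0) (nat_lit 0) (nat_lit 1) (Rl.cons (nat_lit 0) (nat_lit 52) Rl.nil) rfl rfl sc0_6 (rlc (starCk_zero _ _ _ _ _ _ _) rln)))
theorem ct0 : TiS (nat_lit 56) (nat_lit 2) (nat_lit 1) (nat_lit 1) (nat_lit 11) (nat_lit 7) (nat_lit 1) CL0 :=
  tiS ZZ0 (alS (alS (alS (alS (alS (alS (alS al0 tc0_0) tc0_1) tc0_2) tc0_3) tc0_4) tc0_5) tc0_6)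
  (zzc ⟨(nat_lit 46), zl0_0, ti0_0⟩ zzn)
theorem cw1 : ∀ w < 7, wfC (nat_lit 25) (nat_lit 2) (getC CL1 w) = true :=
  (alS (alS (alS (alS (alS (alS (alS al0 wf1_0) wf1_1) wf1_2) wf1_3) wf1_4) wf1_5) wf1_6)
theorem cr1 : ∀ w < 7, rfCk (nat_lit 56) (nat_lit 2) (nat_lit 25) (nat_lit 2) (nat_lit 9) (nat_lit 0) w TL1 CL0 CL1 = true :=
  (alS (alS (alS (alS (alS (alS (alS al0 rf1_0) rf1_1) rf1_2) rf1_3) rf1_4) rf1_5) rf1_6)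
theorem vm1 : eqVM CL0 CL1 7 = true := by decide +kernel
theorem cs1 : ∀ w < 7, StW (nat_lit 25) (nat_lit 2) (nat_lit 1) (nat_lit 1) (getC CL1 w) :=
  (alS (alS (alS (alS (alS (alS (alS al0 (stX (nat_lit 2) (nat_lit 7) (nat_lit 256) (Rl.cons (nat_lit 7) (nat_lit 3) Rl.nil) rfl rfl sc1_0 (rlc st1_0_0 rln))) (stX (nat_lit 2) (nat_lit 11) (nat_lit 256) (Rl.cons (nat_lit 11) (nat_lit 2) Rl.nil) rfl rfl sc1_1 (rlc st1_1_0 rln))) (stX (nat_lit 0) (nat_lit 4) (nat_lit 1) (Rl.cons (nat_lit 4) (nat_lit 2) Rl.nil) rfl rfl sc1_2 (rlc st1_2_0 rln))) (stX (nat_lit 0) (nat_lit 0) (nat_lit 1) Rl.nil rfl rfl sc1_3 rln)) (stX (nat_lit 1) (nat_lit 2) (nat_lit 16) (Rl.cons (nat_lit 2) (nat_lit 1) Rl.nil) rfl rfl sc1_4 (rlc st1_4_0 rln))) (stX (nat_lit 2) (nat_lit 49) (nat_lit 256) (Rl.cons (nat_lit 49) (nat_lit 10) Rl.nil) rfl rfl sc1_5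 (rlc st1_5_0 rln))) (stX (nat_lit 3) (nat_lit 12) (nat_lit 4096) (Rl.cons (nat_lit 12) (nat_lit 8) Rl.nil) rfl rfl sc1_6 (rlc st1_6_0 rln)))
theorem ct1 : TiS (nat_lit 25) (nat_lit 2) (nat_lit 2) (nat_lit 0) (nat_lit 11) (nat_lit 7) (nat_lit 1) CL1 :=
  tiS ZZ1 (alS (alS (alS (alS (alS (alS (alS al0 tc1_0) tc1_1) tc1_2) tc1_3) tc1_4) tc1_5) tc1_6)
  (zzc ⟨(nat_lit 110), zl1_0, tileCk_zero _ _ _ _ _ _ _ _⟩ zzn)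
theorem cw2 : ∀ w < 7, wfC (nat_lit 10) (nat_lit 2) (getC CL2 w) = true :=
  (alS (alS (alS (alS (alS (alS (alS al0 wf2_0) wf2_1) wf2_2) wf2_3) wf2_4) wf2_5) wf2_6)
theorem cr2 : ∀ w < 7, rfCk (nat_lit 25) (nat_lit 2) (nat_lit 10) (nat_lit 2) (nat_lit 9) (nat_lit 0) w TL2 CL1 CL2 = true :=
  (alS (alS (alS (alS (alS (alS (alS al0 rf2_0) rf2_1) rf2_2) rf2_3) rf2_4) rf2_5) rf2_6)
theorem vm2 : eqVM CL1 CL2 7 = true := by decide +kernel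
theorem cs2 : ∀ w < 7, StW (nat_lit 10) (nat_lit 2) (nat_lit 2) (nat_lit 0) (getC CL2 w) :=
  (alS (alS (alS (alS (alS (alS (alS al0 (stX (nat_lit 1) (nat_lit 0) (nat_lit 16) Rl.nil rfl rfl sc2_0 rln)) (stX (nat_lit 0) (nat_lit 0) (nat_lit 1) Rl.nil rfl rfl sc2_1 rln)) (stX (nat_lit 0) (nat_lit 0) (nat_lit 1) (Rl.cons (nat_lit 0) (nat_lit 2) Rl.nil) rfl rfl sc2_2 (rlc (starCk_zero _ _ _ _ _ _ _) rln))) (stX (nat_lit 0) (nat_lit 0) (nat_lit 1) Rl.nil rfl rfl sc2_3 rln)) (stX (nat_lit 0) (nat_lit 0) (nat_lit 1) Rl.nil rfl rfl sc2_4 rln)) (stX (nat_lit 0) (nat_lit 0) (nat_lit 1) (Rl.cons (nat_lit 0) (nat_lit 38) Rl.nil) rfl rfl sc2_5 (rlc (starCk_zero _ _ _ _ _ _ _) rln))) (stX (nat_lit 0) (nat_lit 0) (nat_lit 1) (Rl.cons (nat_lit 0) (nat_lit 8) Rl.nil) rfl rfl sc2_6 (rlc (starCk_zero _ _ _ _ _ _ _) rln)))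
theorem ct2 : TiS (nat_lit 10) (nat_lit 2) (nat_lit 1) (nat_lit 1) (nat_lit 11) (nat_lit 7) (nat_lit 1) CL2 :=
  tiS ZZ2 (alS (alS (alS (alS (alS (alS (alS al0 tc2_0) tc2_1) tc2_2) tc2_3) tc2_4) tc2_5) tc2_6)
  (zzc ⟨(nat_lit 7), zl2_0, ti2_0⟩ zzn)
theorem cw3 : ∀ w < 7, wfC (nat_lit 2) (nat_lit 1) (getC CL3 w) = true :=
  (alS (alS (alS (alS (alS (alS (alS al0 wf3_0) wf3_1) wf3_2) wf3_3) wf3_4) wf3_5) wf3_6)
theorem cr3 : ∀ w < 7, rfCk (nat_lit 10) (nat_lit 2) (nat_lit 2) (nat_lit 1) (nat_lit 9) (nat_lit 0) w TL3 CL2 CL3 = true :=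
  (alS (alS (alS (alS (alS (alS (alS al0 rf3_0) rf3_1) rf3_2) rf3_3) rf3_4) rf3_5) rf3_6)
theorem vm3 : eqVM CL2 CL3 7 = true := by decide +kernel
theorem cd : ∀ w < 7, deadCk (nat_lit 2) (nat_lit 1) (getC CL3 w) = true :=
  (alS (alS (alS (alS (alS (alS (alS al0 de3_0) de3_1) de3_2) de3_3) de3_4) de3_5) de3_6)
theorem rc : recCk (recP 11 (3, 7, 8) 0 0 7).W 7 CL0 = true := by decide +kernel
theorem occ (O : OccL (recP 11 (3, 7, 8) 0 0 7) (locOK (Nat.testBit 0) (Nat.testBit 0) (Nat.testBit 7))) :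
    False := by
  have k := first_stage O 1 (nlOK_A (by decide) (by decide)) rfl rfl rfl rfl rc cw0 cp
  have k := run_stage k rfl (nat_lit 2) (nat_lit 0) (nat_lit 1) (nat_lit 1) rfl cs0 ct0
  have k := next_stage k (nat_lit 25) (nat_lit 2) (nat_lit 9) (nat_lit 0) rfl rfl rfl rfl rfl vm1 cw1 cr1
  have k := run_stage k rfl (nat_lit 1) (nat_lit 1) (nat_lit 2) (nat_lit 0) rfl cs1 ct1
  have k := next_stage k (nat_lit 10) (nat_lit 2) (nat_lit 9) (nat_lit 0) rfl rfl rfl rfl rfl vm2 cw2 cr2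
  have k := run_stage k rfl (nat_lit 2) (nat_lit 0) (nat_lit 1) (nat_lit 1) rfl cs2 ct2
  have k := next_stage k (nat_lit 2) (nat_lit 1) (nat_lit 9) (nat_lit 0) rfl rfl rfl rfl rfl vm3 cw3 cr3
  exact last_stage k rfl cd
theorem res : ∃ ok, OkP (3, 7, 8) ok ∧ IsEmpty (LTil (shP 11 (3, 7, 8) ok)) :=
  dead_P 0 0 7 (by decide +kernel) rc occ

end Pool.Agent.NNr.R11_3_7_8

namespace Pool.Agent.NNr.R11_3_8_10
open Pool.Agent.NNe Pool.Agent.NNc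

theorem cw0 : ∀ w < 7, wfC (nat_lit 56) (nat_lit 2) (getC CL0 w) = true :=
  (alS (alS (alS (alS (alS (alS (alS al0 wf0_0) wf0_1) wf0_2) wf0_3) wf0_4) wf0_5) wf0_6)
theorem cp : ∀ w < 7, plCk (nat_lit 56) (nat_lit 2) (nat_lit 11) (nat_lit 5) (nat_lit 0) (nat_lit 2) (nat_lit 7) (nat_lit 4) w nl0 CL0 = true :=
  (alS (alS (alS (alS (alS (alS (alS al0 pl0_0) pl0_1) pl0_2) pl0_3) pl0_4) pl0_5) pl0_6)
theorem cs0 : ∀ w < 7, StW (nat_lit 56) (nat_lit 2) (nat_lit 2) (nat_lit 0) (getC CL0 w) :=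
  (alS (alS (alS (alS (alS (alS (alS al0 (stX (nat_lit 1) (nat_lit 0) (nat_lit 16) (Rl.cons (nat_lit 0) (nat_lit 22) Rl.nil) rfl rfl sc0_0 (rlc (starCk_zero _ _ _ _ _ _ _) rln))) (stX (nat_lit 0) (nat_lit 0) (nat_lit 1) (Rl.cons (nat_lit 0) (nat_lit 58) Rl.nil) rfl rfl sc0_1 (rlc (starCk_zero _ _ _ _ _ _ _) rln))) (stX (nat_lit 0) (nat_lit 0) (nat_lit 1) (Rl.cons (nat_lit 0) (nat_lit 24) Rl.nil) rfl rfl sc0_2 (rlc (starCk_zero _ _ _ _ _ _ _) rln))) (stX (nat_lit 0) (nat_lit 0) (nat_lit 1) (Rl.cons (nat_lit 0) (nat_lit 13) Rl.nil) rfl rfl sc0_3 (rlc (starCk_zero _ _ _ _ _ _ _) rln))) (stX (nat_lit 0) (nat_lit 0) (nat_lit 1) (Rl.cons (nat_lit 0) (nat_lit 26) Rl.nil) rfl rfl sc0_4 (rlc (starCk_zero _ _ _ _ _ _ _) rln))) (stX (nat_lit 0) (nat_lit 0) (nat_lit 1) (Rl.cons (nat_lit 0) (nat_lit 248) Rl.nil) rfl rfl sc0_5 (rlc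 (starCk_zero _ _ _ _ _ _ _) rln))) (stX (nat_lit 0) (nat_lit 0) (nat_lit 1) (Rl.cons (nat_lit 0) (nat_lit 41) Rl.nil) rfl rfl sc0_6 (rlc (starCk_zero _ _ _ _ _ _ _) rln)))
theorem ct0 : TiS (nat_lit 56) (nat_lit 2) (nat_lit 1) (nat_lit 1) (nat_lit 11) (nat_lit 7) (nat_lit 1) CL0 :=
  tiS ZZ0 (alS (alS (alS (alS (alS (alS (alS al0 tc0_0) tc0_1) tc0_2) tc0_3) tc0_4) tc0_5) tc0_6)
  (zzc ⟨(nat_lit 41), zl0_0, ti0_0⟩ zzn)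
theorem cw1 : ∀ w < 7, wfC (nat_lit 22) (nat_lit 4) (getC CL1 w) = true :=
  (alS (alS (alS (alS (alS (alS (alS al0 wf1_0) wf1_1) wf1_2) wf1_3) wf1_4) wf1_5) wf1_6)
theorem cr1 : ∀ w < 7, rfCk (nat_lit 56) (nat_lit 2) (nat_lit 22) (nat_lit 4) (nat_lit 9) (nat_lit 0) w TL1 CL0 CL1 = true :=
  (alS (alS (alS (alS (alS (alS (alS al0 rf1_0) rf1_1) rf1_2) rf1_3) rf1_4) rf1_5) rf1_6)
theorem vm1 : eqVM CL0 CL1 7 = true := by decide +kernel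
theorem cs1 : ∀ w < 7, StW (nat_lit 22) (nat_lit 4) (nat_lit 1) (nat_lit 2) (getC CL1 w) :=
  (alS (alS (alS (alS (alS (alS (alS al0 (stX (nat_lit 2) (nat_lit 10) (nat_lit 256) (Rl.cons (nat_lit 10) (nat_lit 3) Rl.nil) rfl rfl sc1_0 (rlc st1_0_0 rln))) (stX (nat_lit 1) (nat_lit 7) (nat_lit 16) (Rl.cons (nat_lit 7) (nat_lit 2) Rl.nil) rfl rfl sc1_1 (rlc st1_1_0 rln))) (stX (nat_lit 0) (nat_lit 4) (nat_lit 1) (Rl.cons (nat_lit 4) (nat_lit 2) Rl.nil) rfl rfl sc1_2 (rlc st1_2_0 rln))) (stX (nat_lit 0) (nat_lit 0) (nat_lit 1) Rl.nil rfl rfl sc1_3 rln)) (stX (nat_lit 0) (nat_lit 0) (nat_lit 1) Rl.nil rfl rfl sc1_4 rln)) (stX (nat_lit 1) (nat_lit 24) (nat_lit 16) (Rl.cons (nat_lit 24) (nat_lit 10) Rl.nil) rfl rfl sc1_5 (rlc st1_5_0 rln))) (stX (nat_lit 0) (nat_lit 0) (nat_lit 1) Rl.nil rfl rfl sc1_6 rln))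
theorem ct1 : TiS (nat_lit 22) (nat_lit 4) (nat_lit 2) (nat_lit 1) (nat_lit 11) (nat_lit 7) (nat_lit 1) CL1 :=
  tiS ZZ1 (alS (alS (alS (alS (alS (alS (alS al0 tc1_0) tc1_1) tc1_2) tc1_3) tc1_4) tc1_5) tc1_6)
  (zzc ⟨(nat_lit 18), zl1_0, ti1_0⟩ zzn)
theorem cw2 : ∀ w < 7, wfC (nat_lit 1) (nat_lit 1) (getC CL2 w) = true :=
  (alS (alS (alS (alS (alS (alS (alS al0 wf2_0) wf2_1) wf2_2) wf2_3) wf2_4) wf2_5) wf2_6)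
theorem cr2 : ∀ w < 7, rfCk (nat_lit 22) (nat_lit 4) (nat_lit 1) (nat_lit 1) (nat_lit 9) (nat_lit 0) w TL2 CL1 CL2 = true :=
  (alS (alS (alS (alS (alS (alS (alS al0 rf2_0) rf2_1) rf2_2) rf2_3) rf2_4) rf2_5) rf2_6)
theorem vm2 : eqVM CL1 CL2 7 = true := by decide +kernel
theorem cd : ∀ w < 7, deadCk (nat_lit 1) (nat_lit 1) (getC CL2 w) = true :=
  (alS (alS (alS (alS (alS (alS (alS al0 de2_0) de2_1) de2_2) de2_3) de2_4) de2_5) de2_6)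
theorem rc : recCk (recP 11 (3, 8, 10) 5 0 2).W 7 CL0 = true := by decide +kernel
theorem occ (O : OccL (recP 11 (3, 8, 10) 5 0 2) (locOK (Nat.testBit 5) (Nat.testBit 0) (Nat.testBit 2))) :
    False := by
  have k := first_stage O 1 (nlOK_A (by decide) (by decide)) rfl rfl rfl rfl rc cw0 cp
  have k := run_stage k rfl (nat_lit 2) (nat_lit 0) (nat_lit 1) (nat_lit 1) rfl cs0 ct0
  have k := next_stage k (nat_lit 22) (nat_lit 4) (nat_lit 9) (nat_lit 0) rfl rfl rfl rfl rfl vm1 cw1 cr1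
  have k := run_stage k rfl (nat_lit 1) (nat_lit 2) (nat_lit 2) (nat_lit 1) rfl cs1 ct1
  have k := next_stage k (nat_lit 1) (nat_lit 1) (nat_lit 9) (nat_lit 0) rfl rfl rfl rfl rfl vm2 cw2 cr2
  exact last_stage k rfl cd
theorem res : ∃ ok, OkP (3, 8, 10) ok ∧ IsEmpty (LTil (shP 11 (3, 8, 10) ok)) :=
  dead_P 5 0 2 (by decide +kernel) rc occ

end Pool.Agent.NNr.R11_3_8_10

namespace Pool.Agent.NNr.R11_3_8_16
open Pool.Agent.NNe Pool.Agent.NNc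

theorem cw0 : ∀ w < 7, wfC (nat_lit 43) (nat_lit 21) (getC CL0 w) = true :=
  (alS (alS (alS (alS (alS (alS (alS al0 wf0_0) wf0_1) wf0_2) wf0_3) wf0_4) wf0_5) wf0_6)
theorem cp : ∀ w < 7, plCk (nat_lit 43) (nat_lit 21) (nat_lit 11) (nat_lit 5) (nat_lit 0) (nat_lit 2) (nat_lit 7) (nat_lit 4) w nl0 CL0 = true :=
  (alS (alS (alS (alS (alS (alS (alS al0 pl0_0) pl0_1) pl0_2) pl0_3) pl0_4) pl0_5) pl0_6)
theorem cs0 : ∀ w < 7, StW (nat_lit 43) (nat_lit 21) (nat_lit 1) (nat_lit 10) (getC CL0 w) :=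
  (alS (alS (alS (alS (alS (alS (alS al0 (stX (nat_lit 0) (nat_lit 9) (nat_lit 1) (Rl.cons (nat_lit 9) (nat_lit 9) Rl.nil) rfl rfl sc0_0 (rlc st0_0_0 rln))) (stX (nat_lit 0) (nat_lit 15) (nat_lit 1) (Rl.cons (nat_lit 15) (nat_lit 11) Rl.nil) rfl rfl sc0_1 (rlc st0_1_0 rln))) (stX (nat_lit 2) (nat_lit 46) (nat_lit 256) (Rl.cons (nat_lit 46) (nat_lit 9) Rl.nil) rfl rfl sc0_2 (rlc st0_2_0 rln))) (stX (nat_lit 0) (nat_lit 7) (nat_lit 1) (Rl.cons (nat_lit 7) (nat_lit 5) Rl.nil) rfl rfl sc0_3 (rlc st0_3_0 rln))) (stX (nat_lit 1) (nat_lit 51) (nat_lit 16) (Rl.cons (nat_lit 51) (nat_lit 23) Rl.nil) rfl rfl sc0_4 (rlc st0_4_0 rln))) (stX (nat_lit 0) (nat_lit 16) (nat_lit 1) (Rl.cons (nat_lit 16) (nat_lit 20) Rl.nil) rfl rfl sc0_5 (rlc st0_5_0 rln))) (stX (nat_lit 3) (nat_lit 17) (nat_lit 4096) (Rl.cons (nat_lit 17) (nat_lit 15)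 Rl.nil) rfl rfl sc0_6 (rlc st0_6_0 rln)))
theorem ct0 : TiS (nat_lit 43) (nat_lit 21) (nat_lit 2) (nat_lit 10) (nat_lit 11) (nat_lit 7) (nat_lit 1) CL0 :=
  tiS ZZ0 (alS (alS (alS (alS (alS (alS (alS al0 tc0_0) tc0_1) tc0_2) tc0_3) tc0_4) tc0_5) tc0_6)
  (zzc ⟨(nat_lit 79), zl0_0, ti0_0⟩ zzn)
theorem cd : ∀ w < 7, deadCk (nat_lit 43) (nat_lit 21) (getC CL0 w) = true :=
  (alS (alS (alS (alS (alS (alS (alS al0 de0_0) de0_1) de0_2) de0_3) de0_4) de0_5) de0_6)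
theorem rc : recCk (recP 11 (3, 8, 16) 5 0 2).W 7 CL0 = true := by decide +kernel
theorem occ (O : OccL (recP 11 (3, 8, 16) 5 0 2) (locOK (Nat.testBit 5) (Nat.testBit 0) (Nat.testBit 2))) :
    False := by
  have k := first_stage O 1 (nlOK_A (by decide) (by decide)) rfl rfl rfl rfl rc cw0 cp
  have k := run_stage k rfl (nat_lit 1) (nat_lit 10) (nat_lit 2) (nat_lit 10) rfl cs0 ct0
  exact last_stage k rfl cd
theorem res : ∃ ok, OkP (3, 8, 16) ok ∧ IsEmpty (LTil (shP 11 (3, 8, 16) ok)) :=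
  dead_P 5 0 2 (by decide +kernel) rc occ

end Pool.Agent.NNr.R11_3_8_16

namespace Pool.Agent.NNr.R11_4_7_14
open Pool.Agent.NNe Pool.Agent.NNc

theorem cw0 : ∀ w < 8, wfC (nat_lit 41) (nat_lit 13) (getC CL0 w) = true :=
  (alS (alS (alS (alS (alS (alS (alS (alS al0 wf0_0) wf0_1) wf0_2) wf0_3) wf0_4) wf0_5) wf0_6) wf0_7)
theorem cp : ∀ w < 8, plCk (nat_lit 41) (nat_lit 13) (nat_lit 11) (nat_lit 1) (nat_lit 0) (nat_lit 6) (nat_lit 8) (nat_lit 4) w nl0 CL0 = true :=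
  (alS (alS (alS (alS (alS (alS (alS (alS al0 pl0_0) pl0_1) pl0_2) pl0_3) pl0_4) pl0_5) pl0_6) pl0_7)
theorem cs0 : ∀ w < 8, StW (nat_lit 41) (nat_lit 13) (nat_lit 1) (nat_lit 6) (getC CL0 w) :=
  (alS (alS (alS (alS (alS (alS (alS (alS al0 (stX (nat_lit 0) (nat_lit 9) (nat_lit 1) (Rl.cons (nat_lit 9) (nat_lit 9) Rl.nil) rfl rfl sc0_0 (rlc st0_0_0 rln))) (stX (nat_lit 0) (nat_lit 15) (nat_lit 1) (Rl.cons (nat_lit 15) (nat_lit 11) Rl.nil) rfl rfl sc0_1 (rlc st0_1_0 rln))) (stX (nat_lit 2) (nat_lit 46) (nat_lit 256) (Rl.cons (nat_lit 46) (nat_lit 9) Rl.nil) rfl rfl sc0_2 (rlc st0_2_0 rln))) (stX (nat_lit 0) (nat_lit 7) (nat_lit 1) (Rl.cons (nat_lit 7) (nat_lit 5) Rl.nil) rfl rfl sc0_3 (rlc st0_3_0 rln))) (stX (nat_lit 2) (nat_lit 6) (nat_lit 256) (Rl.cons (nat_lit 6) (nat_lit 2) Rl.nil) rfl rfl sc0_4 (rlc st0_4_0 rln)))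 (stX (nat_lit 0) (nat_lit 0) (nat_lit 1) Rl.nil rfl rfl sc0_5 rln)) (stX (nat_lit 1) (nat_lit 48) (nat_lit 16) (Rl.cons (nat_lit 48) (nat_lit 20) Rl.nil) rfl rfl sc0_6 (rlc st0_6_0 rln))) (stX (nat_lit 0) (nat_lit 16) (nat_lit 1) (Rl.cons (nat_lit 16) (nat_lit 20) Rl.nil) rfl rfl sc0_7 (rlc st0_7_0 rln)))
theorem ct0 : TiS (nat_lit 41) (nat_lit 13) (nat_lit 2) (nat_lit 6) (nat_lit 11) (nat_lit 8) (nat_lit 1) CL0 :=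
  tiS ZZ0 (alS (alS (alS (alS (alS (alS (alS (alS al0 tc0_0) tc0_1) tc0_2) tc0_3) tc0_4) tc0_5) tc0_6) tc0_7)
  (zzc ⟨(nat_lit 76), zl0_0, ti0_0⟩ zzn)
theorem cw1 : ∀ w < 8, wfC (nat_lit 2) (nat_lit 1) (getC CL1 w) = true :=
  (alS (alS (alS (alS (alS (alS (alS (alS al0 wf1_0) wf1_1) wf1_2) wf1_3) wf1_4) wf1_5) wf1_6) wf1_7)
theorem cr1 : ∀ w < 8, rfCk (nat_lit 41) (nat_lit 13) (nat_lit 2) (nat_lit 1) (nat_lit 9) (nat_lit 0) w TL1 CL0 CL1 = true :=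
  (alS (alS (alS (alS (alS (alS (alS (alS al0 rf1_0) rf1_1) rf1_2) rf1_3) rf1_4) rf1_5) rf1_6) rf1_7)
theorem vm1 : eqVM CL0 CL1 8 = true := by decide +kernel
theorem cd : ∀ w < 8, deadCk (nat_lit 2) (nat_lit 1) (getC CL1 w) = true :=
  (alS (alS (alS (alS (alS (alS (alS (alS al0 de1_0) de1_1) de1_2) de1_3) de1_4) de1_5) de1_6) de1_7)
theorem rc : recCk (recP 11 (4, 7, 14) 1 0 6).W 8 CL0 = true := by decide +kernel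
theorem occ (O : OccL (recP 11 (4, 7, 14) 1 0 6) (locOK (Nat.testBit 1) (Nat.testBit 0) (Nat.testBit 6))) :
    False := by
  have k := first_stage O 1 (nlOK_A (by decide) (by decide)) rfl rfl rfl rfl rc cw0 cp
  have k := run_stage k rfl (nat_lit 1) (nat_lit 6) (nat_lit 2) (nat_lit 6) rfl cs0 ct0
  have k := next_stage k (nat_lit 2) (nat_lit 1) (nat_lit 9) (nat_lit 0) rfl rfl rfl rfl rfl vm1 cw1 cr1
  exact last_stage k rfl cd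
theorem res : ∃ ok, OkP (4, 7, 14) ok ∧ IsEmpty (LTil (shP 11 (4, 7, 14) ok)) :=
  dead_P 1 0 6 (by decide +kernel) rc occ

end Pool.Agent.NNr.R11_4_7_14

namespace Pool.Agent.NNr.R11_5_6_8
open Pool.Agent.NNe Pool.Agent.NNc

theorem cw0 : ∀ w < 6, wfC (nat_lit 43) (nat_lit 2) (getC CL0 w) = true :=
  (alS (alS (alS (alS (alS (alS al0 wf0_0) wf0_1) wf0_2) wf0_3) wf0_4) wf0_5)
theorem cp : ∀ w < 6, plCk (nat_lit 43) (nat_lit 2) (nat_lit 11) (nat_lit 0) (nat_lit 0) (nat_lit 7) (nat_lit 6) (nat_lit 4) w nl0 CL0 = true :=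
  (alS (alS (alS (alS (alS (alS al0 pl0_0) pl0_1) pl0_2) pl0_3) pl0_4) pl0_5)
theorem cs0 : ∀ w < 6, StW (nat_lit 43) (nat_lit 2) (nat_lit 2) (nat_lit 0) (getC CL0 w) :=
  (alS (alS (alS (alS (alS (alS al0 (stX (nat_lit 1) (nat_lit 0) (nat_lit 16) (Rl.cons (nat_lit 0) (nat_lit 22) Rl.nil) rfl rfl sc0_0 (rlc (starCk_zero _ _ _ _ _ _ _) rln))) (stX (nat_lit 1) (nat_lit 0) (nat_lit 16) (Rl.cons (nat_lit 0) (nat_lit 21) Rl.nil) rfl rfl sc0_1 (rlc (starCk_zero _ _ _ _ _ _ _) rln))) (stX (nat_lit 0) (nat_lit 0) (nat_lit 1) (Rl.cons (nat_lit 0) (nat_lit 60) Rl.nil) rfl rfl sc0_2 (rlc (starCk_zero _ _ _ _ _ _ _) rln))) (stX (nat_lit 0) (nat_lit 0) (nat_lit 1) (Rl.cons (nat_lit 0) (nat_lit 26) Rl.nil) rfl rfl sc0_3 (rlc (starCk_zero _ _ _ _ _ _ _) rln))) (stX (nat_lit 0) (nat_lit 0) (nat_lit 1) (Rl.cons (nat_lit 0) (nat_lit 19)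 Rl.nil) rfl rfl sc0_4 (rlc (starCk_zero _ _ _ _ _ _ _) rln))) (stX (nat_lit 0) (nat_lit 0) (nat_lit 1) (Rl.cons (nat_lit 0) (nat_lit 198) Rl.nil) rfl rfl sc0_5 (rlc (starCk_zero _ _ _ _ _ _ _) rln)))
theorem ct0 : TiS (nat_lit 43) (nat_lit 2) (nat_lit 1) (nat_lit 1) (nat_lit 11) (nat_lit 6) (nat_lit 1) CL0 :=
  tiS ZZ0 (alS (alS (alS (alS (alS (alS al0 tc0_0) tc0_1) tc0_2) tc0_3) tc0_4) tc0_5)
  (zzc ⟨(nat_lit 38), zl0_0, ti0_0⟩ zzn)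
theorem cw1 : ∀ w < 6, wfC (nat_lit 21) (nat_lit 2) (getC CL1 w) = true :=
  (alS (alS (alS (alS (alS (alS al0 wf1_0) wf1_1) wf1_2) wf1_3) wf1_4) wf1_5)
theorem cr1 : ∀ w < 6, rfCk (nat_lit 43) (nat_lit 2) (nat_lit 21) (nat_lit 2) (nat_lit 9) (nat_lit 0) w TL1 CL0 CL1 = true :=
  (alS (alS (alS (alS (alS (alS al0 rf1_0) rf1_1) rf1_2) rf1_3) rf1_4) rf1_5)
theorem vm1 : eqVM CL0 CL1 6 = true := by decide +kernel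
theorem cs1 : ∀ w < 6, StW (nat_lit 21) (nat_lit 2) (nat_lit 1) (nat_lit 1) (getC CL1 w) :=
  (alS (alS (alS (alS (alS (alS al0 (stX (nat_lit 1) (nat_lit 0) (nat_lit 16) Rl.nil rfl rfl sc1_0 rln)) (stX (nat_lit 2) (nat_lit 0) (nat_lit 256) Rl.nil rfl rfl sc1_1 rln)) (stX (nat_lit 0) (nat_lit 7) (nat_lit 1) (Rl.cons (nat_lit 7) (nat_lit 2) Rl.nil) rfl rfl sc1_2 (rlc st1_2_0 rln))) (stX (nat_lit 1) (nat_lit 10) (nat_lit 16) (Rl.cons (nat_lit 10) (nat_lit 5) Rl.nil) rfl rfl sc1_3 (rlc st1_3_0 rln))) (stX (nat_lit 2) (nat_lit 6) (nat_lit 256) (Rl.cons (nat_lit 6) (nat_lit 1) Rl.nil) rfl rfl sc1_4 (rlc st1_4_0 rln))) (stX (nat_lit 1) (nat_lit 18) (nat_lit 16) (Rl.cons (nat_lit 18) (nat_lit 7) Rl.nil) rfl rfl sc1_5 (rlc st1_5_0 rln)))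
theorem ct1 : TiS (nat_lit 21) (nat_lit 2) (nat_lit 2) (nat_lit 0) (nat_lit 11) (nat_lit 6) (nat_lit 1) CL1 :=
  tiS ZZ1 (alS (alS (alS (alS (alS (alS al0 tc1_0) tc1_1) tc1_2) tc1_3) tc1_4) tc1_5)
  (zzc ⟨(nat_lit 92), zl1_0, tileCk_zero _ _ _ _ _ _ _ _⟩ zzn)
theorem cw2 : ∀ w < 6, wfC (nat_lit 4) (nat_lit 2) (getC CL2 w) = true :=
  (alS (alS (alS (alS (alS (alS al0 wf2_0) wf2_1) wf2_2) wf2_3) wf2_4) wf2_5)
theorem cr2 : ∀ w < 6, rfCk (nat_lit 21) (nat_lit 2) (nat_lit 4) (nat_lit 2) (nat_lit 9) (nat_lit 0) w TL2 CL1 CL2 = true :=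
  (alS (alS (alS (alS (alS (alS al0 rf2_0) rf2_1) rf2_2) rf2_3) rf2_4) rf2_5)
theorem vm2 : eqVM CL1 CL2 6 = true := by decide +kernel
theorem cs2 : ∀ w < 6, StW (nat_lit 4) (nat_lit 2) (nat_lit 2) (nat_lit 0) (getC CL2 w) :=
  (alS (alS (alS (alS (alS (alS al0 (stX (nat_lit 1) (nat_lit 0) (nat_lit 16) Rl.nil rfl rfl sc2_0 rln)) (stX (nat_lit 1) (nat_lit 0) (nat_lit 16) Rl.nil rfl rfl sc2_1 rln)) (stX (nat_lit 0) (nat_lit 0) (nat_lit 1) (Rl.cons (nat_lit 0) (nat_lit 2) Rl.nil) rfl rfl sc2_2 (rlc (starCk_zero _ _ _ _ _ _ _) rln))) (stX (nat_lit 0) (nat_lit 0) (nat_lit 1) (Rl.cons (nat_lit 0) (nat_lit 6) Rl.nil) rfl rfl sc2_3 (rlc (starCk_zero _ _ _ _ _ _ _) rln))) (stX (nat_lit 0) (nat_lit 0) (nat_lit 1) (Rl.cons (nat_lit 0) (nat_lit 2) Rl.nil) rfl rfl sc2_4 (rlc (starCk_zero _ _ _ _ _ _ _) rln))) (stX (nat_lit 0) (nat_lit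 0) (nat_lit 1) (Rl.cons (nat_lit 0) (nat_lit 12) Rl.nil) rfl rfl sc2_5 (rlc (starCk_zero _ _ _ _ _ _ _) rln)))
theorem ct2 : TiS (nat_lit 4) (nat_lit 2) (nat_lit 1) (nat_lit 1) (nat_lit 11) (nat_lit 6) (nat_lit 1) CL2 :=
  tiS ZZ2 (alS (alS (alS (alS (alS (alS al0 tc2_0) tc2_1) tc2_2) tc2_3) tc2_4) tc2_5)
  (zzc ⟨(nat_lit 3), zl2_0, ti2_0⟩ zzn)
theorem cd : ∀ w < 6, deadCk (nat_lit 4) (nat_lit 2) (getC CL2 w) = true :=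
  (alS (alS (alS (alS (alS (alS al0 de2_0) de2_1) de2_2) de2_3) de2_4) de2_5)
theorem rc : recCk (recP 11 (5, 6, 8) 0 0 7).W 6 CL0 = true := by decide +kernel
theorem occ (O : OccL (recP 11 (5, 6, 8) 0 0 7) (locOK (Nat.testBit 0) (Nat.testBit 0) (Nat.testBit 7))) :
    False := by
  have k := first_stage O 1 (nlOK_A (by decide) (by decide)) rfl rfl rfl rfl rc cw0 cp
  have k := run_stage k rfl (nat_lit 2) (nat_lit 0) (nat_lit 1) (nat_lit 1) rfl cs0 ct0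
  have k := next_stage k (nat_lit 21) (nat_lit 2) (nat_lit 9) (nat_lit 0) rfl rfl rfl rfl rfl vm1 cw1 cr1
  have k := run_stage k rfl (nat_lit 1) (nat_lit 1) (nat_lit 2) (nat_lit 0) rfl cs1 ct1
  have k := next_stage k (nat_lit 4) (nat_lit 2) (nat_lit 9) (nat_lit 0) rfl rfl rfl rfl rfl vm2 cw2 cr2
  have k := run_stage k rfl (nat_lit 2) (nat_lit 0) (nat_lit 1) (nat_lit 1) rfl cs2 ct2
  exact last_stage k rfl cd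
theorem res : ∃ ok, OkP (5, 6, 8) ok ∧ IsEmpty (LTil (shP 11 (5, 6, 8) ok)) :=
  dead_P 0 0 7 (by decide +kernel) rc occ

end Pool.Agent.NNr.R11_5_6_8

namespace Pool.Agent.NNr.R13_1_1_2
open Pool.Agent.NNe Pool.Agent.NNc

theorem cw0 : ∀ w < 34, wfC (nat_lit 61) (nat_lit 2) (getC CL0 w) = true :=
  (alS (alS (alS (alS (alS (alS (alS (alS (alS (alS (alS (alS (alS (alS (alS (alS (alS (alS (alS (alS (alS (alS (alS (alS (alS (alS (alS (alS (alS (alS (alS (alS (alS (alS al0 wf0_0) wf0_1) wf0_2) wf0_3) wf0_4) wf0_5) wf0_6) wf0_7) wf0_8) wf0_9) wf0_10) wf0_11) wf0_12) wf0_13) wf0_14) wf0_15) wf0_16) wf0_17) wf0_18) wf0_19) wf0_20) wf0_21) wf0_22) wf0_23) wf0_24) wf0_25) wf0_26) wf0_27) wf0_28) wf0_29) wf0_30) wf0_31) wf0_32) wf0_33)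
theorem cp : ∀ w < 34, plCk (nat_lit 61) (nat_lit 2) (nat_lit 13) (nat_lit 0) (nat_lit 0) (nat_lit 7) (nat_lit 34) (nat_lit 4) w nl1 CL0 = true :=
  (alS (alS (alS (alS (alS (alS (alS (alS (alS (alS (alS (alS (alS (alS (alS (alS (alS (alS (alS (alS (alS (alS (alS (alS (alS (alS (alS (alS (alS (alS (alS (alS (alS (alS al0 pl0_0) pl0_1) pl0_2) pl0_3) pl0_4) pl0_5) pl0_6) pl0_7) pl0_8) pl0_9) pl0_10) pl0_11) pl0_12) pl0_13) pl0_14) pl0_15) pl0_16) pl0_17) pl0_18) pl0_19) pl0_20) pl0_21) pl0_22) pl0_23) pl0_24) pl0_25) pl0_26) pl0_27) pl0_28) pl0_29) pl0_30) pl0_31) pl0_32) pl0_33)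
theorem cs0 : ∀ w < 34, StW (nat_lit 61) (nat_lit 2) (nat_lit 2) (nat_lit 0) (getC CL0 w) :=
  (alS (alS (alS (alS (alS (alS (alS (alS (alS (alS (alS (alS (alS (alS (alS (alS (alS (alS (alS (alS (alS (alS (alS (alS (alS (alS (alS (alS (alS (alS (alS (alS (alS (alS al0 (stX (nat_lit 2) (nat_lit 0) (nat_lit 256) (Rl.cons (nat_lit 0) (nat_lit 80) Rl.nil) rfl rfl sc0_0 (rlc (starCk_zero _ _ _ _ _ _ _) rln))) (stX (nat_lit 1) (nat_lit 0) (nat_lit 16) (Rl.cons (nat_lit 0) (nat_lit 198) Rl.nil) rfl rfl sc0_1 (rlc (starCk_zero _ _ _ _ _ _ _) rln))) (stX (nat_lit 1) (nat_lit 0) (nat_lit 16) (Rl.cons (nat_lit 0) (nat_lit 198) Rl.nil) rfl rfl sc0_2 (rlc (starCk_zero _ _ _ _ _ _ _) rln))) (stX (nat_lit 1) (nat_lit 0) (nat_lit 16) (Rl.cons (nat_lit 0) (nat_lit 118) Rl.nil) rfl rfl sc0_3 (rlc (starCk_zero _ _ _ _ _ _ _) rln))) (stX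 (nat_lit 1) (nat_lit 0) (nat_lit 16) (Rl.cons (nat_lit 0) (nat_lit 38) Rl.nil) rfl rfl sc0_4 (rlc (starCk_zero _ _ _ _ _ _ _) rln))) (stX (nat_lit 0) (nat_lit 0) (nat_lit 1) (Rl.cons (nat_lit 0) (nat_lit 316) Rl.nil) rfl rfl sc0_5 (rlc (starCk_zero _ _ _ _ _ _ _) rln))) (stX (nat_lit 0) (nat_lit 0) (nat_lit 1) (Rl.cons (nat_lit 0) (nat_lit 354) Rl.nil) rfl rfl sc0_6 (rlc (starCk_zero _ _ _ _ _ _ _) rln))) (stX (nat_lit 0) (nat_lit 0) (nat_lit 1) (Rl.cons (nat_lit 0) (nat_lit 274) Rl.nil) rfl rfl sc0_7 (rlc (starCk_zero _ _ _ _ _ _ _) rln))) (stX (nat_lit 0) (nat_lit 0) (nat_lit 1) (Rl.cons (nat_lit 0) (nat_lit 114) Rl.nil) rfl rfl sc0_8 (rlc (starCk_zero _ _ _ _ _ _ _) rln))) (stX (nat_lit 0) (nat_lit 0) (nat_lit 1) (Rl.cons (nat_lit 0) (nat_lit 198) Rl.nil) rfl rfl sc0_9 (rlc (starCk_zero _ _ _ _ _ _ _) rln))) (stX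 (nat_lit 0) (nat_lit 0) (nat_lit 1) (Rl.cons (nat_lit 0) (nat_lit 392) Rl.nil) rfl rfl sc0_10 (rlc (starCk_zero _ _ _ _ _ _ _) rln))) (stX (nat_lit 0) (nat_lit 0) (nat_lit 1) (Rl.cons (nat_lit 0) (nat_lit 312) Rl.nil) rfl rfl sc0_11 (rlc (starCk_zero _ _ _ _ _ _ _) rln))) (stX (nat_lit 0) (nat_lit 0) (nat_lit 1) (Rl.cons (nat_lit 0) (nat_lit 152) Rl.nil) rfl rfl sc0_12 (rlc (starCk_zero _ _ _ _ _ _ _) rln))) (stX (nat_lit 0) (nat_lit 0) (nat_lit 1) (Rl.cons (nat_lit 0) (nat_lit 354) Rl.nil) rfl rfl sc0_13 (rlc (starCk_zero _ _ _ _ _ _ _) rln))) (stX (nat_lit 0) (nat_lit 0) (nat_lit 1) (Rl.cons (nat_lit 0) (nat_lit 312) Rl.nil) rfl rfl sc0_14 (rlc (starCk_zero _ _ _ _ _ _ _) rln))) (stX (nat_lit 0) (nat_lit 0) (nat_lit 1) (Rl.cons (nat_lit 0) (nat_lit 152) Rl.nil) rfl rfl sc0_15 (rlc (starCk_zero _ _ _ _ _ _ _) rln)))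 (stX (nat_lit 0) (nat_lit 0) (nat_lit 1) (Rl.cons (nat_lit 0) (nat_lit 198) Rl.nil) rfl rfl sc0_16 (rlc (starCk_zero _ _ _ _ _ _ _) rln))) (stX (nat_lit 0) (nat_lit 0) (nat_lit 1) (Rl.cons (nat_lit 0) (nat_lit 312) Rl.nil) rfl rfl sc0_17 (rlc (starCk_zero _ _ _ _ _ _ _) rln))) (stX (nat_lit 0) (nat_lit 0) (nat_lit 1) (Rl.cons (nat_lit 0) (nat_lit 152) Rl.nil) rfl rfl sc0_18 (rlc (starCk_zero _ _ _ _ _ _ _) rln))) (stX (nat_lit 0) (nat_lit 0) (nat_lit 1) (Rl.cons (nat_lit 0) (nat_lit 274) Rl.nil) rfl rfl sc0_19 (rlc (starCk_zero _ _ _ _ _ _ _) rln))) (stX (nat_lit 0) (nat_lit 0) (nat_lit 1) (Rl.cons (nat_lit 0) (nat_lit 152) Rl.nil) rfl rfl sc0_20 (rlc (starCk_zero _ _ _ _ _ _ _) rln))) (stX (nat_lit 0) (nat_lit 0) (nat_lit 1) (Rl.cons (nat_lit 0) (nat_lit 118) Rl.nil) rfl rfl sc0_21 (rlc (starCk_zero _ _ _ _ _ _ _) rln)))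 (stX (nat_lit 0) (nat_lit 0) (nat_lit 1) (Rl.cons (nat_lit 0) (nat_lit 152) Rl.nil) rfl rfl sc0_22 (rlc (starCk_zero _ _ _ _ _ _ _) rln))) (stX (nat_lit 0) (nat_lit 0) (nat_lit 1) (Rl.cons (nat_lit 0) (nat_lit 114) Rl.nil) rfl rfl sc0_23 (rlc (starCk_zero _ _ _ _ _ _ _) rln))) (stX (nat_lit 0) (nat_lit 0) (nat_lit 1) (Rl.cons (nat_lit 0) (nat_lit 38) Rl.nil) rfl rfl sc0_24 (rlc (starCk_zero _ _ _ _ _ _ _) rln))) (stX (nat_lit 2) (nat_lit 0) (nat_lit 256) (Rl.cons (nat_lit 0) (nat_lit 392) Rl.nil) rfl rfl sc0_25 (rlc (starCk_zero _ _ _ _ _ _ _) rln))) (stX (nat_lit 1) (nat_lit 0) (nat_lit 16) (Rl.cons (nat_lit 0) (nat_lit 622) Rl.nil) rfl rfl sc0_26 (rlc (starCk_zero _ _ _ _ _ _ _) rln))) (stX (nat_lit 1) (nat_lit 0) (nat_lit 16) (Rl.cons (nat_lit 0) (nat_lit 230) Rl.nil) rfl rfl sc0_27 (rlc (starCk_zero _ _ _ _ _ _ _)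 rln))) (stX (nat_lit 0) (nat_lit 0) (nat_lit 1) (Rl.cons (nat_lit 0) (nat_lit 932) Rl.nil) rfl rfl sc0_28 (rlc (starCk_zero _ _ _ _ _ _ _) rln))) (stX (nat_lit 0) (nat_lit 0) (nat_lit 1) (Rl.cons (nat_lit 0) (nat_lit 498) Rl.nil) rfl rfl sc0_29 (rlc (starCk_zero _ _ _ _ _ _ _) rln))) (stX (nat_lit 0) (nat_lit 0) (nat_lit 1) (Rl.cons (nat_lit 0) (nat_lit 622) Rl.nil) rfl rfl sc0_30 (rlc (starCk_zero _ _ _ _ _ _ _) rln))) (stX (nat_lit 0) (nat_lit 0) (nat_lit 1) (Rl.cons (nat_lit 0) (nat_lit 536) Rl.nil) rfl rfl sc0_31 (rlc (starCk_zero _ _ _ _ _ _ _) rln))) (stX (nat_lit 0) (nat_lit 0) (nat_lit 1) (Rl.cons (nat_lit 0) (nat_lit 498) Rl.nil) rfl rfl sc0_32 (rlc (starCk_zero _ _ _ _ _ _ _) rln))) (stX (nat_lit 0) (nat_lit 0) (nat_lit 1) (Rl.cons (nat_lit 0) (nat_lit 230) Rl.nil) rfl rfl sc0_33 (rlc (starCk_zero _ _ _ _ _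 _ _) rln)))
theorem ct0 : TiS (nat_lit 61) (nat_lit 2) (nat_lit 1) (nat_lit 1) (nat_lit 13) (nat_lit 34) (nat_lit 1) CL0 :=
  tiS ZZ0 (alS (alS (alS (alS (alS (alS (alS (alS (alS (alS (alS (alS (alS (alS (alS (alS (alS (alS (alS (alS (alS (alS (alS (alS (alS (alS (alS (alS (alS (alS (alS (alS (alS (alS al0 tc0_0) tc0_1) tc0_2) tc0_3) tc0_4) tc0_5) tc0_6) tc0_7) tc0_8) tc0_9) tc0_10) tc0_11) tc0_12) tc0_13) tc0_14) tc0_15) tc0_16) tc0_17) tc0_18) tc0_19) tc0_20) tc0_21) tc0_22) tc0_23) tc0_24) tc0_25) tc0_26) tc0_27) tc0_28) tc0_29) tc0_30) tc0_31) tc0_32) tc0_33)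
  (zzc ⟨(nat_lit 440), zl0_0, ti0_0⟩ (zzc ⟨(nat_lit 440), zl0_1, ti0_1⟩ (zzc ⟨(nat_lit 440), zl0_2, ti0_2⟩ zzn)))
theorem cw1 : ∀ w < 34, wfC (nat_lit 59) (nat_lit 4) (getC CL1 w) = true :=
  (alS (alS (alS (alS (alS (alS (alS (alS (alS (alS (alS (alS (alS (alS (alS (alS (alS (alS (alS (alS (alS (alS (alS (alS (alS (alS (alS (alS (alS (alS (alS (alS (alS (alS al0 wf1_0) wf1_1) wf1_2) wf1_3) wf1_4) wf1_5) wf1_6) wf1_7) wf1_8) wf1_9) wf1_10) wf1_11) wf1_12) wf1_13) wf1_14) wf1_15) wf1_16) wf1_17) wf1_18) wf1_19) wf1_20) wf1_21) wf1_22) wf1_23) wf1_24) wf1_25) wf1_26) wf1_27) wf1_28) wf1_29) wf1_30) wf1_31) wf1_32) wf1_33)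
theorem cr1 : ∀ w < 34, rfCk (nat_lit 61) (nat_lit 2) (nat_lit 59) (nat_lit 4) (nat_lit 9) (nat_lit 0) w TL1 CL0 CL1 = true :=
  (alS (alS (alS (alS (alS (alS (alS (alS (alS (alS (alS (alS (alS (alS (alS (alS (alS (alS (alS (alS (alS (alS (alS (alS (alS (alS (alS (alS (alS (alS (alS (alS (alS (alS al0 rf1_0) rf1_1) rf1_2) rf1_3) rf1_4) rf1_5) rf1_6) rf1_7) rf1_8) rf1_9) rf1_10) rf1_11) rf1_12) rf1_13) rf1_14) rf1_15) rf1_16) rf1_17) rf1_18) rf1_19) rf1_20) rf1_21) rf1_22) rf1_23) rf1_24) rf1_25) rf1_26) rf1_27) rf1_28) rf1_29) rf1_30) rf1_31) rf1_32) rf1_33)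
theorem vm1 : eqVM CL0 CL1 34 = true := by decide +kernel
theorem cs1 : ∀ w < 34, StW (nat_lit 59) (nat_lit 4) (nat_lit 1) (nat_lit 2) (getC CL1 w) :=
  (alS (alS (alS (alS (alS (alS (alS (alS (alS (alS (alS (alS (alS (alS (alS (alS (alS (alS (alS (alS (alS (alS (alS (alS (alS (alS (alS (alS (alS (alS (alS (alS (alS (alS al0 (stX (nat_lit 2) (nat_lit 0) (nat_lit 256) (Rl.cons (nat_lit 0) (nat_lit 30) Rl.nil) rfl rfl sc1_0 (rlc st1_0_0 rln))) (stX (nat_lit 1) (nat_lit 0) (nat_lit 16) (Rl.cons (nat_lit 0) (nat_lit 12) Rl.nil) rfl rfl sc1_1 (rlc st1_1_0 rln))) (stX (nat_lit 1) (nat_lit 0) (nat_lit 16) (Rl.cons (nat_lit 0) (nat_lit 23) Rl.nil) rfl rfl sc1_2 (rlc st1_2_0 rln))) (stX (nat_lit 2) (nat_lit 64) (nat_lit 256) (Rl.cons (nat_lit 64) (nat_lit 18) Rl.nil) rfl rfl sc1_3 (rlc st1_3_0 rln))) (stX (nat_lit 1) (nat_lit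 0) (nat_lit 16) (Rl.cons (nat_lit 0) (nat_lit 23) Rl.nil) rfl rfl sc1_4 (rlc st1_4_0 rln))) (stX (nat_lit 1) (nat_lit 32) (nat_lit 16) (Rl.cons (nat_lit 32) (nat_lit 12) Rl.nil) rfl rfl sc1_5 (rlc st1_5_0 rln))) (stX (nat_lit 0) (nat_lit 23) (nat_lit 1) (Rl.cons (nat_lit 23) (nat_lit 32) Rl.nil) rfl rfl sc1_6 (rlc st1_6_0 rln))) (stX (nat_lit 2) (nat_lit 156) (nat_lit 256) (Rl.cons (nat_lit 156) (nat_lit 36) Rl.nil) rfl rfl sc1_7 (rlc st1_7_0 rln))) (stX (nat_lit 0) (nat_lit 23) (nat_lit 1) (Rl.cons (nat_lit 23) (nat_lit 14) Rl.nil) rfl rfl sc1_8 (rlc st1_8_0 rln))) (stX (nat_lit 0) (nat_lit 12) (nat_lit 1) (Rl.cons (nat_lit 12) (nat_lit 20) Rl.nil) rfl rfl sc1_9 (rlc st1_9_0 rln))) (stX (nat_lit 1) (nat_lit 78) (nat_lit 16) (Rl.cons (nat_lit 78) (nat_lit 38) Rl.nil) rfl rfl sc1_10 (rlc st1_10_0 rln))) (stX (nat_lit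 2) (nat_lit 184) (nat_lit 256) (Rl.cons (nat_lit 184) (nat_lit 36) Rl.nil) rfl rfl sc1_11 (rlc st1_11_0 rln))) (stX (nat_lit 0) (nat_lit 46) (nat_lit 1) (Rl.cons (nat_lit 46) (nat_lit 28) Rl.nil) rfl rfl sc1_12 (rlc st1_12_0 rln))) (stX (nat_lit 1) (nat_lit 78) (nat_lit 16) (Rl.cons (nat_lit 78) (nat_lit 23) Rl.nil) rfl rfl sc1_13 (rlc st1_13_0 rln))) (stX (nat_lit 2) (nat_lit 184) (nat_lit 256) (Rl.cons (nat_lit 184) (nat_lit 36) Rl.nil) rfl rfl sc1_14 (rlc st1_14_0 rln))) (stX (nat_lit 0) (nat_lit 46) (nat_lit 1) (Rl.cons (nat_lit 46) (nat_lit 28) Rl.nil) rfl rfl sc1_15 (rlc st1_15_0 rln))) (stX (nat_lit 2) (nat_lit 55) (nat_lit 256) (Rl.cons (nat_lit 55) (nat_lit 54) Rl.nil) rfl rfl sc1_16 (rlc st1_16_0 rln))) (stX (nat_lit 2) (nat_lit 184) (nat_lit 256) (Rl.cons (nat_lit 184) (nat_lit 36) Rl.nil) rfl rfl sc1_17 (rlc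 st1_17_0 rln))) (stX (nat_lit 0) (nat_lit 46) (nat_lit 1) (Rl.cons (nat_lit 46) (nat_lit 28) Rl.nil) rfl rfl sc1_18 (rlc st1_18_0 rln))) (stX (nat_lit 1) (nat_lit 92) (nat_lit 16) (Rl.cons (nat_lit 92) (nat_lit 27) Rl.nil) rfl rfl sc1_19 (rlc st1_19_0 rln))) (stX (nat_lit 1) (nat_lit 74) (nat_lit 16) (Rl.cons (nat_lit 74) (nat_lit 46) Rl.nil) rfl rfl sc1_20 (rlc st1_20_0 rln))) (stX (nat_lit 2) (nat_lit 64) (nat_lit 256) (Rl.cons (nat_lit 64) (nat_lit 18) Rl.nil) rfl rfl sc1_21 (rlc st1_21_0 rln))) (stX (nat_lit 1) (nat_lit 74) (nat_lit 16) (Rl.cons (nat_lit 74) (nat_lit 46) Rl.nil) rfl rfl sc1_22 (rlc st1_22_0 rln))) (stX (nat_lit 1) (nat_lit 74) (nat_lit 16) (Rl.cons (nat_lit 74) (nat_lit 23) Rl.nil) rfl rfl sc1_23 (rlc st1_23_0 rln))) (stX (nat_lit 0) (nat_lit 23) (nat_lit 1) (Rl.cons (nat_lit 23) (nat_lit 14) Rl.nil)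 rfl rfl sc1_24 (rlc st1_24_0 rln))) (stX (nat_lit 3) (nat_lit 72) (nat_lit 4096) (Rl.cons (nat_lit 72) (nat_lit 44) Rl.nil) rfl rfl sc1_25 (rlc st1_25_0 rln))) (stX (nat_lit 1) (nat_lit 0) (nat_lit 16) (Rl.cons (nat_lit 0) (nat_lit 12) Rl.nil) rfl rfl sc1_26 (rlc st1_26_0 rln))) (stX (nat_lit 3) (nat_lit 85) (nat_lit 4096) (Rl.cons (nat_lit 85) (nat_lit 64) Rl.nil) rfl rfl sc1_27 (rlc st1_27_0 rln))) (stX (nat_lit 1) (nat_lit 32) (nat_lit 16) (Rl.cons (nat_lit 32) (nat_lit 12) Rl.nil) rfl rfl sc1_28 (rlc st1_28_0 rln))) (stX (nat_lit 0) (nat_lit 40) (nat_lit 1) (Rl.cons (nat_lit 40) (nat_lit 45) Rl.nil) rfl rfl sc1_29 (rlc st1_29_0 rln))) (stX (nat_lit 2) (nat_lit 32) (nat_lit 256) (Rl.cons (nat_lit 32) (nat_lit 28) Rl.nil) rfl rfl sc1_30 (rlc st1_30_0 rln))) (stX (nat_lit 1) (nat_lit 106) (nat_lit 16) (Rl.cons (nat_lit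 106) (nat_lit 52) Rl.nil) rfl rfl sc1_31 (rlc st1_31_0 rln))) (stX (nat_lit 1) (nat_lit 106) (nat_lit 16) (Rl.cons (nat_lit 106) (nat_lit 40) Rl.nil) rfl rfl sc1_32 (rlc st1_32_0 rln))) (stX (nat_lit 3) (nat_lit 85) (nat_lit 4096) (Rl.cons (nat_lit 85) (nat_lit 64) Rl.nil) rfl rfl sc1_33 (rlc st1_33_0 rln)))
theorem ct1 : TiS (nat_lit 59) (nat_lit 4) (nat_lit 2) (nat_lit 1) (nat_lit 13) (nat_lit 34) (nat_lit 1) CL1 :=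
  tiS ZZ1 (alS (alS (alS (alS (alS (alS (alS (alS (alS (alS (alS (alS (alS (alS (alS (alS (alS (alS (alS (alS (alS (alS (alS (alS (alS (alS (alS (alS (alS (alS (alS (alS (alS (alS al0 tc1_0) tc1_1) tc1_2) tc1_3) tc1_4) tc1_5) tc1_6) tc1_7) tc1_8) tc1_9) tc1_10) tc1_11) tc1_12) tc1_13) tc1_14) tc1_15) tc1_16) tc1_17) tc1_18) tc1_19) tc1_20) tc1_21) tc1_22) tc1_23) tc1_24) tc1_25) tc1_26) tc1_27) tc1_28) tc1_29) tc1_30) tc1_31) tc1_32) tc1_33)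
  (zzc ⟨(nat_lit 914), zl1_0, ti1_0⟩ zzn)
theorem cw2 : ∀ w < 34, wfC (nat_lit 21) (nat_lit 4) (getC CL2 w) = true :=
  (alS (alS (alS (alS (alS (alS (alS (alS (alS (alS (alS (alS (alS (alS (alS (alS (alS (alS (alS (alS (alS (alS (alS (alS (alS (alS (alS (alS (alS (alS (alS (alS (alS (alS al0 wf2_0) wf2_1) wf2_2) wf2_3) wf2_4) wf2_5) wf2_6) wf2_7) wf2_8) wf2_9) wf2_10) wf2_11) wf2_12) wf2_13) wf2_14) wf2_15) wf2_16) wf2_17) wf2_18) wf2_19) wf2_20) wf2_21) wf2_22) wf2_23) wf2_24) wf2_25) wf2_26) wf2_27) wf2_28) wf2_29) wf2_30) wf2_31) wf2_32) wf2_33)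
theorem cr2 : ∀ w < 34, rfCk (nat_lit 59) (nat_lit 4) (nat_lit 21) (nat_lit 4) (nat_lit 9) (nat_lit 0) w TL2 CL1 CL2 = true :=
  (alS (alS (alS (alS (alS (alS (alS (alS (alS (alS (alS (alS (alS (alS (alS (alS (alS (alS (alS (alS (alS (alS (alS (alS (alS (alS (alS (alS (alS (alS (alS (alS (alS (alS al0 rf2_0) rf2_1) rf2_2) rf2_3) rf2_4) rf2_5) rf2_6) rf2_7) rf2_8) rf2_9) rf2_10) rf2_11) rf2_12) rf2_13) rf2_14) rf2_15) rf2_16) rf2_17) rf2_18) rf2_19) rf2_20) rf2_21) rf2_22) rf2_23) rf2_24) rf2_25) rf2_26) rf2_27) rf2_28) rf2_29) rf2_30) rf2_31) rf2_32) rf2_33)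
theorem vm2 : eqVM CL1 CL2 34 = true := by decide +kernel
theorem cs2 : ∀ w < 34, StW (nat_lit 21) (nat_lit 4) (nat_lit 2) (nat_lit 1) (getC CL2 w) :=
  (alS (alS (alS (alS (alS (alS (alS (alS (alS (alS (alS (alS (alS (alS (alS (alS (alS (alS (alS (alS (alS (alS (alS (alS (alS (alS (alS (alS (alS (alS (alS (alS (alS (alS al0 (stX (nat_lit 2) (nat_lit 0) (nat_lit 256) (Rl.cons (nat_lit 0) (nat_lit 14) Rl.nil) rfl rfl sc2_0 (rlc st2_0_0 rln))) (stX (nat_lit 1) (nat_lit 0) (nat_lit 16) Rl.nil rfl rfl sc2_1 rln)) (stX (nat_lit 2) (nat_lit 28) (nat_lit 256) (Rl.cons (nat_lit 28) (nat_lit 10) Rl.nil) rfl rfl sc2_2 (rlc st2_2_0 rln))) (stX (nat_lit 2) (nat_lit 11) (nat_lit 256) (Rl.cons (nat_lit 11) (nat_lit 4) Rl.nil) rfl rfl sc2_3 (rlc st2_3_0 rln))) (stX (nat_lit 1) (nat_lit 0) (nat_lit 16) (Rl.cons (nat_lit 0) (nat_lit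 7) Rl.nil) rfl rfl sc2_4 (rlc st2_4_0 rln))) (stX (nat_lit 0) (nat_lit 0) (nat_lit 1) Rl.nil rfl rfl sc2_5 rln)) (stX (nat_lit 0) (nat_lit 8) (nat_lit 1) (Rl.cons (nat_lit 8) (nat_lit 20) Rl.nil) rfl rfl sc2_6 (rlc st2_6_0 rln))) (stX (nat_lit 0) (nat_lit 3) (nat_lit 1) (Rl.cons (nat_lit 3) (nat_lit 8) Rl.nil) rfl rfl sc2_7 (rlc st2_7_0 rln))) (stX (nat_lit 0) (nat_lit 7) (nat_lit 1) (Rl.cons (nat_lit 7) (nat_lit 1) Rl.nil) rfl rfl sc2_8 (rlc st2_8_0 rln))) (stX (nat_lit 0) (nat_lit 0) (nat_lit 1) Rl.nil rfl rfl sc2_9 rln)) (stX (nat_lit 1) (nat_lit 36) (nat_lit 16) (Rl.cons (nat_lit 36) (nat_lit 16) Rl.nil) rfl rfl sc2_10 (rlc st2_10_0 rln))) (stX (nat_lit 2) (nat_lit 28) (nat_lit 256) (Rl.cons (nat_lit 28) (nat_lit 8) Rl.nil) rfl rfl sc2_11 (rlc st2_11_0 rln))) (stX (nat_lit 0) (nat_lit 14) (nat_lit 1) (Rl.cons (nat_lit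 14) (nat_lit 2) Rl.nil) rfl rfl sc2_12 (rlc st2_12_0 rln))) (stX (nat_lit 1) (nat_lit 36) (nat_lit 16) (Rl.cons (nat_lit 36) (nat_lit 8) Rl.nil) rfl rfl sc2_13 (rlc st2_13_0 rln))) (stX (nat_lit 2) (nat_lit 28) (nat_lit 256) (Rl.cons (nat_lit 28) (nat_lit 8) Rl.nil) rfl rfl sc2_14 (rlc st2_14_0 rln))) (stX (nat_lit 0) (nat_lit 14) (nat_lit 1) (Rl.cons (nat_lit 14) (nat_lit 2) Rl.nil) rfl rfl sc2_15 (rlc st2_15_0 rln))) (stX (nat_lit 2) (nat_lit 28) (nat_lit 256) (Rl.cons (nat_lit 28) (nat_lit 10) Rl.nil) rfl rfl sc2_16 (rlc st2_16_0 rln))) (stX (nat_lit 2) (nat_lit 28) (nat_lit 256) (Rl.cons (nat_lit 28) (nat_lit 8) Rl.nil) rfl rfl sc2_17 (rlc st2_17_0 rln))) (stX (nat_lit 0) (nat_lit 14) (nat_lit 1) (Rl.cons (nat_lit 14) (nat_lit 2) Rl.nil) rfl rfl sc2_18 (rlc st2_18_0 rln))) (stX (nat_lit 1) (nat_lit 14) (nat_lit 16)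 (Rl.cons (nat_lit 14) (nat_lit 3) Rl.nil) rfl rfl sc2_19 (rlc st2_19_0 rln))) (stX (nat_lit 0) (nat_lit 14) (nat_lit 1) (Rl.cons (nat_lit 14) (nat_lit 2) Rl.nil) rfl rfl sc2_20 (rlc st2_20_0 rln))) (stX (nat_lit 2) (nat_lit 11) (nat_lit 256) (Rl.cons (nat_lit 11) (nat_lit 4) Rl.nil) rfl rfl sc2_21 (rlc st2_21_0 rln))) (stX (nat_lit 0) (nat_lit 14) (nat_lit 1) (Rl.cons (nat_lit 14) (nat_lit 2) Rl.nil) rfl rfl sc2_22 (rlc st2_22_0 rln))) (stX (nat_lit 1) (nat_lit 16) (nat_lit 16) (Rl.cons (nat_lit 16) (nat_lit 7) Rl.nil) rfl rfl sc2_23 (rlc st2_23_0 rln))) (stX (nat_lit 0) (nat_lit 7) (nat_lit 1) (Rl.cons (nat_lit 7) (nat_lit 1) Rl.nil) rfl rfl sc2_24 (rlc st2_24_0 rln))) (stX (nat_lit 2) (nat_lit 0) (nat_lit 256) Rl.nil rfl rfl sc2_25 rln)) (stX (nat_lit 1) (nat_lit 0) (nat_lit 16) Rl.nil rfl rfl sc2_26 rln)) (stX (nat_lit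 1) (nat_lit 0) (nat_lit 16) Rl.nil rfl rfl sc2_27 rln)) (stX (nat_lit 0) (nat_lit 0) (nat_lit 1) Rl.nil rfl rfl sc2_28 rln)) (stX (nat_lit 0) (nat_lit 0) (nat_lit 1) Rl.nil rfl rfl sc2_29 rln)) (stX (nat_lit 0) (nat_lit 0) (nat_lit 1) Rl.nil rfl rfl sc2_30 rln)) (stX (nat_lit 0) (nat_lit 0) (nat_lit 1) Rl.nil rfl rfl sc2_31 rln)) (stX (nat_lit 0) (nat_lit 0) (nat_lit 1) Rl.nil rfl rfl sc2_32 rln)) (stX (nat_lit 0) (nat_lit 0) (nat_lit 1) Rl.nil rfl rfl sc2_33 rln))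
theorem ct2 : TiS (nat_lit 21) (nat_lit 4) (nat_lit 1) (nat_lit 2) (nat_lit 13) (nat_lit 34) (nat_lit 1) CL2 :=
  tiS ZZ2 (alS (alS (alS (alS (alS (alS (alS (alS (alS (alS (alS (alS (alS (alS (alS (alS (alS (alS (alS (alS (alS (alS (alS (alS (alS (alS (alS (alS (alS (alS (alS (alS (alS (alS al0 tc2_0) tc2_1) tc2_2) tc2_3) tc2_4) tc2_5) tc2_6) tc2_7) tc2_8) tc2_9) tc2_10) tc2_11) tc2_12) tc2_13) tc2_14) tc2_15) tc2_16) tc2_17) tc2_18) tc2_19) tc2_20) tc2_21) tc2_22) tc2_23) tc2_24) tc2_25) tc2_26) tc2_27) tc2_28) tc2_29) tc2_30) tc2_31) tc2_32) tc2_33)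
  (zzc ⟨(nat_lit 176), zl2_0, ti2_0⟩ zzn)
theorem cd : ∀ w < 34, deadCk (nat_lit 21) (nat_lit 4) (getC CL2 w) = true :=
  (alS (alS (alS (alS (alS (alS (alS (alS (alS (alS (alS (alS (alS (alS (alS (alS (alS (alS (alS (alS (alS (alS (alS (alS (alS (alS (alS (alS (alS (alS (alS (alS (alS (alS al0 de2_0) de2_1) de2_2) de2_3) de2_4) de2_5) de2_6) de2_7) de2_8) de2_9) de2_10) de2_11) de2_12) de2_13) de2_14) de2_15) de2_16) de2_17) de2_18) de2_19) de2_20) de2_21) de2_22) de2_23) de2_24) de2_25) de2_26) de2_27) de2_28) de2_29) de2_30) de2_31) de2_32) de2_33)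
theorem rc : recCk (recP 13 (1, 1, 2) 0 0 7).W 34 CL0 = true := by decide +kernel
theorem occ (O : OccL (recP 13 (1, 1, 2) 0 0 7) (locOK (Nat.testBit 0) (Nat.testBit 0) (Nat.testBit 7))) :
    False := by
  have k := first_stage O 1 (nlOK_B (by decide) (by decide)) rfl rfl rfl rfl rc cw0 cp
  have k := run_stage k rfl (nat_lit 2) (nat_lit 0) (nat_lit 1) (nat_lit 1) rfl cs0 ct0
  have k := next_stage k (nat_lit 59) (nat_lit 4) (nat_lit 9) (nat_lit 0) rfl rfl rfl rfl rfl vm1 cw1 cr1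
  have k := run_stage k rfl (nat_lit 1) (nat_lit 2) (nat_lit 2) (nat_lit 1) rfl cs1 ct1
  have k := next_stage k (nat_lit 21) (nat_lit 4) (nat_lit 9) (nat_lit 0) rfl rfl rfl rfl rfl vm2 cw2 cr2
  have k := run_stage k rfl (nat_lit 2) (nat_lit 1) (nat_lit 1) (nat_lit 2) rfl cs2 ct2
  exact last_stage k rfl cd
theorem res : ∃ ok, OkP (1, 1, 2) ok ∧ IsEmpty (LTil (shP 13 (1, 1, 2) ok)) :=
  dead_P 0 0 7 (by decide +kernel) rc occ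

end Pool.Agent.NNr.R13_1_1_2

namespace Pool.Agent.NNr.R13_2_3_8
open Pool.Agent.NNe Pool.Agent.NNc

theorem cw0 : ∀ w < 15, wfC (nat_lit 55) (nat_lit 11) (getC CL0 w) = true :=
  (alS (alS (alS (alS (alS (alS (alS (alS (alS (alS (alS (alS (alS (alS (alS al0 wf0_0) wf0_1) wf0_2) wf0_3) wf0_4) wf0_5) wf0_6) wf0_7) wf0_8) wf0_9) wf0_10) wf0_11) wf0_12) wf0_13) wf0_14)
theorem cp : ∀ w < 15, plCk (nat_lit 55) (nat_lit 11) (nat_lit 13) (nat_lit 1) (nat_lit 0) (nat_lit 6) (nat_lit 15) (nat_lit 4) w nl0 CL0 = true :=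
  (alS (alS (alS (alS (alS (alS (alS (alS (alS (alS (alS (alS (alS (alS (alS al0 pl0_0) pl0_1) pl0_2) pl0_3) pl0_4) pl0_5) pl0_6) pl0_7) pl0_8) pl0_9) pl0_10) pl0_11) pl0_12) pl0_13) pl0_14)
theorem cs0 : ∀ w < 15, StW (nat_lit 55) (nat_lit 11) (nat_lit 1) (nat_lit 5) (getC CL0 w) :=
  (alS (alS (alS (alS (alS (alS (alS (alS (alS (alS (alS (alS (alS (alS (alS al0 (stX (nat_lit 2) (nat_lit 23) (nat_lit 256) (Rl.cons (nat_lit 23) (nat_lit 8) Rl.nil) rfl rfl sc0_0 (rlc st0_0_0 rln))) (stX (nat_lit 0) (nat_lit 6) (nat_lit 1) (Rl.cons (nat_lit 6) (nat_lit 10) Rl.nil) rfl rfl sc0_1 (rlc st0_1_0 rln))) (stX (nat_lit 0) (nat_lit 5) (nat_lit 1) (Rl.cons (nat_lit 5) (nat_lit 2) Rl.nil) rfl rfl sc0_2 (rlc st0_2_0 rln))) (stX (nat_lit 0) (nat_lit 23) (nat_lit 1) (Rl.cons (nat_lit 23) (nat_lit 16) Rl.nil) rfl rfl sc0_3 (rlc st0_3_0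 rln))) (stX (nat_lit 2) (nat_lit 60) (nat_lit 256) (Rl.cons (nat_lit 60) (nat_lit 13) Rl.nil) rfl rfl sc0_4 (rlc st0_4_0 rln))) (stX (nat_lit 0) (nat_lit 7) (nat_lit 1) (Rl.cons (nat_lit 7) (nat_lit 5) Rl.nil) rfl rfl sc0_5 (rlc st0_5_0 rln))) (stX (nat_lit 2) (nat_lit 26) (nat_lit 256) (Rl.cons (nat_lit 26) (nat_lit 15) Rl.nil) rfl rfl sc0_6 (rlc st0_6_0 rln))) (stX (nat_lit 2) (nat_lit 54) (nat_lit 256) (Rl.cons (nat_lit 54) (nat_lit 12) Rl.nil) rfl rfl sc0_7 (rlc st0_7_0 rln))) (stX (nat_lit 1) (nat_lit 7) (nat_lit 16) (Rl.cons (nat_lit 7) (nat_lit 3) Rl.nil) rfl rfl sc0_8 (rlc st0_8_0 rln))) (stX (nat_lit 2) (nat_lit 15) (nat_lit 256) (Rl.cons (nat_lit 15) (nat_lit 4) Rl.nil) rfl rfl sc0_9 (rlc st0_9_0 rln))) (stX (nat_lit 1) (nat_lit 7) (nat_lit 16) (Rl.cons (nat_lit 7) (nat_lit 3) Rl.nil) rfl rfl sc0_10 (rlc st0_10_0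 rln))) (stX (nat_lit 0) (nat_lit 0) (nat_lit 1) Rl.nil rfl rfl sc0_11 rln)) (stX (nat_lit 1) (nat_lit 70) (nat_lit 16) (Rl.cons (nat_lit 70) (nat_lit 31) Rl.nil) rfl rfl sc0_12 (rlc st0_12_0 rln))) (stX (nat_lit 0) (nat_lit 31) (nat_lit 1) (Rl.cons (nat_lit 31) (nat_lit 33) Rl.nil) rfl rfl sc0_13 (rlc st0_13_0 rln))) (stX (nat_lit 1) (nat_lit 61) (nat_lit 16) (Rl.cons (nat_lit 61) (nat_lit 22) Rl.nil) rfl rfl sc0_14 (rlc st0_14_0 rln)))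
theorem ct0 : TiS (nat_lit 55) (nat_lit 11) (nat_lit 2) (nat_lit 5) (nat_lit 13) (nat_lit 15) (nat_lit 1) CL0 :=
  tiS ZZ0 (alS (alS (alS (alS (alS (alS (alS (alS (alS (alS (alS (alS (alS (alS (alS al0 tc0_0) tc0_1) tc0_2) tc0_3) tc0_4) tc0_5) tc0_6) tc0_7) tc0_8) tc0_9) tc0_10) tc0_11) tc0_12) tc0_13) tc0_14)
  (zzc ⟨(nat_lit 179), zl0_0, ti0_0⟩ zzn)
theorem cw1 : ∀ w < 15, wfC (nat_lit 5) (nat_lit 2) (getC CL1 w) = true :=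
  (alS (alS (alS (alS (alS (alS (alS (alS (alS (alS (alS (alS (alS (alS (alS al0 wf1_0) wf1_1) wf1_2) wf1_3) wf1_4) wf1_5) wf1_6) wf1_7) wf1_8) wf1_9) wf1_10) wf1_11) wf1_12) wf1_13) wf1_14)
theorem cr1 : ∀ w < 15, rfCk (nat_lit 55) (nat_lit 11) (nat_lit 5) (nat_lit 2) (nat_lit 9) (nat_lit 0) w TL1 CL0 CL1 = true :=
  (alS (alS (alS (alS (alS (alS (alS (alS (alS (alS (alS (alS (alS (alS (alS al0 rf1_0) rf1_1) rf1_2) rf1_3) rf1_4) rf1_5) rf1_6) rf1_7) rf1_8) rf1_9) rf1_10) rf1_11) rf1_12) rf1_13) rf1_14)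
theorem vm1 : eqVM CL0 CL1 15 = true := by decide +kernel
theorem cs1 : ∀ w < 15, StW (nat_lit 5) (nat_lit 2) (nat_lit 2) (nat_lit 0) (getC CL1 w) :=
  (alS (alS (alS (alS (alS (alS (alS (alS (alS (alS (alS (alS (alS (alS (alS al0 (stX (nat_lit 1) (nat_lit 0) (nat_lit 16) Rl.nil rfl rfl sc1_0 rln)) (stX (nat_lit 0) (nat_lit 0) (nat_lit 1) Rl.nil rfl rfl sc1_1 rln)) (stX (nat_lit 0) (nat_lit 0) (nat_lit 1) Rl.nil rfl rfl sc1_2 rln)) (stX (nat_lit 0) (nat_lit 0) (nat_lit 1) Rl.nil rfl rfl sc1_3 rln)) (stX (nat_lit 0) (nat_lit 0) (nat_lit 1) Rl.nil rfl rfl sc1_4 rln)) (stX (nat_lit 0) (nat_lit 0) (nat_lit 1) Rl.nil rfl rfl sc1_5 rln)) (stX (nat_lit 0) (nat_lit 0) (nat_lit 1) (Rl.cons (nat_lit 0) (nat_lit 2) Rl.nil) rfl rfl sc1_6 (rlc (starCk_zero _ _ _ _ _ _ _) rln))) (stX (nat_lit 0) (nat_lit 0) (nat_lit 1) (Rl.cons (nat_lit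 0) (nat_lit 4) Rl.nil) rfl rfl sc1_7 (rlc (starCk_zero _ _ _ _ _ _ _) rln))) (stX (nat_lit 0) (nat_lit 0) (nat_lit 1) Rl.nil rfl rfl sc1_8 rln)) (stX (nat_lit 0) (nat_lit 0) (nat_lit 1) Rl.nil rfl rfl sc1_9 rln)) (stX (nat_lit 0) (nat_lit 0) (nat_lit 1) Rl.nil rfl rfl sc1_10 rln)) (stX (nat_lit 0) (nat_lit 0) (nat_lit 1) Rl.nil rfl rfl sc1_11 rln)) (stX (nat_lit 0) (nat_lit 0) (nat_lit 1) (Rl.cons (nat_lit 0) (nat_lit 16) Rl.nil) rfl rfl sc1_12 (rlc (starCk_zero _ _ _ _ _ _ _) rln))) (stX (nat_lit 0) (nat_lit 0) (nat_lit 1) Rl.nil rfl rfl sc1_13 rln)) (stX (nat_lit 0) (nat_lit 0) (nat_lit 1) Rl.nil rfl rfl sc1_14 rln))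
theorem ct1 : TiS (nat_lit 5) (nat_lit 2) (nat_lit 1) (nat_lit 1) (nat_lit 13) (nat_lit 15) (nat_lit 1) CL1 :=
  tiS ZZ1 (alS (alS (alS (alS (alS (alS (alS (alS (alS (alS (alS (alS (alS (alS (alS al0 tc1_0) tc1_1) tc1_2) tc1_3) tc1_4) tc1_5) tc1_6) tc1_7) tc1_8) tc1_9) tc1_10) tc1_11) tc1_12) tc1_13) tc1_14)
  (zzc ⟨(nat_lit 2), zl1_0, ti1_0⟩ zzn)
theorem cd : ∀ w < 15, deadCk (nat_lit 5) (nat_lit 2) (getC CL1 w) = true :=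
  (alS (alS (alS (alS (alS (alS (alS (alS (alS (alS (alS (alS (alS (alS (alS al0 de1_0) de1_1) de1_2) de1_3) de1_4) de1_5) de1_6) de1_7) de1_8) de1_9) de1_10) de1_11) de1_12) de1_13) de1_14)
theorem rc : recCk (recP 13 (2, 3, 8) 1 0 6).W 15 CL0 = true := by decide +kernel
theorem occ (O : OccL (recP 13 (2, 3, 8) 1 0 6) (locOK (Nat.testBit 1) (Nat.testBit 0) (Nat.testBit 6))) :
    False := by
  have k := first_stage O 1 (nlOK_A (by decide) (by decide)) rfl rfl rfl rfl rc cw0 cp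
  have k := run_stage k rfl (nat_lit 1) (nat_lit 5) (nat_lit 2) (nat_lit 5) rfl cs0 ct0
  have k := next_stage k (nat_lit 5) (nat_lit 2) (nat_lit 9) (nat_lit 0) rfl rfl rfl rfl rfl vm1 cw1 cr1
  have k := run_stage k rfl (nat_lit 2) (nat_lit 0) (nat_lit 1) (nat_lit 1) rfl cs1 ct1
  exact last_stage k rfl cd
theorem res : ∃ ok, OkP (2, 3, 8) ok ∧ IsEmpty (LTil (shP 13 (2, 3, 8) ok)) :=
  dead_P 1 0 6 (by decide +kernel) rc occ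

end Pool.Agent.NNr.R13_2_3_8

namespace Pool.Agent.NNr.R13_3_7_20
open Pool.Agent.NNe Pool.Agent.NNc

theorem cw0 : ∀ w < 8, wfC (nat_lit 43) (nat_lit 14) (getC CL0 w) = true :=
  (alS (alS (alS (alS (alS (alS (alS (alS al0 wf0_0) wf0_1) wf0_2) wf0_3) wf0_4) wf0_5) wf0_6) wf0_7)
theorem cp : ∀ w < 8, plCk (nat_lit 43) (nat_lit 14) (nat_lit 13) (nat_lit 5) (nat_lit 0) (nat_lit 2) (nat_lit 8) (nat_lit 4) w nl0 CL0 = true :=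
  (alS (alS (alS (alS (alS (alS (alS (alS al0 pl0_0) pl0_1) pl0_2) pl0_3) pl0_4) pl0_5) pl0_6) pl0_7)
theorem cs0 : ∀ w < 8, StW (nat_lit 43) (nat_lit 14) (nat_lit 2) (nat_lit 6) (getC CL0 w) :=
  (alS (alS (alS (alS (alS (alS (alS (alS al0 (stX (nat_lit 2) (nat_lit 0) (nat_lit 256) (Rl.cons (nat_lit 0) (nat_lit 6) Rl.nil) rfl rfl sc0_0 (rlc st0_0_0 rln))) (stX (nat_lit 0) (nat_lit 13) (nat_lit 1) (Rl.cons (nat_lit 13) (nat_lit 10) Rl.nil) rfl rfl sc0_1 (rlc st0_1_0 rln))) (stX (nat_lit 2) (nat_lit 39) (nat_lit 256) (Rl.cons (nat_lit 39) (nat_lit 8) Rl.nil) rfl rfl sc0_2 (rlc st0_2_0 rln))) (stX (nat_lit 1) (nat_lit 7) (nat_lit 16) (Rl.cons (nat_lit 7) (nat_lit 3) Rl.nil) rfl rfl sc0_3 (rlc st0_3_0 rln))) (stX (nat_lit 1) (nat_lit 0) (nat_lit 16) Rl.nil rfl rfl sc0_4 rln)) (stX (nat_lit 1) (nat_lit 49) (nat_lit 16) (Rl.cons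 (nat_lit 49) (nat_lit 23) Rl.nil) rfl rfl sc0_5 (rlc st0_5_0 rln))) (stX (nat_lit 1) (nat_lit 41) (nat_lit 16) (Rl.cons (nat_lit 41) (nat_lit 19) Rl.nil) rfl rfl sc0_6 (rlc st0_6_0 rln))) (stX (nat_lit 3) (nat_lit 18) (nat_lit 4096) (Rl.cons (nat_lit 18) (nat_lit 15) Rl.nil) rfl rfl sc0_7 (rlc st0_7_0 rln)))
theorem ct0 : TiS (nat_lit 43) (nat_lit 14) (nat_lit 1) (nat_lit 7) (nat_lit 13) (nat_lit 8) (nat_lit 1) CL0 :=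
  tiS ZZ0 (alS (alS (alS (alS (alS (alS (alS (alS al0 tc0_0) tc0_1) tc0_2) tc0_3) tc0_4) tc0_5) tc0_6) tc0_7)
  (zzc ⟨(nat_lit 69), zl0_0, ti0_0⟩ zzn)
theorem cw1 : ∀ w < 8, wfC (nat_lit 61) (nat_lit 9) (getC CL1 w) = true :=
  (alS (alS (alS (alS (alS (alS (alS (alS al0 wf1_0) wf1_1) wf1_2) wf1_3) wf1_4) wf1_5) wf1_6) wf1_7)
theorem cr1 : ∀ w < 8, rfCk (nat_lit 43) (nat_lit 14) (nat_lit 61) (nat_lit 9) (nat_lit 6) (nat_lit 262144) w TL1 CL0 CL1 = true :=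
  (alS (alS (alS (alS (alS (alS (alS (alS al0 rf1_0) rf1_1) rf1_2) rf1_3) rf1_4) rf1_5) rf1_6) rf1_7)
theorem vm1 : eqVM CL0 CL1 8 = true := by decide +kernel
theorem cs1 : ∀ w < 8, StW (nat_lit 61) (nat_lit 9) (nat_lit 1) (nat_lit 4) (getC CL1 w) :=
  (alS (alS (alS (alS (alS (alS (alS (alS al0 (stX (nat_lit 2) (nat_lit 0) (nat_lit 256) (Rl.cons (nat_lit 0) (nat_lit 12) Rl.nil) rfl rfl sc1_0 (rlc st1_0_0 rln))) (stX (nat_lit 1) (nat_lit 45) (nat_lit 16) (Rl.cons (nat_lit 45) (nat_lit 17) Rl.nil) rfl rfl sc1_1 (rlc st1_1_0 rln))) (stX (nat_lit 2) (nat_lit 70) (nat_lit 256) (Rl.cons (nat_lit 70) (nat_lit 16) Rl.nil) rfl rfl sc1_2 (rlc st1_2_0 rln))) (stX (nat_lit 0) (nat_lit 0) (nat_lit 1) Rl.nil rfl rfl sc1_3 rln)) (stX (nat_lit 0) (nat_lit 0) (nat_lit 1) Rl.nil rfl rfl sc1_4 rln)) (stX (nat_lit 1) (nat_lit 102) (nat_lit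 16) (Rl.cons (nat_lit 102) (nat_lit 30) Rl.nil) rfl rfl sc1_5 (rlc st1_5_0 rln))) (stX (nat_lit 1) (nat_lit 65) (nat_lit 16) (Rl.cons (nat_lit 65) (nat_lit 18) Rl.nil) rfl rfl sc1_6 (rlc st1_6_0 rln))) (stX (nat_lit 0) (nat_lit 0) (nat_lit 1) Rl.nil rfl rfl sc1_7 rln))
theorem ct1 : TiS (nat_lit 61) (nat_lit 9) (nat_lit 2) (nat_lit 4) (nat_lit 13) (nat_lit 8) (nat_lit 1) CL1 :=
  tiS ZZ1 (alS (alS (alS (alS (alS (alS (alS (alS al0 tc1_0) tc1_1) tc1_2) tc1_3) tc1_4) tc1_5) tc1_6) tc1_7)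
  (zzc ⟨(nat_lit 60), zl1_0, ti1_0⟩ (zzc ⟨(nat_lit 16), zl1_1, ti1_1⟩ zzn))
theorem cw2 : ∀ w < 8, wfC (nat_lit 6) (nat_lit 2) (getC CL2 w) = true :=
  (alS (alS (alS (alS (alS (alS (alS (alS al0 wf2_0) wf2_1) wf2_2) wf2_3) wf2_4) wf2_5) wf2_6) wf2_7)
theorem cr2 : ∀ w < 8, rfCk (nat_lit 61) (nat_lit 9) (nat_lit 6) (nat_lit 2) (nat_lit 9) (nat_lit 0) w TL2 CL1 CL2 = true :=
  (alS (alS (alS (alS (alS (alS (alS (alS al0 rf2_0) rf2_1) rf2_2) rf2_3) rf2_4) rf2_5) rf2_6) rf2_7)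
theorem vm2 : eqVM CL1 CL2 8 = true := by decide +kernel
theorem cs2 : ∀ w < 8, StW (nat_lit 6) (nat_lit 2) (nat_lit 2) (nat_lit 0) (getC CL2 w) :=
  (alS (alS (alS (alS (alS (alS (alS (alS al0 (stX (nat_lit 2) (nat_lit 0) (nat_lit 256) Rl.nil rfl rfl sc2_0 rln)) (stX (nat_lit 0) (nat_lit 0) (nat_lit 1) Rl.nil rfl rfl sc2_1 rln)) (stX (nat_lit 0) (nat_lit 0) (nat_lit 1) (Rl.cons (nat_lit 0) (nat_lit 2) Rl.nil) rfl rfl sc2_2 (rlc (starCk_zero _ _ _ _ _ _ _) rln))) (stX (nat_lit 0) (nat_lit 0) (nat_lit 1) Rl.nil rfl rfl sc2_3 rln)) (stX (nat_lit 0) (nat_lit 0) (nat_lit 1) Rl.nil rfl rfl sc2_4 rln)) (stX (nat_lit 0) (nat_lit 0) (nat_lit 1) (Rl.cons (nat_lit 0) (nat_lit 20) Rl.nil) rfl rfl sc2_5 (rlc (starCk_zero _ _ _ _ _ _ _) rln))) (stX (nat_lit 0) (nat_lit 0) (nat_lit 1) Rl.nil rfl rfl sc2_6 rln)) (stX (nat_lit 0) (nat_lit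 0) (nat_lit 1) Rl.nil rfl rfl sc2_7 rln))
theorem ct2 : TiS (nat_lit 6) (nat_lit 2) (nat_lit 1) (nat_lit 1) (nat_lit 13) (nat_lit 8) (nat_lit 1) CL2 :=
  tiS ZZ2 (alS (alS (alS (alS (alS (alS (alS (alS al0 tc2_0) tc2_1) tc2_2) tc2_3) tc2_4) tc2_5) tc2_6) tc2_7)
  (zzc ⟨(nat_lit 3), zl2_0, ti2_0⟩ zzn)
theorem cd : ∀ w < 8, deadCk (nat_lit 6) (nat_lit 2) (getC CL2 w) = true :=
  (alS (alS (alS (alS (alS (alS (alS (alS al0 de2_0) de2_1) de2_2) de2_3) de2_4) de2_5) de2_6) de2_7)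
theorem rc : recCk (recP 13 (3, 7, 20) 5 0 2).W 8 CL0 = true := by decide +kernel
theorem occ (O : OccL (recP 13 (3, 7, 20) 5 0 2) (locOK (Nat.testBit 5) (Nat.testBit 0) (Nat.testBit 2))) :
    False := by
  have k := first_stage O 1 (nlOK_A (by decide) (by decide)) rfl rfl rfl rfl rc cw0 cp
  have k := run_stage k rfl (nat_lit 2) (nat_lit 6) (nat_lit 1) (nat_lit 7) rfl cs0 ct0
  have k := next_stage k (nat_lit 61) (nat_lit 9) (nat_lit 6) (nat_lit 1) rfl rfl rfl rfl rfl vm1 cw1 cr1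
  have k := run_stage k rfl (nat_lit 1) (nat_lit 4) (nat_lit 2) (nat_lit 4) rfl cs1 ct1
  have k := next_stage k (nat_lit 6) (nat_lit 2) (nat_lit 9) (nat_lit 0) rfl rfl rfl rfl rfl vm2 cw2 cr2
  have k := run_stage k rfl (nat_lit 2) (nat_lit 0) (nat_lit 1) (nat_lit 1) rfl cs2 ct2
  exact last_stage k rfl cd
theorem res : ∃ ok, OkP (3, 7, 20) ok ∧ IsEmpty (LTil (shP 13 (3, 7, 20) ok)) :=
  dead_P 5 0 2 (by decide +kernel) rc occ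

end Pool.Agent.NNr.R13_3_7_20

namespace Pool.Agent.NNr.R13_4_7_22
open Pool.Agent.NNe Pool.Agent.NNc

theorem cw0 : ∀ w < 7, wfC (nat_lit 41) (nat_lit 11) (getC CL0 w) = true :=
  (alS (alS (alS (alS (alS (alS (alS al0 wf0_0) wf0_1) wf0_2) wf0_3) wf0_4) wf0_5) wf0_6)
theorem cp : ∀ w < 7, plCk (nat_lit 41) (nat_lit 11) (nat_lit 13) (nat_lit 1) (nat_lit 0) (nat_lit 6) (nat_lit 7) (nat_lit 4) w nl0 CL0 = true :=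
  (alS (alS (alS (alS (alS (alS (alS al0 pl0_0) pl0_1) pl0_2) pl0_3) pl0_4) pl0_5) pl0_6)
theorem cs0 : ∀ w < 7, StW (nat_lit 41) (nat_lit 11) (nat_lit 1) (nat_lit 5) (getC CL0 w) :=
  (alS (alS (alS (alS (alS (alS (alS al0 (stX (nat_lit 2) (nat_lit 0) (nat_lit 256) (Rl.cons (nat_lit 0) (nat_lit 6) Rl.nil) rfl rfl sc0_0 (rlc st0_0_0 rln))) (stX (nat_lit 0) (nat_lit 13) (nat_lit 1) (Rl.cons (nat_lit 13) (nat_lit 10) Rl.nil) rfl rfl sc0_1 (rlc st0_1_0 rln))) (stX (nat_lit 2) (nat_lit 39) (nat_lit 256) (Rl.cons (nat_lit 39) (nat_lit 8) Rl.nil) rfl rfl sc0_2 (rlc st0_2_0 rln))) (stX (nat_lit 1) (nat_lit 7) (nat_lit 16) (Rl.cons (nat_lit 7) (nat_lit 3) Rl.nil) rfl rfl sc0_3 (rlc st0_3_0 rln))) (stX (nat_lit 2) (nat_lit 7) (nat_lit 256) (Rl.cons (nat_lit 7) (nat_lit 2) Rl.nil) rfl rfl sc0_4 (rlc st0_4_0 rln))) (stX (nat_lit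 1) (nat_lit 46) (nat_lit 16) (Rl.cons (nat_lit 46) (nat_lit 20) Rl.nil) rfl rfl sc0_5 (rlc st0_5_0 rln))) (stX (nat_lit 1) (nat_lit 41) (nat_lit 16) (Rl.cons (nat_lit 41) (nat_lit 19) Rl.nil) rfl rfl sc0_6 (rlc st0_6_0 rln)))
theorem ct0 : TiS (nat_lit 41) (nat_lit 11) (nat_lit 2) (nat_lit 5) (nat_lit 13) (nat_lit 7) (nat_lit 1) CL0 :=
  tiS ZZ0 (alS (alS (alS (alS (alS (alS (alS al0 tc0_0) tc0_1) tc0_2) tc0_3) tc0_4) tc0_5) tc0_6)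
  (zzc ⟨(nat_lit 66), zl0_0, ti0_0⟩ zzn)
theorem cw1 : ∀ w < 7, wfC (nat_lit 3) (nat_lit 2) (getC CL1 w) = true :=
  (alS (alS (alS (alS (alS (alS (alS al0 wf1_0) wf1_1) wf1_2) wf1_3) wf1_4) wf1_5) wf1_6)
theorem cr1 : ∀ w < 7, rfCk (nat_lit 41) (nat_lit 11) (nat_lit 3) (nat_lit 2) (nat_lit 9) (nat_lit 0) w TL1 CL0 CL1 = true :=
  (alS (alS (alS (alS (alS (alS (alS al0 rf1_0) rf1_1) rf1_2) rf1_3) rf1_4) rf1_5) rf1_6)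
theorem vm1 : eqVM CL0 CL1 7 = true := by decide +kernel
theorem cs1 : ∀ w < 7, StW (nat_lit 3) (nat_lit 2) (nat_lit 2) (nat_lit 0) (getC CL1 w) :=
  (alS (alS (alS (alS (alS (alS (alS al0 (stX (nat_lit 2) (nat_lit 0) (nat_lit 256) Rl.nil rfl rfl sc1_0 rln)) (stX (nat_lit 0) (nat_lit 0) (nat_lit 1) Rl.nil rfl rfl sc1_1 rln)) (stX (nat_lit 0) (nat_lit 0) (nat_lit 1) Rl.nil rfl rfl sc1_2 rln)) (stX (nat_lit 0) (nat_lit 0) (nat_lit 1) Rl.nil rfl rfl sc1_3 rln)) (stX (nat_lit 0) (nat_lit 0) (nat_lit 1) Rl.nil rfl rfl sc1_4 rln)) (stX (nat_lit 0) (nat_lit 0) (nat_lit 1) (Rl.cons (nat_lit 0) (nat_lit 8) Rl.nil) rfl rfl sc1_5 (rlc (starCk_zero _ _ _ _ _ _ _) rln))) (stX (nat_lit 0) (nat_lit 0) (nat_lit 1) Rl.nil rfl rfl sc1_6 rln))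
theorem ct1 : TiS (nat_lit 3) (nat_lit 2) (nat_lit 1) (nat_lit 1) (nat_lit 13) (nat_lit 7) (nat_lit 1) CL1 :=
  tiS ZZ1 (alS (alS (alS (alS (alS (alS (alS al0 tc1_0) tc1_1) tc1_2) tc1_3) tc1_4) tc1_5) tc1_6)
  (zzc ⟨(nat_lit 1), zl1_0, ti1_0⟩ zzn)
theorem cd : ∀ w < 7, deadCk (nat_lit 3) (nat_lit 2) (getC CL1 w) = true :=
  (alS (alS (alS (alS (alS (alS (alS al0 de1_0) de1_1) de1_2) de1_3) de1_4) de1_5) de1_6)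
theorem rc : recCk (recP 13 (4, 7, 22) 1 0 6).W 7 CL0 = true := by decide +kernel
theorem occ (O : OccL (recP 13 (4, 7, 22) 1 0 6) (locOK (Nat.testBit 1) (Nat.testBit 0) (Nat.testBit 6))) :
    False := by
  have k := first_stage O 1 (nlOK_A (by decide) (by decide)) rfl rfl rfl rfl rc cw0 cp
  have k := run_stage k rfl (nat_lit 1) (nat_lit 5) (nat_lit 2) (nat_lit 5) rfl cs0 ct0
  have k := next_stage k (nat_lit 3) (nat_lit 2) (nat_lit 9) (nat_lit 0) rfl rfl rfl rfl rfl vm1 cw1 cr1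
  have k := run_stage k rfl (nat_lit 2) (nat_lit 0) (nat_lit 1) (nat_lit 1) rfl cs1 ct1
  exact last_stage k rfl cd
theorem res : ∃ ok, OkP (4, 7, 22) ok ∧ IsEmpty (LTil (shP 13 (4, 7, 22) ok)) :=
  dead_P 1 0 6 (by decide +kernel) rc occ

end Pool.Agent.NNr.R13_4_7_22

namespace Pool.Agent.NNr.R13_5_6_22
open Pool.Agent.NNe Pool.Agent.NNc

theorem cw0 : ∀ w < 8, wfC (nat_lit 42) (nat_lit 9) (getC CL0 w) = true :=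
  (alS (alS (alS (alS (alS (alS (alS (alS al0 wf0_0) wf0_1) wf0_2) wf0_3) wf0_4) wf0_5) wf0_6) wf0_7)
theorem cp : ∀ w < 8, plCk (nat_lit 42) (nat_lit 9) (nat_lit 13) (nat_lit 0) (nat_lit 0) (nat_lit 7) (nat_lit 8) (nat_lit 4) w nl0 CL0 = true :=
  (alS (alS (alS (alS (alS (alS (alS (alS al0 pl0_0) pl0_1) pl0_2) pl0_3) pl0_4) pl0_5) pl0_6) pl0_7)
theorem cs0 : ∀ w < 8, StW (nat_lit 42) (nat_lit 9) (nat_lit 1) (nat_lit 4) (getC CL0 w) :=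
  (alS (alS (alS (alS (alS (alS (alS (alS al0 (stX (nat_lit 2) (nat_lit 0) (nat_lit 256) (Rl.cons (nat_lit 0) (nat_lit 7) Rl.nil) rfl rfl sc0_0 (rlc st0_0_0 rln))) (stX (nat_lit 1) (nat_lit 0) (nat_lit 16) (Rl.cons (nat_lit 0) (nat_lit 1) Rl.nil) rfl rfl sc0_1 (rlc st0_1_0 rln))) (stX (nat_lit 0) (nat_lit 13) (nat_lit 1) (Rl.cons (nat_lit 13) (nat_lit 10) Rl.nil) rfl rfl sc0_2 (rlc st0_2_0 rln))) (stX (nat_lit 2) (nat_lit 39) (nat_lit 256) (Rl.cons (nat_lit 39) (nat_lit 8) Rl.nil) rfl rfl sc0_3 (rlc st0_3_0 rln))) (stX (nat_lit 1) (nat_lit 7) (nat_lit 16) (Rl.cons (nat_lit 7) (nat_lit 3) Rl.nil) rfl rfl sc0_4 (rlc st0_4_0 rln))) (stX (nat_lit 1) (nat_lit 0) (nat_lit 16) Rl.nil rfl rfl sc0_5 rln)) (stX (nat_lit 1) (nat_lit 44) (nat_lit 16) (Rl.cons (nat_lit 44) (nat_lit 20) Rl.nil) rfl rfl sc0_6 (rlc st0_6_0 rln))) (stX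 (nat_lit 1) (nat_lit 41) (nat_lit 16) (Rl.cons (nat_lit 41) (nat_lit 19) Rl.nil) rfl rfl sc0_7 (rlc st0_7_0 rln)))
theorem ct0 : TiS (nat_lit 42) (nat_lit 9) (nat_lit 2) (nat_lit 4) (nat_lit 13) (nat_lit 8) (nat_lit 1) CL0 :=
  tiS ZZ0 (alS (alS (alS (alS (alS (alS (alS (alS al0 tc0_0) tc0_1) tc0_2) tc0_3) tc0_4) tc0_5) tc0_6) tc0_7)
  (zzc ⟨(nat_lit 67), zl0_0, ti0_0⟩ zzn)
theorem cd : ∀ w < 8, deadCk (nat_lit 42) (nat_lit 9) (getC CL0 w) = true :=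
  (alS (alS (alS (alS (alS (alS (alS (alS al0 de0_0) de0_1) de0_2) de0_3) de0_4) de0_5) de0_6) de0_7)
theorem rc : recCk (recP 13 (5, 6, 22) 0 0 7).W 8 CL0 = true := by decide +kernel
theorem occ (O : OccL (recP 13 (5, 6, 22) 0 0 7) (locOK (Nat.testBit 0) (Nat.testBit 0) (Nat.testBit 7))) :
    False := by
  have k := first_stage O 1 (nlOK_A (by decide) (by decide)) rfl rfl rfl rfl rc cw0 cp
  have k := run_stage k rfl (nat_lit 1) (nat_lit 4) (nat_lit 2) (nat_lit 4) rfl cs0 ct0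
  exact last_stage k rfl cd
theorem res : ∃ ok, OkP (5, 6, 22) ok ∧ IsEmpty (LTil (shP 13 (5, 6, 22) ok)) :=
  dead_P 0 0 7 (by decide +kernel) rc occ

end Pool.Agent.NNr.R13_5_6_22

namespace Pool.Agent.NNr.R15_2_7_18
open Pool.Agent.NNe Pool.Agent.NNc

theorem cw0 : ∀ w < 9, wfC (nat_lit 57) (nat_lit 7) (getC CL0 w) = true :=
  (alS (alS (alS (alS (alS (alS (alS (alS (alS al0 wf0_0) wf0_1) wf0_2) wf0_3) wf0_4) wf0_5) wf0_6) wf0_7) wf0_8)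
theorem cp : ∀ w < 9, plCk (nat_lit 57) (nat_lit 7) (nat_lit 15) (nat_lit 5) (nat_lit 0) (nat_lit 2) (nat_lit 9) (nat_lit 4) w nl0 CL0 = true :=
  (alS (alS (alS (alS (alS (alS (alS (alS (alS al0 pl0_0) pl0_1) pl0_2) pl0_3) pl0_4) pl0_5) pl0_6) pl0_7) pl0_8)
theorem cs0 : ∀ w < 9, StW (nat_lit 57) (nat_lit 7) (nat_lit 1) (nat_lit 3) (getC CL0 w) :=
  (alS (alS (alS (alS (alS (alS (alS (alS (alS al0 (stX (nat_lit 2) (nat_lit 0) (nat_lit 256) (Rl.cons (nat_lit 0) (nat_lit 8) Rl.nil) rfl rfl sc0_0 (rlc st0_0_0 rln))) (stX (nat_lit 0) (nat_lit 18) (nat_lit 1) (Rl.cons (nat_lit 18) (nat_lit 13) Rl.nil) rfl rfl sc0_1 (rlc st0_1_0 rln))) (stX (nat_lit 2) (nat_lit 45) (nat_lit 256) (Rl.cons (nat_lit 45) (nat_lit 9) Rl.nil) rfl rfl sc0_2 (rlc st0_2_0 rln))) (stX (nat_lit 0) (nat_lit 5) (nat_lit 1) (Rl.cons (nat_lit 5) (nat_lit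 5) Rl.nil) rfl rfl sc0_3 (rlc st0_3_0 rln))) (stX (nat_lit 2) (nat_lit 14) (nat_lit 256) (Rl.cons (nat_lit 14) (nat_lit 8) Rl.nil) rfl rfl sc0_4 (rlc st0_4_0 rln))) (stX (nat_lit 2) (nat_lit 22) (nat_lit 256) (Rl.cons (nat_lit 22) (nat_lit 4) Rl.nil) rfl rfl sc0_5 (rlc st0_5_0 rln))) (stX (nat_lit 1) (nat_lit 62) (nat_lit 16) (Rl.cons (nat_lit 62) (nat_lit 28) Rl.nil) rfl rfl sc0_6 (rlc st0_6_0 rln))) (stX (nat_lit 1) (nat_lit 43) (nat_lit 16) (Rl.cons (nat_lit 43) (nat_lit 20) Rl.nil) rfl rfl sc0_7 (rlc st0_7_0 rln))) (stX (nat_lit 1) (nat_lit 27) (nat_lit 16) (Rl.cons (nat_lit 27) (nat_lit 9) Rl.nil) rfl rfl sc0_8 (rlc st0_8_0 rln)))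
theorem ct0 : TiS (nat_lit 57) (nat_lit 7) (nat_lit 2) (nat_lit 3) (nat_lit 15) (nat_lit 9) (nat_lit 1) CL0 :=
  tiS ZZ0 (alS (alS (alS (alS (alS (alS (alS (alS (alS al0 tc0_0) tc0_1) tc0_2) tc0_3) tc0_4) tc0_5) tc0_6) tc0_7) tc0_8)
  (zzc ⟨(nat_lit 100), zl0_0, ti0_0⟩ zzn)
theorem cw1 : ∀ w < 9, wfC (nat_lit 3) (nat_lit 2) (getC CL1 w) = true :=
  (alS (alS (alS (alS (alS (alS (alS (alS (alS al0 wf1_0) wf1_1) wf1_2) wf1_3) wf1_4) wf1_5) wf1_6) wf1_7) wf1_8)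
theorem cr1 : ∀ w < 9, rfCk (nat_lit 57) (nat_lit 7) (nat_lit 3) (nat_lit 2) (nat_lit 9) (nat_lit 0) w TL1 CL0 CL1 = true :=
  (alS (alS (alS (alS (alS (alS (alS (alS (alS al0 rf1_0) rf1_1) rf1_2) rf1_3) rf1_4) rf1_5) rf1_6) rf1_7) rf1_8)
theorem vm1 : eqVM CL0 CL1 9 = true := by decide +kernel
theorem cs1 : ∀ w < 9, StW (nat_lit 3) (nat_lit 2) (nat_lit 2) (nat_lit 0) (getC CL1 w) :=
  (alS (alS (alS (alS (alS (alS (alS (alS (alS al0 (stX (nat_lit 2) (nat_lit 0) (nat_lit 256) Rl.nil rfl rfl sc1_0 rln)) (stX (nat_lit 0) (nat_lit 0) (nat_lit 1) (Rl.cons (nat_lit 0) (nat_lit 8) Rl.nil) rfl rfl sc1_1 (rlc (starCk_zero _ _ _ _ _ _ _) rln))) (stX (nat_lit 0) (nat_lit 0) (nat_lit 1) Rl.nil rfl rfl sc1_2 rln)) (stX (nat_lit 0) (nat_lit 0) (nat_lit 1) Rl.nil rfl rfl sc1_3 rln)) (stX (nat_lit 0) (nat_lit 0) (nat_lit 1) Rl.nil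 rfl rfl sc1_4 rln)) (stX (nat_lit 0) (nat_lit 0) (nat_lit 1) Rl.nil rfl rfl sc1_5 rln)) (stX (nat_lit 0) (nat_lit 0) (nat_lit 1) Rl.nil rfl rfl sc1_6 rln)) (stX (nat_lit 0) (nat_lit 0) (nat_lit 1) Rl.nil rfl rfl sc1_7 rln)) (stX (nat_lit 0) (nat_lit 0) (nat_lit 1) Rl.nil rfl rfl sc1_8 rln))
theorem ct1 : TiS (nat_lit 3) (nat_lit 2) (nat_lit 1) (nat_lit 1) (nat_lit 15) (nat_lit 9) (nat_lit 1) CL1 :=
  tiS ZZ1 (alS (alS (alS (alS (alS (alS (alS (alS (alS al0 tc1_0) tc1_1) tc1_2) tc1_3) tc1_4) tc1_5) tc1_6) tc1_7) tc1_8)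
  (zzc ⟨(nat_lit 2), zl1_0, ti1_0⟩ zzn)
theorem cd : ∀ w < 9, deadCk (nat_lit 3) (nat_lit 2) (getC CL1 w) = true :=
  (alS (alS (alS (alS (alS (alS (alS (alS (alS al0 de1_0) de1_1) de1_2) de1_3) de1_4) de1_5) de1_6) de1_7) de1_8)
theorem rc : recCk (recP 15 (2, 7, 18) 5 0 2).W 9 CL0 = true := by decide +kernel
theorem occ (O : OccL (recP 15 (2, 7, 18) 5 0 2) (locOK (Nat.testBit 5) (Nat.testBit 0) (Nat.testBit 2))) :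
    False := by
  have k := first_stage O 1 (nlOK_A (by decide) (by decide)) rfl rfl rfl rfl rc cw0 cp
  have k := run_stage k rfl (nat_lit 1) (nat_lit 3) (nat_lit 2) (nat_lit 3) rfl cs0 ct0
  have k := next_stage k (nat_lit 3) (nat_lit 2) (nat_lit 9) (nat_lit 0) rfl rfl rfl rfl rfl vm1 cw1 cr1
  have k := run_stage k rfl (nat_lit 2) (nat_lit 0) (nat_lit 1) (nat_lit 1) rfl cs1 ct1
  exact last_stage k rfl cd
theorem res : ∃ ok, OkP (2, 7, 18) ok ∧ IsEmpty (LTil (shP 15 (2, 7, 18) ok)) :=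
  dead_P 5 0 2 (by decide +kernel) rc occ

end Pool.Agent.NNr.R15_2_7_18

namespace Pool.Agent.NNr.R15_3_4_14
open Pool.Agent.NNe Pool.Agent.NNc

theorem cw0 : ∀ w < 12, wfC (nat_lit 56) (nat_lit 2) (getC CL0 w) = true :=
  (alS (alS (alS (alS (alS (alS (alS (alS (alS (alS (alS (alS al0 wf0_0) wf0_1) wf0_2) wf0_3) wf0_4) wf0_5) wf0_6) wf0_7) wf0_8) wf0_9) wf0_10) wf0_11)
theorem cp : ∀ w < 12, plCk (nat_lit 56) (nat_lit 2) (nat_lit 15) (nat_lit 0) (nat_lit 0) (nat_lit 7) (nat_lit 12) (nat_lit 4) w nl0 CL0 = true :=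
  (alS (alS (alS (alS (alS (alS (alS (alS (alS (alS (alS (alS al0 pl0_0) pl0_1) pl0_2) pl0_3) pl0_4) pl0_5) pl0_6) pl0_7) pl0_8) pl0_9) pl0_10) pl0_11)
theorem cs0 : ∀ w < 12, StW (nat_lit 56) (nat_lit 2) (nat_lit 2) (nat_lit 0) (getC CL0 w) :=
  (alS (alS (alS (alS (alS (alS (alS (alS (alS (alS (alS (alS al0 (stX (nat_lit 2) (nat_lit 0) (nat_lit 256) (Rl.cons (nat_lit 0) (nat_lit 20) Rl.nil) rfl rfl sc0_0 (rlc (starCk_zero _ _ _ _ _ _ _) rln))) (stX (nat_lit 1) (nat_lit 0) (nat_lit 16) (Rl.cons (nat_lit 0) (nat_lit 31) Rl.nil) rfl rfl sc0_1 (rlc (starCk_zero _ _ _ _ _ _ _) rln))) (stX (nat_lit 0) (nat_lit 0) (nat_lit 1) (Rl.cons (nat_lit 0) (nat_lit 102) Rl.nil) rfl rfl sc0_2 (rlc (starCk_zero _ _ _ _ _ _ _) rln))) (stX (nat_lit 0) (nat_lit 0) (nat_lit 1) (Rl.cons (nat_lit 0) (nat_lit 24) Rl.nil) rfl rfl sc0_3 (rlc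 (starCk_zero _ _ _ _ _ _ _) rln))) (stX (nat_lit 0) (nat_lit 0) (nat_lit 1) (Rl.cons (nat_lit 0) (nat_lit 70) Rl.nil) rfl rfl sc0_4 (rlc (starCk_zero _ _ _ _ _ _ _) rln))) (stX (nat_lit 0) (nat_lit 0) (nat_lit 1) (Rl.cons (nat_lit 0) (nat_lit 20) Rl.nil) rfl rfl sc0_5 (rlc (starCk_zero _ _ _ _ _ _ _) rln))) (stX (nat_lit 0) (nat_lit 0) (nat_lit 1) (Rl.cons (nat_lit 0) (nat_lit 55) Rl.nil) rfl rfl sc0_6 (rlc (starCk_zero _ _ _ _ _ _ _) rln))) (stX (nat_lit 0) (nat_lit 0) (nat_lit 1) (Rl.cons (nat_lit 0) (nat_lit 14) Rl.nil) rfl rfl sc0_7 (rlc (starCk_zero _ _ _ _ _ _ _) rln))) (stX (nat_lit 0) (nat_lit 0) (nat_lit 1) (Rl.cons (nat_lit 0) (nat_lit 3) Rl.nil) rfl rfl sc0_8 (rlc (starCk_zero _ _ _ _ _ _ _) rln))) (stX (nat_lit 0) (nat_lit 0) (nat_lit 1) (Rl.cons (nat_lit 0) (nat_lit 368) Rl.nil) rfl rfl sc0_9 (rlc (starCk_zero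 _ _ _ _ _ _ _) rln))) (stX (nat_lit 0) (nat_lit 0) (nat_lit 1) (Rl.cons (nat_lit 0) (nat_lit 187) Rl.nil) rfl rfl sc0_10 (rlc (starCk_zero _ _ _ _ _ _ _) rln))) (stX (nat_lit 0) (nat_lit 0) (nat_lit 1) (Rl.cons (nat_lit 0) (nat_lit 76) Rl.nil) rfl rfl sc0_11 (rlc (starCk_zero _ _ _ _ _ _ _) rln)))
theorem ct0 : TiS (nat_lit 56) (nat_lit 2) (nat_lit 1) (nat_lit 1) (nat_lit 15) (nat_lit 12) (nat_lit 1) CL0 :=
  tiS ZZ0 (alS (alS (alS (alS (alS (alS (alS (alS (alS (alS (alS (alS al0 tc0_0) tc0_1) tc0_2) tc0_3) tc0_4) tc0_5) tc0_6) tc0_7) tc0_8) tc0_9) tc0_10) tc0_11)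
  (zzc ⟨(nat_lit 123), zl0_0, ti0_0⟩ zzn)
theorem cw1 : ∀ w < 12, wfC (nat_lit 49) (nat_lit 2) (getC CL1 w) = true :=
  (alS (alS (alS (alS (alS (alS (alS (alS (alS (alS (alS (alS al0 wf1_0) wf1_1) wf1_2) wf1_3) wf1_4) wf1_5) wf1_6) wf1_7) wf1_8) wf1_9) wf1_10) wf1_11)
theorem cr1 : ∀ w < 12, rfCk (nat_lit 56) (nat_lit 2) (nat_lit 49) (nat_lit 2) (nat_lit 9) (nat_lit 0) w TL1 CL0 CL1 = true :=
  (alS (alS (alS (alS (alS (alS (alS (alS (alS (alS (alS (alS al0 rf1_0) rf1_1) rf1_2) rf1_3) rf1_4) rf1_5) rf1_6) rf1_7) rf1_8) rf1_9) rf1_10) rf1_11)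
theorem vm1 : eqVM CL0 CL1 12 = true := by decide +kernel
theorem cs1 : ∀ w < 12, StW (nat_lit 49) (nat_lit 2) (nat_lit 1) (nat_lit 1) (getC CL1 w) :=
  (alS (alS (alS (alS (alS (alS (alS (alS (alS (alS (alS (alS al0 (stX (nat_lit 2) (nat_lit 0) (nat_lit 256) (Rl.cons (nat_lit 0) (nat_lit 8) Rl.nil) rfl rfl sc1_0 (rlc st1_0_0 rln))) (stX (nat_lit 2) (nat_lit 15) (nat_lit 256) (Rl.cons (nat_lit 15) (nat_lit 4) Rl.nil) rfl rfl sc1_1 (rlc st1_1_0 rln))) (stX (nat_lit 0) (nat_lit 11) (nat_lit 1) (Rl.cons (nat_lit 11) (nat_lit 7) Rl.nil) rfl rfl sc1_2 (rlc st1_2_0 rln))) (stX (nat_lit 0) (nat_lit 6) (nat_lit 1) (Rl.cons (nat_lit 6) (nat_lit 5) Rl.nil) rfl rfl sc1_3 (rlc st1_3_0 rln))) (stX (nat_lit 2) (nat_lit 30) (nat_lit 256) (Rl.cons (nat_lit 30) (nat_lit 2) Rl.nil) rfl rfl sc1_4 (rlc st1_4_0 rln))) (stX (nat_lit 0) (nat_lit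 1) (nat_lit 1) (Rl.cons (nat_lit 1) (nat_lit 1) Rl.nil) rfl rfl sc1_5 (rlc st1_5_0 rln))) (stX (nat_lit 1) (nat_lit 5) (nat_lit 16) (Rl.cons (nat_lit 5) (nat_lit 1) Rl.nil) rfl rfl sc1_6 (rlc st1_6_0 rln))) (stX (nat_lit 0) (nat_lit 0) (nat_lit 1) Rl.nil rfl rfl sc1_7 rln)) (stX (nat_lit 0) (nat_lit 0) (nat_lit 1) Rl.nil rfl rfl sc1_8 rln)) (stX (nat_lit 1) (nat_lit 40) (nat_lit 16) (Rl.cons (nat_lit 40) (nat_lit 17) Rl.nil) rfl rfl sc1_9 (rlc st1_9_0 rln))) (stX (nat_lit 1) (nat_lit 36) (nat_lit 16) (Rl.cons (nat_lit 36) (nat_lit 15) Rl.nil) rfl rfl sc1_10 (rlc st1_10_0 rln))) (stX (nat_lit 3) (nat_lit 26) (nat_lit 4096) (Rl.cons (nat_lit 26) (nat_lit 19) Rl.nil) rfl rfl sc1_11 (rlc st1_11_0 rln)))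
theorem ct1 : TiS (nat_lit 49) (nat_lit 2) (nat_lit 2) (nat_lit 0) (nat_lit 15) (nat_lit 12) (nat_lit 1) CL1 :=
  tiS ZZ1 (alS (alS (alS (alS (alS (alS (alS (alS (alS (alS (alS (alS al0 tc1_0) tc1_1) tc1_2) tc1_3) tc1_4) tc1_5) tc1_6) tc1_7) tc1_8) tc1_9) tc1_10) tc1_11)
  (zzc ⟨(nat_lit 216), zl1_0, tileCk_zero _ _ _ _ _ _ _ _⟩ zzn)
theorem cw2 : ∀ w < 12, wfC (nat_lit 12) (nat_lit 2) (getC CL2 w) = true :=
  (alS (alS (alS (alS (alS (alS (alS (alS (alS (alS (alS (alS al0 wf2_0) wf2_1) wf2_2) wf2_3) wf2_4) wf2_5) wf2_6) wf2_7) wf2_8) wf2_9) wf2_10) wf2_11)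
theorem cr2 : ∀ w < 12, rfCk (nat_lit 49) (nat_lit 2) (nat_lit 12) (nat_lit 2) (nat_lit 9) (nat_lit 0) w TL2 CL1 CL2 = true :=
  (alS (alS (alS (alS (alS (alS (alS (alS (alS (alS (alS (alS al0 rf2_0) rf2_1) rf2_2) rf2_3) rf2_4) rf2_5) rf2_6) rf2_7) rf2_8) rf2_9) rf2_10) rf2_11)
theorem vm2 : eqVM CL1 CL2 12 = true := by decide +kernel
theorem cs2 : ∀ w < 12, StW (nat_lit 12) (nat_lit 2) (nat_lit 2) (nat_lit 0) (getC CL2 w) :=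
  (alS (alS (alS (alS (alS (alS (alS (alS (alS (alS (alS (alS al0 (stX (nat_lit 2) (nat_lit 0) (nat_lit 256) (Rl.cons (nat_lit 0) (nat_lit 1) Rl.nil) rfl rfl sc2_0 (rlc (starCk_zero _ _ _ _ _ _ _) rln))) (stX (nat_lit 1) (nat_lit 0) (nat_lit 16) (Rl.cons (nat_lit 0) (nat_lit 12) Rl.nil) rfl rfl sc2_1 (rlc (starCk_zero _ _ _ _ _ _ _) rln))) (stX (nat_lit 0) (nat_lit 0) (nat_lit 1) (Rl.cons (nat_lit 0) (nat_lit 26) Rl.nil) rfl rfl sc2_2 (rlc (starCk_zero _ _ _ _ _ _ _) rln))) (stX (nat_lit 0) (nat_lit 0) (nat_lit 1) (Rl.cons (nat_lit 0) (nat_lit 7) Rl.nil) rfl rfl sc2_3 (rlc (starCk_zero _ _ _ _ _ _ _) rln))) (stX (nat_lit 0) (nat_lit 0) (nat_lit 1) (Rl.cons (nat_lit 0) (nat_lit 18) Rl.nil) rfl rfl sc2_4 (rlc (starCk_zero _ _ _ _ _ _ _) rln))) (stX (nat_lit 0) (nat_lit 0) (nat_lit 1) (Rl.cons (nat_lit 0) (nat_lit 2) Rl.nil)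 rfl rfl sc2_5 (rlc (starCk_zero _ _ _ _ _ _ _) rln))) (stX (nat_lit 0) (nat_lit 0) (nat_lit 1) Rl.nil rfl rfl sc2_6 rln)) (stX (nat_lit 0) (nat_lit 0) (nat_lit 1) Rl.nil rfl rfl sc2_7 rln)) (stX (nat_lit 0) (nat_lit 0) (nat_lit 1) Rl.nil rfl rfl sc2_8 rln)) (stX (nat_lit 0) (nat_lit 0) (nat_lit 1) (Rl.cons (nat_lit 0) (nat_lit 44) Rl.nil) rfl rfl sc2_9 (rlc (starCk_zero _ _ _ _ _ _ _) rln))) (stX (nat_lit 0) (nat_lit 0) (nat_lit 1) (Rl.cons (nat_lit 0) (nat_lit 16) Rl.nil) rfl rfl sc2_10 (rlc (starCk_zero _ _ _ _ _ _ _) rln))) (stX (nat_lit 0) (nat_lit 0) (nat_lit 1) Rl.nil rfl rfl sc2_11 rln))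
theorem ct2 : TiS (nat_lit 12) (nat_lit 2) (nat_lit 1) (nat_lit 1) (nat_lit 15) (nat_lit 12) (nat_lit 1) CL2 :=
  tiS ZZ2 (alS (alS (alS (alS (alS (alS (alS (alS (alS (alS (alS (alS al0 tc2_0) tc2_1) tc2_2) tc2_3) tc2_4) tc2_5) tc2_6) tc2_7) tc2_8) tc2_9) tc2_10) tc2_11)
  (zzc ⟨(nat_lit 22), zl2_0, ti2_0⟩ zzn)
theorem cw3 : ∀ w < 12, wfC (nat_lit 4) (nat_lit 2) (getC CL3 w) = true :=
  (alS (alS (alS (alS (alS (alS (alS (alS (alS (alS (alS (alS al0 wf3_0) wf3_1) wf3_2) wf3_3) wf3_4) wf3_5) wf3_6) wf3_7) wf3_8) wf3_9) wf3_10) wf3_11)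
theorem cr3 : ∀ w < 12, rfCk (nat_lit 12) (nat_lit 2) (nat_lit 4) (nat_lit 2) (nat_lit 9) (nat_lit 0) w TL3 CL2 CL3 = true :=
  (alS (alS (alS (alS (alS (alS (alS (alS (alS (alS (alS (alS al0 rf3_0) rf3_1) rf3_2) rf3_3) rf3_4) rf3_5) rf3_6) rf3_7) rf3_8) rf3_9) rf3_10) rf3_11)
theorem vm3 : eqVM CL2 CL3 12 = true := by decide +kernel
theorem cs3 : ∀ w < 12, StW (nat_lit 4) (nat_lit 2) (nat_lit 1) (nat_lit 1) (getC CL3 w) :=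
  (alS (alS (alS (alS (alS (alS (alS (alS (alS (alS (alS (alS al0 (stX (nat_lit 2) (nat_lit 0) (nat_lit 256) Rl.nil rfl rfl sc3_0 rln)) (stX (nat_lit 2) (nat_lit 0) (nat_lit 256) Rl.nil rfl rfl sc3_1 rln)) (stX (nat_lit 0) (nat_lit 1) (nat_lit 1) (Rl.cons (nat_lit 1) (nat_lit 1) Rl.nil) rfl rfl sc3_2 (rlc st3_2_0 rln))) (stX (nat_lit 0) (nat_lit 0) (nat_lit 1) Rl.nil rfl rfl sc3_3 rln)) (stX (nat_lit 2) (nat_lit 0) (nat_lit 256) Rl.nil rfl rfl sc3_4 rln)) (stX (nat_lit 0) (nat_lit 0) (nat_lit 1) Rl.nil rfl rfl sc3_5 rln)) (stX (nat_lit 0) (nat_lit 0) (nat_lit 1) Rl.nil rfl rfl sc3_6 rln)) (stX (nat_lit 0) (nat_lit 0) (nat_lit 1) Rl.nil rfl rfl sc3_7 rln)) (stX (nat_lit 0) (nat_lit 0) (nat_lit 1) Rl.nil rfl rfl sc3_8 rln)) (stX (nat_lit 0) (nat_lit 0) (nat_lit 1) Rl.nil rfl rfl sc3_9 rln)) (stX (nat_lit 0) (nat_lit 0)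 (nat_lit 1) Rl.nil rfl rfl sc3_10 rln)) (stX (nat_lit 0) (nat_lit 0) (nat_lit 1) Rl.nil rfl rfl sc3_11 rln))
theorem ct3 : TiS (nat_lit 4) (nat_lit 2) (nat_lit 2) (nat_lit 0) (nat_lit 15) (nat_lit 12) (nat_lit 1) CL3 :=
  tiS ZZ3 (alS (alS (alS (alS (alS (alS (alS (alS (alS (alS (alS (alS al0 tc3_0) tc3_1) tc3_2) tc3_3) tc3_4) tc3_5) tc3_6) tc3_7) tc3_8) tc3_9) tc3_10) tc3_11)
  (zzc ⟨(nat_lit 9), zl3_0, tileCk_zero _ _ _ _ _ _ _ _⟩ zzn)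
theorem cd : ∀ w < 12, deadCk (nat_lit 4) (nat_lit 2) (getC CL3 w) = true :=
  (alS (alS (alS (alS (alS (alS (alS (alS (alS (alS (alS (alS al0 de3_0) de3_1) de3_2) de3_3) de3_4) de3_5) de3_6) de3_7) de3_8) de3_9) de3_10) de3_11)
theorem rc : recCk (recP 15 (3, 4, 14) 0 0 7).W 12 CL0 = true := by decide +kernel
theorem occ (O : OccL (recP 15 (3, 4, 14) 0 0 7) (locOK (Nat.testBit 0) (Nat.testBit 0) (Nat.testBit 7))) :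
    False := by
  have k := first_stage O 1 (nlOK_A (by decide) (by decide)) rfl rfl rfl rfl rc cw0 cp
  have k := run_stage k rfl (nat_lit 2) (nat_lit 0) (nat_lit 1) (nat_lit 1) rfl cs0 ct0
  have k := next_stage k (nat_lit 49) (nat_lit 2) (nat_lit 9) (nat_lit 0) rfl rfl rfl rfl rfl vm1 cw1 cr1
  have k := run_stage k rfl (nat_lit 1) (nat_lit 1) (nat_lit 2) (nat_lit 0) rfl cs1 ct1
  have k := next_stage k (nat_lit 12) (nat_lit 2) (nat_lit 9) (nat_lit 0) rfl rfl rfl rfl rfl vm2 cw2 cr2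
  have k := run_stage k rfl (nat_lit 2) (nat_lit 0) (nat_lit 1) (nat_lit 1) rfl cs2 ct2
  have k := next_stage k (nat_lit 4) (nat_lit 2) (nat_lit 9) (nat_lit 0) rfl rfl rfl rfl rfl vm3 cw3 cr3
  have k := run_stage k rfl (nat_lit 1) (nat_lit 1) (nat_lit 2) (nat_lit 0) rfl cs3 ct3
  exact last_stage k rfl cd
theorem res : ∃ ok, OkP (3, 4, 14) ok ∧ IsEmpty (LTil (shP 15 (3, 4, 14) ok)) :=
  dead_P 0 0 7 (by decide +kernel) rc occ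

end Pool.Agent.NNr.R15_3_4_14

namespace Pool.Agent.NNr.R15_6_7_26
open Pool.Agent.NNe Pool.Agent.NNc

theorem cw0 : ∀ w < 7, wfC (nat_lit 41) (nat_lit 2) (getC CL0 w) = true :=
  (alS (alS (alS (alS (alS (alS (alS al0 wf0_0) wf0_1) wf0_2) wf0_3) wf0_4) wf0_5) wf0_6)
theorem cp : ∀ w < 7, plCk (nat_lit 41) (nat_lit 2) (nat_lit 15) (nat_lit 0) (nat_lit 0) (nat_lit 7) (nat_lit 7) (nat_lit 4) w nl0 CL0 = true :=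
  (alS (alS (alS (alS (alS (alS (alS al0 pl0_0) pl0_1) pl0_2) pl0_3) pl0_4) pl0_5) pl0_6)
theorem cs0 : ∀ w < 7, StW (nat_lit 41) (nat_lit 2) (nat_lit 2) (nat_lit 0) (getC CL0 w) :=
  (alS (alS (alS (alS (alS (alS (alS al0 (stX (nat_lit 2) (nat_lit 0) (nat_lit 256) (Rl.cons (nat_lit 0) (nat_lit 13) Rl.nil) rfl rfl sc0_0 (rlc (starCk_zero _ _ _ _ _ _ _) rln))) (stX (nat_lit 0) (nat_lit 0) (nat_lit 1) (Rl.cons (nat_lit 0) (nat_lit 78) Rl.nil) rfl rfl sc0_1 (rlc (starCk_zero _ _ _ _ _ _ _) rln))) (stX (nat_lit 0) (nat_lit 0) (nat_lit 1) (Rl.cons (nat_lit 0) (nat_lit 62) Rl.nil) rfl rfl sc0_2 (rlc (starCk_zero _ _ _ _ _ _ _) rln))) (stX (nat_lit 0) (nat_lit 0) (nat_lit 1) (Rl.cons (nat_lit 0) (nat_lit 20) Rl.nil) rfl rfl sc0_3 (rlc (starCk_zero _ _ _ _ _ _ _) rln))) (stX (nat_lit 0) (nat_lit 0) (nat_lit 1) (Rl.cons (nat_lit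 0) (nat_lit 3) Rl.nil) rfl rfl sc0_4 (rlc (starCk_zero _ _ _ _ _ _ _) rln))) (stX (nat_lit 0) (nat_lit 0) (nat_lit 1) (Rl.cons (nat_lit 0) (nat_lit 276) Rl.nil) rfl rfl sc0_5 (rlc (starCk_zero _ _ _ _ _ _ _) rln))) (stX (nat_lit 0) (nat_lit 0) (nat_lit 1) (Rl.cons (nat_lit 0) (nat_lit 148) Rl.nil) rfl rfl sc0_6 (rlc (starCk_zero _ _ _ _ _ _ _) rln)))
theorem ct0 : TiS (nat_lit 41) (nat_lit 2) (nat_lit 1) (nat_lit 1) (nat_lit 15) (nat_lit 7) (nat_lit 1) CL0 :=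
  tiS ZZ0 (alS (alS (alS (alS (alS (alS (alS al0 tc0_0) tc0_1) tc0_2) tc0_3) tc0_4) tc0_5) tc0_6)
  (zzc ⟨(nat_lit 72), zl0_0, ti0_0⟩ zzn)
theorem cw1 : ∀ w < 7, wfC (nat_lit 17) (nat_lit 2) (getC CL1 w) = true :=
  (alS (alS (alS (alS (alS (alS (alS al0 wf1_0) wf1_1) wf1_2) wf1_3) wf1_4) wf1_5) wf1_6)
theorem cr1 : ∀ w < 7, rfCk (nat_lit 41) (nat_lit 2) (nat_lit 17) (nat_lit 2) (nat_lit 9) (nat_lit 0) w TL1 CL0 CL1 = true :=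
  (alS (alS (alS (alS (alS (alS (alS al0 rf1_0) rf1_1) rf1_2) rf1_3) rf1_4) rf1_5) rf1_6)
theorem vm1 : eqVM CL0 CL1 7 = true := by decide +kernel
theorem cs1 : ∀ w < 7, StW (nat_lit 17) (nat_lit 2) (nat_lit 1) (nat_lit 1) (getC CL1 w) :=
  (alS (alS (alS (alS (alS (alS (alS al0 (stX (nat_lit 2) (nat_lit 0) (nat_lit 256) (Rl.cons (nat_lit 0) (nat_lit 4) Rl.nil) rfl rfl sc1_0 (rlc st1_0_0 rln))) (stX (nat_lit 0) (nat_lit 5) (nat_lit 1) (Rl.cons (nat_lit 5) (nat_lit 4) Rl.nil) rfl rfl sc1_1 (rlc st1_1_0 rln))) (stX (nat_lit 2) (nat_lit 16) (nat_lit 256) (Rl.cons (nat_lit 16) (nat_lit 2) Rl.nil) rfl rfl sc1_2 (rlc st1_2_0 rln))) (stX (nat_lit 0) (nat_lit 1) (nat_lit 1) (Rl.cons (nat_lit 1) (nat_lit 1) Rl.nil) rfl rfl sc1_3 (rlc st1_3_0 rln))) (stX (nat_lit 0) (nat_lit 0) (nat_lit 1) Rl.nil rfl rfl sc1_4 rln)) (stX (nat_lit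 2) (nat_lit 24) (nat_lit 256) (Rl.cons (nat_lit 24) (nat_lit 3) Rl.nil) rfl rfl sc1_5 (rlc st1_5_0 rln))) (stX (nat_lit 1) (nat_lit 18) (nat_lit 16) (Rl.cons (nat_lit 18) (nat_lit 7) Rl.nil) rfl rfl sc1_6 (rlc st1_6_0 rln)))
theorem ct1 : TiS (nat_lit 17) (nat_lit 2) (nat_lit 2) (nat_lit 0) (nat_lit 15) (nat_lit 7) (nat_lit 1) CL1 :=
  tiS ZZ1 (alS (alS (alS (alS (alS (alS (alS al0 tc1_0) tc1_1) tc1_2) tc1_3) tc1_4) tc1_5) tc1_6)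
  (zzc ⟨(nat_lit 62), zl1_0, tileCk_zero _ _ _ _ _ _ _ _⟩ zzn)
theorem cw2 : ∀ w < 7, wfC (nat_lit 3) (nat_lit 2) (getC CL2 w) = true :=
  (alS (alS (alS (alS (alS (alS (alS al0 wf2_0) wf2_1) wf2_2) wf2_3) wf2_4) wf2_5) wf2_6)
theorem cr2 : ∀ w < 7, rfCk (nat_lit 17) (nat_lit 2) (nat_lit 3) (nat_lit 2) (nat_lit 9) (nat_lit 0) w TL2 CL1 CL2 = true :=
  (alS (alS (alS (alS (alS (alS (alS al0 rf2_0) rf2_1) rf2_2) rf2_3) rf2_4) rf2_5) rf2_6)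
theorem vm2 : eqVM CL1 CL2 7 = true := by decide +kernel
theorem cs2 : ∀ w < 7, StW (nat_lit 3) (nat_lit 2) (nat_lit 2) (nat_lit 0) (getC CL2 w) :=
  (alS (alS (alS (alS (alS (alS (alS al0 (stX (nat_lit 2) (nat_lit 0) (nat_lit 256) Rl.nil rfl rfl sc2_0 rln)) (stX (nat_lit 0) (nat_lit 0) (nat_lit 1) (Rl.cons (nat_lit 0) (nat_lit 10) Rl.nil) rfl rfl sc2_1 (rlc (starCk_zero _ _ _ _ _ _ _) rln))) (stX (nat_lit 0) (nat_lit 0) (nat_lit 1) Rl.nil rfl rfl sc2_2 rln)) (stX (nat_lit 0) (nat_lit 0) (nat_lit 1) Rl.nil rfl rfl sc2_3 rln)) (stX (nat_lit 0) (nat_lit 0) (nat_lit 1) Rl.nil rfl rfl sc2_4 rln)) (stX (nat_lit 0) (nat_lit 0) (nat_lit 1) Rl.nil rfl rfl sc2_5 rln)) (stX (nat_lit 0) (nat_lit 0) (nat_lit 1) Rl.nil rfl rfl sc2_6 rln))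
theorem ct2 : TiS (nat_lit 3) (nat_lit 2) (nat_lit 1) (nat_lit 1) (nat_lit 15) (nat_lit 7) (nat_lit 1) CL2 :=
  tiS ZZ2 (alS (alS (alS (alS (alS (alS (alS al0 tc2_0) tc2_1) tc2_2) tc2_3) tc2_4) tc2_5) tc2_6)
  (zzc ⟨(nat_lit 2), zl2_0, ti2_0⟩ zzn)
theorem cd : ∀ w < 7, deadCk (nat_lit 3) (nat_lit 2) (getC CL2 w) = true :=
  (alS (alS (alS (alS (alS (alS (alS al0 de2_0) de2_1) de2_2) de2_3) de2_4) de2_5) de2_6)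
theorem rc : recCk (recP 15 (6, 7, 26) 0 0 7).W 7 CL0 = true := by decide +kernel
theorem occ (O : OccL (recP 15 (6, 7, 26) 0 0 7) (locOK (Nat.testBit 0) (Nat.testBit 0) (Nat.testBit 7))) :
    False := by
  have k := first_stage O 1 (nlOK_A (by decide) (by decide)) rfl rfl rfl rfl rc cw0 cp
  have k := run_stage k rfl (nat_lit 2) (nat_lit 0) (nat_lit 1) (nat_lit 1) rfl cs0 ct0
  have k := next_stage k (nat_lit 17) (nat_lit 2) (nat_lit 9) (nat_lit 0) rfl rfl rfl rfl rfl vm1 cw1 cr1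
  have k := run_stage k rfl (nat_lit 1) (nat_lit 1) (nat_lit 2) (nat_lit 0) rfl cs1 ct1
  have k := next_stage k (nat_lit 3) (nat_lit 2) (nat_lit 9) (nat_lit 0) rfl rfl rfl rfl rfl vm2 cw2 cr2
  have k := run_stage k rfl (nat_lit 2) (nat_lit 0) (nat_lit 1) (nat_lit 1) rfl cs2 ct2
  exact last_stage k rfl cd
theorem res : ∃ ok, OkP (6, 7, 26) ok ∧ IsEmpty (LTil (shP 15 (6, 7, 26) ok)) :=
  dead_P 0 0 7 (by decide +kernel) rc occ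

end Pool.Agent.NNr.R15_6_7_26

namespace Pool.Agent.NNr.U11_2_2_m1
open Pool.Agent.NNe Pool.Agent.NNc

theorem cw0 : ∀ w < 5, wfC (nat_lit 57) (nat_lit 13) (getC CL0 w) = true :=
  (alS (alS (alS (alS (alS al0 wf0_0) wf0_1) wf0_2) wf0_3) wf0_4)
theorem cp : ∀ w < 5, plCk (nat_lit 57) (nat_lit 13) (nat_lit 11) (nat_lit 7) (nat_lit 7) (nat_lit 7) (nat_lit 5) (nat_lit 4) w nl0 CL0 = true :=
  (alS (alS (alS (alS (alS al0 pl0_0) pl0_1) pl0_2) pl0_3) pl0_4)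
theorem cs0 : ∀ w < 5, StW (nat_lit 57) (nat_lit 13) (nat_lit 1) (nat_lit 6) (getC CL0 w) :=
  (alS (alS (alS (alS (alS al0 (stX (nat_lit 2) (nat_lit 0) (nat_lit 256) (Rl.cons (nat_lit 0) (nat_lit 5) Rl.nil) rfl rfl sc0_0 (rlc st0_0_0 rln))) (stX (nat_lit 0) (nat_lit 11) (nat_lit 1) (Rl.cons (nat_lit 11) (nat_lit 9) Rl.nil) rfl rfl sc0_1 (rlc st0_1_0 rln))) (stX (nat_lit 2) (nat_lit 22) (nat_lit 256) (Rl.cons (nat_lit 22) (nat_lit 4) Rl.nil) rfl rfl sc0_2 (rlc st0_2_0 rln))) (stX (nat_lit 1) (nat_lit 43) (nat_lit 16) (Rl.cons (nat_lit 43) (nat_lit 19) Rl.nil) rfl rfl sc0_3 (rlc st0_3_0 rln))) (stX (nat_lit 1) (nat_lit 37) (nat_lit 16) (Rl.cons (nat_lit 37) (nat_lit 17) Rl.nil) rfl rfl sc0_4 (rlc st0_4_0 rln)))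
theorem ct0 : TiS (nat_lit 57) (nat_lit 13) (nat_lit 2) (nat_lit 6) (nat_lit 11) (nat_lit 5) (nat_lit 1) CL0 :=
  tiS ZZ0 (alS (alS (alS (alS (alS al0 tc0_0) tc0_1) tc0_2) tc0_3) tc0_4)
  (zzc ⟨(nat_lit 52), zl0_0, ti0_0⟩ zzn)
theorem cw1 : ∀ w < 5, wfC (nat_lit 2) (nat_lit 1) (getC CL1 w) = true :=
  (alS (alS (alS (alS (alS al0 wf1_0) wf1_1) wf1_2) wf1_3) wf1_4)
theorem cr1 : ∀ w < 5, rfCk (nat_lit 57) (nat_lit 13) (nat_lit 2) (nat_lit 1) (nat_lit 9) (nat_lit 0) w TL1 CL0 CL1 = true :=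
  (alS (alS (alS (alS (alS al0 rf1_0) rf1_1) rf1_2) rf1_3) rf1_4)
theorem vm1 : eqVM CL0 CL1 5 = true := by decide +kernel
theorem cd : ∀ w < 5, deadCk (nat_lit 2) (nat_lit 1) (getC CL1 w) = true :=
  (alS (alS (alS (alS (alS al0 de1_0) de1_1) de1_2) de1_3) de1_4)
theorem rc : recCk (recU 11 (2, 2, -1)).W 5 CL0 = true := by decide +kernel
theorem occ (O : OccL (recU 11 (2, 2, -1)) (locOK (Nat.testBit 7) (Nat.testBit 7) (Nat.testBit 7))) :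
    False := by
  have k := first_stage O 1 nlOK_U rfl rfl rfl rfl rc cw0 cp
  have k := run_stage k rfl (nat_lit 1) (nat_lit 6) (nat_lit 2) (nat_lit 6) rfl cs0 ct0
  have k := next_stage k (nat_lit 2) (nat_lit 1) (nat_lit 9) (nat_lit 0) rfl rfl rfl rfl rfl vm1 cw1 cr1
  exact last_stage k rfl cd
theorem res : ∃ ok, OkU (2, 2, -1) ok ∧ IsEmpty (LTil (shU 11 (2, 2, -1) ok)) :=
  dead_U rc occ

end Pool.Agent.NNr.U11_2_2_m1
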