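import Pool.Agent.NNe.Ch
import Pool.Agent.NNe.Slots
import Pool.Agent.NNr.R11_1_2_13.K0
import Pool.Agent.NNr.R11_1_2_14.K0
import Pool.Agent.NNr.R11_1_4_9.K0
import Pool.Agent.NNr.R11_1_6_7.K0
import Pool.Agent.NNr.R11_1_6_7.K1
import Pool.Agent.NNr.R11_2_15_16.K0
import Pool.Agent.NNr.R11_2_3_4.K0
import Pool.Agent.NNr.R11_2_6_7.K0
import Pool.Agent.NNr.R11_3_5_10.K0
import Pool.Agent.NNr.R11_3_5_16.K0
import Pool.Agent.NNr.R11_4_5_6.K0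
import Pool.Agent.NNr.R11_6_13_14.K0
import Pool.Agent.NNr.R11_6_7_14.K0
import Pool.Agent.NNr.R13_1_4_5.K0
import Pool.Agent.NNr.R13_1_4_5.K1
import Pool.Agent.NNr.R13_1_4_5.K2
import Pool.Agent.NNr.R13_1_4_5.K3
import Pool.Agent.NNr.R13_1_7_16.K0
import Pool.Agent.NNr.R13_1_9_20.K0
import Pool.Agent.NNr.R13_2_7_9.K0
import Pool.Agent.NNr.R15_1_2_4.K0
import Pool.Agent.NNr.R15_1_2_4.K1
import Pool.Agent.NNr.R15_1_2_4.K2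
import Pool.Agent.NNr.R15_1_2_5.K0
import Pool.Agent.NNr.R15_1_2_5.K1
import Pool.Agent.NNr.R15_1_2_5.K2
import Pool.Agent.NNr.R15_1_5_12.K0
import Pool.Agent.NNr.R15_3_7_20.K0

set_option linter.all false
set_option maxRecDepth 1000000

namespace Pool.Agent.NNr.R11_1_2_13
open Pool.Agent.NNe Pool.Agent.NNc

theorem cw0 : ∀ w < 10, wfC (nat_lit 53) (nat_lit 13) (getC CL0 w) = true :=
  (alS (alS (alS (alS (alS (alS (alS (alS (alS (alS al0 wf0_0) wf0_1) wf0_2) wf0_3) wf0_4) wf0_5) wf0_6) wf0_7) wf0_8) wf0_9)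
theorem cp : ∀ w < 10, plCk (nat_lit 53) (nat_lit 13) (nat_lit 11) (nat_lit 1) (nat_lit 0) (nat_lit 6) (nat_lit 10) (nat_lit 4) w nl0 CL0 = true :=
  (alS (alS (alS (alS (alS (alS (alS (alS (alS (alS al0 pl0_0) pl0_1) pl0_2) pl0_3) pl0_4) pl0_5) pl0_6) pl0_7) pl0_8) pl0_9)
theorem cs0 : ∀ w < 10, StW (nat_lit 53) (nat_lit 13) (nat_lit 1) (nat_lit 6) (getC CL0 w) :=
  (alS (alS (alS (alS (alS (alS (alS (alS (alS (alS al0 (stX (nat_lit 2) (nat_lit 22) (nat_lit 256) (Rl.cons (nat_lit 22) (nat_lit 11) Rl.nil) rfl rfl sc0_0 (rlc st0_0_0 rln))) (stX (nat_lit 0) (nat_lit 0) (nat_lit 1) Rl.nil rfl rfl sc0_1 rln)) (stX (nat_lit 2) (nat_lit 58) (nat_lit 256) (Rl.cons (nat_lit 58) (nat_lit 10) Rl.nil) rfl rfl sc0_2 (rlc st0_2_0 rln))) (stX (nat_lit 1) (nat_lit 26) (nat_lit 16) (Rl.cons (nat_lit 26) (nat_lit 8) Rl.nil) rfl rfl sc0_3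 (rlc st0_3_0 rln))) (stX (nat_lit 2) (nat_lit 15) (nat_lit 256) (Rl.cons (nat_lit 15) (nat_lit 5) Rl.nil) rfl rfl sc0_4 (rlc st0_4_0 rln))) (stX (nat_lit 3) (nat_lit 37) (nat_lit 4096) (Rl.cons (nat_lit 37) (nat_lit 31) Rl.nil) rfl rfl sc0_5 (rlc st0_5_0 rln))) (stX (nat_lit 1) (nat_lit 67) (nat_lit 16) (Rl.cons (nat_lit 67) (nat_lit 28) Rl.nil) rfl rfl sc0_6 (rlc st0_6_0 rln))) (stX (nat_lit 0) (nat_lit 9) (nat_lit 1) (Rl.cons (nat_lit 9) (nat_lit 12) Rl.nil) rfl rfl sc0_7 (rlc st0_7_0 rln))) (stX (nat_lit 2) (nat_lit 57) (nat_lit 256) (Rl.cons (nat_lit 57) (nat_lit 33) Rl.nil) rfl rfl sc0_8 (rlc st0_8_0 rln))) (stX (nat_lit 0) (nat_lit 0) (nat_lit 1) Rl.nil rfl rfl sc0_9 rln))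
theorem ct0 : TiS (nat_lit 53) (nat_lit 13) (nat_lit 2) (nat_lit 6) (nat_lit 11) (nat_lit 10) (nat_lit 1) CL0 :=
  tiS ZZ0 (alS (alS (alS (alS (alS (alS (alS (alS (alS (alS al0 tc0_0) tc0_1) tc0_2) tc0_3) tc0_4) tc0_5) tc0_6) tc0_7) tc0_8) tc0_9)
  (zzc ⟨(nat_lit 82), zl0_0, ti0_0⟩ zzn)
theorem cw1 : ∀ w < 10, wfC (nat_lit 5) (nat_lit 2) (getC CL1 w) = true :=
  (alS (alS (alS (alS (alS (alS (alS (alS (alS (alS al0 wf1_0) wf1_1) wf1_2) wf1_3) wf1_4) wf1_5) wf1_6) wf1_7) wf1_8) wf1_9)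
theorem cr1 : ∀ w < 10, rfCk (nat_lit 53) (nat_lit 13) (nat_lit 5) (nat_lit 2) (nat_lit 9) (nat_lit 0) w TL1 CL0 CL1 = true :=
  (alS (alS (alS (alS (alS (alS (alS (alS (alS (alS al0 rf1_0) rf1_1) rf1_2) rf1_3) rf1_4) rf1_5) rf1_6) rf1_7) rf1_8) rf1_9)
theorem vm1 : eqVM CL0 CL1 10 = true := by decide +kernel
theorem cs1 : ∀ w < 10, StW (nat_lit 5) (nat_lit 2) (nat_lit 2) (nat_lit 0) (getC CL1 w) :=
  (alS (alS (alS (alS (alS (alS (alS (alS (alS (alS al0 (stX (nat_lit 1) (nat_lit 0) (nat_lit 16) Rl.nil rfl rfl sc1_0 rln)) (stX (nat_lit 0) (nat_lit 0) (nat_lit 1) Rl.nil rfl rfl sc1_1 rln)) (stX (nat_lit 0) (nat_lit 0) (nat_lit 1) Rl.nil rfl rfl sc1_2 rln)) (stX (nat_lit 0) (nat_lit 0) (nat_lit 1) Rl.nil rfl rfl sc1_3 rln)) (stX (nat_lit 0) (nat_lit 0) (nat_lit 1) Rl.nil rfl rfl sc1_4 rln)) (stX (nat_lit 1) (nat_lit 0)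 (nat_lit 16) Rl.nil rfl rfl sc1_5 rln)) (stX (nat_lit 0) (nat_lit 0) (nat_lit 1) (Rl.cons (nat_lit 0) (nat_lit 16) Rl.nil) rfl rfl sc1_6 (rlc (starCk_zero _ _ _ _ _ _ _) rln))) (stX (nat_lit 0) (nat_lit 0) (nat_lit 1) Rl.nil rfl rfl sc1_7 rln)) (stX (nat_lit 0) (nat_lit 0) (nat_lit 1) Rl.nil rfl rfl sc1_8 rln)) (stX (nat_lit 0) (nat_lit 0) (nat_lit 1) Rl.nil rfl rfl sc1_9 rln))
theorem ct1 : TiS (nat_lit 5) (nat_lit 2) (nat_lit 1) (nat_lit 1) (nat_lit 11) (nat_lit 10) (nat_lit 1) CL1 :=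
  tiS ZZ1 (alS (alS (alS (alS (alS (alS (alS (alS (alS (alS al0 tc1_0) tc1_1) tc1_2) tc1_3) tc1_4) tc1_5) tc1_6) tc1_7) tc1_8) tc1_9)
  (zzc ⟨(nat_lit 2), zl1_0, ti1_0⟩ zzn)
theorem cd : ∀ w < 10, deadCk (nat_lit 5) (nat_lit 2) (getC CL1 w) = true :=
  (alS (alS (alS (alS (alS (alS (alS (alS (alS (alS al0 de1_0) de1_1) de1_2) de1_3) de1_4) de1_5) de1_6) de1_7) de1_8) de1_9)
theorem rc : recCk (recP 11 (1, 2, 13) 1 0 6).W 10 CL0 = true := by decide +kernel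
theorem occ (O : OccL (recP 11 (1, 2, 13) 1 0 6) (locOK (Nat.testBit 1) (Nat.testBit 0) (Nat.testBit 6))) :
    False := by
  have k := first_stage O 1 (nlOK_A (by decide) (by decide)) rfl rfl rfl rfl rc cw0 cp
  have k := run_stage k rfl (nat_lit 1) (nat_lit 6) (nat_lit 2) (nat_lit 6) rfl cs0 ct0
  have k := next_stage k (nat_lit 5) (nat_lit 2) (nat_lit 9) (nat_lit 0) rfl rfl rfl rfl rfl vm1 cw1 cr1
  have k := run_stage k rfl (nat_lit 2) (nat_lit 0) (nat_lit 1) (nat_lit 1) rfl cs1 ct1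
  exact last_stage k rfl cd
theorem res : ∃ ok, OkP (1, 2, 13) ok ∧ IsEmpty (LTil (shP 11 (1, 2, 13) ok)) :=
  dead_P 1 0 6 (by decide +kernel) rc occ

end Pool.Agent.NNr.R11_1_2_13

namespace Pool.Agent.NNr.R11_1_2_14
open Pool.Agent.NNe Pool.Agent.NNc

theorem cw0 : ∀ w < 9, wfC (nat_lit 52) (nat_lit 14) (getC CL0 w) = true :=
  (alS (alS (alS (alS (alS (alS (alS (alS (alS al0 wf0_0) wf0_1) wf0_2) wf0_3) wf0_4) wf0_5) wf0_6) wf0_7) wf0_8)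
theorem cp : ∀ w < 9, plCk (nat_lit 52) (nat_lit 14) (nat_lit 11) (nat_lit 1) (nat_lit 0) (nat_lit 6) (nat_lit 9) (nat_lit 4) w nl0 CL0 = true :=
  (alS (alS (alS (alS (alS (alS (alS (alS (alS al0 pl0_0) pl0_1) pl0_2) pl0_3) pl0_4) pl0_5) pl0_6) pl0_7) pl0_8)
theorem cs0 : ∀ w < 9, StW (nat_lit 52) (nat_lit 14) (nat_lit 2) (nat_lit 6) (getC CL0 w) :=
  (alS (alS (alS (alS (alS (alS (alS (alS (alS al0 (stX (nat_lit 2) (nat_lit 21) (nat_lit 256) (Rl.cons (nat_lit 21) (nat_lit 8) Rl.nil) rfl rfl sc0_0 (rlc st0_0_0 rln))) (stX (nat_lit 1) (nat_lit 0) (nat_lit 16) Rl.nil rfl rfl sc0_1 rln)) (stX (nat_lit 2) (nat_lit 58) (nat_lit 256) (Rl.cons (nat_lit 58) (nat_lit 10) Rl.nil) rfl rfl sc0_2 (rlc st0_2_0 rln))) (stX (nat_lit 1) (nat_lit 26) (nat_lit 16) (Rl.cons (nat_lit 26) (nat_lit 8) Rl.nil) rfl rfl sc0_3 (rlc st0_3_0 rln)))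 (stX (nat_lit 2) (nat_lit 15) (nat_lit 256) (Rl.cons (nat_lit 15) (nat_lit 5) Rl.nil) rfl rfl sc0_4 (rlc st0_4_0 rln))) (stX (nat_lit 1) (nat_lit 61) (nat_lit 16) (Rl.cons (nat_lit 61) (nat_lit 25) Rl.nil) rfl rfl sc0_5 (rlc st0_5_0 rln))) (stX (nat_lit 0) (nat_lit 8) (nat_lit 1) (Rl.cons (nat_lit 8) (nat_lit 11) Rl.nil) rfl rfl sc0_6 (rlc st0_6_0 rln))) (stX (nat_lit 2) (nat_lit 50) (nat_lit 256) (Rl.cons (nat_lit 50) (nat_lit 26) Rl.nil) rfl rfl sc0_7 (rlc st0_7_0 rln))) (stX (nat_lit 0) (nat_lit 0) (nat_lit 1) Rl.nil rfl rfl sc0_8 rln))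
theorem ct0 : TiS (nat_lit 52) (nat_lit 14) (nat_lit 1) (nat_lit 7) (nat_lit 11) (nat_lit 9) (nat_lit 1) CL0 :=
  tiS ZZ0 (alS (alS (alS (alS (alS (alS (alS (alS (alS al0 tc0_0) tc0_1) tc0_2) tc0_3) tc0_4) tc0_5) tc0_6) tc0_7) tc0_8)
  (zzc ⟨(nat_lit 65), zl0_0, ti0_0⟩ zzn)
theorem cd : ∀ w < 9, deadCk (nat_lit 52) (nat_lit 14) (getC CL0 w) = true :=
  (alS (alS (alS (alS (alS (alS (alS (alS (alS al0 de0_0) de0_1) de0_2) de0_3) de0_4) de0_5) de0_6) de0_7) de0_8)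
theorem rc : recCk (recP 11 (1, 2, 14) 1 0 6).W 9 CL0 = true := by decide +kernel
theorem occ (O : OccL (recP 11 (1, 2, 14) 1 0 6) (locOK (Nat.testBit 1) (Nat.testBit 0) (Nat.testBit 6))) :
    False := by
  have k := first_stage O 1 (nlOK_A (by decide) (by decide)) rfl rfl rfl rfl rc cw0 cp
  have k := run_stage k rfl (nat_lit 2) (nat_lit 6) (nat_lit 1) (nat_lit 7) rfl cs0 ct0
  exact last_stage k rfl cd
theorem res : ∃ ok, OkP (1, 2, 14) ok ∧ IsEmpty (LTil (shP 11 (1, 2, 14) ok)) :=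
  dead_P 1 0 6 (by decide +kernel) rc occ

end Pool.Agent.NNr.R11_1_2_14

namespace Pool.Agent.NNr.R11_1_4_9
open Pool.Agent.NNe Pool.Agent.NNc

theorem cw0 : ∀ w < 11, wfC (nat_lit 53) (nat_lit 2) (getC CL0 w) = true :=
  (alS (alS (alS (alS (alS (alS (alS (alS (alS (alS (alS al0 wf0_0) wf0_1) wf0_2) wf0_3) wf0_4) wf0_5) wf0_6) wf0_7) wf0_8) wf0_9) wf0_10)
theorem cp : ∀ w < 11, plCk (nat_lit 53) (nat_lit 2) (nat_lit 11) (nat_lit 5) (nat_lit 0) (nat_lit 2) (nat_lit 11) (nat_lit 4) w nl0 CL0 = true :=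
  (alS (alS (alS (alS (alS (alS (alS (alS (alS (alS (alS al0 pl0_0) pl0_1) pl0_2) pl0_3) pl0_4) pl0_5) pl0_6) pl0_7) pl0_8) pl0_9) pl0_10)
theorem cs0 : ∀ w < 11, StW (nat_lit 53) (nat_lit 2) (nat_lit 2) (nat_lit 0) (getC CL0 w) :=
  (alS (alS (alS (alS (alS (alS (alS (alS (alS (alS (alS al0 (stX (nat_lit 1) (nat_lit 0) (nat_lit 16) (Rl.cons (nat_lit 0) (nat_lit 9) Rl.nil) rfl rfl sc0_0 (rlc (starCk_zero _ _ _ _ _ _ _) rln))) (stX (nat_lit 0) (nat_lit 0) (nat_lit 1) (Rl.cons (nat_lit 0) (nat_lit 51) Rl.nil) rfl rfl sc0_1 (rlc (starCk_zero _ _ _ _ _ _ _) rln))) (stX (nat_lit 0) (nat_lit 0) (nat_lit 1) (Rl.cons (nat_lit 0) (nat_lit 96) Rl.nil) rfl rfl sc0_2 (rlc (starCk_zero _ _ _ _ _ _ _) rln))) (stX (nat_lit 0) (nat_lit 0) (nat_lit 1) (Rl.cons (nat_lit 0) (nat_lit 56) Rl.nil) rfl rfl sc0_3 (rlc (starCk_zero _ _ _ _ _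 _ _) rln))) (stX (nat_lit 0) (nat_lit 0) (nat_lit 1) (Rl.cons (nat_lit 0) (nat_lit 14) Rl.nil) rfl rfl sc0_4 (rlc (starCk_zero _ _ _ _ _ _ _) rln))) (stX (nat_lit 0) (nat_lit 0) (nat_lit 1) (Rl.cons (nat_lit 0) (nat_lit 31) Rl.nil) rfl rfl sc0_5 (rlc (starCk_zero _ _ _ _ _ _ _) rln))) (stX (nat_lit 0) (nat_lit 0) (nat_lit 1) Rl.nil rfl rfl sc0_6 rln)) (stX (nat_lit 0) (nat_lit 0) (nat_lit 1) (Rl.cons (nat_lit 0) (nat_lit 466) Rl.nil) rfl rfl sc0_7 (rlc (starCk_zero _ _ _ _ _ _ _) rln))) (stX (nat_lit 0) (nat_lit 0) (nat_lit 1) (Rl.cons (nat_lit 0) (nat_lit 210) Rl.nil) rfl rfl sc0_8 (rlc (starCk_zero _ _ _ _ _ _ _) rln))) (stX (nat_lit 0) (nat_lit 0) (nat_lit 1) (Rl.cons (nat_lit 0) (nat_lit 207) Rl.nil) rfl rfl sc0_9 (rlc (starCk_zero _ _ _ _ _ _ _) rln))) (stX (nat_lit 0) (nat_lit 0) (nat_lit 1) (Rl.cons (nat_lit 0)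 (nat_lit 86) Rl.nil) rfl rfl sc0_10 (rlc (starCk_zero _ _ _ _ _ _ _) rln)))
theorem ct0 : TiS (nat_lit 53) (nat_lit 2) (nat_lit 1) (nat_lit 1) (nat_lit 11) (nat_lit 11) (nat_lit 1) CL0 :=
  tiS ZZ0 (alS (alS (alS (alS (alS (alS (alS (alS (alS (alS (alS al0 tc0_0) tc0_1) tc0_2) tc0_3) tc0_4) tc0_5) tc0_6) tc0_7) tc0_8) tc0_9) tc0_10)
  (zzc ⟨(nat_lit 109), zl0_0, ti0_0⟩ zzn)
theorem cw1 : ∀ w < 11, wfC (nat_lit 27) (nat_lit 8) (getC CL1 w) = true :=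
  (alS (alS (alS (alS (alS (alS (alS (alS (alS (alS (alS al0 wf1_0) wf1_1) wf1_2) wf1_3) wf1_4) wf1_5) wf1_6) wf1_7) wf1_8) wf1_9) wf1_10)
theorem cr1 : ∀ w < 11, rfCk (nat_lit 53) (nat_lit 2) (nat_lit 27) (nat_lit 8) (nat_lit 9) (nat_lit 0) w TL1 CL0 CL1 = true :=
  (alS (alS (alS (alS (alS (alS (alS (alS (alS (alS (alS al0 rf1_0) rf1_1) rf1_2) rf1_3) rf1_4) rf1_5) rf1_6) rf1_7) rf1_8) rf1_9) rf1_10)
theorem vm1 : eqVM CL0 CL1 11 = true := by decide +kernel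
theorem cs1 : ∀ w < 11, StW (nat_lit 27) (nat_lit 8) (nat_lit 1) (nat_lit 4) (getC CL1 w) :=
  (alS (alS (alS (alS (alS (alS (alS (alS (alS (alS (alS al0 (stX (nat_lit 1) (nat_lit 0) (nat_lit 16) (Rl.cons (nat_lit 0) (nat_lit 3) Rl.nil) rfl rfl sc1_0 (rlc st1_0_0 rln))) (stX (nat_lit 0) (nat_lit 3) (nat_lit 1) (Rl.cons (nat_lit 3) (nat_lit 3) Rl.nil) rfl rfl sc1_1 (rlc st1_1_0 rln))) (stX (nat_lit 0) (nat_lit 0) (nat_lit 1) Rl.nil rfl rfl sc1_2 rln)) (stX (nat_lit 0) (nat_lit 0) (nat_lit 1) Rl.nil rfl rfl sc1_3 rln)) (stX (nat_lit 0) (nat_lit 0) (nat_lit 1) Rl.nil rfl rfl sc1_4 rln)) (stX (nat_lit 1) (nat_lit 3) (nat_lit 16) (Rl.cons (nat_lit 3) (nat_lit 1) Rl.nil) rfl rfl sc1_5 (rlc st1_5_0 rln))) (stX (nat_lit 0) (nat_lit 0) (nat_lit 1) Rl.nil rfl rfl sc1_6 rln)) (stX (nat_lit 2) (nat_lit 69) (nat_lit 256) (Rl.cons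 (nat_lit 69) (nat_lit 10) Rl.nil) rfl rfl sc1_7 (rlc st1_7_0 rln))) (stX (nat_lit 0) (nat_lit 0) (nat_lit 1) Rl.nil rfl rfl sc1_8 rln)) (stX (nat_lit 2) (nat_lit 18) (nat_lit 256) (Rl.cons (nat_lit 18) (nat_lit 9) Rl.nil) rfl rfl sc1_9 (rlc st1_9_0 rln))) (stX (nat_lit 3) (nat_lit 0) (nat_lit 4096) Rl.nil rfl rfl sc1_10 rln))
theorem ct1 : TiS (nat_lit 27) (nat_lit 8) (nat_lit 2) (nat_lit 3) (nat_lit 11) (nat_lit 11) (nat_lit 1) CL1 :=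
  tiS ZZ1 (alS (alS (alS (alS (alS (alS (alS (alS (alS (alS (alS al0 tc1_0) tc1_1) tc1_2) tc1_3) tc1_4) tc1_5) tc1_6) tc1_7) tc1_8) tc1_9) tc1_10)
  (zzc ⟨(nat_lit 26), zl1_0, ti1_0⟩ zzn)
theorem cw2 : ∀ w < 11, wfC (nat_lit 1) (nat_lit 1) (getC CL2 w) = true :=
  (alS (alS (alS (alS (alS (alS (alS (alS (alS (alS (alS al0 wf2_0) wf2_1) wf2_2) wf2_3) wf2_4) wf2_5) wf2_6) wf2_7) wf2_8) wf2_9) wf2_10)
theorem cr2 : ∀ w < 11, rfCk (nat_lit 27) (nat_lit 8) (nat_lit 1) (nat_lit 1) (nat_lit 9) (nat_lit 0) w TL2 CL1 CL2 = true :=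
  (alS (alS (alS (alS (alS (alS (alS (alS (alS (alS (alS al0 rf2_0) rf2_1) rf2_2) rf2_3) rf2_4) rf2_5) rf2_6) rf2_7) rf2_8) rf2_9) rf2_10)
theorem vm2 : eqVM CL1 CL2 11 = true := by decide +kernel
theorem cd : ∀ w < 11, deadCk (nat_lit 1) (nat_lit 1) (getC CL2 w) = true :=
  (alS (alS (alS (alS (alS (alS (alS (alS (alS (alS (alS al0 de2_0) de2_1) de2_2) de2_3) de2_4) de2_5) de2_6) de2_7) de2_8) de2_9) de2_10)
theorem rc : recCk (recP 11 (1, 4, 9) 5 0 2).W 11 CL0 = true := by decide +kernel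
theorem occ (O : OccL (recP 11 (1, 4, 9) 5 0 2) (locOK (Nat.testBit 5) (Nat.testBit 0) (Nat.testBit 2))) :
    False := by
  have k := first_stage O 1 (nlOK_A (by decide) (by decide)) rfl rfl rfl rfl rc cw0 cp
  have k := run_stage k rfl (nat_lit 2) (nat_lit 0) (nat_lit 1) (nat_lit 1) rfl cs0 ct0
  have k := next_stage k (nat_lit 27) (nat_lit 8) (nat_lit 9) (nat_lit 0) rfl rfl rfl rfl rfl vm1 cw1 cr1
  have k := run_stage k rfl (nat_lit 1) (nat_lit 4) (nat_lit 2) (nat_lit 3) rfl cs1 ct1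
  have k := next_stage k (nat_lit 1) (nat_lit 1) (nat_lit 9) (nat_lit 0) rfl rfl rfl rfl rfl vm2 cw2 cr2
  exact last_stage k rfl cd
theorem res : ∃ ok, OkP (1, 4, 9) ok ∧ IsEmpty (LTil (shP 11 (1, 4, 9) ok)) :=
  dead_P 5 0 2 (by decide +kernel) rc occ

end Pool.Agent.NNr.R11_1_4_9

namespace Pool.Agent.NNr.R11_1_6_7
open Pool.Agent.NNe Pool.Agent.NNc

theorem cw0 : ∀ w < 12, wfC (nat_lit 61) (nat_lit 5) (getC CL0 w) = true :=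
  (alS (alS (alS (alS (alS (alS (alS (alS (alS (alS (alS (alS al0 wf0_0) wf0_1) wf0_2) wf0_3) wf0_4) wf0_5) wf0_6) wf0_7) wf0_8) wf0_9) wf0_10) wf0_11)
theorem cp : ∀ w < 12, plCk (nat_lit 61) (nat_lit 5) (nat_lit 11) (nat_lit 5) (nat_lit 0) (nat_lit 2) (nat_lit 12) (nat_lit 4) w nl0 CL0 = true :=
  (alS (alS (alS (alS (alS (alS (alS (alS (alS (alS (alS (alS al0 pl0_0) pl0_1) pl0_2) pl0_3) pl0_4) pl0_5) pl0_6) pl0_7) pl0_8) pl0_9) pl0_10) pl0_11)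
theorem cs0 : ∀ w < 12, StW (nat_lit 61) (nat_lit 5) (nat_lit 1) (nat_lit 2) (getC CL0 w) :=
  (alS (alS (alS (alS (alS (alS (alS (alS (alS (alS (alS (alS al0 (stX (nat_lit 2) (nat_lit 0) (nat_lit 256) (Rl.cons (nat_lit 0) (nat_lit 7) Rl.nil) rfl rfl sc0_0 (rlc st0_0_0 rln))) (stX (nat_lit 0) (nat_lit 14) (nat_lit 1) (Rl.cons (nat_lit 14) (nat_lit 13) Rl.nil) rfl rfl sc0_1 (rlc st0_1_0 rln))) (stX (nat_lit 0) (nat_lit 18) (nat_lit 1) (Rl.cons (nat_lit 18) (nat_lit 16) Rl.nil) rfl rfl sc0_2 (rlc st0_2_0 rln))) (stX (nat_lit 2) (nat_lit 64) (nat_lit 256) (Rl.cons (nat_lit 64) (nat_lit 10) Rl.nil) rfl rfl sc0_3 (rlc st0_3_0 rln))) (stX (nat_lit 0) (nat_lit 10) (nat_lit 1) (Rl.cons (nat_lit 10) (nat_lit 10) Rl.nil) rfl rfl sc0_4 (rlc st0_4_0 rln))) (stX (nat_lit 2) (nat_lit 10) (nat_lit 256) (Rl.cons (nat_lit 10) (nat_lit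 3) Rl.nil) rfl rfl sc0_5 (rlc st0_5_0 rln))) (stX (nat_lit 2) (nat_lit 0) (nat_lit 256) Rl.nil rfl rfl sc0_6 rln)) (stX (nat_lit 3) (nat_lit 109) (nat_lit 4096) (Rl.cons (nat_lit 109) (nat_lit 91) Rl.nil) rfl rfl sc0_7 (rlc st0_7_0 rln))) (stX (nat_lit 1) (nat_lit 85) (nat_lit 16) (Rl.cons (nat_lit 85) (nat_lit 37) Rl.nil) rfl rfl sc0_8 (rlc st0_8_0 rln))) (stX (nat_lit 1) (nat_lit 73) (nat_lit 16) (Rl.cons (nat_lit 73) (nat_lit 33) Rl.nil) rfl rfl sc0_9 (rlc st0_9_0 rln))) (stX (nat_lit 2) (nat_lit 46) (nat_lit 256) (Rl.cons (nat_lit 46) (nat_lit 29) Rl.nil) rfl rfl sc0_10 (rlc st0_10_0 rln))) (stX (nat_lit 1) (nat_lit 33) (nat_lit 16) (Rl.cons (nat_lit 33) (nat_lit 11) Rl.nil) rfl rfl sc0_11 (rlc st0_11_0 rln)))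
theorem ct0 : TiS (nat_lit 61) (nat_lit 5) (nat_lit 2) (nat_lit 2) (nat_lit 11) (nat_lit 12) (nat_lit 1) CL0 :=
  tiS ZZ0 (alS (alS (alS (alS (alS (alS (alS (alS (alS (alS (alS (alS al0 tc0_0) tc0_1) tc0_2) tc0_3) tc0_4) tc0_5) tc0_6) tc0_7) tc0_8) tc0_9) tc0_10) tc0_11)
  (zzc ⟨(nat_lit 140), zl0_0, ti0_0⟩ zzn)
theorem cw1 : ∀ w < 12, wfC (nat_lit 59) (nat_lit 21) (getC CL1 w) = true :=
  (alS (alS (alS (alS (alS (alS (alS (alS (alS (alS (alS (alS al0 wf1_0) wf1_1) wf1_2) wf1_3) wf1_4) wf1_5) wf1_6) wf1_7) wf1_8) wf1_9) wf1_10) wf1_11)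
theorem cr1 : ∀ w < 12, rfCk (nat_lit 61) (nat_lit 5) (nat_lit 59) (nat_lit 21) (nat_lit 8) (nat_lit 262144) w TL1 CL0 CL1 = true :=
  (alS (alS (alS (alS (alS (alS (alS (alS (alS (alS (alS (alS al0 rf1_0) rf1_1) rf1_2) rf1_3) rf1_4) rf1_5) rf1_6) rf1_7) rf1_8) rf1_9) rf1_10) rf1_11)
theorem vm1 : eqVM CL0 CL1 12 = true := by decide +kernel
theorem cs1 : ∀ w < 12, StW (nat_lit 59) (nat_lit 21) (nat_lit 1) (nat_lit 10) (getC CL1 w) :=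
  (alS (alS (alS (alS (alS (alS (alS (alS (alS (alS (alS (alS al0 (stX (nat_lit 2) (nat_lit 0) (nat_lit 256) (Rl.cons (nat_lit 0) (nat_lit 20) Rl.nil) rfl rfl sc1_0 (rlc st1_0_0 rln))) (stX (nat_lit 0) (nat_lit 44) (nat_lit 1) (Rl.cons (nat_lit 44) (nat_lit 16) Rl.nil) rfl rfl sc1_1 (rlc st1_1_0 rln))) (stX (nat_lit 0) (nat_lit 64) (nat_lit 1) (Rl.cons (nat_lit 64) (nat_lit 24) Rl.nil) rfl rfl sc1_2 (rlc st1_2_0 rln))) (stX (nat_lit 2) (nat_lit 187) (nat_lit 256) (Rl.cons (nat_lit 187) (nat_lit 32) Rl.nil) rfl rfl sc1_3 (rlc st1_3_0 rln))) (stX (nat_lit 0) (nat_lit 32) (nat_lit 1) (Rl.cons (nat_lit 32) (nat_lit 15) Rl.nil) rfl rfl sc1_4 (rlc st1_4_0 rln))) (stX (nat_lit 0) (nat_lit 0) (nat_lit 1) Rl.nil rfl rfl sc1_5 rln)) (stX (nat_lit 0) (nat_lit 0) (nat_lit 1) Rl.nil rfl rfl sc1_6 rln)) (stX (nat_lit 3) (nat_lit 184)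 (nat_lit 4096) (Rl.cons (nat_lit 184) (nat_lit 156) Rl.nil) rfl rfl sc1_7 (rlc st1_7_0 rln))) (stX (nat_lit 0) (nat_lit 84) (nat_lit 1) (Rl.cons (nat_lit 84) (nat_lit 56) Rl.nil) rfl rfl sc1_8 (rlc st1_8_0 rln))) (stX (nat_lit 0) (nat_lit 92) (nat_lit 1) (Rl.cons (nat_lit 92) (nat_lit 56) Rl.nil) rfl rfl sc1_9 (rlc st1_9_0 rln))) (stX (nat_lit 0) (nat_lit 0) (nat_lit 1) Rl.nil rfl rfl sc1_10 rln)) (stX (nat_lit 0) (nat_lit 0) (nat_lit 1) Rl.nil rfl rfl sc1_11 rln))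
theorem ct1 : TiS (nat_lit 59) (nat_lit 21) (nat_lit 2) (nat_lit 10) (nat_lit 11) (nat_lit 12) (nat_lit 1) CL1 :=
  tiS ZZ1 (alS (alS (alS (alS (alS (alS (alS (alS (alS (alS (alS (alS al0 tc1_0) tc1_1) tc1_2) tc1_3) tc1_4) tc1_5) tc1_6) tc1_7) tc1_8) tc1_9) tc1_10) tc1_11)
  (zzc ⟨(nat_lit 182), zl1_0, ti1_0⟩ (zzc ⟨(nat_lit 182), zl1_1, ti1_1⟩ zzn))
theorem cw2 : ∀ w < 12, wfC (nat_lit 39) (nat_lit 26) (getC CL2 w) = true :=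
  (alS (alS (alS (alS (alS (alS (alS (alS (alS (alS (alS (alS al0 wf2_0) wf2_1) wf2_2) wf2_3) wf2_4) wf2_5) wf2_6) wf2_7) wf2_8) wf2_9) wf2_10) wf2_11)
theorem cr2 : ∀ w < 12, rfCk (nat_lit 59) (nat_lit 21) (nat_lit 39) (nat_lit 26) (nat_lit 9) (nat_lit 0) w TL2 CL1 CL2 = true :=
  (alS (alS (alS (alS (alS (alS (alS (alS (alS (alS (alS (alS al0 rf2_0) rf2_1) rf2_2) rf2_3) rf2_4) rf2_5) rf2_6) rf2_7) rf2_8) rf2_9) rf2_10) rf2_11)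
theorem vm2 : eqVM CL1 CL2 12 = true := by decide +kernel
theorem cs2 : ∀ w < 12, StW (nat_lit 39) (nat_lit 26) (nat_lit 2) (nat_lit 12) (getC CL2 w) :=
  (alS (alS (alS (alS (alS (alS (alS (alS (alS (alS (alS (alS al0 (stX (nat_lit 2) (nat_lit 0) (nat_lit 256) (Rl.cons (nat_lit 0) (nat_lit 8) Rl.nil) rfl rfl sc2_0 (rlc st2_0_0 rln))) (stX (nat_lit 0) (nat_lit 8) (nat_lit 1) (Rl.cons (nat_lit 8) (nat_lit 7) Rl.nil) rfl rfl sc2_1 (rlc st2_1_0 rln))) (stX (nat_lit 0) (nat_lit 31) (nat_lit 1) (Rl.cons (nat_lit 31) (nat_lit 20) Rl.nil) rfl rfl sc2_2 (rlc st2_2_0 rln))) (stX (nat_lit 2) (nat_lit 101) (nat_lit 256) (Rl.cons (nat_lit 101) (nat_lit 12) Rl.nil) rfl rfl sc2_3 (rlc st2_3_0 rln))) (stX (nat_lit 0) (nat_lit 7) (nat_lit 1) (Rl.cons (nat_lit 7) (nat_lit 4) Rl.nil) rfl rfl sc2_4 (rlc st2_4_0 rln))) (stX (nat_lit 0) (nat_lit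 0) (nat_lit 1) Rl.nil rfl rfl sc2_5 rln)) (stX (nat_lit 0) (nat_lit 0) (nat_lit 1) Rl.nil rfl rfl sc2_6 rln)) (stX (nat_lit 3) (nat_lit 77) (nat_lit 4096) (Rl.cons (nat_lit 77) (nat_lit 60) Rl.nil) rfl rfl sc2_7 (rlc st2_7_0 rln))) (stX (nat_lit 0) (nat_lit 40) (nat_lit 1) (Rl.cons (nat_lit 40) (nat_lit 31) Rl.nil) rfl rfl sc2_8 (rlc st2_8_0 rln))) (stX (nat_lit 0) (nat_lit 42) (nat_lit 1) (Rl.cons (nat_lit 42) (nat_lit 32) Rl.nil) rfl rfl sc2_9 (rlc st2_9_0 rln))) (stX (nat_lit 0) (nat_lit 0) (nat_lit 1) Rl.nil rfl rfl sc2_10 rln)) (stX (nat_lit 0) (nat_lit 0) (nat_lit 1) Rl.nil rfl rfl sc2_11 rln))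
theorem ct2 : TiS (nat_lit 39) (nat_lit 26) (nat_lit 1) (nat_lit 13) (nat_lit 11) (nat_lit 12) (nat_lit 1) CL2 :=
  tiS ZZ2 (alS (alS (alS (alS (alS (alS (alS (alS (alS (alS (alS (alS al0 tc2_0) tc2_1) tc2_2) tc2_3) tc2_4) tc2_5) tc2_6) tc2_7) tc2_8) tc2_9) tc2_10) tc2_11)
  (zzc ⟨(nat_lit 56), zl2_0, ti2_0⟩ (zzc ⟨(nat_lit 95), zl2_1, ti2_1⟩ zzn))
theorem cw3 : ∀ w < 12, wfC (nat_lit 13) (nat_lit 9) (getC CL3 w) = true :=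
  (alS (alS (alS (alS (alS (alS (alS (alS (alS (alS (alS (alS al0 wf3_0) wf3_1) wf3_2) wf3_3) wf3_4) wf3_5) wf3_6) wf3_7) wf3_8) wf3_9) wf3_10) wf3_11)
theorem cr3 : ∀ w < 12, rfCk (nat_lit 39) (nat_lit 26) (nat_lit 13) (nat_lit 9) (nat_lit 6) (nat_lit 524288) w TL3 CL2 CL3 = true :=
  (alS (alS (alS (alS (alS (alS (alS (alS (alS (alS (alS (alS al0 rf3_0) rf3_1) rf3_2) rf3_3) rf3_4) rf3_5) rf3_6) rf3_7) rf3_8) rf3_9) rf3_10) rf3_11)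
theorem vm3 : eqVM CL2 CL3 12 = true := by decide +kernel
theorem cs3 : ∀ w < 12, StW (nat_lit 13) (nat_lit 9) (nat_lit 1) (nat_lit 4) (getC CL3 w) :=
  (alS (alS (alS (alS (alS (alS (alS (alS (alS (alS (alS (alS al0 (stX (nat_lit 2) (nat_lit 0) (nat_lit 256) (Rl.cons (nat_lit 0) (nat_lit 16) Rl.nil) rfl rfl sc3_0 (rlc st3_0_0 rln))) (stX (nat_lit 1) (nat_lit 5) (nat_lit 16) (Rl.cons (nat_lit 5) (nat_lit 1) Rl.nil) rfl rfl sc3_1 (rlc st3_1_0 rln))) (stX (nat_lit 1) (nat_lit 28) (nat_lit 16) (Rl.cons (nat_lit 28) (nat_lit 4) Rl.nil) rfl rfl sc3_2 (rlc st3_2_0 rln))) (stX (nat_lit 1) (nat_lit 9) (nat_lit 16) (Rl.cons (nat_lit 9) (nat_lit 1) Rl.nil) rfl rfl sc3_3 (rlc st3_3_0 rln))) (stX (nat_lit 1) (nat_lit 5) (nat_lit 16) (Rl.cons (nat_lit 5) (nat_lit 1) Rl.nil) rfl rfl sc3_4 (rlc st3_4_0 rln))) (stX (nat_lit 0) (nat_lit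 0) (nat_lit 1) Rl.nil rfl rfl sc3_5 rln)) (stX (nat_lit 0) (nat_lit 0) (nat_lit 1) Rl.nil rfl rfl sc3_6 rln)) (stX (nat_lit 2) (nat_lit 0) (nat_lit 256) Rl.nil rfl rfl sc3_7 rln)) (stX (nat_lit 1) (nat_lit 12) (nat_lit 16) (Rl.cons (nat_lit 12) (nat_lit 4) Rl.nil) rfl rfl sc3_8 (rlc st3_8_0 rln))) (stX (nat_lit 3) (nat_lit 28) (nat_lit 4096) (Rl.cons (nat_lit 28) (nat_lit 8) Rl.nil) rfl rfl sc3_9 (rlc st3_9_0 rln))) (stX (nat_lit 0) (nat_lit 0) (nat_lit 1) Rl.nil rfl rfl sc3_10 rln)) (stX (nat_lit 0) (nat_lit 0) (nat_lit 1) Rl.nil rfl rfl sc3_11 rln))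
theorem ct3 : TiS (nat_lit 13) (nat_lit 9) (nat_lit 2) (nat_lit 4) (nat_lit 11) (nat_lit 12) (nat_lit 1) CL3 :=
  tiS ZZ3 (alS (alS (alS (alS (alS (alS (alS (alS (alS (alS (alS (alS al0 tc3_0) tc3_1) tc3_2) tc3_3) tc3_4) tc3_5) tc3_6) tc3_7) tc3_8) tc3_9) tc3_10) tc3_11)
  (zzc ⟨(nat_lit 8), zl3_0, ti3_0⟩ (zzc ⟨(nat_lit 9), zl3_1, ti3_1⟩ zzn))
theorem cd : ∀ w < 12, deadCk (nat_lit 13) (nat_lit 9) (getC CL3 w) = true :=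
  (alS (alS (alS (alS (alS (alS (alS (alS (alS (alS (alS (alS al0 de3_0) de3_1) de3_2) de3_3) de3_4) de3_5) de3_6) de3_7) de3_8) de3_9) de3_10) de3_11)
theorem rc : recCk (recP 11 (1, 6, 7) 5 0 2).W 12 CL0 = true := by decide +kernel
theorem occ (O : OccL (recP 11 (1, 6, 7) 5 0 2) (locOK (Nat.testBit 5) (Nat.testBit 0) (Nat.testBit 2))) :
    False := by
  have k := first_stage O 1 (nlOK_A (by decide) (by decide)) rfl rfl rfl rfl rc cw0 cp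
  have k := run_stage k rfl (nat_lit 1) (nat_lit 2) (nat_lit 2) (nat_lit 2) rfl cs0 ct0
  have k := next_stage k (nat_lit 59) (nat_lit 21) (nat_lit 8) (nat_lit 1) rfl rfl rfl rfl rfl vm1 cw1 cr1
  have k := run_stage k rfl (nat_lit 1) (nat_lit 10) (nat_lit 2) (nat_lit 10) rfl cs1 ct1
  have k := next_stage k (nat_lit 39) (nat_lit 26) (nat_lit 9) (nat_lit 0) rfl rfl rfl rfl rfl vm2 cw2 cr2
  have k := run_stage k rfl (nat_lit 2) (nat_lit 12) (nat_lit 1) (nat_lit 13) rfl cs2 ct2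
  have k := next_stage k (nat_lit 13) (nat_lit 9) (nat_lit 6) (nat_lit 2) rfl rfl rfl rfl rfl vm3 cw3 cr3
  have k := run_stage k rfl (nat_lit 1) (nat_lit 4) (nat_lit 2) (nat_lit 4) rfl cs3 ct3
  exact last_stage k rfl cd
theorem res : ∃ ok, OkP (1, 6, 7) ok ∧ IsEmpty (LTil (shP 11 (1, 6, 7) ok)) :=
  dead_P 5 0 2 (by decide +kernel) rc occ

end Pool.Agent.NNr.R11_1_6_7

namespace Pool.Agent.NNr.R11_2_15_16
open Pool.Agent.NNe Pool.Agent.NNc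

theorem cw0 : ∀ w < 5, wfC (nat_lit 37) (nat_lit 4) (getC CL0 w) = true :=
  (alS (alS (alS (alS (alS al0 wf0_0) wf0_1) wf0_2) wf0_3) wf0_4)
theorem cp : ∀ w < 5, plCk (nat_lit 37) (nat_lit 4) (nat_lit 11) (nat_lit 5) (nat_lit 0) (nat_lit 2) (nat_lit 5) (nat_lit 4) w nl0 CL0 = true :=
  (alS (alS (alS (alS (alS al0 pl0_0) pl0_1) pl0_2) pl0_3) pl0_4)
theorem cs0 : ∀ w < 5, StW (nat_lit 37) (nat_lit 4) (nat_lit 2) (nat_lit 1) (getC CL0 w) :=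
  (alS (alS (alS (alS (alS al0 (stX (nat_lit 0) (nat_lit 2) (nat_lit 1) (Rl.cons (nat_lit 2) (nat_lit 4) Rl.nil) rfl rfl sc0_0 (rlc st0_0_0 rln))) (stX (nat_lit 2) (nat_lit 35) (nat_lit 256) (Rl.cons (nat_lit 35) (nat_lit 8) Rl.nil) rfl rfl sc0_1 (rlc st0_1_0 rln))) (stX (nat_lit 0) (nat_lit 7) (nat_lit 1) (Rl.cons (nat_lit 7) (nat_lit 5) Rl.nil) rfl rfl sc0_2 (rlc st0_2_0 rln))) (stX (nat_lit 1) (nat_lit 30) (nat_lit 16) (Rl.cons (nat_lit 30) (nat_lit 12) Rl.nil) rfl rfl sc0_3 (rlc st0_3_0 rln))) (stX (nat_lit 0) (nat_lit 0) (nat_lit 1) Rl.nil rfl rfl sc0_4 rln))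
theorem ct0 : TiS (nat_lit 37) (nat_lit 4) (nat_lit 1) (nat_lit 2) (nat_lit 11) (nat_lit 5) (nat_lit 1) CL0 :=
  tiS ZZ0 (alS (alS (alS (alS (alS al0 tc0_0) tc0_1) tc0_2) tc0_3) tc0_4)
  (zzc ⟨(nat_lit 28), zl0_0, ti0_0⟩ zzn)
theorem cd : ∀ w < 5, deadCk (nat_lit 37) (nat_lit 4) (getC CL0 w) = true :=
  (alS (alS (alS (alS (alS al0 de0_0) de0_1) de0_2) de0_3) de0_4)
theorem rc : recCk (recP 11 (2, 15, 16) 5 0 2).W 5 CL0 = true := by decide +kernel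
theorem occ (O : OccL (recP 11 (2, 15, 16) 5 0 2) (locOK (Nat.testBit 5) (Nat.testBit 0) (Nat.testBit 2))) :
    False := by
  have k := first_stage O 1 (nlOK_A (by decide) (by decide)) rfl rfl rfl rfl rc cw0 cp
  have k := run_stage k rfl (nat_lit 2) (nat_lit 1) (nat_lit 1) (nat_lit 2) rfl cs0 ct0
  exact last_stage k rfl cd
theorem res : ∃ ok, OkP (2, 15, 16) ok ∧ IsEmpty (LTil (shP 11 (2, 15, 16) ok)) :=
  dead_P 5 0 2 (by decide +kernel) rc occ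

end Pool.Agent.NNr.R11_2_15_16

namespace Pool.Agent.NNr.R11_2_3_4
open Pool.Agent.NNe Pool.Agent.NNc

theorem cw0 : ∀ w < 15, wfC (nat_lit 60) (nat_lit 10) (getC CL0 w) = true :=
  (alS (alS (alS (alS (alS (alS (alS (alS (alS (alS (alS (alS (alS (alS (alS al0 wf0_0) wf0_1) wf0_2) wf0_3) wf0_4) wf0_5) wf0_6) wf0_7) wf0_8) wf0_9) wf0_10) wf0_11) wf0_12) wf0_13) wf0_14)
theorem cp : ∀ w < 15, plCk (nat_lit 60) (nat_lit 10) (nat_lit 11) (nat_lit 0) (nat_lit 0) (nat_lit 7) (nat_lit 15) (nat_lit 4) w nl0 CL0 = true :=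
  (alS (alS (alS (alS (alS (alS (alS (alS (alS (alS (alS (alS (alS (alS (alS al0 pl0_0) pl0_1) pl0_2) pl0_3) pl0_4) pl0_5) pl0_6) pl0_7) pl0_8) pl0_9) pl0_10) pl0_11) pl0_12) pl0_13) pl0_14)
theorem cs0 : ∀ w < 15, StW (nat_lit 60) (nat_lit 10) (nat_lit 2) (nat_lit 4) (getC CL0 w) :=
  (alS (alS (alS (alS (alS (alS (alS (alS (alS (alS (alS (alS (alS (alS (alS al0 (stX (nat_lit 1) (nat_lit 0) (nat_lit 16) (Rl.cons (nat_lit 0) (nat_lit 15) Rl.nil) rfl rfl sc0_0 (rlc st0_0_0 rln))) (stX (nat_lit 1) (nat_lit 0) (nat_lit 16) (Rl.cons (nat_lit 0) (nat_lit 9) Rl.nil) rfl rfl sc0_1 (rlc st0_1_0 rln))) (stX (nat_lit 0) (nat_lit 5) (nat_lit 1) (Rl.cons (nat_lit 5) (nat_lit 11) Rl.nil) rfl rfl sc0_2 (rlc st0_2_0 rln))) (stX (nat_lit 0) (nat_lit 13) (nat_lit 1) (Rl.cons (nat_lit 13) (nat_lit 13) Rl.nil) rfl rfl sc0_3 (rlc st0_3_0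 rln))) (stX (nat_lit 0) (nat_lit 22) (nat_lit 1) (Rl.cons (nat_lit 22) (nat_lit 19) Rl.nil) rfl rfl sc0_4 (rlc st0_4_0 rln))) (stX (nat_lit 0) (nat_lit 14) (nat_lit 1) (Rl.cons (nat_lit 14) (nat_lit 17) Rl.nil) rfl rfl sc0_5 (rlc st0_5_0 rln))) (stX (nat_lit 0) (nat_lit 15) (nat_lit 1) (Rl.cons (nat_lit 15) (nat_lit 8) Rl.nil) rfl rfl sc0_6 (rlc st0_6_0 rln))) (stX (nat_lit 2) (nat_lit 71) (nat_lit 256) (Rl.cons (nat_lit 71) (nat_lit 14) Rl.nil) rfl rfl sc0_7 (rlc st0_7_0 rln))) (stX (nat_lit 2) (nat_lit 29) (nat_lit 256) (Rl.cons (nat_lit 29) (nat_lit 16) Rl.nil) rfl rfl sc0_8 (rlc st0_8_0 rln))) (stX (nat_lit 1) (nat_lit 18) (nat_lit 16) (Rl.cons (nat_lit 18) (nat_lit 9) Rl.nil) rfl rfl sc0_9 (rlc st0_9_0 rln))) (stX (nat_lit 2) (nat_lit 24) (nat_lit 256) (Rl.cons (nat_lit 24) (nat_lit 6) Rl.nil) rfl rfl sc0_10 (rlc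 st0_10_0 rln))) (stX (nat_lit 0) (nat_lit 3) (nat_lit 1) (Rl.cons (nat_lit 3) (nat_lit 3) Rl.nil) rfl rfl sc0_11 (rlc st0_11_0 rln))) (stX (nat_lit 3) (nat_lit 68) (nat_lit 4096) (Rl.cons (nat_lit 68) (nat_lit 52) Rl.nil) rfl rfl sc0_12 (rlc st0_12_0 rln))) (stX (nat_lit 1) (nat_lit 64) (nat_lit 16) (Rl.cons (nat_lit 64) (nat_lit 25) Rl.nil) rfl rfl sc0_13 (rlc st0_13_0 rln))) (stX (nat_lit 1) (nat_lit 63) (nat_lit 16) (Rl.cons (nat_lit 63) (nat_lit 20) Rl.nil) rfl rfl sc0_14 (rlc st0_14_0 rln)))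
theorem ct0 : TiS (nat_lit 60) (nat_lit 10) (nat_lit 1) (nat_lit 5) (nat_lit 11) (nat_lit 15) (nat_lit 1) CL0 :=
  tiS ZZ0 (alS (alS (alS (alS (alS (alS (alS (alS (alS (alS (alS (alS (alS (alS (alS al0 tc0_0) tc0_1) tc0_2) tc0_3) tc0_4) tc0_5) tc0_6) tc0_7) tc0_8) tc0_9) tc0_10) tc0_11) tc0_12) tc0_13) tc0_14)
  (zzc ⟨(nat_lit 177), zl0_0, ti0_0⟩ zzn)
theorem cw1 : ∀ w < 15, wfC (nat_lit 3) (nat_lit 2) (getC CL1 w) = true :=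
  (alS (alS (alS (alS (alS (alS (alS (alS (alS (alS (alS (alS (alS (alS (alS al0 wf1_0) wf1_1) wf1_2) wf1_3) wf1_4) wf1_5) wf1_6) wf1_7) wf1_8) wf1_9) wf1_10) wf1_11) wf1_12) wf1_13) wf1_14)
theorem cr1 : ∀ w < 15, rfCk (nat_lit 60) (nat_lit 10) (nat_lit 3) (nat_lit 2) (nat_lit 9) (nat_lit 0) w TL1 CL0 CL1 = true :=
  (alS (alS (alS (alS (alS (alS (alS (alS (alS (alS (alS (alS (alS (alS (alS al0 rf1_0) rf1_1) rf1_2) rf1_3) rf1_4) rf1_5) rf1_6) rf1_7) rf1_8) rf1_9) rf1_10) rf1_11) rf1_12) rf1_13) rf1_14)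
theorem vm1 : eqVM CL0 CL1 15 = true := by decide +kernel
theorem cs1 : ∀ w < 15, StW (nat_lit 3) (nat_lit 2) (nat_lit 1) (nat_lit 1) (getC CL1 w) :=
  (alS (alS (alS (alS (alS (alS (alS (alS (alS (alS (alS (alS (alS (alS (alS al0 (stX (nat_lit 1) (nat_lit 0) (nat_lit 16) Rl.nil rfl rfl sc1_0 rln)) (stX (nat_lit 1) (nat_lit 0) (nat_lit 16) Rl.nil rfl rfl sc1_1 rln)) (stX (nat_lit 0) (nat_lit 0) (nat_lit 1) Rl.nil rfl rfl sc1_2 rln)) (stX (nat_lit 0) (nat_lit 0) (nat_lit 1) Rl.nil rfl rfl sc1_3 rln)) (stX (nat_lit 0) (nat_lit 0) (nat_lit 1) Rl.nil rfl rfl sc1_4 rln)) (stX (nat_lit 0) (nat_lit 0) (nat_lit 1) Rl.nil rfl rfl sc1_5 rln)) (stX (nat_lit 0) (nat_lit 0) (nat_lit 1) Rl.nil rfl rfl sc1_6 rln)) (stX (nat_lit 0) (nat_lit 0) (nat_lit 1) Rl.nil rfl rfl sc1_7 rln)) (stX (nat_lit 0) (nat_lit 0) (nat_lit 1) Rl.nil rfl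 rfl sc1_8 rln)) (stX (nat_lit 0) (nat_lit 0) (nat_lit 1) Rl.nil rfl rfl sc1_9 rln)) (stX (nat_lit 0) (nat_lit 0) (nat_lit 1) Rl.nil rfl rfl sc1_10 rln)) (stX (nat_lit 0) (nat_lit 0) (nat_lit 1) Rl.nil rfl rfl sc1_11 rln)) (stX (nat_lit 1) (nat_lit 0) (nat_lit 16) Rl.nil rfl rfl sc1_12 rln)) (stX (nat_lit 1) (nat_lit 0) (nat_lit 16) Rl.nil rfl rfl sc1_13 rln)) (stX (nat_lit 0) (nat_lit 0) (nat_lit 1) Rl.nil rfl rfl sc1_14 rln))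
theorem ct1 : TiS (nat_lit 3) (nat_lit 2) (nat_lit 2) (nat_lit 0) (nat_lit 11) (nat_lit 15) (nat_lit 1) CL1 :=
  tiS ZZ1 (alS (alS (alS (alS (alS (alS (alS (alS (alS (alS (alS (alS (alS (alS (alS al0 tc1_0) tc1_1) tc1_2) tc1_3) tc1_4) tc1_5) tc1_6) tc1_7) tc1_8) tc1_9) tc1_10) tc1_11) tc1_12) tc1_13) tc1_14)
  (zzc ⟨(nat_lit 4), zl1_0, tileCk_zero _ _ _ _ _ _ _ _⟩ zzn)
theorem cd : ∀ w < 15, deadCk (nat_lit 3) (nat_lit 2) (getC CL1 w) = true :=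
  (alS (alS (alS (alS (alS (alS (alS (alS (alS (alS (alS (alS (alS (alS (alS al0 de1_0) de1_1) de1_2) de1_3) de1_4) de1_5) de1_6) de1_7) de1_8) de1_9) de1_10) de1_11) de1_12) de1_13) de1_14)
theorem rc : recCk (recP 11 (2, 3, 4) 0 0 7).W 15 CL0 = true := by decide +kernel
theorem occ (O : OccL (recP 11 (2, 3, 4) 0 0 7) (locOK (Nat.testBit 0) (Nat.testBit 0) (Nat.testBit 7))) :
    False := by
  have k := first_stage O 1 (nlOK_A (by decide) (by decide)) rfl rfl rfl rfl rc cw0 cp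
  have k := run_stage k rfl (nat_lit 2) (nat_lit 4) (nat_lit 1) (nat_lit 5) rfl cs0 ct0
  have k := next_stage k (nat_lit 3) (nat_lit 2) (nat_lit 9) (nat_lit 0) rfl rfl rfl rfl rfl vm1 cw1 cr1
  have k := run_stage k rfl (nat_lit 1) (nat_lit 1) (nat_lit 2) (nat_lit 0) rfl cs1 ct1
  exact last_stage k rfl cd
theorem res : ∃ ok, OkP (2, 3, 4) ok ∧ IsEmpty (LTil (shP 11 (2, 3, 4) ok)) :=
  dead_P 0 0 7 (by decide +kernel) rc occ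

end Pool.Agent.NNr.R11_2_3_4

namespace Pool.Agent.NNr.R11_2_6_7
open Pool.Agent.NNe Pool.Agent.NNc

theorem cw0 : ∀ w < 10, wfC (nat_lit 46) (nat_lit 2) (getC CL0 w) = true :=
  (alS (alS (alS (alS (alS (alS (alS (alS (alS (alS al0 wf0_0) wf0_1) wf0_2) wf0_3) wf0_4) wf0_5) wf0_6) wf0_7) wf0_8) wf0_9)
theorem cp : ∀ w < 10, plCk (nat_lit 46) (nat_lit 2) (nat_lit 11) (nat_lit 5) (nat_lit 0) (nat_lit 2) (nat_lit 10) (nat_lit 4) w nl0 CL0 = true :=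
  (alS (alS (alS (alS (alS (alS (alS (alS (alS (alS al0 pl0_0) pl0_1) pl0_2) pl0_3) pl0_4) pl0_5) pl0_6) pl0_7) pl0_8) pl0_9)
theorem cs0 : ∀ w < 10, StW (nat_lit 46) (nat_lit 2) (nat_lit 2) (nat_lit 0) (getC CL0 w) :=
  (alS (alS (alS (alS (alS (alS (alS (alS (alS (alS al0 (stX (nat_lit 1) (nat_lit 0) (nat_lit 16) (Rl.cons (nat_lit 0) (nat_lit 12) Rl.nil) rfl rfl sc0_0 (rlc (starCk_zero _ _ _ _ _ _ _) rln))) (stX (nat_lit 0) (nat_lit 0) (nat_lit 1) (Rl.cons (nat_lit 0) (nat_lit 29) Rl.nil) rfl rfl sc0_1 (rlc (starCk_zero _ _ _ _ _ _ _) rln))) (stX (nat_lit 0) (nat_lit 0) (nat_lit 1) (Rl.cons (nat_lit 0) (nat_lit 84) Rl.nil) rfl rfl sc0_2 (rlc (starCk_zero _ _ _ _ _ _ _) rln))) (stX (nat_lit 0) (nat_lit 0) (nat_lit 1) (Rl.cons (nat_lit 0) (nat_lit 36) Rl.nil) rfl rfl sc0_3 (rlc (starCk_zero _ _ _ _ _ _ _) rln))) (stX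 (nat_lit 0) (nat_lit 0) (nat_lit 1) (Rl.cons (nat_lit 0) (nat_lit 60) Rl.nil) rfl rfl sc0_4 (rlc (starCk_zero _ _ _ _ _ _ _) rln))) (stX (nat_lit 0) (nat_lit 0) (nat_lit 1) (Rl.cons (nat_lit 0) (nat_lit 15) Rl.nil) rfl rfl sc0_5 (rlc (starCk_zero _ _ _ _ _ _ _) rln))) (stX (nat_lit 0) (nat_lit 0) (nat_lit 1) (Rl.cons (nat_lit 0) (nat_lit 12) Rl.nil) rfl rfl sc0_6 (rlc (starCk_zero _ _ _ _ _ _ _) rln))) (stX (nat_lit 0) (nat_lit 0) (nat_lit 1) Rl.nil rfl rfl sc0_7 rln)) (stX (nat_lit 0) (nat_lit 0) (nat_lit 1) (Rl.cons (nat_lit 0) (nat_lit 310) Rl.nil) rfl rfl sc0_8 (rlc (starCk_zero _ _ _ _ _ _ _) rln))) (stX (nat_lit 0) (nat_lit 0) (nat_lit 1) (Rl.cons (nat_lit 0) (nat_lit 180) Rl.nil) rfl rfl sc0_9 (rlc (starCk_zero _ _ _ _ _ _ _) rln)))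
theorem ct0 : TiS (nat_lit 46) (nat_lit 2) (nat_lit 1) (nat_lit 1) (nat_lit 11) (nat_lit 10) (nat_lit 1) CL0 :=
  tiS ZZ0 (alS (alS (alS (alS (alS (alS (alS (alS (alS (alS al0 tc0_0) tc0_1) tc0_2) tc0_3) tc0_4) tc0_5) tc0_6) tc0_7) tc0_8) tc0_9)
  (zzc ⟨(nat_lit 62), zl0_0, ti0_0⟩ zzn)
theorem cw1 : ∀ w < 10, wfC (nat_lit 27) (nat_lit 2) (getC CL1 w) = true :=
  (alS (alS (alS (alS (alS (alS (alS (alS (alS (alS al0 wf1_0) wf1_1) wf1_2) wf1_3) wf1_4) wf1_5) wf1_6) wf1_7) wf1_8) wf1_9)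
theorem cr1 : ∀ w < 10, rfCk (nat_lit 46) (nat_lit 2) (nat_lit 27) (nat_lit 2) (nat_lit 9) (nat_lit 0) w TL1 CL0 CL1 = true :=
  (alS (alS (alS (alS (alS (alS (alS (alS (alS (alS al0 rf1_0) rf1_1) rf1_2) rf1_3) rf1_4) rf1_5) rf1_6) rf1_7) rf1_8) rf1_9)
theorem vm1 : eqVM CL0 CL1 10 = true := by decide +kernel
theorem cs1 : ∀ w < 10, StW (nat_lit 27) (nat_lit 2) (nat_lit 1) (nat_lit 1) (getC CL1 w) :=
  (alS (alS (alS (alS (alS (alS (alS (alS (alS (alS al0 (stX (nat_lit 1) (nat_lit 0) (nat_lit 16) (Rl.cons (nat_lit 0) (nat_lit 6) Rl.nil) rfl rfl sc1_0 (rlc st1_0_0 rln))) (stX (nat_lit 0) (nat_lit 2) (nat_lit 1) (Rl.cons (nat_lit 2) (nat_lit 5) Rl.nil) rfl rfl sc1_1 (rlc st1_1_0 rln))) (stX (nat_lit 1) (nat_lit 14) (nat_lit 16) (Rl.cons (nat_lit 14) (nat_lit 6) Rl.nil) rfl rfl sc1_2 (rlc st1_2_0 rln))) (stX (nat_lit 0)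 (nat_lit 6) (nat_lit 1) (Rl.cons (nat_lit 6) (nat_lit 5) Rl.nil) rfl rfl sc1_3 (rlc st1_3_0 rln))) (stX (nat_lit 1) (nat_lit 0) (nat_lit 16) Rl.nil rfl rfl sc1_4 rln)) (stX (nat_lit 0) (nat_lit 0) (nat_lit 1) Rl.nil rfl rfl sc1_5 rln)) (stX (nat_lit 0) (nat_lit 0) (nat_lit 1) Rl.nil rfl rfl sc1_6 rln)) (stX (nat_lit 0) (nat_lit 0) (nat_lit 1) Rl.nil rfl rfl sc1_7 rln)) (stX (nat_lit 0) (nat_lit 12) (nat_lit 1) (Rl.cons (nat_lit 12) (nat_lit 13) Rl.nil) rfl rfl sc1_8 (rlc st1_8_0 rln))) (stX (nat_lit 2) (nat_lit 14) (nat_lit 256) (Rl.cons (nat_lit 14) (nat_lit 3) Rl.nil) rfl rfl sc1_9 (rlc st1_9_0 rln)))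
theorem ct1 : TiS (nat_lit 27) (nat_lit 2) (nat_lit 2) (nat_lit 0) (nat_lit 11) (nat_lit 10) (nat_lit 1) CL1 :=
  tiS ZZ1 (alS (alS (alS (alS (alS (alS (alS (alS (alS (alS al0 tc1_0) tc1_1) tc1_2) tc1_3) tc1_4) tc1_5) tc1_6) tc1_7) tc1_8) tc1_9)
  (zzc ⟨(nat_lit 126), zl1_0, tileCk_zero _ _ _ _ _ _ _ _⟩ zzn)
theorem cw2 : ∀ w < 10, wfC (nat_lit 7) (nat_lit 2) (getC CL2 w) = true :=
  (alS (alS (alS (alS (alS (alS (alS (alS (alS (alS al0 wf2_0) wf2_1) wf2_2) wf2_3) wf2_4) wf2_5) wf2_6) wf2_7) wf2_8) wf2_9)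
theorem cr2 : ∀ w < 10, rfCk (nat_lit 27) (nat_lit 2) (nat_lit 7) (nat_lit 2) (nat_lit 9) (nat_lit 0) w TL2 CL1 CL2 = true :=
  (alS (alS (alS (alS (alS (alS (alS (alS (alS (alS al0 rf2_0) rf2_1) rf2_2) rf2_3) rf2_4) rf2_5) rf2_6) rf2_7) rf2_8) rf2_9)
theorem vm2 : eqVM CL1 CL2 10 = true := by decide +kernel
theorem cs2 : ∀ w < 10, StW (nat_lit 7) (nat_lit 2) (nat_lit 2) (nat_lit 0) (getC CL2 w) :=
  (alS (alS (alS (alS (alS (alS (alS (alS (alS (alS al0 (stX (nat_lit 1) (nat_lit 0) (nat_lit 16) (Rl.cons (nat_lit 0) (nat_lit 2) Rl.nil) rfl rfl sc2_0 (rlc (starCk_zero _ _ _ _ _ _ _) rln))) (stX (nat_lit 0) (nat_lit 0) (nat_lit 1) (Rl.cons (nat_lit 0) (nat_lit 2) Rl.nil) rfl rfl sc2_1 (rlc (starCk_zero _ _ _ _ _ _ _) rln))) (stX (nat_lit 0) (nat_lit 0) (nat_lit 1) Rl.nil rfl rfl sc2_2 rln)) (stX (nat_lit 0) (nat_lit 0) (nat_lit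 1) (Rl.cons (nat_lit 0) (nat_lit 10) Rl.nil) rfl rfl sc2_3 (rlc (starCk_zero _ _ _ _ _ _ _) rln))) (stX (nat_lit 0) (nat_lit 0) (nat_lit 1) Rl.nil rfl rfl sc2_4 rln)) (stX (nat_lit 0) (nat_lit 0) (nat_lit 1) Rl.nil rfl rfl sc2_5 rln)) (stX (nat_lit 0) (nat_lit 0) (nat_lit 1) Rl.nil rfl rfl sc2_6 rln)) (stX (nat_lit 0) (nat_lit 0) (nat_lit 1) Rl.nil rfl rfl sc2_7 rln)) (stX (nat_lit 0) (nat_lit 0) (nat_lit 1) (Rl.cons (nat_lit 0) (nat_lit 22) Rl.nil) rfl rfl sc2_8 (rlc (starCk_zero _ _ _ _ _ _ _) rln))) (stX (nat_lit 0) (nat_lit 0) (nat_lit 1) Rl.nil rfl rfl sc2_9 rln))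
theorem ct2 : TiS (nat_lit 7) (nat_lit 2) (nat_lit 1) (nat_lit 1) (nat_lit 11) (nat_lit 10) (nat_lit 1) CL2 :=
  tiS ZZ2 (alS (alS (alS (alS (alS (alS (alS (alS (alS (alS al0 tc2_0) tc2_1) tc2_2) tc2_3) tc2_4) tc2_5) tc2_6) tc2_7) tc2_8) tc2_9)
  (zzc ⟨(nat_lit 6), zl2_0, ti2_0⟩ zzn)
theorem cd : ∀ w < 10, deadCk (nat_lit 7) (nat_lit 2) (getC CL2 w) = true :=
  (alS (alS (alS (alS (alS (alS (alS (alS (alS (alS al0 de2_0) de2_1) de2_2) de2_3) de2_4) de2_5) de2_6) de2_7) de2_8) de2_9)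
theorem rc : recCk (recP 11 (2, 6, 7) 5 0 2).W 10 CL0 = true := by decide +kernel
theorem occ (O : OccL (recP 11 (2, 6, 7) 5 0 2) (locOK (Nat.testBit 5) (Nat.testBit 0) (Nat.testBit 2))) :
    False := by
  have k := first_stage O 1 (nlOK_A (by decide) (by decide)) rfl rfl rfl rfl rc cw0 cp
  have k := run_stage k rfl (nat_lit 2) (nat_lit 0) (nat_lit 1) (nat_lit 1) rfl cs0 ct0
  have k := next_stage k (nat_lit 27) (nat_lit 2) (nat_lit 9) (nat_lit 0) rfl rfl rfl rfl rfl vm1 cw1 cr1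
  have k := run_stage k rfl (nat_lit 1) (nat_lit 1) (nat_lit 2) (nat_lit 0) rfl cs1 ct1
  have k := next_stage k (nat_lit 7) (nat_lit 2) (nat_lit 9) (nat_lit 0) rfl rfl rfl rfl rfl vm2 cw2 cr2
  have k := run_stage k rfl (nat_lit 2) (nat_lit 0) (nat_lit 1) (nat_lit 1) rfl cs2 ct2
  exact last_stage k rfl cd
theorem res : ∃ ok, OkP (2, 6, 7) ok ∧ IsEmpty (LTil (shP 11 (2, 6, 7) ok)) :=
  dead_P 5 0 2 (by decide +kernel) rc occ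

end Pool.Agent.NNr.R11_2_6_7

namespace Pool.Agent.NNr.R11_3_5_10
open Pool.Agent.NNe Pool.Agent.NNc

theorem cw0 : ∀ w < 9, wfC (nat_lit 50) (nat_lit 8) (getC CL0 w) = true :=
  (alS (alS (alS (alS (alS (alS (alS (alS (alS al0 wf0_0) wf0_1) wf0_2) wf0_3) wf0_4) wf0_5) wf0_6) wf0_7) wf0_8)
theorem cp : ∀ w < 9, plCk (nat_lit 50) (nat_lit 8) (nat_lit 11) (nat_lit 0) (nat_lit 0) (nat_lit 7) (nat_lit 9) (nat_lit 4) w nl0 CL0 = true :=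
  (alS (alS (alS (alS (alS (alS (alS (alS (alS al0 pl0_0) pl0_1) pl0_2) pl0_3) pl0_4) pl0_5) pl0_6) pl0_7) pl0_8)
theorem cs0 : ∀ w < 9, StW (nat_lit 50) (nat_lit 8) (nat_lit 2) (nat_lit 3) (getC CL0 w) :=
  (alS (alS (alS (alS (alS (alS (alS (alS (alS al0 (stX (nat_lit 0) (nat_lit 10) (nat_lit 1) (Rl.cons (nat_lit 10) (nat_lit 10) Rl.nil) rfl rfl sc0_0 (rlc st0_0_0 rln))) (stX (nat_lit 0) (nat_lit 16) (nat_lit 1) (Rl.cons (nat_lit 16) (nat_lit 11) Rl.nil) rfl rfl sc0_1 (rlc st0_1_0 rln))) (stX (nat_lit 2) (nat_lit 49) (nat_lit 256) (Rl.cons (nat_lit 49) (nat_lit 9) Rl.nil) rfl rfl sc0_2 (rlc st0_2_0 rln))) (stX (nat_lit 0) (nat_lit 7) (nat_lit 1) (Rl.cons (nat_lit 7) (nat_lit 5) Rl.nil) rfl rfl sc0_3 (rlc st0_3_0 rln))) (stX (nat_lit 1) (nat_lit 17) (nat_lit 16) (Rl.cons (nat_lit 17) (nat_lit 7) Rl.nil) rfl rfl sc0_4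 (rlc st0_4_0 rln))) (stX (nat_lit 1) (nat_lit 6) (nat_lit 16) (Rl.cons (nat_lit 6) (nat_lit 3) Rl.nil) rfl rfl sc0_5 (rlc st0_5_0 rln))) (stX (nat_lit 1) (nat_lit 56) (nat_lit 16) (Rl.cons (nat_lit 56) (nat_lit 25) Rl.nil) rfl rfl sc0_6 (rlc st0_6_0 rln))) (stX (nat_lit 0) (nat_lit 19) (nat_lit 1) (Rl.cons (nat_lit 19) (nat_lit 24) Rl.nil) rfl rfl sc0_7 (rlc st0_7_0 rln))) (stX (nat_lit 3) (nat_lit 39) (nat_lit 4096) (Rl.cons (nat_lit 39) (nat_lit 32) Rl.nil) rfl rfl sc0_8 (rlc st0_8_0 rln)))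
theorem ct0 : TiS (nat_lit 50) (nat_lit 8) (nat_lit 1) (nat_lit 4) (nat_lit 11) (nat_lit 9) (nat_lit 1) CL0 :=
  tiS ZZ0 (alS (alS (alS (alS (alS (alS (alS (alS (alS al0 tc0_0) tc0_1) tc0_2) tc0_3) tc0_4) tc0_5) tc0_6) tc0_7) tc0_8)
  (zzc ⟨(nat_lit 100), zl0_0, ti0_0⟩ zzn)
theorem cd : ∀ w < 9, deadCk (nat_lit 50) (nat_lit 8) (getC CL0 w) = true :=
  (alS (alS (alS (alS (alS (alS (alS (alS (alS al0 de0_0) de0_1) de0_2) de0_3) de0_4) de0_5) de0_6) de0_7) de0_8)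
theorem rc : recCk (recP 11 (3, 5, 10) 0 0 7).W 9 CL0 = true := by decide +kernel
theorem occ (O : OccL (recP 11 (3, 5, 10) 0 0 7) (locOK (Nat.testBit 0) (Nat.testBit 0) (Nat.testBit 7))) :
    False := by
  have k := first_stage O 1 (nlOK_A (by decide) (by decide)) rfl rfl rfl rfl rc cw0 cp
  have k := run_stage k rfl (nat_lit 2) (nat_lit 3) (nat_lit 1) (nat_lit 4) rfl cs0 ct0
  exact last_stage k rfl cd
theorem res : ∃ ok, OkP (3, 5, 10) ok ∧ IsEmpty (LTil (shP 11 (3, 5, 10) ok)) :=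
  dead_P 0 0 7 (by decide +kernel) rc occ

end Pool.Agent.NNr.R11_3_5_10

namespace Pool.Agent.NNr.R11_3_5_16
open Pool.Agent.NNe Pool.Agent.NNc

theorem cw0 : ∀ w < 8, wfC (nat_lit 43) (nat_lit 2) (getC CL0 w) = true :=
  (alS (alS (alS (alS (alS (alS (alS (alS al0 wf0_0) wf0_1) wf0_2) wf0_3) wf0_4) wf0_5) wf0_6) wf0_7)
theorem cp : ∀ w < 8, plCk (nat_lit 43) (nat_lit 2) (nat_lit 11) (nat_lit 1) (nat_lit 0) (nat_lit 6) (nat_lit 8) (nat_lit 4) w nl0 CL0 = true :=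
  (alS (alS (alS (alS (alS (alS (alS (alS al0 pl0_0) pl0_1) pl0_2) pl0_3) pl0_4) pl0_5) pl0_6) pl0_7)
theorem cs0 : ∀ w < 8, StW (nat_lit 43) (nat_lit 2) (nat_lit 2) (nat_lit 0) (getC CL0 w) :=
  (alS (alS (alS (alS (alS (alS (alS (alS al0 (stX (nat_lit 2) (nat_lit 0) (nat_lit 256) (Rl.cons (nat_lit 0) (nat_lit 13) Rl.nil) rfl rfl sc0_0 (rlc (starCk_zero _ _ _ _ _ _ _) rln))) (stX (nat_lit 0) (nat_lit 0) (nat_lit 1) (Rl.cons (nat_lit 0) (nat_lit 11) Rl.nil) rfl rfl sc0_1 (rlc (starCk_zero _ _ _ _ _ _ _) rln))) (stX (nat_lit 0) (nat_lit 0) (nat_lit 1) (Rl.cons (nat_lit 0) (nat_lit 62) Rl.nil) rfl rfl sc0_2 (rlc (starCk_zero _ _ _ _ _ _ _) rln))) (stX (nat_lit 0) (nat_lit 0) (nat_lit 1) (Rl.cons (nat_lit 0) (nat_lit 30) Rl.nil) rfl rfl sc0_3 (rlc (starCk_zero _ _ _ _ _ _ _) rln))) (stX (nat_lit 0) (nat_lit 0) (nat_lit 1)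 (Rl.cons (nat_lit 0) (nat_lit 1) Rl.nil) rfl rfl sc0_4 (rlc (starCk_zero _ _ _ _ _ _ _) rln))) (stX (nat_lit 0) (nat_lit 0) (nat_lit 1) (Rl.cons (nat_lit 0) (nat_lit 304) Rl.nil) rfl rfl sc0_5 (rlc (starCk_zero _ _ _ _ _ _ _) rln))) (stX (nat_lit 0) (nat_lit 0) (nat_lit 1) (Rl.cons (nat_lit 0) (nat_lit 134) Rl.nil) rfl rfl sc0_6 (rlc (starCk_zero _ _ _ _ _ _ _) rln))) (stX (nat_lit 0) (nat_lit 0) (nat_lit 1) (Rl.cons (nat_lit 0) (nat_lit 33) Rl.nil) rfl rfl sc0_7 (rlc (starCk_zero _ _ _ _ _ _ _) rln)))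
theorem ct0 : TiS (nat_lit 43) (nat_lit 2) (nat_lit 1) (nat_lit 1) (nat_lit 11) (nat_lit 8) (nat_lit 1) CL0 :=
  tiS ZZ0 (alS (alS (alS (alS (alS (alS (alS (alS al0 tc0_0) tc0_1) tc0_2) tc0_3) tc0_4) tc0_5) tc0_6) tc0_7)
  (zzc ⟨(nat_lit 59), zl0_0, ti0_0⟩ zzn)
theorem cw1 : ∀ w < 8, wfC (nat_lit 39) (nat_lit 10) (getC CL1 w) = true :=
  (alS (alS (alS (alS (alS (alS (alS (alS al0 wf1_0) wf1_1) wf1_2) wf1_3) wf1_4) wf1_5) wf1_6) wf1_7)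
theorem cr1 : ∀ w < 8, rfCk (nat_lit 43) (nat_lit 2) (nat_lit 39) (nat_lit 10) (nat_lit 9) (nat_lit 0) w TL1 CL0 CL1 = true :=
  (alS (alS (alS (alS (alS (alS (alS (alS al0 rf1_0) rf1_1) rf1_2) rf1_3) rf1_4) rf1_5) rf1_6) rf1_7)
theorem vm1 : eqVM CL0 CL1 8 = true := by decide +kernel
theorem cs1 : ∀ w < 8, StW (nat_lit 39) (nat_lit 10) (nat_lit 1) (nat_lit 5) (getC CL1 w) :=
  (alS (alS (alS (alS (alS (alS (alS (alS al0 (stX (nat_lit 2) (nat_lit 0) (nat_lit 256) (Rl.cons (nat_lit 0) (nat_lit 3) Rl.nil) rfl rfl sc1_0 (rlc st1_0_0 rln))) (stX (nat_lit 0) (nat_lit 0) (nat_lit 1) Rl.nil rfl rfl sc1_1 rln)) (stX (nat_lit 0) (nat_lit 3) (nat_lit 1) (Rl.cons (nat_lit 3) (nat_lit 2) Rl.nil) rfl rfl sc1_2 (rlc st1_2_0 rln))) (stX (nat_lit 2) (nat_lit 4) (nat_lit 256) (Rl.cons (nat_lit 4) (nat_lit 1) Rl.nil) rfl rfl sc1_3 (rlc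 st1_3_0 rln))) (stX (nat_lit 0) (nat_lit 0) (nat_lit 1) Rl.nil rfl rfl sc1_4 rln)) (stX (nat_lit 0) (nat_lit 18) (nat_lit 1) (Rl.cons (nat_lit 18) (nat_lit 18) Rl.nil) rfl rfl sc1_5 (rlc st1_5_0 rln))) (stX (nat_lit 3) (nat_lit 53) (nat_lit 4096) (Rl.cons (nat_lit 53) (nat_lit 29) Rl.nil) rfl rfl sc1_6 (rlc st1_6_0 rln))) (stX (nat_lit 0) (nat_lit 0) (nat_lit 1) Rl.nil rfl rfl sc1_7 rln))
theorem ct1 : TiS (nat_lit 39) (nat_lit 10) (nat_lit 2) (nat_lit 4) (nat_lit 11) (nat_lit 8) (nat_lit 1) CL1 :=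
  tiS ZZ1 (alS (alS (alS (alS (alS (alS (alS (alS al0 tc1_0) tc1_1) tc1_2) tc1_3) tc1_4) tc1_5) tc1_6) tc1_7)
  (zzc ⟨(nat_lit 35), zl1_0, ti1_0⟩ zzn)
theorem cd : ∀ w < 8, deadCk (nat_lit 39) (nat_lit 10) (getC CL1 w) = true :=
  (alS (alS (alS (alS (alS (alS (alS (alS al0 de1_0) de1_1) de1_2) de1_3) de1_4) de1_5) de1_6) de1_7)
theorem rc : recCk (recP 11 (3, 5, 16) 1 0 6).W 8 CL0 = true := by decide +kernel
theorem occ (O : OccL (recP 11 (3, 5, 16) 1 0 6) (locOK (Nat.testBit 1) (Nat.testBit 0) (Nat.testBit 6))) :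
    False := by
  have k := first_stage O 1 (nlOK_A (by decide) (by decide)) rfl rfl rfl rfl rc cw0 cp
  have k := run_stage k rfl (nat_lit 2) (nat_lit 0) (nat_lit 1) (nat_lit 1) rfl cs0 ct0
  have k := next_stage k (nat_lit 39) (nat_lit 10) (nat_lit 9) (nat_lit 0) rfl rfl rfl rfl rfl vm1 cw1 cr1
  have k := run_stage k rfl (nat_lit 1) (nat_lit 5) (nat_lit 2) (nat_lit 4) rfl cs1 ct1
  exact last_stage k rfl cd
theorem res : ∃ ok, OkP (3, 5, 16) ok ∧ IsEmpty (LTil (shP 11 (3, 5, 16) ok)) :=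
  dead_P 1 0 6 (by decide +kernel) rc occ

end Pool.Agent.NNr.R11_3_5_16

namespace Pool.Agent.NNr.R11_4_5_6
open Pool.Agent.NNe Pool.Agent.NNc

theorem cw0 : ∀ w < 9, wfC (nat_lit 57) (nat_lit 2) (getC CL0 w) = true :=
  (alS (alS (alS (alS (alS (alS (alS (alS (alS al0 wf0_0) wf0_1) wf0_2) wf0_3) wf0_4) wf0_5) wf0_6) wf0_7) wf0_8)
theorem cp : ∀ w < 9, plCk (nat_lit 57) (nat_lit 2) (nat_lit 11) (nat_lit 0) (nat_lit 0) (nat_lit 7) (nat_lit 9) (nat_lit 4) w nl0 CL0 = true :=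
  (alS (alS (alS (alS (alS (alS (alS (alS (alS al0 pl0_0) pl0_1) pl0_2) pl0_3) pl0_4) pl0_5) pl0_6) pl0_7) pl0_8)
theorem cs0 : ∀ w < 9, StW (nat_lit 57) (nat_lit 2) (nat_lit 2) (nat_lit 0) (getC CL0 w) :=
  (alS (alS (alS (alS (alS (alS (alS (alS (alS al0 (stX (nat_lit 2) (nat_lit 0) (nat_lit 256) (Rl.cons (nat_lit 0) (nat_lit 13) Rl.nil) rfl rfl sc0_0 (rlc (starCk_zero _ _ _ _ _ _ _) rln))) (stX (nat_lit 1) (nat_lit 0) (nat_lit 16) (Rl.cons (nat_lit 0) (nat_lit 9) Rl.nil) rfl rfl sc0_1 (rlc (starCk_zero _ _ _ _ _ _ _) rln))) (stX (nat_lit 0) (nat_lit 0) (nat_lit 1) (Rl.cons (nat_lit 0) (nat_lit 57) Rl.nil) rfl rfl sc0_2 (rlc (starCk_zero _ _ _ _ _ _ _) rln))) (stX (nat_lit 0) (nat_lit 0) (nat_lit 1) (Rl.cons (nat_lit 0) (nat_lit 80) Rl.nil) rfl rfl sc0_3 (rlc (starCk_zero _ _ _ _ _ _ _) rln))) (stX (nat_lit 0) (nat_lit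 0) (nat_lit 1) (Rl.cons (nat_lit 0) (nat_lit 43) Rl.nil) rfl rfl sc0_4 (rlc (starCk_zero _ _ _ _ _ _ _) rln))) (stX (nat_lit 0) (nat_lit 0) (nat_lit 1) (Rl.cons (nat_lit 0) (nat_lit 33) Rl.nil) rfl rfl sc0_5 (rlc (starCk_zero _ _ _ _ _ _ _) rln))) (stX (nat_lit 0) (nat_lit 0) (nat_lit 1) (Rl.cons (nat_lit 0) (nat_lit 30) Rl.nil) rfl rfl sc0_6 (rlc (starCk_zero _ _ _ _ _ _ _) rln))) (stX (nat_lit 1) (nat_lit 0) (nat_lit 16) (Rl.cons (nat_lit 0) (nat_lit 77) Rl.nil) rfl rfl sc0_7 (rlc (starCk_zero _ _ _ _ _ _ _) rln))) (stX (nat_lit 0) (nat_lit 0) (nat_lit 1) (Rl.cons (nat_lit 0) (nat_lit 256) Rl.nil) rfl rfl sc0_8 (rlc (starCk_zero _ _ _ _ _ _ _) rln)))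
theorem ct0 : TiS (nat_lit 57) (nat_lit 2) (nat_lit 1) (nat_lit 1) (nat_lit 11) (nat_lit 9) (nat_lit 1) CL0 :=
  tiS ZZ0 (alS (alS (alS (alS (alS (alS (alS (alS (alS al0 tc0_0) tc0_1) tc0_2) tc0_3) tc0_4) tc0_5) tc0_6) tc0_7) tc0_8)
  (zzc ⟨(nat_lit 70), zl0_0, ti0_0⟩ zzn)
theorem cw1 : ∀ w < 9, wfC (nat_lit 31) (nat_lit 2) (getC CL1 w) = true :=
  (alS (alS (alS (alS (alS (alS (alS (alS (alS al0 wf1_0) wf1_1) wf1_2) wf1_3) wf1_4) wf1_5) wf1_6) wf1_7) wf1_8)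
theorem cr1 : ∀ w < 9, rfCk (nat_lit 57) (nat_lit 2) (nat_lit 31) (nat_lit 2) (nat_lit 9) (nat_lit 0) w TL1 CL0 CL1 = true :=
  (alS (alS (alS (alS (alS (alS (alS (alS (alS al0 rf1_0) rf1_1) rf1_2) rf1_3) rf1_4) rf1_5) rf1_6) rf1_7) rf1_8)
theorem vm1 : eqVM CL0 CL1 9 = true := by decide +kernel
theorem cs1 : ∀ w < 9, StW (nat_lit 31) (nat_lit 2) (nat_lit 1) (nat_lit 1) (getC CL1 w) :=
  (alS (alS (alS (alS (alS (alS (alS (alS (alS al0 (stX (nat_lit 2) (nat_lit 0) (nat_lit 256) (Rl.cons (nat_lit 0) (nat_lit 4) Rl.nil) rfl rfl sc1_0 (rlc st1_0_0 rln))) (stX (nat_lit 1) (nat_lit 0) (nat_lit 16) (Rl.cons (nat_lit 0) (nat_lit 2) Rl.nil) rfl rfl sc1_1 (rlc st1_1_0 rln))) (stX (nat_lit 2) (nat_lit 0) (nat_lit 256) Rl.nil rfl rfl sc1_2 rln)) (stX (nat_lit 0) (nat_lit 9) (nat_lit 1) (Rl.cons (nat_lit 9) (nat_lit 3) Rl.nil) rfl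 rfl sc1_3 (rlc st1_3_0 rln))) (stX (nat_lit 0) (nat_lit 7) (nat_lit 1) (Rl.cons (nat_lit 7) (nat_lit 3) Rl.nil) rfl rfl sc1_4 (rlc st1_4_0 rln))) (stX (nat_lit 1) (nat_lit 13) (nat_lit 16) (Rl.cons (nat_lit 13) (nat_lit 7) Rl.nil) rfl rfl sc1_5 (rlc st1_5_0 rln))) (stX (nat_lit 2) (nat_lit 16) (nat_lit 256) (Rl.cons (nat_lit 16) (nat_lit 4) Rl.nil) rfl rfl sc1_6 (rlc st1_6_0 rln))) (stX (nat_lit 3) (nat_lit 29) (nat_lit 4096) (Rl.cons (nat_lit 29) (nat_lit 20) Rl.nil) rfl rfl sc1_7 (rlc st1_7_0 rln))) (stX (nat_lit 1) (nat_lit 26) (nat_lit 16) (Rl.cons (nat_lit 26) (nat_lit 12) Rl.nil) rfl rfl sc1_8 (rlc st1_8_0 rln)))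
theorem ct1 : TiS (nat_lit 31) (nat_lit 2) (nat_lit 2) (nat_lit 0) (nat_lit 11) (nat_lit 9) (nat_lit 1) CL1 :=
  tiS ZZ1 (alS (alS (alS (alS (alS (alS (alS (alS (alS al0 tc1_0) tc1_1) tc1_2) tc1_3) tc1_4) tc1_5) tc1_6) tc1_7) tc1_8)
  (zzc ⟨(nat_lit 136), zl1_0, tileCk_zero _ _ _ _ _ _ _ _⟩ zzn)
theorem cw2 : ∀ w < 9, wfC (nat_lit 5) (nat_lit 3) (getC CL2 w) = true :=
  (alS (alS (alS (alS (alS (alS (alS (alS (alS al0 wf2_0) wf2_1) wf2_2) wf2_3) wf2_4) wf2_5) wf2_6) wf2_7) wf2_8)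
theorem cr2 : ∀ w < 9, rfCk (nat_lit 31) (nat_lit 2) (nat_lit 5) (nat_lit 3) (nat_lit 9) (nat_lit 0) w TL2 CL1 CL2 = true :=
  (alS (alS (alS (alS (alS (alS (alS (alS (alS al0 rf2_0) rf2_1) rf2_2) rf2_3) rf2_4) rf2_5) rf2_6) rf2_7) rf2_8)
theorem vm2 : eqVM CL1 CL2 9 = true := by decide +kernel
theorem cs2 : ∀ w < 9, StW (nat_lit 5) (nat_lit 3) (nat_lit 1) (nat_lit 1) (getC CL2 w) :=
  (alS (alS (alS (alS (alS (alS (alS (alS (alS al0 (stX (nat_lit 2) (nat_lit 0) (nat_lit 256) Rl.nil rfl rfl sc2_0 rln)) (stX (nat_lit 1) (nat_lit 0) (nat_lit 16) Rl.nil rfl rfl sc2_1 rln)) (stX (nat_lit 0) (nat_lit 0) (nat_lit 1) Rl.nil rfl rfl sc2_2 rln)) (stX (nat_lit 1) (nat_lit 0) (nat_lit 16) Rl.nil rfl rfl sc2_3 rln)) (stX (nat_lit 0) (nat_lit 0) (nat_lit 1) Rl.nil rfl rfl sc2_4 rln)) (stX (nat_lit 1) (nat_lit 5) (nat_lit 16) (Rl.cons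 (nat_lit 5) (nat_lit 2) Rl.nil) rfl rfl sc2_5 (rlc st2_5_0 rln))) (stX (nat_lit 2) (nat_lit 0) (nat_lit 256) Rl.nil rfl rfl sc2_6 rln)) (stX (nat_lit 1) (nat_lit 0) (nat_lit 16) Rl.nil rfl rfl sc2_7 rln)) (stX (nat_lit 0) (nat_lit 1) (nat_lit 1) (Rl.cons (nat_lit 1) (nat_lit 1) Rl.nil) rfl rfl sc2_8 (rlc st2_8_0 rln)))
theorem ct2 : TiS (nat_lit 5) (nat_lit 3) (nat_lit 2) (nat_lit 1) (nat_lit 11) (nat_lit 9) (nat_lit 1) CL2 :=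
  tiS ZZ2 (alS (alS (alS (alS (alS (alS (alS (alS (alS al0 tc2_0) tc2_1) tc2_2) tc2_3) tc2_4) tc2_5) tc2_6) tc2_7) tc2_8)
  (zzc ⟨(nat_lit 3), zl2_0, ti2_0⟩ zzn)
theorem cd : ∀ w < 9, deadCk (nat_lit 5) (nat_lit 3) (getC CL2 w) = true :=
  (alS (alS (alS (alS (alS (alS (alS (alS (alS al0 de2_0) de2_1) de2_2) de2_3) de2_4) de2_5) de2_6) de2_7) de2_8)
theorem rc : recCk (recP 11 (4, 5, 6) 0 0 7).W 9 CL0 = true := by decide +kernel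
theorem occ (O : OccL (recP 11 (4, 5, 6) 0 0 7) (locOK (Nat.testBit 0) (Nat.testBit 0) (Nat.testBit 7))) :
    False := by
  have k := first_stage O 1 (nlOK_A (by decide) (by decide)) rfl rfl rfl rfl rc cw0 cp
  have k := run_stage k rfl (nat_lit 2) (nat_lit 0) (nat_lit 1) (nat_lit 1) rfl cs0 ct0
  have k := next_stage k (nat_lit 31) (nat_lit 2) (nat_lit 9) (nat_lit 0) rfl rfl rfl rfl rfl vm1 cw1 cr1
  have k := run_stage k rfl (nat_lit 1) (nat_lit 1) (nat_lit 2) (nat_lit 0) rfl cs1 ct1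
  have k := next_stage k (nat_lit 5) (nat_lit 3) (nat_lit 9) (nat_lit 0) rfl rfl rfl rfl rfl vm2 cw2 cr2
  have k := run_stage k rfl (nat_lit 1) (nat_lit 1) (nat_lit 2) (nat_lit 1) rfl cs2 ct2
  exact last_stage k rfl cd
theorem res : ∃ ok, OkP (4, 5, 6) ok ∧ IsEmpty (LTil (shP 11 (4, 5, 6) ok)) :=
  dead_P 0 0 7 (by decide +kernel) rc occ

end Pool.Agent.NNr.R11_4_5_6

namespace Pool.Agent.NNr.R11_6_13_14
open Pool.Agent.NNe Pool.Agent.NNc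

theorem cw0 : ∀ w < 5, wfC (nat_lit 37) (nat_lit 2) (getC CL0 w) = true :=
  (alS (alS (alS (alS (alS al0 wf0_0) wf0_1) wf0_2) wf0_3) wf0_4)
theorem cp : ∀ w < 5, plCk (nat_lit 37) (nat_lit 2) (nat_lit 11) (nat_lit 0) (nat_lit 0) (nat_lit 7) (nat_lit 5) (nat_lit 4) w nl0 CL0 = true :=
  (alS (alS (alS (alS (alS al0 pl0_0) pl0_1) pl0_2) pl0_3) pl0_4)
theorem cs0 : ∀ w < 5, StW (nat_lit 37) (nat_lit 2) (nat_lit 2) (nat_lit 0) (getC CL0 w) :=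
  (alS (alS (alS (alS (alS al0 (stX (nat_lit 1) (nat_lit 0) (nat_lit 16) (Rl.cons (nat_lit 0) (nat_lit 18) Rl.nil) rfl rfl sc0_0 (rlc (starCk_zero _ _ _ _ _ _ _) rln))) (stX (nat_lit 0) (nat_lit 0) (nat_lit 1) (Rl.cons (nat_lit 0) (nat_lit 52) Rl.nil) rfl rfl sc0_1 (rlc (starCk_zero _ _ _ _ _ _ _) rln))) (stX (nat_lit 0) (nat_lit 0) (nat_lit 1) (Rl.cons (nat_lit 0) (nat_lit 24) Rl.nil) rfl rfl sc0_2 (rlc (starCk_zero _ _ _ _ _ _ _) rln))) (stX (nat_lit 0) (nat_lit 0) (nat_lit 1) Rl.nil rfl rfl sc0_3 rln)) (stX (nat_lit 0) (nat_lit 0) (nat_lit 1) (Rl.cons (nat_lit 0) (nat_lit 178) Rl.nil) rfl rfl sc0_4 (rlc (starCk_zero _ _ _ _ _ _ _) rln)))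
theorem ct0 : TiS (nat_lit 37) (nat_lit 2) (nat_lit 1) (nat_lit 1) (nat_lit 11) (nat_lit 5) (nat_lit 1) CL0 :=
  tiS ZZ0 (alS (alS (alS (alS (alS al0 tc0_0) tc0_1) tc0_2) tc0_3) tc0_4)
  (zzc ⟨(nat_lit 24), zl0_0, ti0_0⟩ zzn)
theorem cw1 : ∀ w < 5, wfC (nat_lit 13) (nat_lit 2) (getC CL1 w) = true :=
  (alS (alS (alS (alS (alS al0 wf1_0) wf1_1) wf1_2) wf1_3) wf1_4)
theorem cr1 : ∀ w < 5, rfCk (nat_lit 37) (nat_lit 2) (nat_lit 13) (nat_lit 2) (nat_lit 9) (nat_lit 0) w TL1 CL0 CL1 = true :=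
  (alS (alS (alS (alS (alS al0 rf1_0) rf1_1) rf1_2) rf1_3) rf1_4)
theorem vm1 : eqVM CL0 CL1 5 = true := by decide +kernel
theorem cs1 : ∀ w < 5, StW (nat_lit 13) (nat_lit 2) (nat_lit 1) (nat_lit 1) (getC CL1 w) :=
  (alS (alS (alS (alS (alS al0 (stX (nat_lit 2) (nat_lit 4) (nat_lit 256) (Rl.cons (nat_lit 4) (nat_lit 2) Rl.nil) rfl rfl sc1_0 (rlc st1_0_0 rln))) (stX (nat_lit 1) (nat_lit 5) (nat_lit 16) (Rl.cons (nat_lit 5) (nat_lit 2) Rl.nil) rfl rfl sc1_1 (rlc st1_1_0 rln))) (stX (nat_lit 0) (nat_lit 4) (nat_lit 1) (Rl.cons (nat_lit 4) (nat_lit 2) Rl.nil) rfl rfl sc1_2 (rlc st1_2_0 rln))) (stX (nat_lit 0) (nat_lit 0) (nat_lit 1) Rl.nil rfl rfl sc1_3 rln)) (stX (nat_lit 2) (nat_lit 26) (nat_lit 256) (Rl.cons (nat_lit 26) (nat_lit 5) Rl.nil) rfl rfl sc1_4 (rlc st1_4_0 rln)))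
theorem ct1 : TiS (nat_lit 13) (nat_lit 2) (nat_lit 2) (nat_lit 0) (nat_lit 11) (nat_lit 5) (nat_lit 1) CL1 :=
  tiS ZZ1 (alS (alS (alS (alS (alS al0 tc1_0) tc1_1) tc1_2) tc1_3) tc1_4)
  (zzc ⟨(nat_lit 60), zl1_0, tileCk_zero _ _ _ _ _ _ _ _⟩ zzn)
theorem cw2 : ∀ w < 5, wfC (nat_lit 1) (nat_lit 1) (getC CL2 w) = true :=
  (alS (alS (alS (alS (alS al0 wf2_0) wf2_1) wf2_2) wf2_3) wf2_4)
theorem cr2 : ∀ w < 5, rfCk (nat_lit 13) (nat_lit 2) (nat_lit 1) (nat_lit 1) (nat_lit 9) (nat_lit 0) w TL2 CL1 CL2 = true :=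
  (alS (alS (alS (alS (alS al0 rf2_0) rf2_1) rf2_2) rf2_3) rf2_4)
theorem vm2 : eqVM CL1 CL2 5 = true := by decide +kernel
theorem cd : ∀ w < 5, deadCk (nat_lit 1) (nat_lit 1) (getC CL2 w) = true :=
  (alS (alS (alS (alS (alS al0 de2_0) de2_1) de2_2) de2_3) de2_4)
theorem rc : recCk (recP 11 (6, 13, 14) 0 0 7).W 5 CL0 = true := by decide +kernel
theorem occ (O : OccL (recP 11 (6, 13, 14) 0 0 7) (locOK (Nat.testBit 0) (Nat.testBit 0) (Nat.testBit 7))) :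
    False := by
  have k := first_stage O 1 (nlOK_A (by decide) (by decide)) rfl rfl rfl rfl rc cw0 cp
  have k := run_stage k rfl (nat_lit 2) (nat_lit 0) (nat_lit 1) (nat_lit 1) rfl cs0 ct0
  have k := next_stage k (nat_lit 13) (nat_lit 2) (nat_lit 9) (nat_lit 0) rfl rfl rfl rfl rfl vm1 cw1 cr1
  have k := run_stage k rfl (nat_lit 1) (nat_lit 1) (nat_lit 2) (nat_lit 0) rfl cs1 ct1
  have k := next_stage k (nat_lit 1) (nat_lit 1) (nat_lit 9) (nat_lit 0) rfl rfl rfl rfl rfl vm2 cw2 cr2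
  exact last_stage k rfl cd
theorem res : ∃ ok, OkP (6, 13, 14) ok ∧ IsEmpty (LTil (shP 11 (6, 13, 14) ok)) :=
  dead_P 0 0 7 (by decide +kernel) rc occ

end Pool.Agent.NNr.R11_6_13_14

namespace Pool.Agent.NNr.R11_6_7_14
open Pool.Agent.NNe Pool.Agent.NNc

theorem cw0 : ∀ w < 7, wfC (nat_lit 41) (nat_lit 8) (getC CL0 w) = true :=
  (alS (alS (alS (alS (alS (alS (alS al0 wf0_0) wf0_1) wf0_2) wf0_3) wf0_4) wf0_5) wf0_6)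
theorem cp : ∀ w < 7, plCk (nat_lit 41) (nat_lit 8) (nat_lit 11) (nat_lit 0) (nat_lit 0) (nat_lit 7) (nat_lit 7) (nat_lit 4) w nl0 CL0 = true :=
  (alS (alS (alS (alS (alS (alS (alS al0 pl0_0) pl0_1) pl0_2) pl0_3) pl0_4) pl0_5) pl0_6)
theorem cs0 : ∀ w < 7, StW (nat_lit 41) (nat_lit 8) (nat_lit 2) (nat_lit 3) (getC CL0 w) :=
  (alS (alS (alS (alS (alS (alS (alS al0 (stX (nat_lit 0) (nat_lit 9) (nat_lit 1) (Rl.cons (nat_lit 9) (nat_lit 9) Rl.nil) rfl rfl sc0_0 (rlc st0_0_0 rln))) (stX (nat_lit 0) (nat_lit 15) (nat_lit 1) (Rl.cons (nat_lit 15) (nat_lit 11) Rl.nil) rfl rfl sc0_1 (rlc st0_1_0 rln))) (stX (nat_lit 2) (nat_lit 46) (nat_lit 256) (Rl.cons (nat_lit 46) (nat_lit 9) Rl.nil) rfl rfl sc0_2 (rlc st0_2_0 rln))) (stX (nat_lit 0) (nat_lit 7) (nat_lit 1) (Rl.cons (nat_lit 7) (nat_lit 5) Rl.nil) rfl rfl sc0_3 (rlc st0_3_0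 rln))) (stX (nat_lit 0) (nat_lit 2) (nat_lit 1) (Rl.cons (nat_lit 2) (nat_lit 2) Rl.nil) rfl rfl sc0_4 (rlc st0_4_0 rln))) (stX (nat_lit 1) (nat_lit 46) (nat_lit 16) (Rl.cons (nat_lit 46) (nat_lit 20) Rl.nil) rfl rfl sc0_5 (rlc st0_5_0 rln))) (stX (nat_lit 0) (nat_lit 16) (nat_lit 1) (Rl.cons (nat_lit 16) (nat_lit 20) Rl.nil) rfl rfl sc0_6 (rlc st0_6_0 rln)))
theorem ct0 : TiS (nat_lit 41) (nat_lit 8) (nat_lit 1) (nat_lit 4) (nat_lit 11) (nat_lit 7) (nat_lit 1) CL0 :=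
  tiS ZZ0 (alS (alS (alS (alS (alS (alS (alS al0 tc0_0) tc0_1) tc0_2) tc0_3) tc0_4) tc0_5) tc0_6)
  (zzc ⟨(nat_lit 77), zl0_0, ti0_0⟩ zzn)
theorem cd : ∀ w < 7, deadCk (nat_lit 41) (nat_lit 8) (getC CL0 w) = true :=
  (alS (alS (alS (alS (alS (alS (alS al0 de0_0) de0_1) de0_2) de0_3) de0_4) de0_5) de0_6)
theorem rc : recCk (recP 11 (6, 7, 14) 0 0 7).W 7 CL0 = true := by decide +kernel
theorem occ (O : OccL (recP 11 (6, 7, 14) 0 0 7) (locOK (Nat.testBit 0) (Nat.testBit 0) (Nat.testBit 7))) :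
    False := by
  have k := first_stage O 1 (nlOK_A (by decide) (by decide)) rfl rfl rfl rfl rc cw0 cp
  have k := run_stage k rfl (nat_lit 2) (nat_lit 3) (nat_lit 1) (nat_lit 4) rfl cs0 ct0
  exact last_stage k rfl cd
theorem res : ∃ ok, OkP (6, 7, 14) ok ∧ IsEmpty (LTil (shP 11 (6, 7, 14) ok)) :=
  dead_P 0 0 7 (by decide +kernel) rc occ

end Pool.Agent.NNr.R11_6_7_14

namespace Pool.Agent.NNr.R13_1_4_5
open Pool.Agent.NNe Pool.Agent.NNc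

theorem cw0 : ∀ w < 18, wfC (nat_lit 59) (nat_lit 5) (getC CL0 w) = true :=
  (alS (alS (alS (alS (alS (alS (alS (alS (alS (alS (alS (alS (alS (alS (alS (alS (alS (alS al0 wf0_0) wf0_1) wf0_2) wf0_3) wf0_4) wf0_5) wf0_6) wf0_7) wf0_8) wf0_9) wf0_10) wf0_11) wf0_12) wf0_13) wf0_14) wf0_15) wf0_16) wf0_17)
theorem cp : ∀ w < 18, plCk (nat_lit 59) (nat_lit 5) (nat_lit 13) (nat_lit 5) (nat_lit 0) (nat_lit 2) (nat_lit 18) (nat_lit 4) w nl0 CL0 = true :=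
  (alS (alS (alS (alS (alS (alS (alS (alS (alS (alS (alS (alS (alS (alS (alS (alS (alS (alS al0 pl0_0) pl0_1) pl0_2) pl0_3) pl0_4) pl0_5) pl0_6) pl0_7) pl0_8) pl0_9) pl0_10) pl0_11) pl0_12) pl0_13) pl0_14) pl0_15) pl0_16) pl0_17)
theorem cs0 : ∀ w < 18, StW (nat_lit 59) (nat_lit 5) (nat_lit 1) (nat_lit 2) (getC CL0 w) :=
  (alS (alS (alS (alS (alS (alS (alS (alS (alS (alS (alS (alS (alS (alS (alS (alS (alS (alS al0 (stX (nat_lit 2) (nat_lit 0) (nat_lit 256) (Rl.cons (nat_lit 0) (nat_lit 10) Rl.nil) rfl rfl sc0_0 (rlc st0_0_0 rln))) (stX (nat_lit 1) (nat_lit 0) (nat_lit 16) (Rl.cons (nat_lit 0) (nat_lit 14) Rl.nil) rfl rfl sc0_1 (rlc st0_1_0 rln))) (stX (nat_lit 0) (nat_lit 21) (nat_lit 1) (Rl.cons (nat_lit 21) (nat_lit 17) Rl.nil) rfl rfl sc0_2 (rlc st0_2_0 rln))) (stX (nat_lit 2) (nat_lit 109) (nat_lit 256) (Rl.cons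 (nat_lit 109) (nat_lit 24) Rl.nil) rfl rfl sc0_3 (rlc st0_3_0 rln))) (stX (nat_lit 2) (nat_lit 103) (nat_lit 256) (Rl.cons (nat_lit 103) (nat_lit 14) Rl.nil) rfl rfl sc0_4 (rlc st0_4_0 rln))) (stX (nat_lit 0) (nat_lit 18) (nat_lit 1) (Rl.cons (nat_lit 18) (nat_lit 14) Rl.nil) rfl rfl sc0_5 (rlc st0_5_0 rln))) (stX (nat_lit 2) (nat_lit 32) (nat_lit 256) (Rl.cons (nat_lit 32) (nat_lit 14) Rl.nil) rfl rfl sc0_6 (rlc st0_6_0 rln))) (stX (nat_lit 1) (nat_lit 40) (nat_lit 16) (Rl.cons (nat_lit 40) (nat_lit 13) Rl.nil) rfl rfl sc0_7 (rlc st0_7_0 rln))) (stX (nat_lit 2) (nat_lit 59) (nat_lit 256) (Rl.cons (nat_lit 59) (nat_lit 9) Rl.nil) rfl rfl sc0_8 (rlc st0_8_0 rln))) (stX (nat_lit 1) (nat_lit 18) (nat_lit 16) (Rl.cons (nat_lit 18) (nat_lit 8) Rl.nil) rfl rfl sc0_9 (rlc st0_9_0 rln))) (stX (nat_lit 2) (nat_lit 10) (nat_lit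 256) (Rl.cons (nat_lit 10) (nat_lit 3) Rl.nil) rfl rfl sc0_10 (rlc st0_10_0 rln))) (stX (nat_lit 2) (nat_lit 0) (nat_lit 256) Rl.nil rfl rfl sc0_11 rln)) (stX (nat_lit 3) (nat_lit 141) (nat_lit 4096) (Rl.cons (nat_lit 141) (nat_lit 115) Rl.nil) rfl rfl sc0_12 (rlc st0_12_0 rln))) (stX (nat_lit 1) (nat_lit 101) (nat_lit 16) (Rl.cons (nat_lit 101) (nat_lit 43) Rl.nil) rfl rfl sc0_13 (rlc st0_13_0 rln))) (stX (nat_lit 1) (nat_lit 99) (nat_lit 16) (Rl.cons (nat_lit 99) (nat_lit 49) Rl.nil) rfl rfl sc0_14 (rlc st0_14_0 rln))) (stX (nat_lit 2) (nat_lit 89) (nat_lit 256) (Rl.cons (nat_lit 89) (nat_lit 58) Rl.nil) rfl rfl sc0_15 (rlc st0_15_0 rln))) (stX (nat_lit 1) (nat_lit 85) (nat_lit 16) (Rl.cons (nat_lit 85) (nat_lit 30) Rl.nil) rfl rfl sc0_16 (rlc st0_16_0 rln))) (stX (nat_lit 3) (nat_lit 39) (nat_lit 4096) (Rl.cons (nat_lit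 39) (nat_lit 30) Rl.nil) rfl rfl sc0_17 (rlc st0_17_0 rln)))
theorem ct0 : TiS (nat_lit 59) (nat_lit 5) (nat_lit 2) (nat_lit 2) (nat_lit 13) (nat_lit 18) (nat_lit 1) CL0 :=
  tiS ZZ0 (alS (alS (alS (alS (alS (alS (alS (alS (alS (alS (alS (alS (alS (alS (alS (alS (alS (alS al0 tc0_0) tc0_1) tc0_2) tc0_3) tc0_4) tc0_5) tc0_6) tc0_7) tc0_8) tc0_9) tc0_10) tc0_11) tc0_12) tc0_13) tc0_14) tc0_15) tc0_16) tc0_17)
  (zzc ⟨(nat_lit 273), zl0_0, ti0_0⟩ zzn)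
theorem cw1 : ∀ w < 18, wfC (nat_lit 59) (nat_lit 5) (getC CL1 w) = true :=
  (alS (alS (alS (alS (alS (alS (alS (alS (alS (alS (alS (alS (alS (alS (alS (alS (alS (alS al0 wf1_0) wf1_1) wf1_2) wf1_3) wf1_4) wf1_5) wf1_6) wf1_7) wf1_8) wf1_9) wf1_10) wf1_11) wf1_12) wf1_13) wf1_14) wf1_15) wf1_16) wf1_17)
theorem cr1 : ∀ w < 18, rfCk (nat_lit 59) (nat_lit 5) (nat_lit 59) (nat_lit 5) (nat_lit 1) (nat_lit 262144) w TL1 CL0 CL1 = true :=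
  (alS (alS (alS (alS (alS (alS (alS (alS (alS (alS (alS (alS (alS (alS (alS (alS (alS (alS al0 rf1_0) rf1_1) rf1_2) rf1_3) rf1_4) rf1_5) rf1_6) rf1_7) rf1_8) rf1_9) rf1_10) rf1_11) rf1_12) rf1_13) rf1_14) rf1_15) rf1_16) rf1_17)
theorem vm1 : eqVM CL0 CL1 18 = true := by decide +kernel
theorem cs1 : ∀ w < 18, StW (nat_lit 59) (nat_lit 5) (nat_lit 1) (nat_lit 2) (getC CL1 w) :=
  (alS (alS (alS (alS (alS (alS (alS (alS (alS (alS (alS (alS (alS (alS (alS (alS (alS (alS al0 (stX (nat_lit 2) (nat_lit 0) (nat_lit 256) (Rl.cons (nat_lit 0) (nat_lit 12) Rl.nil) rfl rfl sc1_0 (rlc st1_0_0 rln))) (stX (nat_lit 1) (nat_lit 0) (nat_lit 16) (Rl.cons (nat_lit 0) (nat_lit 42) Rl.nil) rfl rfl sc1_1 (rlc st1_1_0 rln))) (stX (nat_lit 0) (nat_lit 60) (nat_lit 1) (Rl.cons (nat_lit 60) (nat_lit 54) Rl.nil) rfl rfl sc1_2 (rlc st1_2_0 rln)))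 (stX (nat_lit 2) (nat_lit 331) (nat_lit 256) (Rl.cons (nat_lit 331) (nat_lit 32) Rl.nil) rfl rfl sc1_3 (rlc st1_3_0 rln))) (stX (nat_lit 2) (nat_lit 289) (nat_lit 256) (Rl.cons (nat_lit 289) (nat_lit 16) Rl.nil) rfl rfl sc1_4 (rlc st1_4_0 rln))) (stX (nat_lit 0) (nat_lit 56) (nat_lit 1) (Rl.cons (nat_lit 56) (nat_lit 36) Rl.nil) rfl rfl sc1_5 (rlc st1_5_0 rln))) (stX (nat_lit 2) (nat_lit 80) (nat_lit 256) (Rl.cons (nat_lit 80) (nat_lit 16) Rl.nil) rfl rfl sc1_6 (rlc st1_6_0 rln))) (stX (nat_lit 1) (nat_lit 104) (nat_lit 16) (Rl.cons (nat_lit 104) (nat_lit 30) Rl.nil) rfl rfl sc1_7 (rlc st1_7_0 rln))) (stX (nat_lit 2) (nat_lit 136) (nat_lit 256) (Rl.cons (nat_lit 136) (nat_lit 7) Rl.nil) rfl rfl sc1_8 (rlc st1_8_0 rln))) (stX (nat_lit 0) (nat_lit 0) (nat_lit 1) Rl.nil rfl rfl sc1_9 rln)) (stX (nat_lit 0) (nat_lit 0) (nat_lit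 1) Rl.nil rfl rfl sc1_10 rln)) (stX (nat_lit 0) (nat_lit 0) (nat_lit 1) Rl.nil rfl rfl sc1_11 rln)) (stX (nat_lit 3) (nat_lit 362) (nat_lit 4096) (Rl.cons (nat_lit 362) (nat_lit 308) Rl.nil) rfl rfl sc1_12 (rlc st1_12_0 rln))) (stX (nat_lit 1) (nat_lit 332) (nat_lit 16) (Rl.cons (nat_lit 332) (nat_lit 144) Rl.nil) rfl rfl sc1_13 (rlc st1_13_0 rln))) (stX (nat_lit 1) (nat_lit 332) (nat_lit 16) (Rl.cons (nat_lit 332) (nat_lit 160) Rl.nil) rfl rfl sc1_14 (rlc st1_14_0 rln))) (stX (nat_lit 2) (nat_lit 236) (nat_lit 256) (Rl.cons (nat_lit 236) (nat_lit 90) Rl.nil) rfl rfl sc1_15 (rlc st1_15_0 rln))) (stX (nat_lit 1) (nat_lit 212) (nat_lit 16) (Rl.cons (nat_lit 212) (nat_lit 80) Rl.nil) rfl rfl sc1_16 (rlc st1_16_0 rln))) (stX (nat_lit 0) (nat_lit 0) (nat_lit 1) Rl.nil rfl rfl sc1_17 rln))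
theorem ct1 : TiS (nat_lit 59) (nat_lit 5) (nat_lit 2) (nat_lit 2) (nat_lit 13) (nat_lit 18) (nat_lit 1) CL1 :=
  tiS ZZ1 (alS (alS (alS (alS (alS (alS (alS (alS (alS (alS (alS (alS (alS (alS (alS (alS (alS (alS al0 tc1_0) tc1_1) tc1_2) tc1_3) tc1_4) tc1_5) tc1_6) tc1_7) tc1_8) tc1_9) tc1_10) tc1_11) tc1_12) tc1_13) tc1_14) tc1_15) tc1_16) tc1_17)
  (zzc ⟨(nat_lit 416), zl1_0, ti1_0⟩ (zzc ⟨(nat_lit 416), zl1_1, ti1_1⟩ zzn))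
theorem cw2 : ∀ w < 18, wfC (nat_lit 61) (nat_lit 11) (getC CL2 w) = true :=
  (alS (alS (alS (alS (alS (alS (alS (alS (alS (alS (alS (alS (alS (alS (alS (alS (alS (alS al0 wf2_0) wf2_1) wf2_2) wf2_3) wf2_4) wf2_5) wf2_6) wf2_7) wf2_8) wf2_9) wf2_10) wf2_11) wf2_12) wf2_13) wf2_14) wf2_15) wf2_16) wf2_17)
theorem cr2 : ∀ w < 18, rfCk (nat_lit 59) (nat_lit 5) (nat_lit 61) (nat_lit 11) (nat_lit 9) (nat_lit 0) w TL2 CL1 CL2 = true :=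
  (alS (alS (alS (alS (alS (alS (alS (alS (alS (alS (alS (alS (alS (alS (alS (alS (alS (alS al0 rf2_0) rf2_1) rf2_2) rf2_3) rf2_4) rf2_5) rf2_6) rf2_7) rf2_8) rf2_9) rf2_10) rf2_11) rf2_12) rf2_13) rf2_14) rf2_15) rf2_16) rf2_17)
theorem vm2 : eqVM CL1 CL2 18 = true := by decide +kernel
theorem cs2 : ∀ w < 18, StW (nat_lit 61) (nat_lit 11) (nat_lit 1) (nat_lit 5) (getC CL2 w) :=
  (alS (alS (alS (alS (alS (alS (alS (alS (alS (alS (alS (alS (alS (alS (alS (alS (alS (alS al0 (stX (nat_lit 2) (nat_lit 0) (nat_lit 256) (Rl.cons (nat_lit 0) (nat_lit 11) Rl.nil) rfl rfl sc2_0 (rlc st2_0_0 rln))) (stX (nat_lit 1) (nat_lit 0) (nat_lit 16) (Rl.cons (nat_lit 0) (nat_lit 12) Rl.nil) rfl rfl sc2_1 (rlc st2_1_0 rln))) (stX (nat_lit 1) (nat_lit 65) (nat_lit 16) (Rl.cons (nat_lit 65) (nat_lit 24) Rl.nil) rfl rfl sc2_2 (rlc st2_2_0 rln)))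 (stX (nat_lit 2) (nat_lit 177) (nat_lit 256) (Rl.cons (nat_lit 177) (nat_lit 27) Rl.nil) rfl rfl sc2_3 (rlc st2_3_0 rln))) (stX (nat_lit 2) (nat_lit 146) (nat_lit 256) (Rl.cons (nat_lit 146) (nat_lit 14) Rl.nil) rfl rfl sc2_4 (rlc st2_4_0 rln))) (stX (nat_lit 1) (nat_lit 44) (nat_lit 16) (Rl.cons (nat_lit 44) (nat_lit 22) Rl.nil) rfl rfl sc2_5 (rlc st2_5_0 rln))) (stX (nat_lit 2) (nat_lit 44) (nat_lit 256) (Rl.cons (nat_lit 44) (nat_lit 13) Rl.nil) rfl rfl sc2_6 (rlc st2_6_0 rln))) (stX (nat_lit 1) (nat_lit 56) (nat_lit 16) (Rl.cons (nat_lit 56) (nat_lit 12) Rl.nil) rfl rfl sc2_7 (rlc st2_7_0 rln))) (stX (nat_lit 2) (nat_lit 58) (nat_lit 256) (Rl.cons (nat_lit 58) (nat_lit 4) Rl.nil) rfl rfl sc2_8 (rlc st2_8_0 rln))) (stX (nat_lit 0) (nat_lit 0) (nat_lit 1) Rl.nil rfl rfl sc2_9 rln)) (stX (nat_lit 0) (nat_lit 0) (nat_lit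 1) Rl.nil rfl rfl sc2_10 rln)) (stX (nat_lit 0) (nat_lit 0) (nat_lit 1) Rl.nil rfl rfl sc2_11 rln)) (stX (nat_lit 3) (nat_lit 244) (nat_lit 4096) (Rl.cons (nat_lit 244) (nat_lit 193) Rl.nil) rfl rfl sc2_12 (rlc st2_12_0 rln))) (stX (nat_lit 1) (nat_lit 226) (nat_lit 16) (Rl.cons (nat_lit 226) (nat_lit 73) Rl.nil) rfl rfl sc2_13 (rlc st2_13_0 rln))) (stX (nat_lit 1) (nat_lit 204) (nat_lit 16) (Rl.cons (nat_lit 204) (nat_lit 82) Rl.nil) rfl rfl sc2_14 (rlc st2_14_0 rln))) (stX (nat_lit 2) (nat_lit 111) (nat_lit 256) (Rl.cons (nat_lit 111) (nat_lit 49) Rl.nil) rfl rfl sc2_15 (rlc st2_15_0 rln))) (stX (nat_lit 1) (nat_lit 132) (nat_lit 16) (Rl.cons (nat_lit 132) (nat_lit 37) Rl.nil) rfl rfl sc2_16 (rlc st2_16_0 rln))) (stX (nat_lit 0) (nat_lit 0) (nat_lit 1) Rl.nil rfl rfl sc2_17 rln))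
theorem ct2 : TiS (nat_lit 61) (nat_lit 11) (nat_lit 2) (nat_lit 5) (nat_lit 13) (nat_lit 18) (nat_lit 1) CL2 :=
  tiS ZZ2 (alS (alS (alS (alS (alS (alS (alS (alS (alS (alS (alS (alS (alS (alS (alS (alS (alS (alS al0 tc2_0) tc2_1) tc2_2) tc2_3) tc2_4) tc2_5) tc2_6) tc2_7) tc2_8) tc2_9) tc2_10) tc2_11) tc2_12) tc2_13) tc2_14) tc2_15) tc2_16) tc2_17)
  (zzc ⟨(nat_lit 293), zl2_0, ti2_0⟩ (zzc ⟨(nat_lit 50), zl2_1, ti2_1⟩ zzn))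
theorem cw3 : ∀ w < 18, wfC (nat_lit 37) (nat_lit 7) (getC CL3 w) = true :=
  (alS (alS (alS (alS (alS (alS (alS (alS (alS (alS (alS (alS (alS (alS (alS (alS (alS (alS al0 wf3_0) wf3_1) wf3_2) wf3_3) wf3_4) wf3_5) wf3_6) wf3_7) wf3_8) wf3_9) wf3_10) wf3_11) wf3_12) wf3_13) wf3_14) wf3_15) wf3_16) wf3_17)
theorem cr3 : ∀ w < 18, rfCk (nat_lit 61) (nat_lit 11) (nat_lit 37) (nat_lit 7) (nat_lit 9) (nat_lit 0) w TL3 CL2 CL3 = true :=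
  (alS (alS (alS (alS (alS (alS (alS (alS (alS (alS (alS (alS (alS (alS (alS (alS (alS (alS al0 rf3_0) rf3_1) rf3_2) rf3_3) rf3_4) rf3_5) rf3_6) rf3_7) rf3_8) rf3_9) rf3_10) rf3_11) rf3_12) rf3_13) rf3_14) rf3_15) rf3_16) rf3_17)
theorem vm3 : eqVM CL2 CL3 18 = true := by decide +kernel
theorem cs3 : ∀ w < 18, StW (nat_lit 37) (nat_lit 7) (nat_lit 1) (nat_lit 3) (getC CL3 w) :=
  (alS (alS (alS (alS (alS (alS (alS (alS (alS (alS (alS (alS (alS (alS (alS (alS (alS (alS al0 (stX (nat_lit 2) (nat_lit 0) (nat_lit 256) (Rl.cons (nat_lit 0) (nat_lit 4) Rl.nil) rfl rfl sc3_0 (rlc st3_0_0 rln))) (stX (nat_lit 1) (nat_lit 0) (nat_lit 16) (Rl.cons (nat_lit 0) (nat_lit 3) Rl.nil) rfl rfl sc3_1 (rlc st3_1_0 rln))) (stX (nat_lit 0) (nat_lit 9) (nat_lit 1) (Rl.cons (nat_lit 9) (nat_lit 8) Rl.nil) rfl rfl sc3_2 (rlc st3_2_0 rln))) (stX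 (nat_lit 2) (nat_lit 83) (nat_lit 256) (Rl.cons (nat_lit 83) (nat_lit 16) Rl.nil) rfl rfl sc3_3 (rlc st3_3_0 rln))) (stX (nat_lit 2) (nat_lit 72) (nat_lit 256) (Rl.cons (nat_lit 72) (nat_lit 6) Rl.nil) rfl rfl sc3_4 (rlc st3_4_0 rln))) (stX (nat_lit 0) (nat_lit 12) (nat_lit 1) (Rl.cons (nat_lit 12) (nat_lit 9) Rl.nil) rfl rfl sc3_5 (rlc st3_5_0 rln))) (stX (nat_lit 0) (nat_lit 0) (nat_lit 1) Rl.nil rfl rfl sc3_6 rln)) (stX (nat_lit 1) (nat_lit 28) (nat_lit 16) (Rl.cons (nat_lit 28) (nat_lit 6) Rl.nil) rfl rfl sc3_7 (rlc st3_7_0 rln))) (stX (nat_lit 0) (nat_lit 0) (nat_lit 1) Rl.nil rfl rfl sc3_8 rln)) (stX (nat_lit 0) (nat_lit 0) (nat_lit 1) Rl.nil rfl rfl sc3_9 rln)) (stX (nat_lit 0) (nat_lit 0) (nat_lit 1) Rl.nil rfl rfl sc3_10 rln)) (stX (nat_lit 0) (nat_lit 0) (nat_lit 1) Rl.nil rfl rfl sc3_11 rln)) (stX (nat_lit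 3) (nat_lit 66) (nat_lit 4096) (Rl.cons (nat_lit 66) (nat_lit 49) Rl.nil) rfl rfl sc3_12 (rlc st3_12_0 rln))) (stX (nat_lit 1) (nat_lit 64) (nat_lit 16) (Rl.cons (nat_lit 64) (nat_lit 27) Rl.nil) rfl rfl sc3_13 (rlc st3_13_0 rln))) (stX (nat_lit 3) (nat_lit 95) (nat_lit 4096) (Rl.cons (nat_lit 95) (nat_lit 38) Rl.nil) rfl rfl sc3_14 (rlc st3_14_0 rln))) (stX (nat_lit 2) (nat_lit 21) (nat_lit 256) (Rl.cons (nat_lit 21) (nat_lit 12) Rl.nil) rfl rfl sc3_15 (rlc st3_15_0 rln))) (stX (nat_lit 1) (nat_lit 52) (nat_lit 16) (Rl.cons (nat_lit 52) (nat_lit 18) Rl.nil) rfl rfl sc3_16 (rlc st3_16_0 rln))) (stX (nat_lit 0) (nat_lit 0) (nat_lit 1) Rl.nil rfl rfl sc3_17 rln))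
theorem ct3 : TiS (nat_lit 37) (nat_lit 7) (nat_lit 2) (nat_lit 3) (nat_lit 13) (nat_lit 18) (nat_lit 1) CL3 :=
  tiS ZZ3 (alS (alS (alS (alS (alS (alS (alS (alS (alS (alS (alS (alS (alS (alS (alS (alS (alS (alS al0 tc3_0) tc3_1) tc3_2) tc3_3) tc3_4) tc3_5) tc3_6) tc3_7) tc3_8) tc3_9) tc3_10) tc3_11) tc3_12) tc3_13) tc3_14) tc3_15) tc3_16) tc3_17)
  (zzc ⟨(nat_lit 128), zl3_0, ti3_0⟩ (zzc ⟨(nat_lit 12), zl3_1, ti3_1⟩ zzn))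
theorem cd : ∀ w < 18, deadCk (nat_lit 37) (nat_lit 7) (getC CL3 w) = true :=
  (alS (alS (alS (alS (alS (alS (alS (alS (alS (alS (alS (alS (alS (alS (alS (alS (alS (alS al0 de3_0) de3_1) de3_2) de3_3) de3_4) de3_5) de3_6) de3_7) de3_8) de3_9) de3_10) de3_11) de3_12) de3_13) de3_14) de3_15) de3_16) de3_17)
theorem rc : recCk (recP 13 (1, 4, 5) 5 0 2).W 18 CL0 = true := by decide +kernel
theorem occ (O : OccL (recP 13 (1, 4, 5) 5 0 2) (locOK (Nat.testBit 5) (Nat.testBit 0) (Nat.testBit 2))) :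
    False := by
  have k := first_stage O 1 (nlOK_A (by decide) (by decide)) rfl rfl rfl rfl rc cw0 cp
  have k := run_stage k rfl (nat_lit 1) (nat_lit 2) (nat_lit 2) (nat_lit 2) rfl cs0 ct0
  have k := next_stage k (nat_lit 59) (nat_lit 5) (nat_lit 1) (nat_lit 1) rfl rfl rfl rfl rfl vm1 cw1 cr1
  have k := run_stage k rfl (nat_lit 1) (nat_lit 2) (nat_lit 2) (nat_lit 2) rfl cs1 ct1
  have k := next_stage k (nat_lit 61) (nat_lit 11) (nat_lit 9) (nat_lit 0) rfl rfl rfl rfl rfl vm2 cw2 cr2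
  have k := run_stage k rfl (nat_lit 1) (nat_lit 5) (nat_lit 2) (nat_lit 5) rfl cs2 ct2
  have k := next_stage k (nat_lit 37) (nat_lit 7) (nat_lit 9) (nat_lit 0) rfl rfl rfl rfl rfl vm3 cw3 cr3
  have k := run_stage k rfl (nat_lit 1) (nat_lit 3) (nat_lit 2) (nat_lit 3) rfl cs3 ct3
  exact last_stage k rfl cd
theorem res : ∃ ok, OkP (1, 4, 5) ok ∧ IsEmpty (LTil (shP 13 (1, 4, 5) ok)) :=
  dead_P 5 0 2 (by decide +kernel) rc occ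

end Pool.Agent.NNr.R13_1_4_5

namespace Pool.Agent.NNr.R13_1_7_16
open Pool.Agent.NNe Pool.Agent.NNc

theorem cw0 : ∀ w < 9, wfC (nat_lit 53) (nat_lit 5) (getC CL0 w) = true :=
  (alS (alS (alS (alS (alS (alS (alS (alS (alS al0 wf0_0) wf0_1) wf0_2) wf0_3) wf0_4) wf0_5) wf0_6) wf0_7) wf0_8)
theorem cp : ∀ w < 9, plCk (nat_lit 53) (nat_lit 5) (nat_lit 13) (nat_lit 5) (nat_lit 0) (nat_lit 2) (nat_lit 9) (nat_lit 4) w nl0 CL0 = true :=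
  (alS (alS (alS (alS (alS (alS (alS (alS (alS al0 pl0_0) pl0_1) pl0_2) pl0_3) pl0_4) pl0_5) pl0_6) pl0_7) pl0_8)
theorem cs0 : ∀ w < 9, StW (nat_lit 53) (nat_lit 5) (nat_lit 1) (nat_lit 2) (getC CL0 w) :=
  (alS (alS (alS (alS (alS (alS (alS (alS (alS al0 (stX (nat_lit 2) (nat_lit 0) (nat_lit 256) (Rl.cons (nat_lit 0) (nat_lit 8) Rl.nil) rfl rfl sc0_0 (rlc st0_0_0 rln))) (stX (nat_lit 0) (nat_lit 16) (nat_lit 1) (Rl.cons (nat_lit 16) (nat_lit 14) Rl.nil) rfl rfl sc0_1 (rlc st0_1_0 rln))) (stX (nat_lit 2) (nat_lit 39) (nat_lit 256) (Rl.cons (nat_lit 39) (nat_lit 8) Rl.nil) rfl rfl sc0_2 (rlc st0_2_0 rln))) (stX (nat_lit 1) (nat_lit 7) (nat_lit 16) (Rl.cons (nat_lit 7) (nat_lit 3) Rl.nil) rfl rfl sc0_3 (rlc st0_3_0 rln))) (stX (nat_lit 1) (nat_lit 11) (nat_lit 16) (Rl.cons (nat_lit 11) (nat_lit 4) Rl.nil) rfl rfl sc0_4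 (rlc st0_4_0 rln))) (stX (nat_lit 1) (nat_lit 63) (nat_lit 16) (Rl.cons (nat_lit 63) (nat_lit 27) Rl.nil) rfl rfl sc0_5 (rlc st0_5_0 rln))) (stX (nat_lit 1) (nat_lit 41) (nat_lit 16) (Rl.cons (nat_lit 41) (nat_lit 19) Rl.nil) rfl rfl sc0_6 (rlc st0_6_0 rln))) (stX (nat_lit 2) (nat_lit 27) (nat_lit 256) (Rl.cons (nat_lit 27) (nat_lit 17) Rl.nil) rfl rfl sc0_7 (rlc st0_7_0 rln))) (stX (nat_lit 1) (nat_lit 0) (nat_lit 16) Rl.nil rfl rfl sc0_8 rln))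
theorem ct0 : TiS (nat_lit 53) (nat_lit 5) (nat_lit 2) (nat_lit 2) (nat_lit 13) (nat_lit 9) (nat_lit 1) CL0 :=
  tiS ZZ0 (alS (alS (alS (alS (alS (alS (alS (alS (alS al0 tc0_0) tc0_1) tc0_2) tc0_3) tc0_4) tc0_5) tc0_6) tc0_7) tc0_8)
  (zzc ⟨(nat_lit 81), zl0_0, ti0_0⟩ zzn)
theorem cw1 : ∀ w < 9, wfC (nat_lit 61) (nat_lit 10) (getC CL1 w) = true :=
  (alS (alS (alS (alS (alS (alS (alS (alS (alS al0 wf1_0) wf1_1) wf1_2) wf1_3) wf1_4) wf1_5) wf1_6) wf1_7) wf1_8)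
theorem cr1 : ∀ w < 9, rfCk (nat_lit 53) (nat_lit 5) (nat_lit 61) (nat_lit 10) (nat_lit 6) (nat_lit 262144) w TL1 CL0 CL1 = true :=
  (alS (alS (alS (alS (alS (alS (alS (alS (alS al0 rf1_0) rf1_1) rf1_2) rf1_3) rf1_4) rf1_5) rf1_6) rf1_7) rf1_8)
theorem vm1 : eqVM CL0 CL1 9 = true := by decide +kernel
theorem cs1 : ∀ w < 9, StW (nat_lit 61) (nat_lit 10) (nat_lit 2) (nat_lit 4) (getC CL1 w) :=
  (alS (alS (alS (alS (alS (alS (alS (alS (alS al0 (stX (nat_lit 2) (nat_lit 0) (nat_lit 256) (Rl.cons (nat_lit 0) (nat_lit 12) Rl.nil) rfl rfl sc1_0 (rlc st1_0_0 rln))) (stX (nat_lit 1) (nat_lit 49) (nat_lit 16) (Rl.cons (nat_lit 49) (nat_lit 17) Rl.nil) rfl rfl sc1_1 (rlc st1_1_0 rln))) (stX (nat_lit 2) (nat_lit 70) (nat_lit 256) (Rl.cons (nat_lit 70) (nat_lit 16) Rl.nil) rfl rfl sc1_2 (rlc st1_2_0 rln))) (stX (nat_lit 0) (nat_lit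 0) (nat_lit 1) Rl.nil rfl rfl sc1_3 rln)) (stX (nat_lit 0) (nat_lit 0) (nat_lit 1) Rl.nil rfl rfl sc1_4 rln)) (stX (nat_lit 1) (nat_lit 102) (nat_lit 16) (Rl.cons (nat_lit 102) (nat_lit 30) Rl.nil) rfl rfl sc1_5 (rlc st1_5_0 rln))) (stX (nat_lit 1) (nat_lit 73) (nat_lit 16) (Rl.cons (nat_lit 73) (nat_lit 18) Rl.nil) rfl rfl sc1_6 (rlc st1_6_0 rln))) (stX (nat_lit 0) (nat_lit 0) (nat_lit 1) Rl.nil rfl rfl sc1_7 rln)) (stX (nat_lit 0) (nat_lit 0) (nat_lit 1) Rl.nil rfl rfl sc1_8 rln))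
theorem ct1 : TiS (nat_lit 61) (nat_lit 10) (nat_lit 1) (nat_lit 5) (nat_lit 13) (nat_lit 9) (nat_lit 1) CL1 :=
  tiS ZZ1 (alS (alS (alS (alS (alS (alS (alS (alS (alS al0 tc1_0) tc1_1) tc1_2) tc1_3) tc1_4) tc1_5) tc1_6) tc1_7) tc1_8)
  (zzc ⟨(nat_lit 60), zl1_0, ti1_0⟩ (zzc ⟨(nat_lit 16), zl1_1, ti1_1⟩ zzn))
theorem cd : ∀ w < 9, deadCk (nat_lit 61) (nat_lit 10) (getC CL1 w) = true :=
  (alS (alS (alS (alS (alS (alS (alS (alS (alS al0 de1_0) de1_1) de1_2) de1_3) de1_4) de1_5) de1_6) de1_7) de1_8)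
theorem rc : recCk (recP 13 (1, 7, 16) 5 0 2).W 9 CL0 = true := by decide +kernel
theorem occ (O : OccL (recP 13 (1, 7, 16) 5 0 2) (locOK (Nat.testBit 5) (Nat.testBit 0) (Nat.testBit 2))) :
    False := by
  have k := first_stage O 1 (nlOK_A (by decide) (by decide)) rfl rfl rfl rfl rc cw0 cp
  have k := run_stage k rfl (nat_lit 1) (nat_lit 2) (nat_lit 2) (nat_lit 2) rfl cs0 ct0
  have k := next_stage k (nat_lit 61) (nat_lit 10) (nat_lit 6) (nat_lit 1) rfl rfl rfl rfl rfl vm1 cw1 cr1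
  have k := run_stage k rfl (nat_lit 2) (nat_lit 4) (nat_lit 1) (nat_lit 5) rfl cs1 ct1
  exact last_stage k rfl cd
theorem res : ∃ ok, OkP (1, 7, 16) ok ∧ IsEmpty (LTil (shP 13 (1, 7, 16) ok)) :=
  dead_P 5 0 2 (by decide +kernel) rc occ

end Pool.Agent.NNr.R13_1_7_16

namespace Pool.Agent.NNr.R13_1_9_20
open Pool.Agent.NNe Pool.Agent.NNc

theorem cw0 : ∀ w < 7, wfC (nat_lit 49) (nat_lit 14) (getC CL0 w) = true :=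
  (alS (alS (alS (alS (alS (alS (alS al0 wf0_0) wf0_1) wf0_2) wf0_3) wf0_4) wf0_5) wf0_6)
theorem cp : ∀ w < 7, plCk (nat_lit 49) (nat_lit 14) (nat_lit 13) (nat_lit 5) (nat_lit 0) (nat_lit 2) (nat_lit 7) (nat_lit 4) w nl0 CL0 = true :=
  (alS (alS (alS (alS (alS (alS (alS al0 pl0_0) pl0_1) pl0_2) pl0_3) pl0_4) pl0_5) pl0_6)
theorem cs0 : ∀ w < 7, StW (nat_lit 49) (nat_lit 14) (nat_lit 2) (nat_lit 6) (getC CL0 w) :=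
  (alS (alS (alS (alS (alS (alS (alS al0 (stX (nat_lit 2) (nat_lit 0) (nat_lit 256) (Rl.cons (nat_lit 0) (nat_lit 6) Rl.nil) rfl rfl sc0_0 (rlc st0_0_0 rln))) (stX (nat_lit 0) (nat_lit 13) (nat_lit 1) (Rl.cons (nat_lit 13) (nat_lit 10) Rl.nil) rfl rfl sc0_1 (rlc st0_1_0 rln))) (stX (nat_lit 2) (nat_lit 39) (nat_lit 256) (Rl.cons (nat_lit 39) (nat_lit 8) Rl.nil) rfl rfl sc0_2 (rlc st0_2_0 rln))) (stX (nat_lit 1) (nat_lit 7) (nat_lit 16) (Rl.cons (nat_lit 7) (nat_lit 3) Rl.nil) rfl rfl sc0_3 (rlc st0_3_0 rln))) (stX (nat_lit 1) (nat_lit 59) (nat_lit 16) (Rl.cons (nat_lit 59) (nat_lit 26) Rl.nil) rfl rfl sc0_4 (rlc st0_4_0 rln))) (stX (nat_lit 1) (nat_lit 41) (nat_lit 16) (Rl.cons (nat_lit 41) (nat_lit 19) Rl.nil) rfl rfl sc0_5 (rlc st0_5_0 rln))) (stX (nat_lit 2) (nat_lit 22) (nat_lit 256) (Rl.cons (nat_lit 22) (nat_lit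 13) Rl.nil) rfl rfl sc0_6 (rlc st0_6_0 rln)))
theorem ct0 : TiS (nat_lit 49) (nat_lit 14) (nat_lit 1) (nat_lit 7) (nat_lit 13) (nat_lit 7) (nat_lit 1) CL0 :=
  tiS ZZ0 (alS (alS (alS (alS (alS (alS (alS al0 tc0_0) tc0_1) tc0_2) tc0_3) tc0_4) tc0_5) tc0_6)
  (zzc ⟨(nat_lit 72), zl0_0, ti0_0⟩ zzn)
theorem cw1 : ∀ w < 7, wfC (nat_lit 61) (nat_lit 9) (getC CL1 w) = true :=
  (alS (alS (alS (alS (alS (alS (alS al0 wf1_0) wf1_1) wf1_2) wf1_3) wf1_4) wf1_5) wf1_6)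
theorem cr1 : ∀ w < 7, rfCk (nat_lit 49) (nat_lit 14) (nat_lit 61) (nat_lit 9) (nat_lit 6) (nat_lit 262144) w TL1 CL0 CL1 = true :=
  (alS (alS (alS (alS (alS (alS (alS al0 rf1_0) rf1_1) rf1_2) rf1_3) rf1_4) rf1_5) rf1_6)
theorem vm1 : eqVM CL0 CL1 7 = true := by decide +kernel
theorem cs1 : ∀ w < 7, StW (nat_lit 61) (nat_lit 9) (nat_lit 1) (nat_lit 4) (getC CL1 w) :=
  (alS (alS (alS (alS (alS (alS (alS al0 (stX (nat_lit 2) (nat_lit 0) (nat_lit 256) (Rl.cons (nat_lit 0) (nat_lit 12) Rl.nil) rfl rfl sc1_0 (rlc st1_0_0 rln))) (stX (nat_lit 1) (nat_lit 45) (nat_lit 16) (Rl.cons (nat_lit 45) (nat_lit 17) Rl.nil) rfl rfl sc1_1 (rlc st1_1_0 rln))) (stX (nat_lit 2) (nat_lit 70) (nat_lit 256) (Rl.cons (nat_lit 70) (nat_lit 16) Rl.nil) rfl rfl sc1_2 (rlc st1_2_0 rln))) (stX (nat_lit 0) (nat_lit 0) (nat_lit 1) Rl.nil rfl rfl sc1_3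 rln)) (stX (nat_lit 1) (nat_lit 102) (nat_lit 16) (Rl.cons (nat_lit 102) (nat_lit 30) Rl.nil) rfl rfl sc1_4 (rlc st1_4_0 rln))) (stX (nat_lit 1) (nat_lit 65) (nat_lit 16) (Rl.cons (nat_lit 65) (nat_lit 18) Rl.nil) rfl rfl sc1_5 (rlc st1_5_0 rln))) (stX (nat_lit 0) (nat_lit 0) (nat_lit 1) Rl.nil rfl rfl sc1_6 rln))
theorem ct1 : TiS (nat_lit 61) (nat_lit 9) (nat_lit 2) (nat_lit 4) (nat_lit 13) (nat_lit 7) (nat_lit 1) CL1 :=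
  tiS ZZ1 (alS (alS (alS (alS (alS (alS (alS al0 tc1_0) tc1_1) tc1_2) tc1_3) tc1_4) tc1_5) tc1_6)
  (zzc ⟨(nat_lit 60), zl1_0, ti1_0⟩ (zzc ⟨(nat_lit 16), zl1_1, ti1_1⟩ zzn))
theorem cw2 : ∀ w < 7, wfC (nat_lit 6) (nat_lit 2) (getC CL2 w) = true :=
  (alS (alS (alS (alS (alS (alS (alS al0 wf2_0) wf2_1) wf2_2) wf2_3) wf2_4) wf2_5) wf2_6)
theorem cr2 : ∀ w < 7, rfCk (nat_lit 61) (nat_lit 9) (nat_lit 6) (nat_lit 2) (nat_lit 9) (nat_lit 0) w TL2 CL1 CL2 = true :=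
  (alS (alS (alS (alS (alS (alS (alS al0 rf2_0) rf2_1) rf2_2) rf2_3) rf2_4) rf2_5) rf2_6)
theorem vm2 : eqVM CL1 CL2 7 = true := by decide +kernel
theorem cs2 : ∀ w < 7, StW (nat_lit 6) (nat_lit 2) (nat_lit 2) (nat_lit 0) (getC CL2 w) :=
  (alS (alS (alS (alS (alS (alS (alS al0 (stX (nat_lit 2) (nat_lit 0) (nat_lit 256) Rl.nil rfl rfl sc2_0 rln)) (stX (nat_lit 0) (nat_lit 0) (nat_lit 1) Rl.nil rfl rfl sc2_1 rln)) (stX (nat_lit 0) (nat_lit 0) (nat_lit 1) (Rl.cons (nat_lit 0) (nat_lit 2) Rl.nil) rfl rfl sc2_2 (rlc (starCk_zero _ _ _ _ _ _ _) rln))) (stX (nat_lit 0) (nat_lit 0) (nat_lit 1) Rl.nil rfl rfl sc2_3 rln)) (stX (nat_lit 0) (nat_lit 0) (nat_lit 1) (Rl.cons (nat_lit 0) (nat_lit 20) Rl.nil) rfl rfl sc2_4 (rlc (starCk_zero _ _ _ _ _ _ _) rln))) (stX (nat_lit 0) (nat_lit 0) (nat_lit 1) Rl.nil rfl rfl sc2_5 rln)) (stX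 (nat_lit 0) (nat_lit 0) (nat_lit 1) Rl.nil rfl rfl sc2_6 rln))
theorem ct2 : TiS (nat_lit 6) (nat_lit 2) (nat_lit 1) (nat_lit 1) (nat_lit 13) (nat_lit 7) (nat_lit 1) CL2 :=
  tiS ZZ2 (alS (alS (alS (alS (alS (alS (alS al0 tc2_0) tc2_1) tc2_2) tc2_3) tc2_4) tc2_5) tc2_6)
  (zzc ⟨(nat_lit 3), zl2_0, ti2_0⟩ zzn)
theorem cd : ∀ w < 7, deadCk (nat_lit 6) (nat_lit 2) (getC CL2 w) = true :=
  (alS (alS (alS (alS (alS (alS (alS al0 de2_0) de2_1) de2_2) de2_3) de2_4) de2_5) de2_6)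
theorem rc : recCk (recP 13 (1, 9, 20) 5 0 2).W 7 CL0 = true := by decide +kernel
theorem occ (O : OccL (recP 13 (1, 9, 20) 5 0 2) (locOK (Nat.testBit 5) (Nat.testBit 0) (Nat.testBit 2))) :
    False := by
  have k := first_stage O 1 (nlOK_A (by decide) (by decide)) rfl rfl rfl rfl rc cw0 cp
  have k := run_stage k rfl (nat_lit 2) (nat_lit 6) (nat_lit 1) (nat_lit 7) rfl cs0 ct0
  have k := next_stage k (nat_lit 61) (nat_lit 9) (nat_lit 6) (nat_lit 1) rfl rfl rfl rfl rfl vm1 cw1 cr1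
  have k := run_stage k rfl (nat_lit 1) (nat_lit 4) (nat_lit 2) (nat_lit 4) rfl cs1 ct1
  have k := next_stage k (nat_lit 6) (nat_lit 2) (nat_lit 9) (nat_lit 0) rfl rfl rfl rfl rfl vm2 cw2 cr2
  have k := run_stage k rfl (nat_lit 2) (nat_lit 0) (nat_lit 1) (nat_lit 1) rfl cs2 ct2
  exact last_stage k rfl cd
theorem res : ∃ ok, OkP (1, 9, 20) ok ∧ IsEmpty (LTil (shP 13 (1, 9, 20) ok)) :=
  dead_P 5 0 2 (by decide +kernel) rc occ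

end Pool.Agent.NNr.R13_1_9_20

namespace Pool.Agent.NNr.R13_2_7_9
open Pool.Agent.NNe Pool.Agent.NNc

theorem cw0 : ∀ w < 12, wfC (nat_lit 58) (nat_lit 7) (getC CL0 w) = true :=
  (alS (alS (alS (alS (alS (alS (alS (alS (alS (alS (alS (alS al0 wf0_0) wf0_1) wf0_2) wf0_3) wf0_4) wf0_5) wf0_6) wf0_7) wf0_8) wf0_9) wf0_10) wf0_11)
theorem cp : ∀ w < 12, plCk (nat_lit 58) (nat_lit 7) (nat_lit 13) (nat_lit 5) (nat_lit 0) (nat_lit 2) (nat_lit 12) (nat_lit 4) w nl0 CL0 = true :=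
  (alS (alS (alS (alS (alS (alS (alS (alS (alS (alS (alS (alS al0 pl0_0) pl0_1) pl0_2) pl0_3) pl0_4) pl0_5) pl0_6) pl0_7) pl0_8) pl0_9) pl0_10) pl0_11)
theorem cs0 : ∀ w < 12, StW (nat_lit 58) (nat_lit 7) (nat_lit 1) (nat_lit 3) (getC CL0 w) :=
  (alS (alS (alS (alS (alS (alS (alS (alS (alS (alS (alS (alS al0 (stX (nat_lit 2) (nat_lit 0) (nat_lit 256) (Rl.cons (nat_lit 0) (nat_lit 6) Rl.nil) rfl rfl sc0_0 (rlc st0_0_0 rln))) (stX (nat_lit 0) (nat_lit 13) (nat_lit 1) (Rl.cons (nat_lit 13) (nat_lit 11) Rl.nil) rfl rfl sc0_1 (rlc st0_1_0 rln))) (stX (nat_lit 0) (nat_lit 19) (nat_lit 1) (Rl.cons (nat_lit 19) (nat_lit 16) Rl.nil) rfl rfl sc0_2 (rlc st0_2_0 rln))) (stX (nat_lit 2) (nat_lit 68) (nat_lit 256) (Rl.cons (nat_lit 68) (nat_lit 10) Rl.nil) rfl rfl sc0_3 (rlc st0_3_0 rln))) (stX (nat_lit 0) (nat_lit 14) (nat_lit 1)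 (Rl.cons (nat_lit 14) (nat_lit 10) Rl.nil) rfl rfl sc0_4 (rlc st0_4_0 rln))) (stX (nat_lit 2) (nat_lit 16) (nat_lit 256) (Rl.cons (nat_lit 16) (nat_lit 7) Rl.nil) rfl rfl sc0_5 (rlc st0_5_0 rln))) (stX (nat_lit 2) (nat_lit 29) (nat_lit 256) (Rl.cons (nat_lit 29) (nat_lit 4) Rl.nil) rfl rfl sc0_6 (rlc st0_6_0 rln))) (stX (nat_lit 1) (nat_lit 6) (nat_lit 16) (Rl.cons (nat_lit 6) (nat_lit 2) Rl.nil) rfl rfl sc0_7 (rlc st0_7_0 rln))) (stX (nat_lit 3) (nat_lit 94) (nat_lit 4096) (Rl.cons (nat_lit 94) (nat_lit 77) Rl.nil) rfl rfl sc0_8 (rlc st0_8_0 rln))) (stX (nat_lit 1) (nat_lit 67) (nat_lit 16) (Rl.cons (nat_lit 67) (nat_lit 28) Rl.nil) rfl rfl sc0_9 (rlc st0_9_0 rln))) (stX (nat_lit 1) (nat_lit 64) (nat_lit 16) (Rl.cons (nat_lit 64) (nat_lit 30) Rl.nil) rfl rfl sc0_10 (rlc st0_10_0 rln))) (stX (nat_lit 3) (nat_lit 42) (nat_lit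 4096) (Rl.cons (nat_lit 42) (nat_lit 32) Rl.nil) rfl rfl sc0_11 (rlc st0_11_0 rln)))
theorem ct0 : TiS (nat_lit 58) (nat_lit 7) (nat_lit 2) (nat_lit 3) (nat_lit 13) (nat_lit 12) (nat_lit 1) CL0 :=
  tiS ZZ0 (alS (alS (alS (alS (alS (alS (alS (alS (alS (alS (alS (alS al0 tc0_0) tc0_1) tc0_2) tc0_3) tc0_4) tc0_5) tc0_6) tc0_7) tc0_8) tc0_9) tc0_10) tc0_11)
  (zzc ⟨(nat_lit 130), zl0_0, ti0_0⟩ zzn)
theorem cw1 : ∀ w < 12, wfC (nat_lit 5) (nat_lit 4) (getC CL1 w) = true :=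
  (alS (alS (alS (alS (alS (alS (alS (alS (alS (alS (alS (alS al0 wf1_0) wf1_1) wf1_2) wf1_3) wf1_4) wf1_5) wf1_6) wf1_7) wf1_8) wf1_9) wf1_10) wf1_11)
theorem cr1 : ∀ w < 12, rfCk (nat_lit 58) (nat_lit 7) (nat_lit 5) (nat_lit 4) (nat_lit 9) (nat_lit 0) w TL1 CL0 CL1 = true :=
  (alS (alS (alS (alS (alS (alS (alS (alS (alS (alS (alS (alS al0 rf1_0) rf1_1) rf1_2) rf1_3) rf1_4) rf1_5) rf1_6) rf1_7) rf1_8) rf1_9) rf1_10) rf1_11)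
theorem vm1 : eqVM CL0 CL1 12 = true := by decide +kernel
theorem cs1 : ∀ w < 12, StW (nat_lit 5) (nat_lit 4) (nat_lit 2) (nat_lit 1) (getC CL1 w) :=
  (alS (alS (alS (alS (alS (alS (alS (alS (alS (alS (alS (alS al0 (stX (nat_lit 2) (nat_lit 0) (nat_lit 256) (Rl.cons (nat_lit 0) (nat_lit 1) Rl.nil) rfl rfl sc1_0 (rlc st1_0_0 rln))) (stX (nat_lit 0) (nat_lit 0) (nat_lit 1) Rl.nil rfl rfl sc1_1 rln)) (stX (nat_lit 0) (nat_lit 4) (nat_lit 1) (Rl.cons (nat_lit 4) (nat_lit 2) Rl.nil) rfl rfl sc1_2 (rlc st1_2_0 rln))) (stX (nat_lit 2) (nat_lit 7) (nat_lit 256) (Rl.cons (nat_lit 7) (nat_lit 1) Rl.nil) rfl rfl sc1_3 (rlc st1_3_0 rln))) (stX (nat_lit 0) (nat_lit 2) (nat_lit 1) (Rl.cons (nat_lit 2) (nat_lit 2) Rl.nil) rfl rfl sc1_4 (rlc st1_4_0 rln))) (stX (nat_lit 0) (nat_lit 0) (nat_lit 1) Rl.nil rfl rfl sc1_5 rln)) (stX (nat_lit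 0) (nat_lit 0) (nat_lit 1) Rl.nil rfl rfl sc1_6 rln)) (stX (nat_lit 0) (nat_lit 0) (nat_lit 1) Rl.nil rfl rfl sc1_7 rln)) (stX (nat_lit 3) (nat_lit 2) (nat_lit 4096) (Rl.cons (nat_lit 2) (nat_lit 1) Rl.nil) rfl rfl sc1_8 (rlc st1_8_0 rln))) (stX (nat_lit 0) (nat_lit 0) (nat_lit 1) Rl.nil rfl rfl sc1_9 rln)) (stX (nat_lit 0) (nat_lit 0) (nat_lit 1) Rl.nil rfl rfl sc1_10 rln)) (stX (nat_lit 0) (nat_lit 0) (nat_lit 1) Rl.nil rfl rfl sc1_11 rln))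
theorem ct1 : TiS (nat_lit 5) (nat_lit 4) (nat_lit 1) (nat_lit 2) (nat_lit 13) (nat_lit 12) (nat_lit 1) CL1 :=
  tiS ZZ1 (alS (alS (alS (alS (alS (alS (alS (alS (alS (alS (alS (alS al0 tc1_0) tc1_1) tc1_2) tc1_3) tc1_4) tc1_5) tc1_6) tc1_7) tc1_8) tc1_9) tc1_10) tc1_11)
  (zzc ⟨(nat_lit 9), zl1_0, ti1_0⟩ zzn)
theorem cd : ∀ w < 12, deadCk (nat_lit 5) (nat_lit 4) (getC CL1 w) = true :=
  (alS (alS (alS (alS (alS (alS (alS (alS (alS (alS (alS (alS al0 de1_0) de1_1) de1_2) de1_3) de1_4) de1_5) de1_6) de1_7) de1_8) de1_9) de1_10) de1_11)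
theorem rc : recCk (recP 13 (2, 7, 9) 5 0 2).W 12 CL0 = true := by decide +kernel
theorem occ (O : OccL (recP 13 (2, 7, 9) 5 0 2) (locOK (Nat.testBit 5) (Nat.testBit 0) (Nat.testBit 2))) :
    False := by
  have k := first_stage O 1 (nlOK_A (by decide) (by decide)) rfl rfl rfl rfl rc cw0 cp
  have k := run_stage k rfl (nat_lit 1) (nat_lit 3) (nat_lit 2) (nat_lit 3) rfl cs0 ct0
  have k := next_stage k (nat_lit 5) (nat_lit 4) (nat_lit 9) (nat_lit 0) rfl rfl rfl rfl rfl vm1 cw1 cr1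
  have k := run_stage k rfl (nat_lit 2) (nat_lit 1) (nat_lit 1) (nat_lit 2) rfl cs1 ct1
  exact last_stage k rfl cd
theorem res : ∃ ok, OkP (2, 7, 9) ok ∧ IsEmpty (LTil (shP 13 (2, 7, 9) ok)) :=
  dead_P 5 0 2 (by decide +kernel) rc occ

end Pool.Agent.NNr.R13_2_7_9

namespace Pool.Agent.NNr.R15_1_2_4
open Pool.Agent.NNe Pool.Agent.NNc

theorem cw0 : ∀ w < 26, wfC (nat_lit 60) (nat_lit 5) (getC CL0 w) = true :=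
  (alS (alS (alS (alS (alS (alS (alS (alS (alS (alS (alS (alS (alS (alS (alS (alS (alS (alS (alS (alS (alS (alS (alS (alS (alS (alS al0 wf0_0) wf0_1) wf0_2) wf0_3) wf0_4) wf0_5) wf0_6) wf0_7) wf0_8) wf0_9) wf0_10) wf0_11) wf0_12) wf0_13) wf0_14) wf0_15) wf0_16) wf0_17) wf0_18) wf0_19) wf0_20) wf0_21) wf0_22) wf0_23) wf0_24) wf0_25)
theorem cp : ∀ w < 26, plCk (nat_lit 60) (nat_lit 5) (nat_lit 15) (nat_lit 1) (nat_lit 0) (nat_lit 6) (nat_lit 26) (nat_lit 4) w nl0 CL0 = true :=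
  (alS (alS (alS (alS (alS (alS (alS (alS (alS (alS (alS (alS (alS (alS (alS (alS (alS (alS (alS (alS (alS (alS (alS (alS (alS (alS al0 pl0_0) pl0_1) pl0_2) pl0_3) pl0_4) pl0_5) pl0_6) pl0_7) pl0_8) pl0_9) pl0_10) pl0_11) pl0_12) pl0_13) pl0_14) pl0_15) pl0_16) pl0_17) pl0_18) pl0_19) pl0_20) pl0_21) pl0_22) pl0_23) pl0_24) pl0_25)
theorem cs0 : ∀ w < 26, StW (nat_lit 60) (nat_lit 5) (nat_lit 1) (nat_lit 2) (getC CL0 w) :=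
  (alS (alS (alS (alS (alS (alS (alS (alS (alS (alS (alS (alS (alS (alS (alS (alS (alS (alS (alS (alS (alS (alS (alS (alS (alS (alS al0 (stX (nat_lit 1) (nat_lit 0) (nat_lit 16) (Rl.cons (nat_lit 0) (nat_lit 10) Rl.nil) rfl rfl sc0_0 (rlc st0_0_0 rln))) (stX (nat_lit 2) (nat_lit 51) (nat_lit 256) (Rl.cons (nat_lit 51) (nat_lit 32) Rl.nil) rfl rfl sc0_1 (rlc st0_1_0 rln))) (stX (nat_lit 2) (nat_lit 50) (nat_lit 256) (Rl.cons (nat_lit 50) (nat_lit 14) Rl.nil) rfl rfl sc0_2 (rlc st0_2_0 rln))) (stX (nat_lit 1) (nat_lit 0) (nat_lit 16) (Rl.cons (nat_lit 0) (nat_lit 19) Rl.nil) rfl rfl sc0_3 (rlc st0_3_0 rln))) (stX (nat_lit 0) (nat_lit 26) (nat_lit 1) (Rl.cons (nat_lit 26) (nat_lit 23) Rl.nil) rfl rfl sc0_4 (rlc st0_4_0 rln))) (stX (nat_lit 0) (nat_lit 43) (nat_lit 1) (Rl.cons (nat_lit 43) (nat_lit 27) Rl.nil) rfl rfl sc0_5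 (rlc st0_5_0 rln))) (stX (nat_lit 2) (nat_lit 137) (nat_lit 256) (Rl.cons (nat_lit 137) (nat_lit 22) Rl.nil) rfl rfl sc0_6 (rlc st0_6_0 rln))) (stX (nat_lit 0) (nat_lit 29) (nat_lit 1) (Rl.cons (nat_lit 29) (nat_lit 12) Rl.nil) rfl rfl sc0_7 (rlc st0_7_0 rln))) (stX (nat_lit 1) (nat_lit 68) (nat_lit 16) (Rl.cons (nat_lit 68) (nat_lit 26) Rl.nil) rfl rfl sc0_8 (rlc st0_8_0 rln))) (stX (nat_lit 2) (nat_lit 131) (nat_lit 256) (Rl.cons (nat_lit 131) (nat_lit 22) Rl.nil) rfl rfl sc0_9 (rlc st0_9_0 rln))) (stX (nat_lit 0) (nat_lit 26) (nat_lit 1) (Rl.cons (nat_lit 26) (nat_lit 12) Rl.nil) rfl rfl sc0_10 (rlc st0_10_0 rln))) (stX (nat_lit 2) (nat_lit 46) (nat_lit 256) (Rl.cons (nat_lit 46) (nat_lit 24) Rl.nil) rfl rfl sc0_11 (rlc st0_11_0 rln))) (stX (nat_lit 2) (nat_lit 122) (nat_lit 256) (Rl.cons (nat_lit 122) (nat_lit 21)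 Rl.nil) rfl rfl sc0_12 (rlc st0_12_0 rln))) (stX (nat_lit 0) (nat_lit 22) (nat_lit 1) (Rl.cons (nat_lit 22) (nat_lit 12) Rl.nil) rfl rfl sc0_13 (rlc st0_13_0 rln))) (stX (nat_lit 2) (nat_lit 91) (nat_lit 256) (Rl.cons (nat_lit 91) (nat_lit 20) Rl.nil) rfl rfl sc0_14 (rlc st0_14_0 rln))) (stX (nat_lit 1) (nat_lit 29) (nat_lit 16) (Rl.cons (nat_lit 29) (nat_lit 18) Rl.nil) rfl rfl sc0_15 (rlc st0_15_0 rln))) (stX (nat_lit 2) (nat_lit 35) (nat_lit 256) (Rl.cons (nat_lit 35) (nat_lit 8) Rl.nil) rfl rfl sc0_16 (rlc st0_16_0 rln))) (stX (nat_lit 1) (nat_lit 23) (nat_lit 16) (Rl.cons (nat_lit 23) (nat_lit 12) Rl.nil) rfl rfl sc0_17 (rlc st0_17_0 rln))) (stX (nat_lit 1) (nat_lit 17) (nat_lit 16) (Rl.cons (nat_lit 17) (nat_lit 4) Rl.nil) rfl rfl sc0_18 (rlc st0_18_0 rln))) (stX (nat_lit 0) (nat_lit 1) (nat_lit 1) (Rl.cons (nat_lit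 1) (nat_lit 2) Rl.nil) rfl rfl sc0_19 (rlc st0_19_0 rln))) (stX (nat_lit 1) (nat_lit 118) (nat_lit 16) (Rl.cons (nat_lit 118) (nat_lit 52) Rl.nil) rfl rfl sc0_20 (rlc st0_20_0 rln))) (stX (nat_lit 0) (nat_lit 42) (nat_lit 1) (Rl.cons (nat_lit 42) (nat_lit 51) Rl.nil) rfl rfl sc0_21 (rlc st0_21_0 rln))) (stX (nat_lit 2) (nat_lit 120) (nat_lit 256) (Rl.cons (nat_lit 120) (nat_lit 96) Rl.nil) rfl rfl sc0_22 (rlc st0_22_0 rln))) (stX (nat_lit 1) (nat_lit 116) (nat_lit 16) (Rl.cons (nat_lit 116) (nat_lit 61) Rl.nil) rfl rfl sc0_23 (rlc st0_23_0 rln))) (stX (nat_lit 1) (nat_lit 114) (nat_lit 16) (Rl.cons (nat_lit 114) (nat_lit 40) Rl.nil) rfl rfl sc0_24 (rlc st0_24_0 rln))) (stX (nat_lit 3) (nat_lit 92) (nat_lit 4096) (Rl.cons (nat_lit 92) (nat_lit 70) Rl.nil) rfl rfl sc0_25 (rlc st0_25_0 rln)))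
theorem ct0 : TiS (nat_lit 60) (nat_lit 5) (nat_lit 2) (nat_lit 2) (nat_lit 15) (nat_lit 26) (nat_lit 1) CL0 :=
  tiS ZZ0 (alS (alS (alS (alS (alS (alS (alS (alS (alS (alS (alS (alS (alS (alS (alS (alS (alS (alS (alS (alS (alS (alS (alS (alS (alS (alS al0 tc0_0) tc0_1) tc0_2) tc0_3) tc0_4) tc0_5) tc0_6) tc0_7) tc0_8) tc0_9) tc0_10) tc0_11) tc0_12) tc0_13) tc0_14) tc0_15) tc0_16) tc0_17) tc0_18) tc0_19) tc0_20) tc0_21) tc0_22) tc0_23) tc0_24) tc0_25)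
  (zzc ⟨(nat_lit 321), zl0_0, ti0_0⟩ (zzc ⟨(nat_lit 322), zl0_1, ti0_1⟩ zzn))
theorem cw1 : ∀ w < 26, wfC (nat_lit 53) (nat_lit 2) (getC CL1 w) = true :=
  (alS (alS (alS (alS (alS (alS (alS (alS (alS (alS (alS (alS (alS (alS (alS (alS (alS (alS (alS (alS (alS (alS (alS (alS (alS (alS al0 wf1_0) wf1_1) wf1_2) wf1_3) wf1_4) wf1_5) wf1_6) wf1_7) wf1_8) wf1_9) wf1_10) wf1_11) wf1_12) wf1_13) wf1_14) wf1_15) wf1_16) wf1_17) wf1_18) wf1_19) wf1_20) wf1_21) wf1_22) wf1_23) wf1_24) wf1_25)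
theorem cr1 : ∀ w < 26, rfCk (nat_lit 60) (nat_lit 5) (nat_lit 53) (nat_lit 2) (nat_lit 9) (nat_lit 0) w TL1 CL0 CL1 = true :=
  (alS (alS (alS (alS (alS (alS (alS (alS (alS (alS (alS (alS (alS (alS (alS (alS (alS (alS (alS (alS (alS (alS (alS (alS (alS (alS al0 rf1_0) rf1_1) rf1_2) rf1_3) rf1_4) rf1_5) rf1_6) rf1_7) rf1_8) rf1_9) rf1_10) rf1_11) rf1_12) rf1_13) rf1_14) rf1_15) rf1_16) rf1_17) rf1_18) rf1_19) rf1_20) rf1_21) rf1_22) rf1_23) rf1_24) rf1_25)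
theorem vm1 : eqVM CL0 CL1 26 = true := by decide +kernel
theorem cs1 : ∀ w < 26, StW (nat_lit 53) (nat_lit 2) (nat_lit 2) (nat_lit 0) (getC CL1 w) :=
  (alS (alS (alS (alS (alS (alS (alS (alS (alS (alS (alS (alS (alS (alS (alS (alS (alS (alS (alS (alS (alS (alS (alS (alS (alS (alS al0 (stX (nat_lit 1) (nat_lit 0) (nat_lit 16) (Rl.cons (nat_lit 0) (nat_lit 48) Rl.nil) rfl rfl sc1_0 (rlc (starCk_zero _ _ _ _ _ _ _) rln))) (stX (nat_lit 1) (nat_lit 0) (nat_lit 16) (Rl.cons (nat_lit 0) (nat_lit 36) Rl.nil) rfl rfl sc1_1 (rlc (starCk_zero _ _ _ _ _ _ _) rln))) (stX (nat_lit 1) (nat_lit 0) (nat_lit 16) (Rl.cons (nat_lit 0) (nat_lit 38) Rl.nil) rfl rfl sc1_2 (rlc (starCk_zero _ _ _ _ _ _ _) rln))) (stX (nat_lit 1) (nat_lit 0) (nat_lit 16) (Rl.cons (nat_lit 0) (nat_lit 11) Rl.nil) rfl rfl sc1_3 (rlc (starCk_zero _ _ _ _ _ _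 _) rln))) (stX (nat_lit 0) (nat_lit 0) (nat_lit 1) (Rl.cons (nat_lit 0) (nat_lit 53) Rl.nil) rfl rfl sc1_4 (rlc (starCk_zero _ _ _ _ _ _ _) rln))) (stX (nat_lit 0) (nat_lit 0) (nat_lit 1) (Rl.cons (nat_lit 0) (nat_lit 143) Rl.nil) rfl rfl sc1_5 (rlc (starCk_zero _ _ _ _ _ _ _) rln))) (stX (nat_lit 0) (nat_lit 0) (nat_lit 1) (Rl.cons (nat_lit 0) (nat_lit 102) Rl.nil) rfl rfl sc1_6 (rlc (starCk_zero _ _ _ _ _ _ _) rln))) (stX (nat_lit 0) (nat_lit 0) (nat_lit 1) (Rl.cons (nat_lit 0) (nat_lit 30) Rl.nil) rfl rfl sc1_7 (rlc (starCk_zero _ _ _ _ _ _ _) rln))) (stX (nat_lit 0) (nat_lit 0) (nat_lit 1) (Rl.cons (nat_lit 0) (nat_lit 112) Rl.nil) rfl rfl sc1_8 (rlc (starCk_zero _ _ _ _ _ _ _) rln))) (stX (nat_lit 0) (nat_lit 0) (nat_lit 1) (Rl.cons (nat_lit 0) (nat_lit 117) Rl.nil) rfl rfl sc1_9 (rlc (starCk_zero _ _ _ _ _ _ _)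 rln))) (stX (nat_lit 0) (nat_lit 0) (nat_lit 1) (Rl.cons (nat_lit 0) (nat_lit 41) Rl.nil) rfl rfl sc1_10 (rlc (starCk_zero _ _ _ _ _ _ _) rln))) (stX (nat_lit 0) (nat_lit 0) (nat_lit 1) (Rl.cons (nat_lit 0) (nat_lit 54) Rl.nil) rfl rfl sc1_11 (rlc (starCk_zero _ _ _ _ _ _ _) rln))) (stX (nat_lit 0) (nat_lit 0) (nat_lit 1) (Rl.cons (nat_lit 0) (nat_lit 83) Rl.nil) rfl rfl sc1_12 (rlc (starCk_zero _ _ _ _ _ _ _) rln))) (stX (nat_lit 0) (nat_lit 0) (nat_lit 1) (Rl.cons (nat_lit 0) (nat_lit 32) Rl.nil) rfl rfl sc1_13 (rlc (starCk_zero _ _ _ _ _ _ _) rln))) (stX (nat_lit 0) (nat_lit 0) (nat_lit 1) (Rl.cons (nat_lit 0) (nat_lit 36) Rl.nil) rfl rfl sc1_14 (rlc (starCk_zero _ _ _ _ _ _ _) rln))) (stX (nat_lit 0) (nat_lit 0) (nat_lit 1) (Rl.cons (nat_lit 0) (nat_lit 19) Rl.nil) rfl rfl sc1_15 (rlc (starCk_zero _ _ _ _ _ _ _) rln)))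 (stX (nat_lit 0) (nat_lit 0) (nat_lit 1) (Rl.cons (nat_lit 0) (nat_lit 8) Rl.nil) rfl rfl sc1_16 (rlc (starCk_zero _ _ _ _ _ _ _) rln))) (stX (nat_lit 0) (nat_lit 0) (nat_lit 1) Rl.nil rfl rfl sc1_17 rln)) (stX (nat_lit 0) (nat_lit 0) (nat_lit 1) Rl.nil rfl rfl sc1_18 rln)) (stX (nat_lit 0) (nat_lit 0) (nat_lit 1) Rl.nil rfl rfl sc1_19 rln)) (stX (nat_lit 0) (nat_lit 0) (nat_lit 1) (Rl.cons (nat_lit 0) (nat_lit 362) Rl.nil) rfl rfl sc1_20 (rlc (starCk_zero _ _ _ _ _ _ _) rln))) (stX (nat_lit 0) (nat_lit 0) (nat_lit 1) (Rl.cons (nat_lit 0) (nat_lit 47) Rl.nil) rfl rfl sc1_21 (rlc (starCk_zero _ _ _ _ _ _ _) rln))) (stX (nat_lit 0) (nat_lit 0) (nat_lit 1) (Rl.cons (nat_lit 0) (nat_lit 113) Rl.nil) rfl rfl sc1_22 (rlc (starCk_zero _ _ _ _ _ _ _) rln))) (stX (nat_lit 0) (nat_lit 0) (nat_lit 1) (Rl.cons (nat_lit 0) (nat_lit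 123) Rl.nil) rfl rfl sc1_23 (rlc (starCk_zero _ _ _ _ _ _ _) rln))) (stX (nat_lit 0) (nat_lit 0) (nat_lit 1) (Rl.cons (nat_lit 0) (nat_lit 153) Rl.nil) rfl rfl sc1_24 (rlc (starCk_zero _ _ _ _ _ _ _) rln))) (stX (nat_lit 0) (nat_lit 0) (nat_lit 1) (Rl.cons (nat_lit 0) (nat_lit 69) Rl.nil) rfl rfl sc1_25 (rlc (starCk_zero _ _ _ _ _ _ _) rln)))
theorem ct1 : TiS (nat_lit 53) (nat_lit 2) (nat_lit 1) (nat_lit 1) (nat_lit 15) (nat_lit 26) (nat_lit 1) CL1 :=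
  tiS ZZ1 (alS (alS (alS (alS (alS (alS (alS (alS (alS (alS (alS (alS (alS (alS (alS (alS (alS (alS (alS (alS (alS (alS (alS (alS (alS (alS al0 tc1_0) tc1_1) tc1_2) tc1_3) tc1_4) tc1_5) tc1_6) tc1_7) tc1_8) tc1_9) tc1_10) tc1_11) tc1_12) tc1_13) tc1_14) tc1_15) tc1_16) tc1_17) tc1_18) tc1_19) tc1_20) tc1_21) tc1_22) tc1_23) tc1_24) tc1_25)
  (zzc ⟨(nat_lit 270), zl1_0, ti1_0⟩ zzn)
theorem cw2 : ∀ w < 26, wfC (nat_lit 37) (nat_lit 2) (getC CL2 w) = true :=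
  (alS (alS (alS (alS (alS (alS (alS (alS (alS (alS (alS (alS (alS (alS (alS (alS (alS (alS (alS (alS (alS (alS (alS (alS (alS (alS al0 wf2_0) wf2_1) wf2_2) wf2_3) wf2_4) wf2_5) wf2_6) wf2_7) wf2_8) wf2_9) wf2_10) wf2_11) wf2_12) wf2_13) wf2_14) wf2_15) wf2_16) wf2_17) wf2_18) wf2_19) wf2_20) wf2_21) wf2_22) wf2_23) wf2_24) wf2_25)
theorem cr2 : ∀ w < 26, rfCk (nat_lit 53) (nat_lit 2) (nat_lit 37) (nat_lit 2) (nat_lit 9) (nat_lit 0) w TL2 CL1 CL2 = true :=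
  (alS (alS (alS (alS (alS (alS (alS (alS (alS (alS (alS (alS (alS (alS (alS (alS (alS (alS (alS (alS (alS (alS (alS (alS (alS (alS al0 rf2_0) rf2_1) rf2_2) rf2_3) rf2_4) rf2_5) rf2_6) rf2_7) rf2_8) rf2_9) rf2_10) rf2_11) rf2_12) rf2_13) rf2_14) rf2_15) rf2_16) rf2_17) rf2_18) rf2_19) rf2_20) rf2_21) rf2_22) rf2_23) rf2_24) rf2_25)
theorem vm2 : eqVM CL1 CL2 26 = true := by decide +kernel
theorem cs2 : ∀ w < 26, StW (nat_lit 37) (nat_lit 2) (nat_lit 1) (nat_lit 1) (getC CL2 w) :=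
  (alS (alS (alS (alS (alS (alS (alS (alS (alS (alS (alS (alS (alS (alS (alS (alS (alS (alS (alS (alS (alS (alS (alS (alS (alS (alS al0 (stX (nat_lit 1) (nat_lit 0) (nat_lit 16) (Rl.cons (nat_lit 0) (nat_lit 4) Rl.nil) rfl rfl sc2_0 (rlc st2_0_0 rln))) (stX (nat_lit 2) (nat_lit 4) (nat_lit 256) (Rl.cons (nat_lit 4) (nat_lit 2) Rl.nil) rfl rfl sc2_1 (rlc st2_1_0 rln))) (stX (nat_lit 2) (nat_lit 17) (nat_lit 256) (Rl.cons (nat_lit 17) (nat_lit 4) Rl.nil) rfl rfl sc2_2 (rlc st2_2_0 rln))) (stX (nat_lit 1) (nat_lit 0) (nat_lit 16) (Rl.cons (nat_lit 0) (nat_lit 4) Rl.nil) rfl rfl sc2_3 (rlc st2_3_0 rln))) (stX (nat_lit 0) (nat_lit 3) (nat_lit 1) (Rl.cons (nat_lit 3) (nat_lit 4) Rl.nil) rfl rfl sc2_4 (rlc st2_4_0 rln))) (stX (nat_lit 0) (nat_lit 19) (nat_lit 1) (Rl.cons (nat_lit 19) (nat_lit 9) Rl.nil) rfl rfl sc2_5 (rlc st2_5_0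 rln))) (stX (nat_lit 2) (nat_lit 60) (nat_lit 256) (Rl.cons (nat_lit 60) (nat_lit 7) Rl.nil) rfl rfl sc2_6 (rlc st2_6_0 rln))) (stX (nat_lit 0) (nat_lit 3) (nat_lit 1) (Rl.cons (nat_lit 3) (nat_lit 3) Rl.nil) rfl rfl sc2_7 (rlc st2_7_0 rln))) (stX (nat_lit 1) (nat_lit 32) (nat_lit 16) (Rl.cons (nat_lit 32) (nat_lit 8) Rl.nil) rfl rfl sc2_8 (rlc st2_8_0 rln))) (stX (nat_lit 2) (nat_lit 64) (nat_lit 256) (Rl.cons (nat_lit 64) (nat_lit 10) Rl.nil) rfl rfl sc2_9 (rlc st2_9_0 rln))) (stX (nat_lit 0) (nat_lit 7) (nat_lit 1) (Rl.cons (nat_lit 7) (nat_lit 6) Rl.nil) rfl rfl sc2_10 (rlc st2_10_0 rln))) (stX (nat_lit 2) (nat_lit 18) (nat_lit 256) (Rl.cons (nat_lit 18) (nat_lit 7) Rl.nil) rfl rfl sc2_11 (rlc st2_11_0 rln))) (stX (nat_lit 2) (nat_lit 44) (nat_lit 256) (Rl.cons (nat_lit 44) (nat_lit 4) Rl.nil) rfl rfl sc2_12 (rlc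 st2_12_0 rln))) (stX (nat_lit 0) (nat_lit 6) (nat_lit 1) (Rl.cons (nat_lit 6) (nat_lit 4) Rl.nil) rfl rfl sc2_13 (rlc st2_13_0 rln))) (stX (nat_lit 1) (nat_lit 14) (nat_lit 16) (Rl.cons (nat_lit 14) (nat_lit 2) Rl.nil) rfl rfl sc2_14 (rlc st2_14_0 rln))) (stX (nat_lit 1) (nat_lit 7) (nat_lit 16) (Rl.cons (nat_lit 7) (nat_lit 3) Rl.nil) rfl rfl sc2_15 (rlc st2_15_0 rln))) (stX (nat_lit 2) (nat_lit 0) (nat_lit 256) Rl.nil rfl rfl sc2_16 rln)) (stX (nat_lit 0) (nat_lit 0) (nat_lit 1) Rl.nil rfl rfl sc2_17 rln)) (stX (nat_lit 0) (nat_lit 0) (nat_lit 1) Rl.nil rfl rfl sc2_18 rln)) (stX (nat_lit 0) (nat_lit 0) (nat_lit 1) Rl.nil rfl rfl sc2_19 rln)) (stX (nat_lit 1) (nat_lit 25) (nat_lit 16) (Rl.cons (nat_lit 25) (nat_lit 14) Rl.nil) rfl rfl sc2_20 (rlc st2_20_0 rln))) (stX (nat_lit 0) (nat_lit 0) (nat_lit 1) Rl.nil rfl rfl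 sc2_21 rln)) (stX (nat_lit 2) (nat_lit 0) (nat_lit 256) Rl.nil rfl rfl sc2_22 rln)) (stX (nat_lit 1) (nat_lit 21) (nat_lit 16) (Rl.cons (nat_lit 21) (nat_lit 7) Rl.nil) rfl rfl sc2_23 (rlc st2_23_0 rln))) (stX (nat_lit 1) (nat_lit 28) (nat_lit 16) (Rl.cons (nat_lit 28) (nat_lit 5) Rl.nil) rfl rfl sc2_24 (rlc st2_24_0 rln))) (stX (nat_lit 3) (nat_lit 27) (nat_lit 4096) (Rl.cons (nat_lit 27) (nat_lit 14) Rl.nil) rfl rfl sc2_25 (rlc st2_25_0 rln)))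
theorem ct2 : TiS (nat_lit 37) (nat_lit 2) (nat_lit 2) (nat_lit 0) (nat_lit 15) (nat_lit 26) (nat_lit 1) CL2 :=
  tiS ZZ2 (alS (alS (alS (alS (alS (alS (alS (alS (alS (alS (alS (alS (alS (alS (alS (alS (alS (alS (alS (alS (alS (alS (alS (alS (alS (alS al0 tc2_0) tc2_1) tc2_2) tc2_3) tc2_4) tc2_5) tc2_6) tc2_7) tc2_8) tc2_9) tc2_10) tc2_11) tc2_12) tc2_13) tc2_14) tc2_15) tc2_16) tc2_17) tc2_18) tc2_19) tc2_20) tc2_21) tc2_22) tc2_23) tc2_24) tc2_25)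
  (zzc ⟨(nat_lit 196), zl2_0, tileCk_zero _ _ _ _ _ _ _ _⟩ zzn)
theorem cw3 : ∀ w < 26, wfC (nat_lit 19) (nat_lit 2) (getC CL3 w) = true :=
  (alS (alS (alS (alS (alS (alS (alS (alS (alS (alS (alS (alS (alS (alS (alS (alS (alS (alS (alS (alS (alS (alS (alS (alS (alS (alS al0 wf3_0) wf3_1) wf3_2) wf3_3) wf3_4) wf3_5) wf3_6) wf3_7) wf3_8) wf3_9) wf3_10) wf3_11) wf3_12) wf3_13) wf3_14) wf3_15) wf3_16) wf3_17) wf3_18) wf3_19) wf3_20) wf3_21) wf3_22) wf3_23) wf3_24) wf3_25)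
theorem cr3 : ∀ w < 26, rfCk (nat_lit 37) (nat_lit 2) (nat_lit 19) (nat_lit 2) (nat_lit 9) (nat_lit 0) w TL3 CL2 CL3 = true :=
  (alS (alS (alS (alS (alS (alS (alS (alS (alS (alS (alS (alS (alS (alS (alS (alS (alS (alS (alS (alS (alS (alS (alS (alS (alS (alS al0 rf3_0) rf3_1) rf3_2) rf3_3) rf3_4) rf3_5) rf3_6) rf3_7) rf3_8) rf3_9) rf3_10) rf3_11) rf3_12) rf3_13) rf3_14) rf3_15) rf3_16) rf3_17) rf3_18) rf3_19) rf3_20) rf3_21) rf3_22) rf3_23) rf3_24) rf3_25)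
theorem vm3 : eqVM CL2 CL3 26 = true := by decide +kernel
theorem cs3 : ∀ w < 26, StW (nat_lit 19) (nat_lit 2) (nat_lit 2) (nat_lit 0) (getC CL3 w) :=
  (alS (alS (alS (alS (alS (alS (alS (alS (alS (alS (alS (alS (alS (alS (alS (alS (alS (alS (alS (alS (alS (alS (alS (alS (alS (alS al0 (stX (nat_lit 1) (nat_lit 0) (nat_lit 16) (Rl.cons (nat_lit 0) (nat_lit 19) Rl.nil) rfl rfl sc3_0 (rlc (starCk_zero _ _ _ _ _ _ _) rln))) (stX (nat_lit 1) (nat_lit 0) (nat_lit 16) Rl.nil rfl rfl sc3_1 rln)) (stX (nat_lit 1) (nat_lit 0) (nat_lit 16) (Rl.cons (nat_lit 0) (nat_lit 1) Rl.nil) rfl rfl sc3_2 (rlc (starCk_zero _ _ _ _ _ _ _) rln))) (stX (nat_lit 1) (nat_lit 0) (nat_lit 16) (Rl.cons (nat_lit 0) (nat_lit 2) Rl.nil) rfl rfl sc3_3 (rlc (starCk_zero _ _ _ _ _ _ _) rln))) (stX (nat_lit 0) (nat_lit 0) (nat_lit 1) (Rl.cons (nat_lit 0)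 (nat_lit 3) Rl.nil) rfl rfl sc3_4 (rlc (starCk_zero _ _ _ _ _ _ _) rln))) (stX (nat_lit 0) (nat_lit 0) (nat_lit 1) (Rl.cons (nat_lit 0) (nat_lit 27) Rl.nil) rfl rfl sc3_5 (rlc (starCk_zero _ _ _ _ _ _ _) rln))) (stX (nat_lit 0) (nat_lit 0) (nat_lit 1) (Rl.cons (nat_lit 0) (nat_lit 22) Rl.nil) rfl rfl sc3_6 (rlc (starCk_zero _ _ _ _ _ _ _) rln))) (stX (nat_lit 0) (nat_lit 0) (nat_lit 1) (Rl.cons (nat_lit 0) (nat_lit 9) Rl.nil) rfl rfl sc3_7 (rlc (starCk_zero _ _ _ _ _ _ _) rln))) (stX (nat_lit 0) (nat_lit 0) (nat_lit 1) (Rl.cons (nat_lit 0) (nat_lit 8) Rl.nil) rfl rfl sc3_8 (rlc (starCk_zero _ _ _ _ _ _ _) rln))) (stX (nat_lit 0) (nat_lit 0) (nat_lit 1) (Rl.cons (nat_lit 0) (nat_lit 19) Rl.nil) rfl rfl sc3_9 (rlc (starCk_zero _ _ _ _ _ _ _) rln))) (stX (nat_lit 0) (nat_lit 0) (nat_lit 1) (Rl.cons (nat_lit 0) (nat_lit 13)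 Rl.nil) rfl rfl sc3_10 (rlc (starCk_zero _ _ _ _ _ _ _) rln))) (stX (nat_lit 0) (nat_lit 0) (nat_lit 1) (Rl.cons (nat_lit 0) (nat_lit 10) Rl.nil) rfl rfl sc3_11 (rlc (starCk_zero _ _ _ _ _ _ _) rln))) (stX (nat_lit 0) (nat_lit 0) (nat_lit 1) (Rl.cons (nat_lit 0) (nat_lit 21) Rl.nil) rfl rfl sc3_12 (rlc (starCk_zero _ _ _ _ _ _ _) rln))) (stX (nat_lit 0) (nat_lit 0) (nat_lit 1) (Rl.cons (nat_lit 0) (nat_lit 4) Rl.nil) rfl rfl sc3_13 (rlc (starCk_zero _ _ _ _ _ _ _) rln))) (stX (nat_lit 0) (nat_lit 0) (nat_lit 1) Rl.nil rfl rfl sc3_14 rln)) (stX (nat_lit 0) (nat_lit 0) (nat_lit 1) Rl.nil rfl rfl sc3_15 rln)) (stX (nat_lit 0) (nat_lit 0) (nat_lit 1) Rl.nil rfl rfl sc3_16 rln)) (stX (nat_lit 0) (nat_lit 0) (nat_lit 1) Rl.nil rfl rfl sc3_17 rln)) (stX (nat_lit 0) (nat_lit 0) (nat_lit 1) Rl.nil rfl rfl sc3_18 rln)) (stX (nat_lit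 0) (nat_lit 0) (nat_lit 1) Rl.nil rfl rfl sc3_19 rln)) (stX (nat_lit 0) (nat_lit 0) (nat_lit 1) (Rl.cons (nat_lit 0) (nat_lit 64) Rl.nil) rfl rfl sc3_20 (rlc (starCk_zero _ _ _ _ _ _ _) rln))) (stX (nat_lit 0) (nat_lit 0) (nat_lit 1) Rl.nil rfl rfl sc3_21 rln)) (stX (nat_lit 0) (nat_lit 0) (nat_lit 1) Rl.nil rfl rfl sc3_22 rln)) (stX (nat_lit 0) (nat_lit 0) (nat_lit 1) (Rl.cons (nat_lit 0) (nat_lit 3) Rl.nil) rfl rfl sc3_23 (rlc (starCk_zero _ _ _ _ _ _ _) rln))) (stX (nat_lit 0) (nat_lit 0) (nat_lit 1) Rl.nil rfl rfl sc3_24 rln)) (stX (nat_lit 0) (nat_lit 0) (nat_lit 1) (Rl.cons (nat_lit 0) (nat_lit 13) Rl.nil) rfl rfl sc3_25 (rlc (starCk_zero _ _ _ _ _ _ _) rln)))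
theorem ct3 : TiS (nat_lit 19) (nat_lit 2) (nat_lit 1) (nat_lit 1) (nat_lit 15) (nat_lit 26) (nat_lit 1) CL3 :=
  tiS ZZ3 (alS (alS (alS (alS (alS (alS (alS (alS (alS (alS (alS (alS (alS (alS (alS (alS (alS (alS (alS (alS (alS (alS (alS (alS (alS (alS al0 tc3_0) tc3_1) tc3_2) tc3_3) tc3_4) tc3_5) tc3_6) tc3_7) tc3_8) tc3_9) tc3_10) tc3_11) tc3_12) tc3_13) tc3_14) tc3_15) tc3_16) tc3_17) tc3_18) tc3_19) tc3_20) tc3_21) tc3_22) tc3_23) tc3_24) tc3_25)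
  (zzc ⟨(nat_lit 36), zl3_0, ti3_0⟩ zzn)
theorem cw4 : ∀ w < 26, wfC (nat_lit 5) (nat_lit 2) (getC CL4 w) = true :=
  (alS (alS (alS (alS (alS (alS (alS (alS (alS (alS (alS (alS (alS (alS (alS (alS (alS (alS (alS (alS (alS (alS (alS (alS (alS (alS al0 wf4_0) wf4_1) wf4_2) wf4_3) wf4_4) wf4_5) wf4_6) wf4_7) wf4_8) wf4_9) wf4_10) wf4_11) wf4_12) wf4_13) wf4_14) wf4_15) wf4_16) wf4_17) wf4_18) wf4_19) wf4_20) wf4_21) wf4_22) wf4_23) wf4_24) wf4_25)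
theorem cr4 : ∀ w < 26, rfCk (nat_lit 19) (nat_lit 2) (nat_lit 5) (nat_lit 2) (nat_lit 9) (nat_lit 0) w TL4 CL3 CL4 = true :=
  (alS (alS (alS (alS (alS (alS (alS (alS (alS (alS (alS (alS (alS (alS (alS (alS (alS (alS (alS (alS (alS (alS (alS (alS (alS (alS al0 rf4_0) rf4_1) rf4_2) rf4_3) rf4_4) rf4_5) rf4_6) rf4_7) rf4_8) rf4_9) rf4_10) rf4_11) rf4_12) rf4_13) rf4_14) rf4_15) rf4_16) rf4_17) rf4_18) rf4_19) rf4_20) rf4_21) rf4_22) rf4_23) rf4_24) rf4_25)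
theorem vm4 : eqVM CL3 CL4 26 = true := by decide +kernel
theorem cs4 : ∀ w < 26, StW (nat_lit 5) (nat_lit 2) (nat_lit 1) (nat_lit 1) (getC CL4 w) :=
  (alS (alS (alS (alS (alS (alS (alS (alS (alS (alS (alS (alS (alS (alS (alS (alS (alS (alS (alS (alS (alS (alS (alS (alS (alS (alS al0 (stX (nat_lit 1) (nat_lit 0) (nat_lit 16) Rl.nil rfl rfl sc4_0 rln)) (stX (nat_lit 1) (nat_lit 0) (nat_lit 16) Rl.nil rfl rfl sc4_1 rln)) (stX (nat_lit 1) (nat_lit 0) (nat_lit 16) Rl.nil rfl rfl sc4_2 rln)) (stX (nat_lit 1) (nat_lit 0) (nat_lit 16) Rl.nil rfl rfl sc4_3 rln)) (stX (nat_lit 0) (nat_lit 0) (nat_lit 1) Rl.nil rfl rfl sc4_4 rln)) (stX (nat_lit 0) (nat_lit 0) (nat_lit 1) Rl.nil rfl rfl sc4_5 rln)) (stX (nat_lit 0) (nat_lit 0) (nat_lit 1) Rl.nil rfl rfl sc4_6 rln)) (stX (nat_lit 0) (nat_lit 0) (nat_lit 1) Rl.nil rfl rfl sc4_7 rln))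 (stX (nat_lit 1) (nat_lit 0) (nat_lit 16) Rl.nil rfl rfl sc4_8 rln)) (stX (nat_lit 2) (nat_lit 0) (nat_lit 256) Rl.nil rfl rfl sc4_9 rln)) (stX (nat_lit 0) (nat_lit 0) (nat_lit 1) Rl.nil rfl rfl sc4_10 rln)) (stX (nat_lit 2) (nat_lit 4) (nat_lit 256) (Rl.cons (nat_lit 4) (nat_lit 1) Rl.nil) rfl rfl sc4_11 (rlc st4_11_0 rln))) (stX (nat_lit 0) (nat_lit 0) (nat_lit 1) Rl.nil rfl rfl sc4_12 rln)) (stX (nat_lit 0) (nat_lit 0) (nat_lit 1) Rl.nil rfl rfl sc4_13 rln)) (stX (nat_lit 0) (nat_lit 0) (nat_lit 1) Rl.nil rfl rfl sc4_14 rln)) (stX (nat_lit 0) (nat_lit 0) (nat_lit 1) Rl.nil rfl rfl sc4_15 rln)) (stX (nat_lit 0) (nat_lit 0) (nat_lit 1) Rl.nil rfl rfl sc4_16 rln)) (stX (nat_lit 0) (nat_lit 0) (nat_lit 1) Rl.nil rfl rfl sc4_17 rln)) (stX (nat_lit 0) (nat_lit 0) (nat_lit 1) Rl.nil rfl rfl sc4_18 rln)) (stX (nat_lit 0) (nat_lit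 0) (nat_lit 1) Rl.nil rfl rfl sc4_19 rln)) (stX (nat_lit 1) (nat_lit 0) (nat_lit 16) Rl.nil rfl rfl sc4_20 rln)) (stX (nat_lit 0) (nat_lit 0) (nat_lit 1) Rl.nil rfl rfl sc4_21 rln)) (stX (nat_lit 0) (nat_lit 0) (nat_lit 1) Rl.nil rfl rfl sc4_22 rln)) (stX (nat_lit 0) (nat_lit 0) (nat_lit 1) Rl.nil rfl rfl sc4_23 rln)) (stX (nat_lit 0) (nat_lit 0) (nat_lit 1) Rl.nil rfl rfl sc4_24 rln)) (stX (nat_lit 3) (nat_lit 0) (nat_lit 4096) Rl.nil rfl rfl sc4_25 rln))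
theorem ct4 : TiS (nat_lit 5) (nat_lit 2) (nat_lit 2) (nat_lit 0) (nat_lit 15) (nat_lit 26) (nat_lit 1) CL4 :=
  tiS ZZ4 (alS (alS (alS (alS (alS (alS (alS (alS (alS (alS (alS (alS (alS (alS (alS (alS (alS (alS (alS (alS (alS (alS (alS (alS (alS (alS al0 tc4_0) tc4_1) tc4_2) tc4_3) tc4_4) tc4_5) tc4_6) tc4_7) tc4_8) tc4_9) tc4_10) tc4_11) tc4_12) tc4_13) tc4_14) tc4_15) tc4_16) tc4_17) tc4_18) tc4_19) tc4_20) tc4_21) tc4_22) tc4_23) tc4_24) tc4_25)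
  (zzc ⟨(nat_lit 8), zl4_0, tileCk_zero _ _ _ _ _ _ _ _⟩ zzn)
theorem cd : ∀ w < 26, deadCk (nat_lit 5) (nat_lit 2) (getC CL4 w) = true :=
  (alS (alS (alS (alS (alS (alS (alS (alS (alS (alS (alS (alS (alS (alS (alS (alS (alS (alS (alS (alS (alS (alS (alS (alS (alS (alS al0 de4_0) de4_1) de4_2) de4_3) de4_4) de4_5) de4_6) de4_7) de4_8) de4_9) de4_10) de4_11) de4_12) de4_13) de4_14) de4_15) de4_16) de4_17) de4_18) de4_19) de4_20) de4_21) de4_22) de4_23) de4_24) de4_25)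
theorem rc : recCk (recP 15 (1, 2, 4) 1 0 6).W 26 CL0 = true := by decide +kernel
theorem occ (O : OccL (recP 15 (1, 2, 4) 1 0 6) (locOK (Nat.testBit 1) (Nat.testBit 0) (Nat.testBit 6))) :
    False := by
  have k := first_stage O 1 (nlOK_A (by decide) (by decide)) rfl rfl rfl rfl rc cw0 cp
  have k := run_stage k rfl (nat_lit 1) (nat_lit 2) (nat_lit 2) (nat_lit 2) rfl cs0 ct0
  have k := next_stage k (nat_lit 53) (nat_lit 2) (nat_lit 9) (nat_lit 0) rfl rfl rfl rfl rfl vm1 cw1 cr1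
  have k := run_stage k rfl (nat_lit 2) (nat_lit 0) (nat_lit 1) (nat_lit 1) rfl cs1 ct1
  have k := next_stage k (nat_lit 37) (nat_lit 2) (nat_lit 9) (nat_lit 0) rfl rfl rfl rfl rfl vm2 cw2 cr2
  have k := run_stage k rfl (nat_lit 1) (nat_lit 1) (nat_lit 2) (nat_lit 0) rfl cs2 ct2
  have k := next_stage k (nat_lit 19) (nat_lit 2) (nat_lit 9) (nat_lit 0) rfl rfl rfl rfl rfl vm3 cw3 cr3
  have k := run_stage k rfl (nat_lit 2) (nat_lit 0) (nat_lit 1) (nat_lit 1) rfl cs3 ct3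
  have k := next_stage k (nat_lit 5) (nat_lit 2) (nat_lit 9) (nat_lit 0) rfl rfl rfl rfl rfl vm4 cw4 cr4
  have k := run_stage k rfl (nat_lit 1) (nat_lit 1) (nat_lit 2) (nat_lit 0) rfl cs4 ct4
  exact last_stage k rfl cd
theorem res : ∃ ok, OkP (1, 2, 4) ok ∧ IsEmpty (LTil (shP 15 (1, 2, 4) ok)) :=
  dead_P 1 0 6 (by decide +kernel) rc occ

end Pool.Agent.NNr.R15_1_2_4

namespace Pool.Agent.NNr.R15_1_2_5
open Pool.Agent.NNe Pool.Agent.NNc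

theorem cw0 : ∀ w < 26, wfC (nat_lit 61) (nat_lit 5) (getC CL0 w) = true :=
  (alS (alS (alS (alS (alS (alS (alS (alS (alS (alS (alS (alS (alS (alS (alS (alS (alS (alS (alS (alS (alS (alS (alS (alS (alS (alS al0 wf0_0) wf0_1) wf0_2) wf0_3) wf0_4) wf0_5) wf0_6) wf0_7) wf0_8) wf0_9) wf0_10) wf0_11) wf0_12) wf0_13) wf0_14) wf0_15) wf0_16) wf0_17) wf0_18) wf0_19) wf0_20) wf0_21) wf0_22) wf0_23) wf0_24) wf0_25)
theorem cp : ∀ w < 26, plCk (nat_lit 61) (nat_lit 5) (nat_lit 15) (nat_lit 1) (nat_lit 0) (nat_lit 6) (nat_lit 26) (nat_lit 4) w nl0 CL0 = true :=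
  (alS (alS (alS (alS (alS (alS (alS (alS (alS (alS (alS (alS (alS (alS (alS (alS (alS (alS (alS (alS (alS (alS (alS (alS (alS (alS al0 pl0_0) pl0_1) pl0_2) pl0_3) pl0_4) pl0_5) pl0_6) pl0_7) pl0_8) pl0_9) pl0_10) pl0_11) pl0_12) pl0_13) pl0_14) pl0_15) pl0_16) pl0_17) pl0_18) pl0_19) pl0_20) pl0_21) pl0_22) pl0_23) pl0_24) pl0_25)
theorem cs0 : ∀ w < 26, StW (nat_lit 61) (nat_lit 5) (nat_lit 1) (nat_lit 2) (getC CL0 w) :=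
  (alS (alS (alS (alS (alS (alS (alS (alS (alS (alS (alS (alS (alS (alS (alS (alS (alS (alS (alS (alS (alS (alS (alS (alS (alS (alS al0 (stX (nat_lit 2) (nat_lit 49) (nat_lit 256) (Rl.cons (nat_lit 49) (nat_lit 34) Rl.nil) rfl rfl sc0_0 (rlc st0_0_0 rln))) (stX (nat_lit 1) (nat_lit 0) (nat_lit 16) (Rl.cons (nat_lit 0) (nat_lit 15) Rl.nil) rfl rfl sc0_1 (rlc st0_1_0 rln))) (stX (nat_lit 0) (nat_lit 11) (nat_lit 1) (Rl.cons (nat_lit 11) (nat_lit 17) Rl.nil) rfl rfl sc0_2 (rlc st0_2_0 rln))) (stX (nat_lit 0) (nat_lit 27) (nat_lit 1) (Rl.cons (nat_lit 27) (nat_lit 20) Rl.nil) rfl rfl sc0_3 (rlc st0_3_0 rln))) (stX (nat_lit 0) (nat_lit 44) (nat_lit 1) (Rl.cons (nat_lit 44) (nat_lit 28) Rl.nil) rfl rfl sc0_4 (rlc st0_4_0 rln))) (stX (nat_lit 0) (nat_lit 24) (nat_lit 1) (Rl.cons (nat_lit 24) (nat_lit 11) Rl.nil) rfl rfl sc0_5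 (rlc st0_5_0 rln))) (stX (nat_lit 2) (nat_lit 126) (nat_lit 256) (Rl.cons (nat_lit 126) (nat_lit 23) Rl.nil) rfl rfl sc0_6 (rlc st0_6_0 rln))) (stX (nat_lit 1) (nat_lit 69) (nat_lit 16) (Rl.cons (nat_lit 69) (nat_lit 27) Rl.nil) rfl rfl sc0_7 (rlc st0_7_0 rln))) (stX (nat_lit 0) (nat_lit 20) (nat_lit 1) (Rl.cons (nat_lit 20) (nat_lit 11) Rl.nil) rfl rfl sc0_8 (rlc st0_8_0 rln))) (stX (nat_lit 2) (nat_lit 116) (nat_lit 256) (Rl.cons (nat_lit 116) (nat_lit 22) Rl.nil) rfl rfl sc0_9 (rlc st0_9_0 rln))) (stX (nat_lit 2) (nat_lit 47) (nat_lit 256) (Rl.cons (nat_lit 47) (nat_lit 27) Rl.nil) rfl rfl sc0_10 (rlc st0_10_0 rln))) (stX (nat_lit 0) (nat_lit 16) (nat_lit 1) (Rl.cons (nat_lit 16) (nat_lit 10) Rl.nil) rfl rfl sc0_11 (rlc st0_11_0 rln))) (stX (nat_lit 2) (nat_lit 103) (nat_lit 256) (Rl.cons (nat_lit 103) (nat_lit 21)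 Rl.nil) rfl rfl sc0_12 (rlc st0_12_0 rln))) (stX (nat_lit 1) (nat_lit 20) (nat_lit 16) (Rl.cons (nat_lit 20) (nat_lit 10) Rl.nil) rfl rfl sc0_13 (rlc st0_13_0 rln))) (stX (nat_lit 1) (nat_lit 44) (nat_lit 16) (Rl.cons (nat_lit 44) (nat_lit 16) Rl.nil) rfl rfl sc0_14 (rlc st0_14_0 rln))) (stX (nat_lit 1) (nat_lit 15) (nat_lit 16) (Rl.cons (nat_lit 15) (nat_lit 6) Rl.nil) rfl rfl sc0_15 (rlc st0_15_0 rln))) (stX (nat_lit 2) (nat_lit 24) (nat_lit 256) (Rl.cons (nat_lit 24) (nat_lit 6) Rl.nil) rfl rfl sc0_16 (rlc st0_16_0 rln))) (stX (nat_lit 1) (nat_lit 7) (nat_lit 16) (Rl.cons (nat_lit 7) (nat_lit 3) Rl.nil) rfl rfl sc0_17 (rlc st0_17_0 rln))) (stX (nat_lit 0) (nat_lit 0) (nat_lit 1) Rl.nil rfl rfl sc0_18 rln)) (stX (nat_lit 3) (nat_lit 121) (nat_lit 4096) (Rl.cons (nat_lit 121) (nat_lit 94) Rl.nil) rfl rfl sc0_19 (rlc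 st0_19_0 rln))) (stX (nat_lit 1) (nat_lit 126) (nat_lit 16) (Rl.cons (nat_lit 126) (nat_lit 56) Rl.nil) rfl rfl sc0_20 (rlc st0_20_0 rln))) (stX (nat_lit 0) (nat_lit 59) (nat_lit 1) (Rl.cons (nat_lit 59) (nat_lit 60) Rl.nil) rfl rfl sc0_21 (rlc st0_21_0 rln))) (stX (nat_lit 2) (nat_lit 127) (nat_lit 256) (Rl.cons (nat_lit 127) (nat_lit 102) Rl.nil) rfl rfl sc0_22 (rlc st0_22_0 rln))) (stX (nat_lit 1) (nat_lit 116) (nat_lit 16) (Rl.cons (nat_lit 116) (nat_lit 59) Rl.nil) rfl rfl sc0_23 (rlc st0_23_0 rln))) (stX (nat_lit 1) (nat_lit 111) (nat_lit 16) (Rl.cons (nat_lit 111) (nat_lit 40) Rl.nil) rfl rfl sc0_24 (rlc st0_24_0 rln))) (stX (nat_lit 3) (nat_lit 89) (nat_lit 4096) (Rl.cons (nat_lit 89) (nat_lit 70) Rl.nil) rfl rfl sc0_25 (rlc st0_25_0 rln)))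
theorem ct0 : TiS (nat_lit 61) (nat_lit 5) (nat_lit 2) (nat_lit 2) (nat_lit 15) (nat_lit 26) (nat_lit 1) CL0 :=
  tiS ZZ0 (alS (alS (alS (alS (alS (alS (alS (alS (alS (alS (alS (alS (alS (alS (alS (alS (alS (alS (alS (alS (alS (alS (alS (alS (alS (alS al0 tc0_0) tc0_1) tc0_2) tc0_3) tc0_4) tc0_5) tc0_6) tc0_7) tc0_8) tc0_9) tc0_10) tc0_11) tc0_12) tc0_13) tc0_14) tc0_15) tc0_16) tc0_17) tc0_18) tc0_19) tc0_20) tc0_21) tc0_22) tc0_23) tc0_24) tc0_25)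
  (zzc ⟨(nat_lit 314), zl0_0, ti0_0⟩ (zzc ⟨(nat_lit 314), zl0_1, ti0_1⟩ zzn))
theorem cw1 : ∀ w < 26, wfC (nat_lit 61) (nat_lit 9) (getC CL1 w) = true :=
  (alS (alS (alS (alS (alS (alS (alS (alS (alS (alS (alS (alS (alS (alS (alS (alS (alS (alS (alS (alS (alS (alS (alS (alS (alS (alS al0 wf1_0) wf1_1) wf1_2) wf1_3) wf1_4) wf1_5) wf1_6) wf1_7) wf1_8) wf1_9) wf1_10) wf1_11) wf1_12) wf1_13) wf1_14) wf1_15) wf1_16) wf1_17) wf1_18) wf1_19) wf1_20) wf1_21) wf1_22) wf1_23) wf1_24) wf1_25)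
theorem cr1 : ∀ w < 26, rfCk (nat_lit 61) (nat_lit 5) (nat_lit 61) (nat_lit 9) (nat_lit 9) (nat_lit 0) w TL1 CL0 CL1 = true :=
  (alS (alS (alS (alS (alS (alS (alS (alS (alS (alS (alS (alS (alS (alS (alS (alS (alS (alS (alS (alS (alS (alS (alS (alS (alS (alS al0 rf1_0) rf1_1) rf1_2) rf1_3) rf1_4) rf1_5) rf1_6) rf1_7) rf1_8) rf1_9) rf1_10) rf1_11) rf1_12) rf1_13) rf1_14) rf1_15) rf1_16) rf1_17) rf1_18) rf1_19) rf1_20) rf1_21) rf1_22) rf1_23) rf1_24) rf1_25)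
theorem vm1 : eqVM CL0 CL1 26 = true := by decide +kernel
theorem cs1 : ∀ w < 26, StW (nat_lit 61) (nat_lit 9) (nat_lit 1) (nat_lit 4) (getC CL1 w) :=
  (alS (alS (alS (alS (alS (alS (alS (alS (alS (alS (alS (alS (alS (alS (alS (alS (alS (alS (alS (alS (alS (alS (alS (alS (alS (alS al0 (stX (nat_lit 2) (nat_lit 34) (nat_lit 256) (Rl.cons (nat_lit 34) (nat_lit 18) Rl.nil) rfl rfl sc1_0 (rlc st1_0_0 rln))) (stX (nat_lit 1) (nat_lit 0) (nat_lit 16) (Rl.cons (nat_lit 0) (nat_lit 6) Rl.nil) rfl rfl sc1_1 (rlc st1_1_0 rln))) (stX (nat_lit 0) (nat_lit 11) (nat_lit 1) (Rl.cons (nat_lit 11) (nat_lit 16) Rl.nil) rfl rfl sc1_2 (rlc st1_2_0 rln))) (stX (nat_lit 0) (nat_lit 17) (nat_lit 1) (Rl.cons (nat_lit 17) (nat_lit 14) Rl.nil) rfl rfl sc1_3 (rlc st1_3_0 rln))) (stX (nat_lit 0) (nat_lit 35) (nat_lit 1) (Rl.cons (nat_lit 35) (nat_lit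 23) Rl.nil) rfl rfl sc1_4 (rlc st1_4_0 rln))) (stX (nat_lit 0) (nat_lit 9) (nat_lit 1) (Rl.cons (nat_lit 9) (nat_lit 4) Rl.nil) rfl rfl sc1_5 (rlc st1_5_0 rln))) (stX (nat_lit 2) (nat_lit 85) (nat_lit 256) (Rl.cons (nat_lit 85) (nat_lit 17) Rl.nil) rfl rfl sc1_6 (rlc st1_6_0 rln))) (stX (nat_lit 1) (nat_lit 57) (nat_lit 16) (Rl.cons (nat_lit 57) (nat_lit 22) Rl.nil) rfl rfl sc1_7 (rlc st1_7_0 rln))) (stX (nat_lit 0) (nat_lit 10) (nat_lit 1) (Rl.cons (nat_lit 10) (nat_lit 7) Rl.nil) rfl rfl sc1_8 (rlc st1_8_0 rln))) (stX (nat_lit 2) (nat_lit 65) (nat_lit 256) (Rl.cons (nat_lit 65) (nat_lit 10) Rl.nil) rfl rfl sc1_9 (rlc st1_9_0 rln))) (stX (nat_lit 2) (nat_lit 33) (nat_lit 256) (Rl.cons (nat_lit 33) (nat_lit 18) Rl.nil) rfl rfl sc1_10 (rlc st1_10_0 rln))) (stX (nat_lit 0) (nat_lit 7) (nat_lit 1) (Rl.cons (nat_lit 7) (nat_lit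 4) Rl.nil) rfl rfl sc1_11 (rlc st1_11_0 rln))) (stX (nat_lit 2) (nat_lit 46) (nat_lit 256) (Rl.cons (nat_lit 46) (nat_lit 6) Rl.nil) rfl rfl sc1_12 (rlc st1_12_0 rln))) (stX (nat_lit 0) (nat_lit 0) (nat_lit 1) Rl.nil rfl rfl sc1_13 rln)) (stX (nat_lit 2) (nat_lit 19) (nat_lit 256) (Rl.cons (nat_lit 19) (nat_lit 3) Rl.nil) rfl rfl sc1_14 (rlc st1_14_0 rln))) (stX (nat_lit 0) (nat_lit 0) (nat_lit 1) Rl.nil rfl rfl sc1_15 rln)) (stX (nat_lit 0) (nat_lit 0) (nat_lit 1) Rl.nil rfl rfl sc1_16 rln)) (stX (nat_lit 0) (nat_lit 0) (nat_lit 1) Rl.nil rfl rfl sc1_17 rln)) (stX (nat_lit 0) (nat_lit 0) (nat_lit 1) Rl.nil rfl rfl sc1_18 rln)) (stX (nat_lit 3) (nat_lit 66) (nat_lit 4096) (Rl.cons (nat_lit 66) (nat_lit 55) Rl.nil) rfl rfl sc1_19 (rlc st1_19_0 rln))) (stX (nat_lit 1) (nat_lit 107) (nat_lit 16) (Rl.cons (nat_lit 107) (nat_lit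 42) Rl.nil) rfl rfl sc1_20 (rlc st1_20_0 rln))) (stX (nat_lit 0) (nat_lit 32) (nat_lit 1) (Rl.cons (nat_lit 32) (nat_lit 39) Rl.nil) rfl rfl sc1_21 (rlc st1_21_0 rln))) (stX (nat_lit 2) (nat_lit 100) (nat_lit 256) (Rl.cons (nat_lit 100) (nat_lit 8) Rl.nil) rfl rfl sc1_22 (rlc st1_22_0 rln))) (stX (nat_lit 1) (nat_lit 72) (nat_lit 16) (Rl.cons (nat_lit 72) (nat_lit 32) Rl.nil) rfl rfl sc1_23 (rlc st1_23_0 rln))) (stX (nat_lit 1) (nat_lit 64) (nat_lit 16) (Rl.cons (nat_lit 64) (nat_lit 24) Rl.nil) rfl rfl sc1_24 (rlc st1_24_0 rln))) (stX (nat_lit 3) (nat_lit 37) (nat_lit 4096) (Rl.cons (nat_lit 37) (nat_lit 24) Rl.nil) rfl rfl sc1_25 (rlc st1_25_0 rln)))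
theorem ct1 : TiS (nat_lit 61) (nat_lit 9) (nat_lit 2) (nat_lit 4) (nat_lit 15) (nat_lit 26) (nat_lit 1) CL1 :=
  tiS ZZ1 (alS (alS (alS (alS (alS (alS (alS (alS (alS (alS (alS (alS (alS (alS (alS (alS (alS (alS (alS (alS (alS (alS (alS (alS (alS (alS al0 tc1_0) tc1_1) tc1_2) tc1_3) tc1_4) tc1_5) tc1_6) tc1_7) tc1_8) tc1_9) tc1_10) tc1_11) tc1_12) tc1_13) tc1_14) tc1_15) tc1_16) tc1_17) tc1_18) tc1_19) tc1_20) tc1_21) tc1_22) tc1_23) tc1_24) tc1_25)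
  (zzc ⟨(nat_lit 380), zl1_0, ti1_0⟩ zzn)
theorem cw2 : ∀ w < 26, wfC (nat_lit 3) (nat_lit 2) (getC CL2 w) = true :=
  (alS (alS (alS (alS (alS (alS (alS (alS (alS (alS (alS (alS (alS (alS (alS (alS (alS (alS (alS (alS (alS (alS (alS (alS (alS (alS al0 wf2_0) wf2_1) wf2_2) wf2_3) wf2_4) wf2_5) wf2_6) wf2_7) wf2_8) wf2_9) wf2_10) wf2_11) wf2_12) wf2_13) wf2_14) wf2_15) wf2_16) wf2_17) wf2_18) wf2_19) wf2_20) wf2_21) wf2_22) wf2_23) wf2_24) wf2_25)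
theorem cr2 : ∀ w < 26, rfCk (nat_lit 61) (nat_lit 9) (nat_lit 3) (nat_lit 2) (nat_lit 9) (nat_lit 0) w TL2 CL1 CL2 = true :=
  (alS (alS (alS (alS (alS (alS (alS (alS (alS (alS (alS (alS (alS (alS (alS (alS (alS (alS (alS (alS (alS (alS (alS (alS (alS (alS al0 rf2_0) rf2_1) rf2_2) rf2_3) rf2_4) rf2_5) rf2_6) rf2_7) rf2_8) rf2_9) rf2_10) rf2_11) rf2_12) rf2_13) rf2_14) rf2_15) rf2_16) rf2_17) rf2_18) rf2_19) rf2_20) rf2_21) rf2_22) rf2_23) rf2_24) rf2_25)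
theorem vm2 : eqVM CL1 CL2 26 = true := by decide +kernel
theorem cs2 : ∀ w < 26, StW (nat_lit 3) (nat_lit 2) (nat_lit 2) (nat_lit 0) (getC CL2 w) :=
  (alS (alS (alS (alS (alS (alS (alS (alS (alS (alS (alS (alS (alS (alS (alS (alS (alS (alS (alS (alS (alS (alS (alS (alS (alS (alS al0 (stX (nat_lit 1) (nat_lit 0) (nat_lit 16) Rl.nil rfl rfl sc2_0 rln)) (stX (nat_lit 1) (nat_lit 0) (nat_lit 16) Rl.nil rfl rfl sc2_1 rln)) (stX (nat_lit 0) (nat_lit 0) (nat_lit 1) Rl.nil rfl rfl sc2_2 rln)) (stX (nat_lit 0) (nat_lit 0) (nat_lit 1) Rl.nil rfl rfl sc2_3 rln)) (stX (nat_lit 0) (nat_lit 0) (nat_lit 1) Rl.nil rfl rfl sc2_4 rln)) (stX (nat_lit 0) (nat_lit 0) (nat_lit 1) Rl.nil rfl rfl sc2_5 rln)) (stX (nat_lit 0) (nat_lit 0) (nat_lit 1) Rl.nil rfl rfl sc2_6 rln)) (stX (nat_lit 0) (nat_lit 0) (nat_lit 1) Rl.nil rfl rfl sc2_7 rln))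 (stX (nat_lit 0) (nat_lit 0) (nat_lit 1) Rl.nil rfl rfl sc2_8 rln)) (stX (nat_lit 0) (nat_lit 0) (nat_lit 1) Rl.nil rfl rfl sc2_9 rln)) (stX (nat_lit 0) (nat_lit 0) (nat_lit 1) Rl.nil rfl rfl sc2_10 rln)) (stX (nat_lit 0) (nat_lit 0) (nat_lit 1) Rl.nil rfl rfl sc2_11 rln)) (stX (nat_lit 0) (nat_lit 0) (nat_lit 1) Rl.nil rfl rfl sc2_12 rln)) (stX (nat_lit 0) (nat_lit 0) (nat_lit 1) Rl.nil rfl rfl sc2_13 rln)) (stX (nat_lit 0) (nat_lit 0) (nat_lit 1) Rl.nil rfl rfl sc2_14 rln)) (stX (nat_lit 0) (nat_lit 0) (nat_lit 1) Rl.nil rfl rfl sc2_15 rln)) (stX (nat_lit 0) (nat_lit 0) (nat_lit 1) Rl.nil rfl rfl sc2_16 rln)) (stX (nat_lit 0) (nat_lit 0) (nat_lit 1) Rl.nil rfl rfl sc2_17 rln)) (stX (nat_lit 0) (nat_lit 0) (nat_lit 1) Rl.nil rfl rfl sc2_18 rln)) (stX (nat_lit 1) (nat_lit 0) (nat_lit 16) Rl.nil rfl rfl sc2_19 rln)) (stX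 (nat_lit 0) (nat_lit 0) (nat_lit 1) (Rl.cons (nat_lit 0) (nat_lit 4) Rl.nil) rfl rfl sc2_20 (rlc (starCk_zero _ _ _ _ _ _ _) rln))) (stX (nat_lit 0) (nat_lit 0) (nat_lit 1) Rl.nil rfl rfl sc2_21 rln)) (stX (nat_lit 0) (nat_lit 0) (nat_lit 1) Rl.nil rfl rfl sc2_22 rln)) (stX (nat_lit 0) (nat_lit 0) (nat_lit 1) Rl.nil rfl rfl sc2_23 rln)) (stX (nat_lit 0) (nat_lit 0) (nat_lit 1) Rl.nil rfl rfl sc2_24 rln)) (stX (nat_lit 0) (nat_lit 0) (nat_lit 1) Rl.nil rfl rfl sc2_25 rln))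
theorem ct2 : TiS (nat_lit 3) (nat_lit 2) (nat_lit 1) (nat_lit 1) (nat_lit 15) (nat_lit 26) (nat_lit 1) CL2 :=
  tiS ZZ2 (alS (alS (alS (alS (alS (alS (alS (alS (alS (alS (alS (alS (alS (alS (alS (alS (alS (alS (alS (alS (alS (alS (alS (alS (alS (alS al0 tc2_0) tc2_1) tc2_2) tc2_3) tc2_4) tc2_5) tc2_6) tc2_7) tc2_8) tc2_9) tc2_10) tc2_11) tc2_12) tc2_13) tc2_14) tc2_15) tc2_16) tc2_17) tc2_18) tc2_19) tc2_20) tc2_21) tc2_22) tc2_23) tc2_24) tc2_25)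
  (zzc ⟨(nat_lit 1), zl2_0, ti2_0⟩ zzn)
theorem cd : ∀ w < 26, deadCk (nat_lit 3) (nat_lit 2) (getC CL2 w) = true :=
  (alS (alS (alS (alS (alS (alS (alS (alS (alS (alS (alS (alS (alS (alS (alS (alS (alS (alS (alS (alS (alS (alS (alS (alS (alS (alS al0 de2_0) de2_1) de2_2) de2_3) de2_4) de2_5) de2_6) de2_7) de2_8) de2_9) de2_10) de2_11) de2_12) de2_13) de2_14) de2_15) de2_16) de2_17) de2_18) de2_19) de2_20) de2_21) de2_22) de2_23) de2_24) de2_25)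
theorem rc : recCk (recP 15 (1, 2, 5) 1 0 6).W 26 CL0 = true := by decide +kernel
theorem occ (O : OccL (recP 15 (1, 2, 5) 1 0 6) (locOK (Nat.testBit 1) (Nat.testBit 0) (Nat.testBit 6))) :
    False := by
  have k := first_stage O 1 (nlOK_A (by decide) (by decide)) rfl rfl rfl rfl rc cw0 cp
  have k := run_stage k rfl (nat_lit 1) (nat_lit 2) (nat_lit 2) (nat_lit 2) rfl cs0 ct0
  have k := next_stage k (nat_lit 61) (nat_lit 9) (nat_lit 9) (nat_lit 0) rfl rfl rfl rfl rfl vm1 cw1 cr1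
  have k := run_stage k rfl (nat_lit 1) (nat_lit 4) (nat_lit 2) (nat_lit 4) rfl cs1 ct1
  have k := next_stage k (nat_lit 3) (nat_lit 2) (nat_lit 9) (nat_lit 0) rfl rfl rfl rfl rfl vm2 cw2 cr2
  have k := run_stage k rfl (nat_lit 2) (nat_lit 0) (nat_lit 1) (nat_lit 1) rfl cs2 ct2
  exact last_stage k rfl cd
theorem res : ∃ ok, OkP (1, 2, 5) ok ∧ IsEmpty (LTil (shP 15 (1, 2, 5) ok)) :=
  dead_P 1 0 6 (by decide +kernel) rc occ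

end Pool.Agent.NNr.R15_1_2_5

namespace Pool.Agent.NNr.R15_1_5_12
open Pool.Agent.NNe Pool.Agent.NNc

theorem cw0 : ∀ w < 13, wfC (nat_lit 58) (nat_lit 13) (getC CL0 w) = true :=
  (alS (alS (alS (alS (alS (alS (alS (alS (alS (alS (alS (alS (alS al0 wf0_0) wf0_1) wf0_2) wf0_3) wf0_4) wf0_5) wf0_6) wf0_7) wf0_8) wf0_9) wf0_10) wf0_11) wf0_12)
theorem cp : ∀ w < 13, plCk (nat_lit 58) (nat_lit 13) (nat_lit 15) (nat_lit 5) (nat_lit 0) (nat_lit 2) (nat_lit 13) (nat_lit 4) w nl0 CL0 = true :=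
  (alS (alS (alS (alS (alS (alS (alS (alS (alS (alS (alS (alS (alS al0 pl0_0) pl0_1) pl0_2) pl0_3) pl0_4) pl0_5) pl0_6) pl0_7) pl0_8) pl0_9) pl0_10) pl0_11) pl0_12)
theorem cs0 : ∀ w < 13, StW (nat_lit 58) (nat_lit 13) (nat_lit 1) (nat_lit 6) (getC CL0 w) :=
  (alS (alS (alS (alS (alS (alS (alS (alS (alS (alS (alS (alS (alS al0 (stX (nat_lit 2) (nat_lit 0) (nat_lit 256) (Rl.cons (nat_lit 0) (nat_lit 11) Rl.nil) rfl rfl sc0_0 (rlc st0_0_0 rln))) (stX (nat_lit 0) (nat_lit 8) (nat_lit 1) (Rl.cons (nat_lit 8) (nat_lit 4) Rl.nil) rfl rfl sc0_1 (rlc st0_1_0 rln))) (stX (nat_lit 0) (nat_lit 25) (nat_lit 1) (Rl.cons (nat_lit 25) (nat_lit 17) Rl.nil) rfl rfl sc0_2 (rlc st0_2_0 rln))) (stX (nat_lit 2) (nat_lit 63) (nat_lit 256) (Rl.cons (nat_lit 63) (nat_lit 9) Rl.nil) rfl rfl sc0_3 (rlc st0_3_0 rln))) (stX (nat_lit 0) (nat_lit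 5) (nat_lit 1) (Rl.cons (nat_lit 5) (nat_lit 5) Rl.nil) rfl rfl sc0_4 (rlc st0_4_0 rln))) (stX (nat_lit 1) (nat_lit 29) (nat_lit 16) (Rl.cons (nat_lit 29) (nat_lit 11) Rl.nil) rfl rfl sc0_5 (rlc st0_5_0 rln))) (stX (nat_lit 2) (nat_lit 22) (nat_lit 256) (Rl.cons (nat_lit 22) (nat_lit 4) Rl.nil) rfl rfl sc0_6 (rlc st0_6_0 rln))) (stX (nat_lit 2) (nat_lit 7) (nat_lit 256) (Rl.cons (nat_lit 7) (nat_lit 3) Rl.nil) rfl rfl sc0_7 (rlc st0_7_0 rln))) (stX (nat_lit 1) (nat_lit 82) (nat_lit 16) (Rl.cons (nat_lit 82) (nat_lit 36) Rl.nil) rfl rfl sc0_8 (rlc st0_8_0 rln))) (stX (nat_lit 3) (nat_lit 155) (nat_lit 4096) (Rl.cons (nat_lit 155) (nat_lit 104) Rl.nil) rfl rfl sc0_9 (rlc st0_9_0 rln))) (stX (nat_lit 2) (nat_lit 62) (nat_lit 256) (Rl.cons (nat_lit 62) (nat_lit 42) Rl.nil) rfl rfl sc0_10 (rlc st0_10_0 rln))) (stX (nat_lit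 1) (nat_lit 37) (nat_lit 16) (Rl.cons (nat_lit 37) (nat_lit 17) Rl.nil) rfl rfl sc0_11 (rlc st0_11_0 rln))) (stX (nat_lit 1) (nat_lit 0) (nat_lit 16) Rl.nil rfl rfl sc0_12 rln))
theorem ct0 : TiS (nat_lit 58) (nat_lit 13) (nat_lit 2) (nat_lit 6) (nat_lit 15) (nat_lit 13) (nat_lit 1) CL0 :=
  tiS ZZ0 (alS (alS (alS (alS (alS (alS (alS (alS (alS (alS (alS (alS (alS al0 tc0_0) tc0_1) tc0_2) tc0_3) tc0_4) tc0_5) tc0_6) tc0_7) tc0_8) tc0_9) tc0_10) tc0_11) tc0_12)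
  (zzc ⟨(nat_lit 168), zl0_0, ti0_0⟩ zzn)
theorem cw1 : ∀ w < 13, wfC (nat_lit 7) (nat_lit 2) (getC CL1 w) = true :=
  (alS (alS (alS (alS (alS (alS (alS (alS (alS (alS (alS (alS (alS al0 wf1_0) wf1_1) wf1_2) wf1_3) wf1_4) wf1_5) wf1_6) wf1_7) wf1_8) wf1_9) wf1_10) wf1_11) wf1_12)
theorem cr1 : ∀ w < 13, rfCk (nat_lit 58) (nat_lit 13) (nat_lit 7) (nat_lit 2) (nat_lit 9) (nat_lit 0) w TL1 CL0 CL1 = true :=
  (alS (alS (alS (alS (alS (alS (alS (alS (alS (alS (alS (alS (alS al0 rf1_0) rf1_1) rf1_2) rf1_3) rf1_4) rf1_5) rf1_6) rf1_7) rf1_8) rf1_9) rf1_10) rf1_11) rf1_12)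
theorem vm1 : eqVM CL0 CL1 13 = true := by decide +kernel
theorem cs1 : ∀ w < 13, StW (nat_lit 7) (nat_lit 2) (nat_lit 2) (nat_lit 0) (getC CL1 w) :=
  (alS (alS (alS (alS (alS (alS (alS (alS (alS (alS (alS (alS (alS al0 (stX (nat_lit 2) (nat_lit 0) (nat_lit 256) Rl.nil rfl rfl sc1_0 rln)) (stX (nat_lit 0) (nat_lit 0) (nat_lit 1) Rl.nil rfl rfl sc1_1 rln)) (stX (nat_lit 0) (nat_lit 0) (nat_lit 1) Rl.nil rfl rfl sc1_2 rln)) (stX (nat_lit 0) (nat_lit 0) (nat_lit 1) Rl.nil rfl rfl sc1_3 rln)) (stX (nat_lit 0) (nat_lit 0) (nat_lit 1) Rl.nil rfl rfl sc1_4 rln)) (stX (nat_lit 0) (nat_lit 0) (nat_lit 1) Rl.nil rfl rfl sc1_5 rln)) (stX (nat_lit 0) (nat_lit 0) (nat_lit 1) Rl.nil rfl rfl sc1_6 rln)) (stX (nat_lit 0) (nat_lit 0) (nat_lit 1) Rl.nil rfl rfl sc1_7 rln)) (stX (nat_lit 0) (nat_lit 0) (nat_lit 1) (Rl.cons (nat_lit 0)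 (nat_lit 22) Rl.nil) rfl rfl sc1_8 (rlc (starCk_zero _ _ _ _ _ _ _) rln))) (stX (nat_lit 0) (nat_lit 0) (nat_lit 1) Rl.nil rfl rfl sc1_9 rln)) (stX (nat_lit 0) (nat_lit 0) (nat_lit 1) Rl.nil rfl rfl sc1_10 rln)) (stX (nat_lit 0) (nat_lit 0) (nat_lit 1) Rl.nil rfl rfl sc1_11 rln)) (stX (nat_lit 0) (nat_lit 0) (nat_lit 1) Rl.nil rfl rfl sc1_12 rln))
theorem ct1 : TiS (nat_lit 7) (nat_lit 2) (nat_lit 1) (nat_lit 1) (nat_lit 15) (nat_lit 13) (nat_lit 1) CL1 :=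
  tiS ZZ1 (alS (alS (alS (alS (alS (alS (alS (alS (alS (alS (alS (alS (alS al0 tc1_0) tc1_1) tc1_2) tc1_3) tc1_4) tc1_5) tc1_6) tc1_7) tc1_8) tc1_9) tc1_10) tc1_11) tc1_12)
  (zzc ⟨(nat_lit 4), zl1_0, ti1_0⟩ zzn)
theorem cd : ∀ w < 13, deadCk (nat_lit 7) (nat_lit 2) (getC CL1 w) = true :=
  (alS (alS (alS (alS (alS (alS (alS (alS (alS (alS (alS (alS (alS al0 de1_0) de1_1) de1_2) de1_3) de1_4) de1_5) de1_6) de1_7) de1_8) de1_9) de1_10) de1_11) de1_12)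
theorem rc : recCk (recP 15 (1, 5, 12) 5 0 2).W 13 CL0 = true := by decide +kernel
theorem occ (O : OccL (recP 15 (1, 5, 12) 5 0 2) (locOK (Nat.testBit 5) (Nat.testBit 0) (Nat.testBit 2))) :
    False := by
  have k := first_stage O 1 (nlOK_A (by decide) (by decide)) rfl rfl rfl rfl rc cw0 cp
  have k := run_stage k rfl (nat_lit 1) (nat_lit 6) (nat_lit 2) (nat_lit 6) rfl cs0 ct0
  have k := next_stage k (nat_lit 7) (nat_lit 2) (nat_lit 9) (nat_lit 0) rfl rfl rfl rfl rfl vm1 cw1 cr1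
  have k := run_stage k rfl (nat_lit 2) (nat_lit 0) (nat_lit 1) (nat_lit 1) rfl cs1 ct1
  exact last_stage k rfl cd
theorem res : ∃ ok, OkP (1, 5, 12) ok ∧ IsEmpty (LTil (shP 15 (1, 5, 12) ok)) :=
  dead_P 5 0 2 (by decide +kernel) rc occ

end Pool.Agent.NNr.R15_1_5_12

namespace Pool.Agent.NNr.R15_3_7_20
open Pool.Agent.NNe Pool.Agent.NNc

theorem cw0 : ∀ w < 8, wfC (nat_lit 47) (nat_lit 8) (getC CL0 w) = true :=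
  (alS (alS (alS (alS (alS (alS (alS (alS al0 wf0_0) wf0_1) wf0_2) wf0_3) wf0_4) wf0_5) wf0_6) wf0_7)
theorem cp : ∀ w < 8, plCk (nat_lit 47) (nat_lit 8) (nat_lit 15) (nat_lit 5) (nat_lit 0) (nat_lit 2) (nat_lit 8) (nat_lit 4) w nl0 CL0 = true :=
  (alS (alS (alS (alS (alS (alS (alS (alS al0 pl0_0) pl0_1) pl0_2) pl0_3) pl0_4) pl0_5) pl0_6) pl0_7)
theorem cs0 : ∀ w < 8, StW (nat_lit 47) (nat_lit 8) (nat_lit 2) (nat_lit 3) (getC CL0 w) :=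
  (alS (alS (alS (alS (alS (alS (alS (alS al0 (stX (nat_lit 2) (nat_lit 0) (nat_lit 256) (Rl.cons (nat_lit 0) (nat_lit 6) Rl.nil) rfl rfl sc0_0 (rlc st0_0_0 rln))) (stX (nat_lit 0) (nat_lit 16) (nat_lit 1) (Rl.cons (nat_lit 16) (nat_lit 10) Rl.nil) rfl rfl sc0_1 (rlc st0_1_0 rln))) (stX (nat_lit 2) (nat_lit 45) (nat_lit 256) (Rl.cons (nat_lit 45) (nat_lit 9) Rl.nil) rfl rfl sc0_2 (rlc st0_2_0 rln))) (stX (nat_lit 0) (nat_lit 5) (nat_lit 1) (Rl.cons (nat_lit 5) (nat_lit 5) Rl.nil) rfl rfl sc0_3 (rlc st0_3_0 rln))) (stX (nat_lit 1) (nat_lit 11) (nat_lit 16) (Rl.cons (nat_lit 11) (nat_lit 4) Rl.nil) rfl rfl sc0_4 (rlc st0_4_0 rln))) (stX (nat_lit 1) (nat_lit 53) (nat_lit 16) (Rl.cons (nat_lit 53) (nat_lit 24) Rl.nil) rfl rfl sc0_5 (rlc st0_5_0 rln))) (stX (nat_lit 1) (nat_lit 45) (nat_lit 16) (Rl.cons (nat_lit 45) (nat_lit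 22) Rl.nil) rfl rfl sc0_6 (rlc st0_6_0 rln))) (stX (nat_lit 3) (nat_lit 31) (nat_lit 4096) (Rl.cons (nat_lit 31) (nat_lit 25) Rl.nil) rfl rfl sc0_7 (rlc st0_7_0 rln)))
theorem ct0 : TiS (nat_lit 47) (nat_lit 8) (nat_lit 1) (nat_lit 4) (nat_lit 15) (nat_lit 8) (nat_lit 1) CL0 :=
  tiS ZZ0 (alS (alS (alS (alS (alS (alS (alS (alS al0 tc0_0) tc0_1) tc0_2) tc0_3) tc0_4) tc0_5) tc0_6) tc0_7)
  (zzc ⟨(nat_lit 85), zl0_0, ti0_0⟩ zzn)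
theorem cw1 : ∀ w < 8, wfC (nat_lit 2) (nat_lit 2) (getC CL1 w) = true :=
  (alS (alS (alS (alS (alS (alS (alS (alS al0 wf1_0) wf1_1) wf1_2) wf1_3) wf1_4) wf1_5) wf1_6) wf1_7)
theorem cr1 : ∀ w < 8, rfCk (nat_lit 47) (nat_lit 8) (nat_lit 2) (nat_lit 2) (nat_lit 9) (nat_lit 0) w TL1 CL0 CL1 = true :=
  (alS (alS (alS (alS (alS (alS (alS (alS al0 rf1_0) rf1_1) rf1_2) rf1_3) rf1_4) rf1_5) rf1_6) rf1_7)
theorem vm1 : eqVM CL0 CL1 8 = true := by decide +kernel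
theorem cs1 : ∀ w < 8, StW (nat_lit 2) (nat_lit 2) (nat_lit 1) (nat_lit 1) (getC CL1 w) :=
  (alS (alS (alS (alS (alS (alS (alS (alS al0 (stX (nat_lit 2) (nat_lit 0) (nat_lit 256) Rl.nil rfl rfl sc1_0 rln)) (stX (nat_lit 0) (nat_lit 0) (nat_lit 1) Rl.nil rfl rfl sc1_1 rln)) (stX (nat_lit 0) (nat_lit 0) (nat_lit 1) Rl.nil rfl rfl sc1_2 rln)) (stX (nat_lit 0) (nat_lit 0) (nat_lit 1) Rl.nil rfl rfl sc1_3 rln)) (stX (nat_lit 0) (nat_lit 0) (nat_lit 1) Rl.nil rfl rfl sc1_4 rln)) (stX (nat_lit 0) (nat_lit 0) (nat_lit 1) Rl.nil rfl rfl sc1_5 rln)) (stX (nat_lit 0) (nat_lit 0) (nat_lit 1) Rl.nil rfl rfl sc1_6 rln)) (stX (nat_lit 3) (nat_lit 1) (nat_lit 4096) (Rl.cons (nat_lit 1) (nat_lit 1) Rl.nil) rfl rfl sc1_7 (rlc st1_7_0 rln)))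
theorem ct1 : TiS (nat_lit 2) (nat_lit 2) (nat_lit 2) (nat_lit 0) (nat_lit 15) (nat_lit 8) (nat_lit 1) CL1 :=
  tiS ZZ1 (alS (alS (alS (alS (alS (alS (alS (alS al0 tc1_0) tc1_1) tc1_2) tc1_3) tc1_4) tc1_5) tc1_6) tc1_7)
  (zzc ⟨(nat_lit 6), zl1_0, tileCk_zero _ _ _ _ _ _ _ _⟩ zzn)
theorem cd : ∀ w < 8, deadCk (nat_lit 2) (nat_lit 2) (getC CL1 w) = true :=
  (alS (alS (alS (alS (alS (alS (alS (alS al0 de1_0) de1_1) de1_2) de1_3) de1_4) de1_5) de1_6) de1_7)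
theorem rc : recCk (recP 15 (3, 7, 20) 5 0 2).W 8 CL0 = true := by decide +kernel
theorem occ (O : OccL (recP 15 (3, 7, 20) 5 0 2) (locOK (Nat.testBit 5) (Nat.testBit 0) (Nat.testBit 2))) :
    False := by
  have k := first_stage O 1 (nlOK_A (by decide) (by decide)) rfl rfl rfl rfl rc cw0 cp
  have k := run_stage k rfl (nat_lit 2) (nat_lit 3) (nat_lit 1) (nat_lit 4) rfl cs0 ct0
  have k := next_stage k (nat_lit 2) (nat_lit 2) (nat_lit 9) (nat_lit 0) rfl rfl rfl rfl rfl vm1 cw1 cr1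
  have k := run_stage k rfl (nat_lit 1) (nat_lit 1) (nat_lit 2) (nat_lit 0) rfl cs1 ct1
  exact last_stage k rfl cd
theorem res : ∃ ok, OkP (3, 7, 20) ok ∧ IsEmpty (LTil (shP 15 (3, 7, 20) ok)) :=
  dead_P 5 0 2 (by decide +kernel) rc occ

end Pool.Agent.NNr.R15_3_7_20
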